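import Pool.Agent.Lib.MP_dc7d7b_co.LS.Defs

set_option autoImplicit false

/-!
# Basic lemmas on cells
-/

namespace Pool.Agent.MP_dc7d7b.LS

open Finset

theorem mem_cells {k : ℕ} {K : Finset (Fin k)} {g ρ : Equiv.Perm (Fin k)} {e : Fin k × Fin k} :
    e ∈ cells K g ρ ↔ e.1 ∈ K ∧ ρ (g e.1) = e.2 := by
  unfold cells
  rw [Finset.mem_image]
  constructor
  · rintro ⟨i, hi, rfl⟩
    exact ⟨hi, rfl⟩
  · rintro ⟨h1, h2⟩
    exact ⟨e.1, h1, by rw [h2]⟩

theorem card_cells_inter {k : ℕ} (K : Finset (Fin k)) (g ρ : Equiv.Perm (Fin k)) (T : Finset (Fin k × Fin k)) :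
    (cells K g ρ ∩ T).card = ch K g ρ T := by
  unfold ch
  have h1 : cells K g ρ ∩ T = (K.filter (fun i => (i, ρ (g i)) ∈ T)).image (fun i => (i, ρ (g i))) := by
    ext e
    rw [Finset.mem_inter, mem_cells, Finset.mem_image]
    constructor
    · rintro ⟨⟨h1, h2⟩, h3⟩
      refine ⟨e.1, Finset.mem_filter.mpr ⟨h1, ?_⟩, ?_⟩
      · rw [h2]; exact h3
      · rw [h2]
    · rintro ⟨i, hi, rfl⟩
      rw [Finset.mem_filter] at hi
      exact ⟨⟨hi.1, rfl⟩, hi.2⟩
  rw [h1, Finset.card_image_of_injective]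
  intro i j h
  exact (Prod.mk.injEq _ _ _ _ ▸ h : i = j ∧ _).1

theorem ah_eq {k m : ℕ} (x : Al k m) (ρ : Equiv.Perm (Fin k)) (T : Finset (Fin k × Fin k)) :
    (cells (act x) x.1 ρ ∩ T).card = ah x ρ T := card_cells_inter _ _ _ _

theorem cells_subset {k : ℕ} {K K' : Finset (Fin k)} (h : K ⊆ K') (g ρ : Equiv.Perm (Fin k)) :
    cells K g ρ ⊆ cells K' g ρ := Finset.image_subset_image h

theorem ch_mono {k : ℕ} {K K' : Finset (Fin k)} (h : K ⊆ K') (g ρ : Equiv.Perm (Fin k))
    {T T' : Finset (Fin k × Fin k)} (hT : T ⊆ T') : ch K g ρ T ≤ ch K' g ρ T' := by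
  unfold ch
  refine Finset.card_le_card ?_
  intro i hi
  rw [Finset.mem_filter] at hi ⊢
  exact ⟨h hi.1, hT hi.2⟩

theorem ch_le {k : ℕ} (K : Finset (Fin k)) (g ρ : Equiv.Perm (Fin k)) (T : Finset (Fin k × Fin k)) :
    ch K g ρ T ≤ K.card := Finset.card_filter_le _ _

theorem ch_univ {k : ℕ} (K : Finset (Fin k)) (g ρ : Equiv.Perm (Fin k)) : ch K g ρ univ = K.card := by
  unfold ch
  simp

theorem card_rowl {k : ℕ} (i : Fin k) : (rowl i).card = k := by
  have h1 : rowl i = (univ : Finset (Fin k)).image (fun c => (i, c)) := by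
    ext e
    unfold rowl
    simp only [Finset.mem_filter, Finset.mem_univ, true_and, Finset.mem_image]
    constructor
    · intro h
      exact ⟨e.2, by rw [← h]⟩
    · rintro ⟨c, rfl⟩
      rfl
  rw [h1, Finset.card_image_of_injective _ (fun a b h => (Prod.mk.injEq _ _ _ _ ▸ h : _ ∧ a = b).2),
    Finset.card_univ, Fintype.card_fin]

theorem card_coll {k : ℕ} (c : Fin k) : (coll c).card = k := by
  have h1 : coll c = (univ : Finset (Fin k)).image (fun i => (i, c)) := by
    ext e
    unfold coll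
    simp only [Finset.mem_filter, Finset.mem_univ, true_and, Finset.mem_image]
    constructor
    · intro h
      exact ⟨e.1, by rw [← h]⟩
    · rintro ⟨c, rfl⟩
      rfl
  rw [h1, Finset.card_image_of_injective _ (fun a b h => (Prod.mk.injEq _ _ _ _ ▸ h : a = b ∧ _).1),
    Finset.card_univ, Fintype.card_fin]

theorem ch_rowl {k : ℕ} (K : Finset (Fin k)) (g ρ : Equiv.Perm (Fin k)) (i : Fin k) :
    ch K g ρ (rowl i) = if i ∈ K then 1 else 0 := by
  unfold ch rowl
  have h1 : K.filter (fun j => (j, ρ (g j)) ∈ univ.filter (fun e : Fin k × Fin k => e.1 = i)) =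
      if i ∈ K then {i} else ∅ := by
    ext j
    rw [Finset.mem_filter, Finset.mem_filter]
    split_ifs with h
    · rw [Finset.mem_singleton]
      constructor
      · rintro ⟨_, _, h3⟩; exact h3
      · rintro rfl; exact ⟨h, Finset.mem_univ _, rfl⟩
    · constructor
      · rintro ⟨h2, _, h3⟩
        simp only at h3
        exact absurd (h3 ▸ h2) h
      · intro h2
        exact absurd h2 (Finset.notMem_empty _)
  rw [h1]
  split_ifs
  · exact Finset.card_singleton _
  · exact Finset.card_empty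

theorem ch_coll {k : ℕ} (K : Finset (Fin k)) (g ρ : Equiv.Perm (Fin k)) (c : Fin k) :
    ch K g ρ (coll c) = if g.symm (ρ.symm c) ∈ K then 1 else 0 := by
  unfold ch coll
  have h1 : K.filter (fun j => (j, ρ (g j)) ∈ univ.filter (fun e : Fin k × Fin k => e.2 = c)) =
      if g.symm (ρ.symm c) ∈ K then {g.symm (ρ.symm c)} else ∅ := by
    ext j
    rw [Finset.mem_filter, Finset.mem_filter]
    split_ifs with h
    · rw [Finset.mem_singleton]
      constructor
      · rintro ⟨_, _, h3⟩
        simp only at h3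
        rw [← h3]; simp
      · rintro rfl; exact ⟨h, Finset.mem_univ _, by simp⟩
    · constructor
      · rintro ⟨h2, _, h3⟩
        simp only at h3
        refine absurd ?_ h
        rw [← h3]; simpa using h2
      · intro h2
        exact absurd h2 (Finset.notMem_empty _)
  rw [h1]
  split_ifs
  · exact Finset.card_singleton _
  · exact Finset.card_empty

section

variable {V : Type*} [Fintype V] [DecidableEq V] {k m : ℕ} (G : SimpleGraph V) [DecidableRel G.Adj] (V0 : Finset V)
  (ord : V → ℕ) (π : V → V → Equiv.Perm (Fin k))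

omit [Fintype V] in
/-- Blocked cells through `ρ`. -/
theorem mem_blkd {x : V → Al k m} {u : V} {ρ : Equiv.Perm (Fin k)} {e : Fin k × Fin k} :
    e ∈ blkd G V0 ord π x u ρ ↔ ∃ y ∈ prev G V0 ord u, e.1 ∈ act (x y) ∧ ρ (π y u ((x y).1 e.1)) = e.2 := by
  unfold blkd
  rw [Finset.mem_biUnion]
  simp only [mem_cells, Equiv.trans_apply]

omit [Fintype V] in
theorem mem_blkd_one {x : V → Al k m} {u : V} {ρ : Equiv.Perm (Fin k)} {i c : Fin k} :
    (i, ρ c) ∈ blkd G V0 ord π x u ρ ↔ (i, c) ∈ blkd G V0 ord π x u 1 := by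
  rw [mem_blkd, mem_blkd]
  simp only [EmbeddingLike.apply_eq_iff_eq, Equiv.Perm.coe_one, id_eq]

omit [Fintype V] in
/-- The kept cells in `T` are the active cells in `T` outside the blocked cells. -/
theorem ch_kept (x : V → Al k m) (u : V) (ρ : Equiv.Perm (Fin k)) (T : Finset (Fin k × Fin k)) :
    ch (kept G V0 ord π x u) (x u).1 ρ T = ah (x u) ρ (T \ blkd G V0 ord π x u ρ) := by
  unfold ah ch kept
  congr 1
  ext i
  rw [Finset.mem_filter, Finset.mem_filter, Finset.mem_filter, Finset.mem_sdiff, mem_blkd_one]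
  tauto

omit [Fintype V] in
theorem kept_subset (x : V → Al k m) (u : V) : kept G V0 ord π x u ⊆ act (x u) := Finset.filter_subset _ _

omit [Fintype V] in
theorem early_disjoint_prev (w v : V) : Disjoint (early G V0 ord w v) (prev G V0 ord v) := by
  rw [Finset.disjoint_left]
  intro y h1 h2
  unfold early at h1
  unfold prev nb0 at h2
  rw [Finset.mem_filter] at h1
  rw [Finset.mem_filter, Finset.mem_filter] at h2
  exact h1.2.2 h2.1.2

omit [Fintype V] in
theorem tr_prev {w v y : V} (h : y ∈ prev G V0 ord v) : tr G V0 ord π w v y = (π y v).trans (π v w) := if_pos h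

omit [Fintype V] in
theorem tr_early {w v y : V} (h : y ∈ early G V0 ord w v) : tr G V0 ord π w v y = π y w :=
  if_neg (fun h2 => (Finset.disjoint_left.mp (early_disjoint_prev G V0 ord w v)) h h2)

omit [Fintype V] in
theorem sav_nonneg (K : V → Finset (Fin k)) (g : V → Equiv.Perm (Fin k)) (w : V) (W : Finset (Fin k × Fin k)) :
    0 ≤ sav G V0 π K g w W := by
  unfold sav
  rw [sub_nonneg, Finset.biUnion_inter]
  exact_mod_cast Finset.card_biUnion_le

end

end Pool.Agent.MP_dc7d7b.LS
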