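import Pool.Agent.Lib.MP_dc7d7b_co.LS.Base

set_option autoImplicit false

/-!
# Module Blocked: the blocked cells of the next vertex

`nbp w` = the neighbours of `w` that matter: those in `V0` if `w ∈ V0`, all otherwise.
`blw w S f` = the cells blocked for `w`: the kept cells of all neighbours in `V0` and the cells in the other rows
of the neighbours in `S` (already processed).

PROOF.  `blw_le`: the first union has `∑ u ∈ nb0 w, |cells (K u) (g u) (π u w) ∩ W| - sav w W` elements in `W`, the second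
one at most `∑ x ∈ S.filter (G.Adj w ·), |cells (K x)ᶜ (f x) (π x w) ∩ W| = ∑ comp (K x) (f x) (π x w) W`.
`blw_line`: `W` is a row or a column.  Every `u ∈ nbp w` contributes at most one: if `u ∈ S` then `f u = g u` on
`K u` (`hS2`), so `ch (K u) (g u) _ W + comp (K u) (f u) _ W = ch univ (f u) _ W = 1` (`ch_rowl`, `ch_coll`), and if
`u ∉ S` it contributes `ch (K u) (g u) _ W ≤ 1`.  (`nb0 w ⊆ nbp w`, and `S.filter (G.Adj w ·) ⊆ nbp w` by `hS`.)
`avail_row`: for `i ∉ K w` the row `i` of `fboard (K w) (g w) 1` has `k - |K w|` cells; at most `|nbp w| - sav w (rowl i)`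
of them are blocked; `hrow` gives the bound.  `avail_col` the same.
-/

namespace Pool.Agent.MP_dc7d7b.LS

open Finset

variable {V : Type*} [Fintype V] [DecidableEq V] {k : ℕ} (G : SimpleGraph V) [DecidableRel G.Adj] (V0 : Finset V)
  (π : V → V → Equiv.Perm (Fin k)) (K : V → Finset (Fin k)) (g : V → Equiv.Perm (Fin k))

/-- The neighbours that matter. -/
def nbp (w : V) : Finset V := if w ∈ V0 then nb0 G V0 w else univ.filter (fun u => G.Adj w u)

/-- The blocked cells. -/
def blw (w : V) (S : Finset V) (f : V → Equiv.Perm (Fin k)) : Finset (Fin k × Fin k) :=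
  (nb0 G V0 w).biUnion (fun u => cells (K u) (g u) (π u w)) ∪
    (S.filter (fun x => G.Adj w x)).biUnion (fun x => cells (K x)ᶜ (f x) (π x w))

omit [Fintype V] [DecidableEq V] [DecidableRel G.Adj] in
private theorem Blocked_comp_eq (K : Finset (Fin k)) (σ ρ : Equiv.Perm (Fin k)) (W : Finset (Fin k × Fin k)) :
    comp K σ ρ W = ch Kᶜ σ ρ W := by
  unfold comp ch
  congr 1
  ext i
  simp only [Finset.mem_filter, Finset.mem_univ, true_and, Finset.mem_compl]

theorem blw_le (w : V) (S : Finset V) (f : V → Equiv.Perm (Fin k)) (W : Finset (Fin k × Fin k)) :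
    ((blw G V0 π K g w S f ∩ W).card : ℝ) ≤
      ∑ u ∈ nb0 G V0 w, ((cells (K u) (g u) (π u w) ∩ W).card : ℝ) - sav G V0 π K g w W +
        ∑ x ∈ S.filter (fun x => G.Adj w x), (comp (K x) (f x) (π x w) W : ℝ) := by
  have h1 : (blw G V0 π K g w S f ∩ W).card ≤
      (((nb0 G V0 w).biUnion (fun u => cells (K u) (g u) (π u w))) ∩ W).card +
      (((S.filter (fun x => G.Adj w x)).biUnion (fun x => cells (K x)ᶜ (f x) (π x w))) ∩ W).card := by
    unfold blw
    rw [Finset.union_inter_distrib_right]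
    exact Finset.card_union_le _ _
  have h2 : (((S.filter (fun x => G.Adj w x)).biUnion (fun x => cells (K x)ᶜ (f x) (π x w))) ∩ W).card ≤
      ∑ x ∈ S.filter (fun x => G.Adj w x), comp (K x) (f x) (π x w) W := by
    rw [Finset.biUnion_inter]
    refine le_trans Finset.card_biUnion_le (le_of_eq ?_)
    refine Finset.sum_congr rfl (fun x _ => ?_)
    rw [card_cells_inter, Blocked_comp_eq]
  have h3 : ((blw G V0 π K g w S f ∩ W).card : ℝ) ≤
      ((((nb0 G V0 w).biUnion (fun u => cells (K u) (g u) (π u w))) ∩ W).card : ℝ) +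
      ∑ x ∈ S.filter (fun x => G.Adj w x), (comp (K x) (f x) (π x w) W : ℝ) := by
    have h4 : (blw G V0 π K g w S f ∩ W).card ≤
      (((nb0 G V0 w).biUnion (fun u => cells (K u) (g u) (π u w))) ∩ W).card +
      ∑ x ∈ S.filter (fun x => G.Adj w x), comp (K x) (f x) (π x w) W := by omega
    exact_mod_cast h4
  unfold sav
  linarith


private theorem Blocked_nb0_sub (w : V) : nb0 G V0 w ⊆ nbp G V0 w := by
  unfold nbp
  split_ifs
  · exact Finset.Subset.refl _
  · intro u hu
    unfold nb0 at hu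
    rw [Finset.mem_filter] at hu
    exact Finset.mem_filter.mpr ⟨Finset.mem_univ _, hu.2⟩

private theorem Blocked_ch_add (K : Finset (Fin k)) (g f ρ : Equiv.Perm (Fin k)) (W : Finset (Fin k × Fin k))
    (hf : ∀ i ∈ K, f i = g i) : ch K g ρ W + comp K f ρ W = ch univ f ρ W := by
  have h1 : ch K g ρ W = ch K f ρ W := by
    unfold ch
    congr 1
    refine Finset.filter_congr (fun i hi => ?_)
    rw [hf i hi]
  rw [h1]
  unfold ch comp
  have h2 : univ.filter (fun i => i ∉ K ∧ (i, ρ (f i)) ∈ W) =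
      (univ.filter (fun i => (i, ρ (f i)) ∈ W)).filter (fun i => ¬ (i ∈ K)) := by
    ext i
    simp only [Finset.mem_filter, Finset.mem_univ, true_and]
    tauto
  have h3 : K.filter (fun i => (i, ρ (f i)) ∈ W) =
      (univ.filter (fun i => (i, ρ (f i)) ∈ W)).filter (fun i => i ∈ K) := by
    ext i
    simp only [Finset.mem_filter, Finset.mem_univ, true_and]
    tauto
  rw [h2, h3]
  exact Finset.card_filter_add_card_filter_not _

private theorem Blocked_line (w : V) (S : Finset V) (f : V → Equiv.Perm (Fin k))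
    (hS : S.filter (fun x => G.Adj w x) ⊆ nbp G V0 w) (hS2 : ∀ x ∈ S, ∀ i ∈ K x, f x i = g x i)
    (W : Finset (Fin k × Fin k)) (hW : ∀ (K : Finset (Fin k)) (g ρ : Equiv.Perm (Fin k)), ch K g ρ W ≤ 1) :
    ((blw G V0 π K g w S f ∩ W).card : ℝ) ≤ (nbp G V0 w).card - sav G V0 π K g w W := by
  refine le_trans (blw_le G V0 π K g w S f W) ?_
  have h1 : ∑ u ∈ nb0 G V0 w, (cells (K u) (g u) (π u w) ∩ W).card ≤
      ∑ u ∈ nbp G V0 w, ch (K u) (g u) (π u w) W := by
    have h11 : ∑ u ∈ nb0 G V0 w, (cells (K u) (g u) (π u w) ∩ W).card =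
        ∑ u ∈ nb0 G V0 w, ch (K u) (g u) (π u w) W :=
      Finset.sum_congr rfl (fun u _ => card_cells_inter _ _ _ _)
    rw [h11]
    exact Finset.sum_le_sum_of_subset (Blocked_nb0_sub G V0 w)
  have h2 : ∑ x ∈ S.filter (fun x => G.Adj w x), comp (K x) (f x) (π x w) W =
      ∑ x ∈ nbp G V0 w, if x ∈ S.filter (fun x => G.Adj w x) then comp (K x) (f x) (π x w) W else 0 := by
    rw [← Finset.sum_filter, Finset.filter_mem_eq_inter, Finset.inter_eq_right.mpr hS]
  have h3 : ∑ u ∈ nbp G V0 w, ch (K u) (g u) (π u w) W +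
      (∑ x ∈ nbp G V0 w, if x ∈ S.filter (fun x => G.Adj w x) then comp (K x) (f x) (π x w) W else 0) ≤
      (nbp G V0 w).card := by
    rw [← Finset.sum_add_distrib, Finset.card_eq_sum_ones]
    refine Finset.sum_le_sum (fun u _ => ?_)
    split_ifs with hu
    · rw [Blocked_ch_add (K u) (g u) (f u) (π u w) W (hS2 u (Finset.mem_filter.mp hu).1)]
      exact hW _ _ _
    · rw [add_zero]
      exact hW _ _ _
  have h4 : ∑ u ∈ nb0 G V0 w, (cells (K u) (g u) (π u w) ∩ W).card +
      ∑ x ∈ S.filter (fun x => G.Adj w x), comp (K x) (f x) (π x w) W ≤ (nbp G V0 w).card := by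
    rw [h2]
    exact le_trans (Nat.add_le_add_right h1 _) h3
  have h5 : ∑ u ∈ nb0 G V0 w, ((cells (K u) (g u) (π u w) ∩ W).card : ℝ) +
      ∑ x ∈ S.filter (fun x => G.Adj w x), (comp (K x) (f x) (π x w) W : ℝ) ≤ ((nbp G V0 w).card : ℝ) := by
    exact_mod_cast h4
  linarith

theorem blw_row (w : V) (S : Finset V) (f : V → Equiv.Perm (Fin k))
    (hS : S.filter (fun x => G.Adj w x) ⊆ nbp G V0 w) (hS2 : ∀ x ∈ S, ∀ i ∈ K x, f x i = g x i) (i : Fin k) :
    ((blw G V0 π K g w S f ∩ rowl i).card : ℝ) ≤ (nbp G V0 w).card - sav G V0 π K g w (rowl i) := by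
  refine Blocked_line G V0 π K g w S f hS hS2 (rowl i) (fun K g ρ => ?_)
  rw [ch_rowl]
  split_ifs
  · exact le_refl _
  · exact Nat.zero_le _

theorem blw_col (w : V) (S : Finset V) (f : V → Equiv.Perm (Fin k))
    (hS : S.filter (fun x => G.Adj w x) ⊆ nbp G V0 w) (hS2 : ∀ x ∈ S, ∀ i ∈ K x, f x i = g x i) (c : Fin k) :
    ((blw G V0 π K g w S f ∩ coll c).card : ℝ) ≤ (nbp G V0 w).card - sav G V0 π K g w (coll c) := by
  refine Blocked_line G V0 π K g w S f hS hS2 (coll c) (fun K g ρ => ?_)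
  rw [ch_coll]
  split_ifs
  · exact le_refl _
  · exact Nat.zero_le _

theorem avail_row (w : V) (S : Finset V) (f : V → Equiv.Perm (Fin k))
    (hS : S.filter (fun x => G.Adj w x) ⊆ nbp G V0 w) (hS2 : ∀ x ∈ S, ∀ i ∈ K x, f x i = g x i) (ζ : ℝ)
    (i : Fin k) (hi : i ∉ K w)
    (hrow : ((nbp G V0 w).card : ℝ) + ζ * k ≤ (k : ℝ) - (K w).card + sav G V0 π K g w (rowl i)) :
    ζ * k ≤ ((univ.filter (fun c => (i, c) ∈ fboard (K w) (g w) 1 \ blw G V0 π K g w S f)).card : ℝ) := by
  have h1 := blw_row G V0 π K g w S f hS hS2 i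
  have h2 : (univ.filter (fun c => (i, c) ∈ fboard (K w) (g w) 1)).card = k - (K w).card := by
    have h21 : univ.filter (fun c => (i, c) ∈ fboard (K w) (g w) 1) = ((K w).map (g w).toEmbedding)ᶜ := by
      ext c
      unfold fboard
      simp only [Finset.mem_filter, Finset.mem_univ, true_and, Finset.mem_compl, Finset.mem_map_equiv]
      exact ⟨fun h => h.2, fun h => ⟨hi, h⟩⟩
    rw [h21, Finset.card_compl, Fintype.card_fin, Finset.card_map]
  have h3 : (univ.filter (fun c => (i, c) ∈ blw G V0 π K g w S f)).card ≤ (blw G V0 π K g w S f ∩ rowl i).card := by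
    refine Finset.card_le_card_of_injOn (fun c => (i, c)) ?_ ?_
    · intro c hc
      have hc' := (Finset.mem_filter.mp (Finset.mem_coe.mp hc)).2
      refine Finset.mem_coe.mpr (Finset.mem_inter.mpr ⟨hc', ?_⟩)
      unfold rowl
      exact Finset.mem_filter.mpr ⟨Finset.mem_univ _, rfl⟩
    · intro a _ b _ h
      exact (Prod.mk.injEq _ _ _ _ ▸ h : _ ∧ a = b).2
  have h4 : (univ.filter (fun c => (i, c) ∈ fboard (K w) (g w) 1)).card ≤
      (univ.filter (fun c => (i, c) ∈ fboard (K w) (g w) 1 \ blw G V0 π K g w S f)).card +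
      (univ.filter (fun c => (i, c) ∈ blw G V0 π K g w S f)).card := by
    refine le_trans (Finset.card_le_card ?_) (Finset.card_union_le _ _)
    intro c hc
    rw [Finset.mem_filter] at hc
    rw [Finset.mem_union, Finset.mem_filter, Finset.mem_filter, Finset.mem_sdiff]
    by_cases h : (i, c) ∈ blw G V0 π K g w S f
    · right
      exact ⟨hc.1, h⟩
    · left
      exact ⟨hc.1, hc.2, h⟩
  have h5 : (K w).card ≤ k := by
    refine le_trans (Finset.card_le_univ _) (le_of_eq (Fintype.card_fin k))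
  have h6 : (k : ℝ) ≤ ((univ.filter (fun c => (i, c) ∈ fboard (K w) (g w) 1 \ blw G V0 π K g w S f)).card : ℝ) +
      ((blw G V0 π K g w S f ∩ rowl i).card : ℝ) + ((K w).card : ℝ) := by
    have h61 : k ≤ (univ.filter (fun c => (i, c) ∈ fboard (K w) (g w) 1 \ blw G V0 π K g w S f)).card +
      (blw G V0 π K g w S f ∩ rowl i).card + (K w).card := by omega
    exact_mod_cast h61
  linarith

theorem avail_col (w : V) (S : Finset V) (f : V → Equiv.Perm (Fin k))
    (hS : S.filter (fun x => G.Adj w x) ⊆ nbp G V0 w) (hS2 : ∀ x ∈ S, ∀ i ∈ K x, f x i = g x i) (ζ : ℝ)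
    (c : Fin k) (hc : (g w).symm c ∉ K w)
    (hcol : ((nbp G V0 w).card : ℝ) + ζ * k ≤ (k : ℝ) - (K w).card + sav G V0 π K g w (coll c)) :
    ζ * k ≤ ((univ.filter (fun i => (i, c) ∈ fboard (K w) (g w) 1 \ blw G V0 π K g w S f)).card : ℝ) := by
  have h1 := blw_col G V0 π K g w S f hS hS2 c
  have h2 : (univ.filter (fun i => (i, c) ∈ fboard (K w) (g w) 1)).card = k - (K w).card := by
    have h21 : univ.filter (fun i => (i, c) ∈ fboard (K w) (g w) 1) = (K w)ᶜ := by
      ext i
      unfold fboard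
      simp only [Finset.mem_filter, Finset.mem_univ, true_and, Finset.mem_compl]
      exact ⟨fun h => h.1, fun h => ⟨h, hc⟩⟩
    rw [h21, Finset.card_compl, Fintype.card_fin]
  have h3 : (univ.filter (fun i => (i, c) ∈ blw G V0 π K g w S f)).card ≤ (blw G V0 π K g w S f ∩ coll c).card := by
    refine Finset.card_le_card_of_injOn (fun i => (i, c)) ?_ ?_
    · intro i hi
      have hi' := (Finset.mem_filter.mp (Finset.mem_coe.mp hi)).2
      refine Finset.mem_coe.mpr (Finset.mem_inter.mpr ⟨hi', ?_⟩)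
      unfold coll
      exact Finset.mem_filter.mpr ⟨Finset.mem_univ _, rfl⟩
    · intro a _ b _ h
      exact (Prod.mk.injEq _ _ _ _ ▸ h : a = b ∧ _).1
  have h4 : (univ.filter (fun i => (i, c) ∈ fboard (K w) (g w) 1)).card ≤
      (univ.filter (fun i => (i, c) ∈ fboard (K w) (g w) 1 \ blw G V0 π K g w S f)).card +
      (univ.filter (fun i => (i, c) ∈ blw G V0 π K g w S f)).card := by
    refine le_trans (Finset.card_le_card ?_) (Finset.card_union_le _ _)
    intro i hi
    rw [Finset.mem_filter] at hi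
    rw [Finset.mem_union, Finset.mem_filter, Finset.mem_filter, Finset.mem_sdiff]
    by_cases h : (i, c) ∈ blw G V0 π K g w S f
    · right
      exact ⟨hi.1, h⟩
    · left
      exact ⟨hi.1, hi.2, h⟩
  have h5 : (K w).card ≤ k := by
    refine le_trans (Finset.card_le_univ _) (le_of_eq (Fintype.card_fin k))
  have h6 : (k : ℝ) ≤ ((univ.filter (fun i => (i, c) ∈ fboard (K w) (g w) 1 \ blw G V0 π K g w S f)).card : ℝ) +
      ((blw G V0 π K g w S f ∩ coll c).card : ℝ) + ((K w).card : ℝ) := by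
    have h61 : k ≤ (univ.filter (fun i => (i, c) ∈ fboard (K w) (g w) 1 \ blw G V0 π K g w S f)).card +
      (blw G V0 π K g w S f ∩ coll c).card + (K w).card := by omega
    exact_mod_cast h61
  linarith

end Pool.Agent.MP_dc7d7b.LS
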