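import Pool.Agent.Lib.MP_dc7d7b_co.LS.Base

set_option autoImplicit false

/-!
# Module DetBox: the box count of one vertex

Notation: `q = 1 / m`, `W = tyset t`, `t = ((a, b), B)`, `A_α` = number of rows of type `α`, `B_β` = number of columns
of type `β`, `K` = the active rows `i` with `(i, ρ (x.1 i)) ∉ Bl`, `κ = |K|`, `K_α` = number of rows of `K` of type
`α`, `K^β` = number of rows `i` of `K` with `ρ (x.1 i)` of type `β`, `κ_W` = number of `i ∈ K` with
`(i, ρ (x.1 i)) ∈ W`, `d = dv x ρ Bl t`, `p = q (1 - q n / k - ε)`, `γ = q (ε + 9 q² + 3 ε₂)`.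
Note `ah x ρ (T \ Bl) = #{i ∈ K | (i, ρ (x.1 i)) ∈ T}`, so `K_α`, `K^β`, `κ_W`, `κ` are the values of
`ah x ρ (T \ Bl)` for `T = rowT t α, colT t β, W, univ`.  `0 ≤ p ≤ q ≤ 1/3`.

PROOF.
(1) `|rowT t α \ Bl| ≥ A_α (k - q n - ε k)` by `hrow` (sum over the rows of type `α`), so `K_α ≥ p A_α - d`; the same
for columns: `K^β ≥ p B_β - d`.
(2) `|univ \ Bl| = k² - |Bl| ≤ k² - q n k + 9 q² k² + 3 ε₂ k²` by `hall`, so `κ ≤ q |univ \ Bl| / k + d ≤ k (p + γ) + d`.
(3) `|W \ Bl| ≤ |W| - q n |W| / k + 9 q² |W| + 3 ε₂ k²` by `hW`, so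
`κ_W ≤ (|W| / k) (p + γ) + 3 q ε₂ k + d`.
(4) `F = |fboard K x.1 ρ ∩ W| = ∑ (α, β) ∈ B, (A_α - K_α) (B_β - K^β)` (a cell `(i, c)` is in `fboard` iff `i ∉ K`
and `c` is not `ρ (x.1 j)` with `j ∈ K`).  For numbers `0 ≤ X ≤ A`, `X ≤ (1 - p) A + d`, `0 ≤ Y ≤ B`, `Y ≤ (1 - p) B + d`:
`X Y ≤ (1 - p)² A B + d (A + B)`.  So `F ≤ (1 - p)² |W| + 2 P k d` (`∑ (α, β) ∈ B, A_α ≤ P ∑ α, A_α = P k`).
(5) `r = k - κ`, `r ≥ k / 2` and `r ≥ k (1 - p - γ) - d`, `1 - p ≥ 1/2`:
`F / r = F / ((1 - p) k) + F ((1 - p) k - r) / (r (1 - p) k) ≤ F / ((1 - p) k) + |W| (γ k + d) * 4 / k²`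
(`F ≤ |W| ≤ k²`) `≤ (1 - p) |W| / k + 4 P d + 4 γ |W| / k + 4 d`.
(6) Add (3) and (5): `zz ≤ |W| / k + 5 γ |W| / k + 3 q ε₂ k + (5 + 4 P) d`.
(`|cells K x.1 ρ ∩ W| = κ_W` by `card_cells_inter`.)
-/

namespace Pool.Agent.MP_dc7d7b.LS

open Finset

/-- The rows (or columns) of type `α`. -/
private def tR {k P : ℕ} (a : Fin k → Fin P) (α : Fin P) : Finset (Fin k) := univ.filter (fun i => a i = α)

private theorem DB_ah {k m : ℕ} (x : Al k m) (ρ : Equiv.Perm (Fin k)) (Bl T : Finset (Fin k × Fin k)) :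
    ah x ρ (T \ Bl) = ch ((act x).filter (fun i => (i, ρ (x.1 i)) ∉ Bl)) x.1 ρ T := by
  unfold ah ch
  congr 1
  ext i
  simp only [mem_filter, mem_sdiff]
  tauto

private theorem DB_row {k P : ℕ} (Bl : Finset (Fin k × Fin k)) (t : Ty k P) (z : ℝ)
    (hrow : ∀ i, ((Bl ∩ rowl i).card : ℝ) ≤ z) (α : Fin P) :
    ((tR t.1.1 α).card : ℝ) * (k - z) ≤ ((rowT t α \ Bl).card : ℝ) := by
  have h1 : (rowT t α).card = (tR t.1.1 α).card * k := by
    have : rowT t α = tR t.1.1 α ×ˢ (univ : Finset (Fin k)) := by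
      ext e
      simp only [rowT, tR, mem_filter, mem_univ, true_and, mem_product, and_true]
    rw [this, card_product, card_univ, Fintype.card_fin]
  have h2 : rowT t α ∩ Bl ⊆ (tR t.1.1 α).biUnion (fun i => Bl ∩ rowl i) := by
    intro e he
    rw [mem_inter] at he
    rw [mem_biUnion]
    refine ⟨e.1, ?_, ?_⟩
    · have := he.1
      simp only [rowT, mem_filter, mem_univ, true_and] at this
      simp only [tR, mem_filter, mem_univ, true_and]
      exact this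
    · rw [mem_inter]
      refine ⟨he.2, ?_⟩
      simp only [rowl, mem_filter, mem_univ, true_and]
  have h3 : ((rowT t α ∩ Bl).card : ℝ) ≤ (tR t.1.1 α).card * z := by
    calc ((rowT t α ∩ Bl).card : ℝ) ≤ (((tR t.1.1 α).biUnion (fun i => Bl ∩ rowl i)).card : ℝ) := by
          exact_mod_cast card_le_card h2
      _ ≤ ((∑ i ∈ tR t.1.1 α, (Bl ∩ rowl i).card : ℕ) : ℝ) := by exact_mod_cast card_biUnion_le
      _ = ∑ i ∈ tR t.1.1 α, ((Bl ∩ rowl i).card : ℝ) := by push_cast; rfl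
      _ ≤ ∑ _i ∈ tR t.1.1 α, z := sum_le_sum fun i _ => hrow i
      _ = (tR t.1.1 α).card * z := by rw [sum_const, nsmul_eq_mul]
  have h4 : ((rowT t α \ Bl).card : ℝ) + ((rowT t α ∩ Bl).card : ℝ) = ((rowT t α).card : ℝ) := by
    exact_mod_cast card_sdiff_add_card_inter _ _
  rw [h1] at h4
  push_cast at h4
  linarith

private theorem DB_col {k P : ℕ} (Bl : Finset (Fin k × Fin k)) (t : Ty k P) (z : ℝ)
    (hcol : ∀ c, ((Bl ∩ coll c).card : ℝ) ≤ z) (β : Fin P) :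
    ((tR t.1.2 β).card : ℝ) * (k - z) ≤ ((colT t β \ Bl).card : ℝ) := by
  have h1 : (colT t β).card = (tR t.1.2 β).card * k := by
    have : colT t β = (univ : Finset (Fin k)) ×ˢ tR t.1.2 β := by
      ext e
      simp only [colT, tR, mem_filter, mem_univ, true_and, mem_product]
    rw [this, card_product, card_univ, Fintype.card_fin, mul_comm]
  have h2 : colT t β ∩ Bl ⊆ (tR t.1.2 β).biUnion (fun i => Bl ∩ coll i) := by
    intro e he
    rw [mem_inter] at he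
    rw [mem_biUnion]
    refine ⟨e.2, ?_, ?_⟩
    · have := he.1
      simp only [colT, mem_filter, mem_univ, true_and] at this
      simp only [tR, mem_filter, mem_univ, true_and]
      exact this
    · rw [mem_inter]
      refine ⟨he.2, ?_⟩
      simp only [coll, mem_filter, mem_univ, true_and]
  have h3 : ((colT t β ∩ Bl).card : ℝ) ≤ (tR t.1.2 β).card * z := by
    calc ((colT t β ∩ Bl).card : ℝ) ≤ (((tR t.1.2 β).biUnion (fun i => Bl ∩ coll i)).card : ℝ) := by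
          exact_mod_cast card_le_card h2
      _ ≤ ((∑ i ∈ tR t.1.2 β, (Bl ∩ coll i).card : ℕ) : ℝ) := by exact_mod_cast card_biUnion_le
      _ = ∑ i ∈ tR t.1.2 β, ((Bl ∩ coll i).card : ℝ) := by push_cast; rfl
      _ ≤ ∑ _i ∈ tR t.1.2 β, z := sum_le_sum fun i _ => hcol i
      _ = (tR t.1.2 β).card * z := by rw [sum_const, nsmul_eq_mul]
  have h4 : ((colT t β \ Bl).card : ℝ) + ((colT t β ∩ Bl).card : ℝ) = ((colT t β).card : ℝ) := by
    exact_mod_cast card_sdiff_add_card_inter _ _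
  rw [h1] at h4
  push_cast at h4
  linarith

private theorem DB_W {k P : ℕ} (t : Ty k P) :
    (tyset t).card = ∑ p ∈ t.2, (tR t.1.1 p.1).card * (tR t.1.2 p.2).card := by
  rw [card_eq_sum_card_fiberwise (f := fun e => (t.1.1 e.1, t.1.2 e.2)) (t := t.2)]
  · refine sum_congr rfl fun p hp => ?_
    rw [← card_product]
    congr 1
    ext e
    simp only [tyset, blk, tR, mem_filter, mem_univ, true_and, mem_product, Prod.ext_iff]
    constructor
    · rintro ⟨_, h⟩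
      exact h
    · rintro h
      refine ⟨?_, h⟩
      rw [show (t.1.1 e.1, t.1.2 e.2) = p from Prod.ext h.1 h.2]
      exact hp
  · intro e he
    have := mem_coe.mp he
    simp only [tyset, blk, mem_filter, mem_univ, true_and] at this
    exact this

private theorem DB_F {k P : ℕ} (K : Finset (Fin k)) (g ρ : Equiv.Perm (Fin k)) (t : Ty k P) :
    (fboard K g ρ ∩ tyset t).card = ∑ p ∈ t.2, (univ.filter (fun i => i ∉ K ∧ t.1.1 i = p.1)).card *
      (univ.filter (fun c => g.symm (ρ.symm c) ∉ K ∧ t.1.2 c = p.2)).card := by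
  rw [card_eq_sum_card_fiberwise (f := fun e => (t.1.1 e.1, t.1.2 e.2)) (t := t.2)]
  · refine sum_congr rfl fun p hp => ?_
    rw [← card_product]
    congr 1
    ext e
    simp only [fboard, tyset, blk, mem_inter, mem_filter, mem_univ, true_and, mem_product, Prod.ext_iff]
    constructor
    · rintro ⟨⟨⟨h1, h2⟩, _⟩, h3, h4⟩
      exact ⟨⟨h1, h3⟩, h2, h4⟩
    · rintro ⟨⟨h1, h3⟩, h2, h4⟩
      refine ⟨⟨⟨h1, h2⟩, ?_⟩, h3, h4⟩
      rw [show (t.1.1 e.1, t.1.2 e.2) = p from Prod.ext h3 h4]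
      exact hp
  · intro e he
    have := mem_coe.mp he
    simp only [fboard, tyset, blk, mem_inter, mem_filter, mem_univ, true_and] at this
    exact this.2

private theorem DB_RF {k P : ℕ} (K : Finset (Fin k)) (g ρ : Equiv.Perm (Fin k)) (t : Ty k P) (α : Fin P) :
    (univ.filter (fun i => i ∉ K ∧ t.1.1 i = α)).card + ch K g ρ (rowT t α) = (tR t.1.1 α).card := by
  unfold ch tR
  rw [← card_union_of_disjoint]
  · congr 1
    ext i
    simp only [rowT, mem_union, mem_filter, mem_univ, true_and]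
    tauto
  · rw [disjoint_left]
    intro i h1 h2
    rw [mem_filter] at h1 h2
    exact h1.2.1 h2.1

private theorem DB_CF {k P : ℕ} (K : Finset (Fin k)) (g ρ : Equiv.Perm (Fin k)) (t : Ty k P) (β : Fin P) :
    (univ.filter (fun c => g.symm (ρ.symm c) ∉ K ∧ t.1.2 c = β)).card + ch K g ρ (colT t β) =
      (tR t.1.2 β).card := by
  have h1 : ch K g ρ (colT t β) = (univ.filter (fun c => g.symm (ρ.symm c) ∈ K ∧ t.1.2 c = β)).card := by
    unfold ch
    refine card_bij (fun i _ => ρ (g i)) ?_ ?_ ?_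
    · intro i hi
      simp only [colT, mem_filter, mem_univ, true_and] at hi ⊢
      rw [Equiv.symm_apply_apply, Equiv.symm_apply_apply]
      exact hi
    · intro i _ j _ hij
      exact g.injective (ρ.injective hij)
    · intro c hc
      simp only [mem_filter, mem_univ, true_and] at hc
      refine ⟨g.symm (ρ.symm c), ?_, ?_⟩
      · simp only [colT, mem_filter, mem_univ, true_and]
        rw [Equiv.apply_symm_apply, Equiv.apply_symm_apply]
        exact hc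
      · rw [Equiv.apply_symm_apply, Equiv.apply_symm_apply]
  rw [h1]
  unfold tR
  rw [← card_union_of_disjoint]
  · congr 1
    ext i
    simp only [mem_union, mem_filter, mem_univ, true_and]
    tauto
  · rw [disjoint_left]
    intro i h1 h2
    rw [mem_filter] at h1 h2
    exact h1.2.1 h2.2.1

private theorem DB_real (k p γ d w F κ κW e P : ℝ) (hk : 0 < k) (hp0 : 0 ≤ p) (hp1 : p ≤ 1 / 2) (hγ : 0 ≤ γ)
    (hd : 0 ≤ d) (hw0 : 0 ≤ w) (hw : w ≤ k ^ 2) (hP : 0 ≤ P) (hF : F ≤ (1 - p) ^ 2 * w + 2 * P * k * d)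
    (hκ : κ ≤ k * (p + γ) + d) (hκ2 : 2 * κ ≤ k) (hκW : κW ≤ w / k * (p + γ) + e + d) :
    κW + F / (k - κ) ≤ w / k + 5 * γ * (w / k) + e + (5 + 4 * P) * d := by
  have hr : k / 2 ≤ k - κ := by linarith
  have hr0 : 0 < k - κ := by linarith
  have hr2 : (1 - p - γ) * k - d ≤ k - κ := by nlinarith
  obtain ⟨r, hrd⟩ : ∃ r, r = k - κ := ⟨_, rfl⟩
  rw [← hrd] at hr hr0 hr2 ⊢
  obtain ⟨v, hv⟩ : ∃ v, v = w / k := ⟨_, rfl⟩
  have hv0 : 0 ≤ v := by rw [hv]; positivity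
  have hwv : w = v * k := by rw [hv]; field_simp
  have hvk : v ≤ k := by
    rw [hv, div_le_iff₀ hk]
    nlinarith
  rw [← hv] at hκW ⊢
  have h1p : 0 ≤ 1 - p := by linarith
  have hFr : F / r ≤ (1 - p) * v + 4 * P * d + 4 * γ * v + 4 * d := by
    rw [div_le_iff₀ hr0]
    refine hF.trans ?_
    have e1 : (1 - p) * v * ((1 - p - γ) * k - d) ≤ (1 - p) * v * r :=
      mul_le_mul_of_nonneg_left hr2 (by positivity)
    have e2 : 4 * P * d * (k / 2) ≤ 4 * P * d * r := mul_le_mul_of_nonneg_left hr (by positivity)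
    have e3 : 4 * γ * v * (k / 2) ≤ 4 * γ * v * r := mul_le_mul_of_nonneg_left hr (by positivity)
    have e4 : 4 * d * (k / 2) ≤ 4 * d * r := mul_le_mul_of_nonneg_left hr (by positivity)
    have e5 : (1 - p) * v * (γ * k) ≤ 1 * v * (γ * k) := by
      apply mul_le_mul_of_nonneg_right _ (by positivity)
      apply mul_le_mul_of_nonneg_right _ hv0
      linarith
    have e6 : (1 - p) * v * d ≤ 1 * k * d := by
      apply mul_le_mul_of_nonneg_right _ hd
      apply mul_le_mul (by linarith) hvk hv0 (by norm_num)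
    have e7 : 0 ≤ γ * v * k := by positivity
    have e8 : 0 ≤ d * k := by positivity
    rw [hwv]
    nlinarith
  nlinarith

theorem det_box {k m P : ℕ} (hk : 0 < k) (hm : 3 ≤ m) (x : Al k m) (ρ : Equiv.Perm (Fin k))
    (Bl : Finset (Fin k × Fin k)) (t : Ty k P) (n ε ε₂ : ℝ) (hn : 0 ≤ n) (hnk : n ≤ 4 / 3 * k) (hε : 0 ≤ ε)
    (hε1 : ε ≤ 1 / 2) (hε₂ : 0 ≤ ε₂)
    (hrow : ∀ i, ((Bl ∩ rowl i).card : ℝ) ≤ n / m + ε * k) (hcol : ∀ c, ((Bl ∩ coll c).card : ℝ) ≤ n / m + ε * k)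
    (hW : n * ((tyset t).card / (m * k)) - 9 / m ^ 2 * (tyset t).card - 3 * (ε₂ * k ^ 2) ≤
      ((Bl ∩ tyset t).card : ℝ))
    (hall : n * ((k : ℝ) ^ 2 / (m * k)) - 9 / m ^ 2 * (k : ℝ) ^ 2 - 3 * (ε₂ * k ^ 2) ≤ (Bl.card : ℝ))
    (hK : 2 * ((act x).filter (fun i => (i, ρ (x.1 i)) ∉ Bl)).card ≤ k) :
    zz ((act x).filter (fun i => (i, ρ (x.1 i)) ∉ Bl)) x.1 ρ (tyset t) ≤
      (tyset t).card / k + 5 * (1 / m * (ε + 9 / m ^ 2 + 3 * ε₂)) * ((tyset t).card / k) + 3 / m * (ε₂ * k) +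
        (5 + 4 * P) * dv x ρ Bl t := by
  obtain ⟨K, hKd⟩ : ∃ K, K = (act x).filter (fun i => (i, ρ (x.1 i)) ∉ Bl) := ⟨_, rfl⟩
  obtain ⟨d, hd⟩ : ∃ d, d = dv x ρ Bl t := ⟨_, rfl⟩
  obtain ⟨w, hw⟩ : ∃ w : ℝ, w = ((tyset t).card : ℝ) := ⟨_, rfl⟩
  have hkr : (0 : ℝ) < k := by exact_mod_cast hk
  have hmr : (3 : ℝ) ≤ m := by exact_mod_cast hm
  have hm0 : (0 : ℝ) < m := by linarith
  have hah : ∀ T, ah x ρ (T \ Bl) = ch K x.1 ρ T := fun T => by rw [hKd]; exact DB_ah x ρ Bl T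
  obtain ⟨q, hq⟩ : ∃ q : ℝ, q = 1 / m := ⟨_, rfl⟩
  have hq0 : 0 < q := by rw [hq]; positivity
  have hq3 : q ≤ 1 / 3 := by
    rw [hq]
    exact one_div_le_one_div_of_le (by norm_num) hmr
  obtain ⟨p, hp⟩ : ∃ p : ℝ, p = q * (1 - q * n / k - ε) := ⟨_, rfl⟩
  obtain ⟨γ, hγ⟩ : ∃ γ : ℝ, γ = q * (ε + 9 * q ^ 2 + 3 * ε₂) := ⟨_, rfl⟩
  have hnk0 : 0 ≤ q * n / k := by positivity
  have hnk1 : q * n / k ≤ 4 / 9 := by
    rw [div_le_iff₀ hkr]
    calc q * n ≤ 1 / 3 * (4 / 3 * k) := mul_le_mul hq3 hnk hn (by norm_num)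
      _ = 4 / 9 * k := by ring
  have hp0 : 0 ≤ p := by
    rw [hp]
    apply mul_nonneg hq0.le
    linarith
  have hpq : p ≤ q := by
    rw [hp]
    have : 1 - q * n / k - ε ≤ 1 := by linarith
    calc q * (1 - q * n / k - ε) ≤ q * 1 := mul_le_mul_of_nonneg_left this hq0.le
      _ = q := mul_one q
  have hγ0 : 0 ≤ γ := by rw [hγ]; positivity
  have hpγ : p + γ = q * (1 - q * n / k + 9 * q ^ 2 + 3 * ε₂) := by rw [hp, hγ]; ring
  -- the terms of `dv`
  have hs1 : 0 ≤ ∑ α : Fin P, max 0 (((rowT t α \ Bl).card : ℝ) / (m * k) - (ah x ρ (rowT t α \ Bl) : ℝ)) :=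
    sum_nonneg fun _ _ => le_max_left _ _
  have hs2 : 0 ≤ ∑ β : Fin P, max 0 (((colT t β \ Bl).card : ℝ) / (m * k) - (ah x ρ (colT t β \ Bl) : ℝ)) :=
    sum_nonneg fun _ _ => le_max_left _ _
  have hm1 : 0 ≤ max 0 ((ah x ρ (tyset t \ Bl) : ℝ) - ((tyset t \ Bl).card : ℝ) / (m * k)) := le_max_left _ _
  have hm2 : 0 ≤ max 0 ((ah x ρ (univ \ Bl) : ℝ) -
      (((univ : Finset (Fin k × Fin k)) \ Bl).card : ℝ) / (m * k)) := le_max_left _ _
  have hm1' : (ah x ρ (tyset t \ Bl) : ℝ) - ((tyset t \ Bl).card : ℝ) / (m * k) ≤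
      max 0 ((ah x ρ (tyset t \ Bl) : ℝ) - ((tyset t \ Bl).card : ℝ) / (m * k)) := le_max_right _ _
  have hm2' : (ah x ρ (univ \ Bl) : ℝ) - (((univ : Finset (Fin k × Fin k)) \ Bl).card : ℝ) / (m * k) ≤
      max 0 ((ah x ρ (univ \ Bl) : ℝ) -
      (((univ : Finset (Fin k × Fin k)) \ Bl).card : ℝ) / (m * k)) := le_max_right _ _
  have hdv : d = max 0 ((ah x ρ (tyset t \ Bl) : ℝ) - ((tyset t \ Bl).card : ℝ) / (m * k)) +
      max 0 ((ah x ρ (univ \ Bl) : ℝ) - (((univ : Finset (Fin k × Fin k)) \ Bl).card : ℝ) / (m * k)) +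
      ∑ α : Fin P, max 0 (((rowT t α \ Bl).card : ℝ) / (m * k) - (ah x ρ (rowT t α \ Bl) : ℝ)) +
      ∑ β : Fin P, max 0 (((colT t β \ Bl).card : ℝ) / (m * k) - (ah x ρ (colT t β \ Bl) : ℝ)) := hd
  have hd0 : 0 ≤ d := by rw [hdv]; positivity
  have hdr : ∀ α, ((rowT t α \ Bl).card : ℝ) / (m * k) - (ch K x.1 ρ (rowT t α) : ℝ) ≤ d := by
    intro α
    have h1 := single_le_sum (f := fun α : Fin P => max 0 (((rowT t α \ Bl).card : ℝ) / (m * k) -
      (ah x ρ (rowT t α \ Bl) : ℝ))) (fun _ _ => le_max_left _ _) (mem_univ α)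
    have h2 : ((rowT t α \ Bl).card : ℝ) / (m * k) - (ah x ρ (rowT t α \ Bl) : ℝ) ≤
      max 0 (((rowT t α \ Bl).card : ℝ) / (m * k) - (ah x ρ (rowT t α \ Bl) : ℝ)) := le_max_right _ _
    rw [← hah]
    linarith
  have hdc : ∀ β, ((colT t β \ Bl).card : ℝ) / (m * k) - (ch K x.1 ρ (colT t β) : ℝ) ≤ d := by
    intro β
    have h1 := single_le_sum (f := fun β : Fin P => max 0 (((colT t β \ Bl).card : ℝ) / (m * k) -
      (ah x ρ (colT t β \ Bl) : ℝ))) (fun _ _ => le_max_left _ _) (mem_univ β)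
    have h2 : ((colT t β \ Bl).card : ℝ) / (m * k) - (ah x ρ (colT t β \ Bl) : ℝ) ≤
      max 0 (((colT t β \ Bl).card : ℝ) / (m * k) - (ah x ρ (colT t β \ Bl) : ℝ)) := le_max_right _ _
    rw [← hah]
    linarith
  -- (1)
  have hz : ∀ A : ℝ, A * (k - (n / m + ε * k)) / (m * k) = p * A := by
    intro A
    rw [hp, hq]
    field_simp
    ring
  have hXr : ∀ α, ((univ.filter (fun i => i ∉ K ∧ t.1.1 i = α)).card : ℝ) ≤
      (1 - p) * (tR t.1.1 α).card + d := by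
    intro α
    have h1 := DB_row Bl t _ hrow α
    have h2 : p * (tR t.1.1 α).card ≤ ((rowT t α \ Bl).card : ℝ) / (m * k) := by
      rw [← hz]
      exact div_le_div_of_nonneg_right h1 (by positivity)
    have h3 : ((univ.filter (fun i => i ∉ K ∧ t.1.1 i = α)).card : ℝ) + ch K x.1 ρ (rowT t α) =
        (tR t.1.1 α).card := by exact_mod_cast DB_RF K x.1 ρ t α
    linarith [hdr α]
  have hXc : ∀ β, ((univ.filter (fun c => x.1.symm (ρ.symm c) ∉ K ∧ t.1.2 c = β)).card : ℝ) ≤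
      (1 - p) * (tR t.1.2 β).card + d := by
    intro β
    have h1 := DB_col Bl t _ hcol β
    have h2 : p * (tR t.1.2 β).card ≤ ((colT t β \ Bl).card : ℝ) / (m * k) := by
      rw [← hz]
      exact div_le_div_of_nonneg_right h1 (by positivity)
    have h3 : ((univ.filter (fun c => x.1.symm (ρ.symm c) ∉ K ∧ t.1.2 c = β)).card : ℝ) +
        ch K x.1 ρ (colT t β) = (tR t.1.2 β).card := by exact_mod_cast DB_CF K x.1 ρ t β
    linarith [hdc β]
  have hXc' : ∀ β, ((univ.filter (fun c => x.1.symm (ρ.symm c) ∉ K ∧ t.1.2 c = β)).card : ℝ) ≤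
      (tR t.1.2 β).card := by
    intro β
    have h3 := DB_CF K x.1 ρ t β
    exact_mod_cast (by omega : (univ.filter (fun c => x.1.symm (ρ.symm c) ∉ K ∧ t.1.2 c = β)).card ≤
      (tR t.1.2 β).card)
  -- (4)
  have hwsum : w = ∑ e ∈ t.2, ((tR t.1.1 e.1).card : ℝ) * (tR t.1.2 e.2).card := by
    rw [hw, DB_W]; push_cast; rfl
  have hsumR : ∑ α : Fin P, ((tR t.1.1 α).card : ℝ) = k := by
    have h := card_eq_sum_card_fiberwise (s := (univ : Finset (Fin k))) (f := t.1.1)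
      (t := (univ : Finset (Fin P))) (fun _ _ => mem_coe.mpr (mem_univ _))
    rw [card_univ, Fintype.card_fin] at h
    have h2 : (k : ℝ) = ∑ b ∈ (univ : Finset (Fin P)), (((univ : Finset (Fin k)).filter
      (fun a => t.1.1 a = b)).card : ℝ) := by exact_mod_cast h
    exact h2.symm
  have hsumC : ∑ β : Fin P, ((tR t.1.2 β).card : ℝ) = k := by
    have h := card_eq_sum_card_fiberwise (s := (univ : Finset (Fin k))) (f := t.1.2)
      (t := (univ : Finset (Fin P))) (fun _ _ => mem_coe.mpr (mem_univ _))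
    rw [card_univ, Fintype.card_fin] at h
    have h2 : (k : ℝ) = ∑ b ∈ (univ : Finset (Fin P)), (((univ : Finset (Fin k)).filter
      (fun a => t.1.2 a = b)).card : ℝ) := by exact_mod_cast h
    exact h2.symm
  have hF : ((fboard K x.1 ρ ∩ tyset t).card : ℝ) ≤ (1 - p) ^ 2 * w + 2 * P * k * d := by
    rw [DB_F]
    push_cast
    have h1p : 0 ≤ 1 - p := by linarith
    calc ∑ e ∈ t.2, ((univ.filter (fun i => i ∉ K ∧ t.1.1 i = e.1)).card : ℝ) *
          ((univ.filter (fun c => x.1.symm (ρ.symm c) ∉ K ∧ t.1.2 c = e.2)).card : ℝ)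
        ≤ ∑ e ∈ t.2, ((1 - p) ^ 2 * (((tR t.1.1 e.1).card : ℝ) * (tR t.1.2 e.2).card) +
            d * (((tR t.1.1 e.1).card : ℝ) + (tR t.1.2 e.2).card)) := by
          refine sum_le_sum fun e _ => ?_
          have hA : (0 : ℝ) ≤ ((tR t.1.1 e.1).card : ℝ) := Nat.cast_nonneg _
          have hB : (0 : ℝ) ≤ ((tR t.1.2 e.2).card : ℝ) := Nat.cast_nonneg _
          have hY0 : (0 : ℝ) ≤ ((univ.filter (fun c => x.1.symm (ρ.symm c) ∉ K ∧ t.1.2 c = e.2)).card : ℝ) :=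
            Nat.cast_nonneg _
          have h1 := mul_le_mul_of_nonneg_right (hXr e.1) hY0
          have h2 := mul_le_mul_of_nonneg_left (hXc e.2) (mul_nonneg h1p hA)
          have h3 := mul_le_mul_of_nonneg_left (hXc' e.2) hd0
          have h4 : (1 - p) * ((tR t.1.1 e.1).card : ℝ) * d ≤ 1 * ((tR t.1.1 e.1).card : ℝ) * d := by
            apply mul_le_mul_of_nonneg_right _ hd0
            apply mul_le_mul_of_nonneg_right _ hA
            linarith
          nlinarith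
      _ = (1 - p) ^ 2 * w + d * ∑ e ∈ t.2, (((tR t.1.1 e.1).card : ℝ) + (tR t.1.2 e.2).card) := by
          rw [sum_add_distrib, ← mul_sum, ← mul_sum, ← hwsum]
      _ ≤ (1 - p) ^ 2 * w + d * (2 * P * k) := by
          apply add_le_add_right
          apply mul_le_mul_of_nonneg_left _ hd0
          calc ∑ e ∈ t.2, (((tR t.1.1 e.1).card : ℝ) + (tR t.1.2 e.2).card)
              ≤ ∑ e : Fin P × Fin P, (((tR t.1.1 e.1).card : ℝ) + (tR t.1.2 e.2).card) :=
                sum_le_sum_of_subset_of_nonneg (subset_univ _) fun _ _ _ => by positivity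
            _ = 2 * P * k := by
                rw [Fintype.sum_prod_type]
                simp only [sum_add_distrib, sum_const, card_univ, Fintype.card_fin, nsmul_eq_mul]
                rw [hsumC, ← mul_sum, hsumR]
                ring
      _ = (1 - p) ^ 2 * w + 2 * P * k * d := by ring
  -- (2)
  have hκ : (K.card : ℝ) ≤ k * (p + γ) + d := by
    have h1 : (ch K x.1 ρ univ : ℝ) - (((univ : Finset (Fin k × Fin k)) \ Bl).card : ℝ) / (m * k) ≤ d := by
      rw [← hah]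
      linarith
    rw [ch_univ] at h1
    have h2 : (((univ : Finset (Fin k × Fin k)) \ Bl).card : ℝ) + (Bl.card : ℝ) = (k : ℝ) ^ 2 := by
      have h3 := card_sdiff_add_card_inter (univ : Finset (Fin k × Fin k)) Bl
      rw [univ_inter, card_univ, Fintype.card_prod, Fintype.card_fin] at h3
      have h4 : (((univ : Finset (Fin k × Fin k)) \ Bl).card : ℝ) + (Bl.card : ℝ) = (k : ℝ) * k := by
        exact_mod_cast h3
      rw [h4]; ring
    have h3 : (((univ : Finset (Fin k × Fin k)) \ Bl).card : ℝ) / (m * k) ≤ k * (p + γ) := by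
      rw [div_le_iff₀ (by positivity), hpγ]
      have h5 : n * ((k : ℝ) ^ 2 / (m * k)) = q * n * k := by rw [hq]; field_simp
      have h6 : 9 / (m : ℝ) ^ 2 = 9 * q ^ 2 := by rw [hq]; field_simp
      rw [h5, h6] at hall
      have h7 : (k : ℝ) * (q * (1 - q * n / k + 9 * q ^ 2 + 3 * ε₂)) * (m * k) =
          (k : ℝ) ^ 2 - q * n * k + 9 * q ^ 2 * k ^ 2 + 3 * ε₂ * k ^ 2 := by
        have hmq : (m : ℝ) * q = 1 := by rw [hq]; field_simp
        have : (k : ℝ) * (q * (1 - q * n / k + 9 * q ^ 2 + 3 * ε₂)) * (m * k) =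
          (m * q) * (k ^ 2 - (q * n / k * k) * k + 9 * q ^ 2 * k ^ 2 + 3 * ε₂ * k ^ 2) := by ring
        rw [this, hmq, div_mul_cancel₀ _ hkr.ne']
        ring
      rw [h7]
      linarith
    linarith
  -- (3)
  have hκW : (ch K x.1 ρ (tyset t) : ℝ) ≤ w / k * (p + γ) + 3 / m * (ε₂ * k) + d := by
    have h1 : (ch K x.1 ρ (tyset t) : ℝ) - ((tyset t \ Bl).card : ℝ) / (m * k) ≤ d := by
      rw [← hah]
      linarith
    have h2 : ((tyset t \ Bl).card : ℝ) + ((Bl ∩ tyset t).card : ℝ) = w := by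
      rw [hw, inter_comm]
      exact_mod_cast card_sdiff_add_card_inter _ _
    rw [← hw] at hW
    have h3 : ((tyset t \ Bl).card : ℝ) / (m * k) ≤ w / k * (p + γ) + 3 / m * (ε₂ * k) := by
      rw [div_le_iff₀ (by positivity), hpγ]
      have h5 : n * (w / (m * k)) = q * n * w / k := by rw [hq]; field_simp
      have h6 : 9 / (m : ℝ) ^ 2 = 9 * q ^ 2 := by rw [hq]; field_simp
      rw [h5, h6] at hW
      have hmq : (m : ℝ) * q = 1 := by rw [hq]; field_simp
      have h7 : (w / k * (q * (1 - q * n / k + 9 * q ^ 2 + 3 * ε₂)) + 3 / m * (ε₂ * k)) * (m * k) =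
          w - q * n * w / k + 9 * q ^ 2 * w + 3 * ε₂ * w + 3 * (ε₂ * k ^ 2) := by
        have e1 : (w / k * (q * (1 - q * n / k + 9 * q ^ 2 + 3 * ε₂)) + 3 / m * (ε₂ * k)) * (m * k) =
          (w / k * k) * (m * q) * (1 - q * n / k + 9 * q ^ 2 + 3 * ε₂) + (3 / m * m) * (ε₂ * k ^ 2) := by
          ring
        rw [e1, hmq, div_mul_cancel₀ _ hkr.ne', div_mul_cancel₀ _ hm0.ne']
        ring
      rw [h7]
      have h8 : 0 ≤ 3 * ε₂ * w := by rw [hw]; positivity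
      linarith
    linarith
  have hw0 : 0 ≤ w := by rw [hw]; positivity
  have hwk : w ≤ (k : ℝ) ^ 2 := by
    have h3 := card_le_card (subset_univ (tyset t))
    rw [card_univ, Fintype.card_prod, Fintype.card_fin] at h3
    have h4 : w ≤ (k : ℝ) * k := by rw [hw]; exact_mod_cast h3
    calc w ≤ (k : ℝ) * k := h4
      _ = (k : ℝ) ^ 2 := by ring
  rw [← hKd] at hK ⊢
  rw [← hd, ← hw]
  have hfin := DB_real k p γ d w ((fboard K x.1 ρ ∩ tyset t).card : ℝ) K.card (ch K x.1 ρ (tyset t))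
    (3 / m * (ε₂ * k)) P hkr hp0 (by linarith) hγ0 hd0 hw0 hwk (Nat.cast_nonneg P) hF hκ
    (by exact_mod_cast hK) hκW
  unfold zz
  rw [card_cells_inter]
  have hγ' : (1 : ℝ) / m * (ε + 9 / m ^ 2 + 3 * ε₂) = γ := by
    rw [hγ, hq]; field_simp
  rw [hγ']
  exact hfin

end Pool.Agent.MP_dc7d7b.LS
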