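import Pool.Agent.Lib.MP_dc7d7b_co.LS.Ov
import Pool.Agent.Lib.MP_dc7d7b_co.LS.DetBox

set_option autoImplicit false

/-!
# Module BoxSum: the sum of the box counts of the neighbours

PROOF.  For `u ∈ nb0 w` apply `det_box` to `x u`, `ρ = π u w`, `Bl = blkd x u (π u w)`, `n = |prev u| ≤ D ≤ 4/3 k`.
`kept x u` is the set of rows in `det_box` by `mem_blkd_one`.
`hrow`: `Bl ∩ rowl i` has as many elements as `blkd x u 1 ∩ rowl i` (the map `(i, c) ↦ (i, π u w c)`), at most
`|prev u| k / (m k) + ε k` by `blkd_own` at the vertex `u` (hypothesis `hL`) and `card_rowl`.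
`hcol`: `Bl ∩ coll c` corresponds to `blkd x u 1 ∩ coll ((π u w).symm c)`; `hC` and `card_coll`.
`hW`: `blkd_ge` for the test set `tyset t`, `s = ε₂ k²`.
`hall`: `blkd_ge` for the test set `univ = tyset ((fun _ => 0, fun _ => 0), univ)` (`P > 0`).
Sum over `u ∈ nb0 w` with `|nb0 w| ≤ D ≤ 4/3 k`, and `hdev` for the last term:
`5 γ |W| / k * (4/3) k = (20/3) γ |W|`, `3 q ε₂ k * (4/3) k = 4 q ε₂ k²`.
-/

namespace Pool.Agent.MP_dc7d7b.LS

open Finset

variable {V : Type*} [Fintype V] [DecidableEq V] {k m : ℕ} (G : SimpleGraph V) [DecidableRel G.Adj] (V0 : Finset V)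
  (ord : V → ℕ) (π : V → V → Equiv.Perm (Fin k))

omit [Fintype V] in
private theorem boxSum_card (x : V → Al k m) (u : V) (ρ : Equiv.Perm (Fin k))
    (W W' : Finset (Fin k × Fin k)) (h : ∀ e : Fin k × Fin k, (e.1, ρ e.2) ∈ W ↔ e ∈ W') :
    (blkd G V0 ord π x u ρ ∩ W).card = (blkd G V0 ord π x u 1 ∩ W').card := by
  symm
  refine Finset.card_bij (fun e _ => (e.1, ρ e.2)) ?_ ?_ ?_
  · intro e he
    rw [mem_inter] at he ⊢
    exact ⟨(mem_blkd_one G V0 ord π).mpr he.1, (h e).mpr he.2⟩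
  · intro a _ b _ hab
    simp only [Prod.mk.injEq, EmbeddingLike.apply_eq_iff_eq] at hab
    exact Prod.ext hab.1 hab.2
  · intro e he
    rw [mem_inter] at he
    refine ⟨(e.1, ρ.symm e.2), ?_, ?_⟩
    · rw [mem_inter]
      constructor
      · have h1 := he.1
        have h2 : e = (e.1, ρ (ρ.symm e.2)) := by simp
        rw [h2] at h1
        exact (mem_blkd_one G V0 ord π).mp h1
      · rw [← h]
        simpa using he.2
    · simp

theorem box_sum {D P : ℕ} (hk : 0 < k) (hm : 3 ≤ m) (hP : 0 < P) (hDk : (D : ℝ) ≤ 4 / 3 * k)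
    (hdeg : ∀ v, (univ.filter (fun w => G.Adj v w)).card ≤ D) (hord : Function.Injective ord)
    (x : V → Al k m) (w : V) (ε ε₂ ε₃ : ℝ) (hε : 0 ≤ ε) (hε1 : ε ≤ 1 / 2) (hε₂ : 0 ≤ ε₂)
    (hL : ∀ u i, Good G V0 ord π x u (rowl i) (ε * k)) (hC : ∀ u c, Good G V0 ord π x u (coll c) (ε * k))
    (hT : ∀ t : Ty k P, Good G V0 ord π x w (tyset t) (ε₂ * k ^ 2))
    (hdev : ∀ t : Ty k P, ∑ u ∈ nb0 G V0 w, dv (x u) (π u w) (blkd G V0 ord π x u (π u w)) t ≤ ε₃ * (k : ℝ) ^ 2)
    (hkept : ∀ u, 2 * (kept G V0 ord π x u).card ≤ k) (t : Ty k P) :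
    ∑ u ∈ nb0 G V0 w, zz (kept G V0 ord π x u) (x u).1 (π u w) (tyset t) ≤
      (nb0 G V0 w).card / k * (tyset t).card +
        20 / 3 * (1 / m * (ε + 9 / m ^ 2 + 3 * ε₂)) * (tyset t).card +
        (4 / m * ε₂ + (5 + 4 * P) * ε₃) * (k : ℝ) ^ 2 := by
  have hkr : (0 : ℝ) < (k : ℝ) := by exact_mod_cast hk
  have hmr : (0 : ℝ) < (m : ℝ) := by
    have : 0 < m := by omega
    exact_mod_cast this
  have hnb : ∀ u, ((nb0 G V0 u).card : ℝ) ≤ 4 / 3 * k := by
    intro u
    have h1 : (nb0 G V0 u).card ≤ D := by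
      refine (card_le_card ?_).trans (hdeg u)
      intro y hy
      unfold nb0 at hy
      rw [mem_filter] at hy ⊢
      exact ⟨mem_univ _, hy.2⟩
    have h2 : ((nb0 G V0 u).card : ℝ) ≤ D := by exact_mod_cast h1
    linarith
  have hprev : ∀ u, ((prev G V0 ord u).card : ℝ) ≤ 4 / 3 * k := by
    intro u
    have h1 : ((prev G V0 ord u).card : ℝ) ≤ ((nb0 G V0 u).card : ℝ) := by
      exact_mod_cast card_filter_le _ _
    exact h1.trans (hnb u)
  have hone : ∀ u ∈ nb0 G V0 w, zz (kept G V0 ord π x u) (x u).1 (π u w) (tyset t) ≤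
      ((tyset t).card : ℝ) / k + 5 * (1 / m * (ε + 9 / m ^ 2 + 3 * ε₂)) * (((tyset t).card : ℝ) / k) +
        3 / m * (ε₂ * k) +
        (5 + 4 * P) * dv (x u) (π u w) (blkd G V0 ord π x u (π u w)) t := by
    intro u hu
    have hK : kept G V0 ord π x u = (act (x u)).filter
        (fun i => (i, (π u w) ((x u).1 i)) ∉ blkd G V0 ord π x u (π u w)) := by
      unfold kept
      refine filter_congr fun i _ => ?_
      rw [mem_blkd_one]
    rw [hK]
    refine det_box hk hm (x u) (π u w) (blkd G V0 ord π x u (π u w)) t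
      ((prev G V0 ord u).card : ℝ) ε ε₂ (by positivity) (hprev u) hε hε1 hε₂ ?_ ?_ ?_ ?_ ?_
    · intro i
      rw [boxSum_card G V0 ord π x u (π u w) (rowl i) (rowl i) (fun e => by
        unfold rowl
        simp)]
      have h1 := blkd_own G V0 ord π x u (rowl i) (ε * k) (hL u i)
      rw [card_rowl] at h1
      refine h1.trans (le_of_eq ?_)
      field_simp
    · intro c
      rw [boxSum_card G V0 ord π x u (π u w) (coll c) (coll ((π u w).symm c)) (fun e => by
        unfold coll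
        simp only [mem_filter, mem_univ, true_and]
        exact (Equiv.eq_symm_apply _).symm)]
      have h1 := blkd_own G V0 ord π x u (coll ((π u w).symm c)) (ε * k) (hC u _)
      rw [card_coll] at h1
      refine h1.trans (le_of_eq ?_)
      field_simp
    · exact blkd_ge G V0 ord π hk hm hDk hdeg hord x w (tyset t) (ε₂ * k ^ 2) (by positivity)
        (hT t) u hu
    · have h1 := blkd_ge G V0 ord π hk hm hDk hdeg hord x w
        (tyset (((fun _ => ⟨0, hP⟩, fun _ => ⟨0, hP⟩), univ) : Ty k P)) (ε₂ * k ^ 2) (by positivity)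
        (hT _) u hu
      have h2 : tyset (((fun _ => ⟨0, hP⟩, fun _ => ⟨0, hP⟩), univ) : Ty k P) = univ := by
        unfold tyset blk
        ext e
        simp
      rw [h2, inter_univ] at h1
      have h3 : ((univ : Finset (Fin k × Fin k)).card : ℝ) = (k : ℝ) ^ 2 := by
        rw [card_univ, Fintype.card_prod, Fintype.card_fin]
        push_cast
        ring
      rw [h3] at h1
      exact h1
    · rw [← hK]
      exact hkept u
  refine (sum_le_sum hone).trans ?_
  rw [sum_add_distrib, ← mul_sum, sum_const, nsmul_eq_mul]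
  have hdt := hdev t
  have hN := hnb w
  have hN0 : (0 : ℝ) ≤ ((nb0 G V0 w).card : ℝ) := by positivity
  have hW0 : (0 : ℝ) ≤ ((tyset t).card : ℝ) := by positivity
  have hγ : 0 ≤ 1 / (m : ℝ) * (ε + 9 / m ^ 2 + 3 * ε₂) := by positivity
  generalize 1 / (m : ℝ) * (ε + 9 / m ^ 2 + 3 * ε₂) = γ at hγ ⊢
  generalize ((nb0 G V0 w).card : ℝ) = N at hN hN0 ⊢
  generalize ((tyset t).card : ℝ) = W at hW0 ⊢
  generalize ∑ u ∈ nb0 G V0 w, dv (x u) (π u w) (blkd G V0 ord π x u (π u w)) t = S at hdt ⊢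
  have h1 : N * (5 * γ * (W / k)) ≤ 20 / 3 * γ * W := by
    have h2 : N * (5 * γ * (W / k)) = (N / k) * (5 * γ * W) := by ring
    have h3 : N / k ≤ 4 / 3 := by rwa [div_le_iff₀ hkr]
    rw [h2]
    calc (N / k) * (5 * γ * W) ≤ 4 / 3 * (5 * γ * W) :=
          mul_le_mul_of_nonneg_right h3 (by positivity)
      _ = 20 / 3 * γ * W := by ring
  have h2 : N * (3 / m * (ε₂ * k)) ≤ 4 / m * ε₂ * (k : ℝ) ^ 2 := by
    calc N * (3 / m * (ε₂ * k)) ≤ (4 / 3 * k) * (3 / m * (ε₂ * k)) :=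
          mul_le_mul_of_nonneg_right hN (by positivity)
      _ = 4 / m * ε₂ * (k : ℝ) ^ 2 := by ring
  have h3 : (5 + 4 * (P : ℝ)) * S ≤ (5 + 4 * P) * (ε₃ * (k : ℝ) ^ 2) :=
    mul_le_mul_of_nonneg_left hdt (by positivity)
  have h4 : N * (W / k + 5 * γ * (W / k) + 3 / m * (ε₂ * k)) =
      N / k * W + N * (5 * γ * (W / k)) + N * (3 / m * (ε₂ * k)) := by ring
  rw [h4]
  linarith

end Pool.Agent.MP_dc7d7b.LS
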