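import Pool.Agent.Lib.MP_dc7d7b_co.Asym

set_option autoImplicit false

/-!
# Packings of covers of locally sparse graphs: definitions

Board of a vertex: the cells `(i, c)`, row `i` (number of the transversal) and colour `c`.  The permutation `f u` of
the vertex `u` occupies the cells `(i, f u i)`; seen from a neighbour `w` these are the cells `(i, π u w (f u i))`.
A cell seen through `ρ` is the cell with its colour moved by `ρ`.
-/

namespace Pool.Agent.MP_dc7d7b.LS

open Finset

/-- The random choice of one vertex: a permutation, and for every row a label in `Fin m`.  A row is active if its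
label is `0` (probability `1 / m`). -/
abbrev Al (k m : ℕ) : Type := Equiv.Perm (Fin k) × (Fin k → Fin m)

/-- The active rows. -/
def act {k m : ℕ} (x : Al k m) : Finset (Fin k) := univ.filter (fun i => (x.2 i : ℕ) = 0)

/-- The cells of the permutation `g` in the rows of `K`, seen through `ρ`. -/
def cells {k : ℕ} (K : Finset (Fin k)) (g ρ : Equiv.Perm (Fin k)) : Finset (Fin k × Fin k) :=
  K.image (fun i => (i, ρ (g i)))

/-- The number of cells of `cells K g ρ` in `T`. -/
def ch {k : ℕ} (K : Finset (Fin k)) (g ρ : Equiv.Perm (Fin k)) (T : Finset (Fin k × Fin k)) : ℕ :=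
  (K.filter (fun i => (i, ρ (g i)) ∈ T)).card

/-- The number of active cells in `T`. -/
def ah {k m : ℕ} (x : Al k m) (ρ : Equiv.Perm (Fin k)) (T : Finset (Fin k × Fin k)) : ℕ := ch (act x) x.1 ρ T

/-- The part of the board outside the rows of `K` and the colours `g '' K`, seen through `ρ`. -/
def fboard {k : ℕ} (K : Finset (Fin k)) (g ρ : Equiv.Perm (Fin k)) : Finset (Fin k × Fin k) :=
  univ.filter (fun e => e.1 ∉ K ∧ g.symm (ρ.symm e.2) ∉ K)

/-- Expected number of cells in `W` of a permutation that agrees with `g` on `K` and is uniform elsewhere. -/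
noncomputable def zz {k : ℕ} (K : Finset (Fin k)) (g ρ : Equiv.Perm (Fin k)) (W : Finset (Fin k × Fin k)) : ℝ :=
  ((cells K g ρ ∩ W).card : ℝ) + ((fboard K g ρ ∩ W).card : ℝ) / ((k : ℝ) - K.card)

/-- A row of the board. -/
def rowl {k : ℕ} (i : Fin k) : Finset (Fin k × Fin k) := univ.filter (fun e => e.1 = i)

/-- A column of the board. -/
def coll {k : ℕ} (c : Fin k) : Finset (Fin k × Fin k) := univ.filter (fun e => e.2 = c)

section

variable {V : Type*} [Fintype V] [DecidableEq V] {k m : ℕ} (G : SimpleGraph V) [DecidableRel G.Adj] (V0 : Finset V)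
  (ord : V → ℕ) (π : V → V → Equiv.Perm (Fin k))

/-- The neighbours of `w` in `V0`. -/
def nb0 (w : V) : Finset V := V0.filter (fun u => G.Adj w u)

/-- The earlier neighbours of `v` in `V0`. -/
def prev (v : V) : Finset V := (nb0 G V0 v).filter (fun u => ord u < ord v)

/-- The neighbours of `w` in `V0` that are earlier than `v` and not adjacent to `v`. -/
def early (w v : V) : Finset V := (nb0 G V0 w).filter (fun u => ord u < ord v ∧ ¬ G.Adj v u)

/-- The family of `v` at `w`. -/
def fam (w v : V) : Finset V := early G V0 ord w v ∪ prev G V0 ord v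

/-- The transport of `y` to `w`, through `v` if `y` is an earlier neighbour of `v`. -/
def tr (w v y : V) : Equiv.Perm (Fin k) := if y ∈ prev G V0 ord v then (π y v).trans (π v w) else π y w

/-- The cells blocked for `u` by the active cells of its earlier neighbours, seen through `ρ`. -/
def blkd (x : V → Al k m) (u : V) (ρ : Equiv.Perm (Fin k)) : Finset (Fin k × Fin k) :=
  (prev G V0 ord u).biUnion (fun y => cells (act (x y)) (x y).1 ((π y u).trans ρ))

/-- The kept rows of `u`: active and not blocked. -/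
def kept (x : V → Al k m) (u : V) : Finset (Fin k) :=
  (act (x u)).filter (fun i => (i, (x u).1 i) ∉ blkd G V0 ord π x u 1)

/-- The savings at `w` in `W`: the number of kept cells of the neighbours minus the number of different ones. -/
noncomputable def sav (K : V → Finset (Fin k)) (g : V → Equiv.Perm (Fin k)) (w : V)
    (W : Finset (Fin k × Fin k)) : ℝ :=
  ∑ u ∈ nb0 G V0 w, ((cells (K u) (g u) (π u w) ∩ W).card : ℝ) -
    ((((nb0 G V0 w).biUnion (fun u => cells (K u) (g u) (π u w))) ∩ W).card : ℝ)

/-- The deviation of the number of active cells in the sets `T v` from its expectation. -/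
noncomputable def dev (x : V → Al k m) (M : Finset V) (ρ : V → Equiv.Perm (Fin k))
    (T : V → Finset (Fin k × Fin k)) : ℝ :=
  ∑ v ∈ M, ((ah (x v) (ρ v) (T v) : ℝ) - ((T v).card : ℝ) / (m * k))

/-- The good event at `w` for the test set `W`, with error `s`. -/
structure Good (x : V → Al k m) (w : V) (W : Finset (Fin k × Fin k)) (s : ℝ) : Prop where
  a : ∀ v ∈ nb0 G V0 w, |dev x (fam G V0 ord w v) (tr G V0 ord π w v) (fun _ => W)| ≤ s
  b : ∀ v ∈ nb0 G V0 w, |dev x (fam G V0 ord w v) (tr G V0 ord π w v) (fun y => W ∩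
    ((fam G V0 ord w v).filter (fun z => ord z < ord y)).biUnion
      (fun z => cells (act (x z)) (x z).1 (tr G V0 ord π w v z)))| ≤ s
  c : ∀ v ∈ nb0 G V0 w, |dev x (early G V0 ord w v) (fun u => π u w)
    (fun u => W \ blkd G V0 ord π x u (π u w))| ≤ s
  d : |dev x (nb0 G V0 w) (fun v => π v w) (fun v => (W ∩
    ((nb0 G V0 w).filter (fun u => ord u < ord v)).biUnion
      (fun u => cells (kept G V0 ord π x u) (x u).1 (π u w))) \ blkd G V0 ord π x v (π v w))| ≤ s
  e : ∀ v ∈ nb0 G V0 w, |dev x (prev G V0 ord v) (fun y => (π y v).trans (π v w)) (fun _ => W)| ≤ s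
  f : |dev x (prev G V0 ord w) (fun y => π y w) (fun _ => W)| ≤ s

end

/-- The moment property of a test set. -/
def Mom (m : ℕ) {k : ℕ} (W : Finset (Fin k × Fin k)) (err : ℝ) : Prop :=
  ∀ (ρ : Equiv.Perm (Fin k)) (T : Finset (Fin k × Fin k)), T ⊆ W → ∀ lam : ℝ, |lam| ≤ 1 →
    ∑ x : Al k m, Real.exp (lam * ah x ρ T) ≤
      Fintype.card (Al k m) * Real.exp ((Real.exp lam - 1) * ((T.card : ℝ) / (m * k)) + err)

/-- The rows of type `α`. -/
def rowT {k P : ℕ} (t : Ty k P) (α : Fin P) : Finset (Fin k × Fin k) := univ.filter (fun e => t.1.1 e.1 = α)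

/-- The columns of type `β`. -/
def colT {k P : ℕ} (t : Ty k P) (β : Fin P) : Finset (Fin k × Fin k) := univ.filter (fun e => t.1.2 e.2 = β)

/-- The deviation of one vertex with blocked cells `Bl` for the description `t`. -/
noncomputable def dv {k m P : ℕ} (x : Al k m) (ρ : Equiv.Perm (Fin k)) (Bl : Finset (Fin k × Fin k))
    (t : Ty k P) : ℝ :=
  max 0 ((ah x ρ (tyset t \ Bl) : ℝ) - ((tyset t \ Bl).card : ℝ) / (m * k)) +
  max 0 ((ah x ρ (univ \ Bl) : ℝ) - (((univ : Finset (Fin k × Fin k)) \ Bl).card : ℝ) / (m * k)) +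
  ∑ α : Fin P, max 0 (((rowT t α \ Bl).card : ℝ) / (m * k) - (ah x ρ (rowT t α \ Bl) : ℝ)) +
  ∑ β : Fin P, max 0 (((colT t β \ Bl).card : ℝ) / (m * k) - (ah x ρ (colT t β \ Bl) : ℝ))

/-- The number of cells in `W` of the permutation `σ` in the rows outside `K`, seen through `ρ`. -/
def comp {k : ℕ} (K : Finset (Fin k)) (σ ρ : Equiv.Perm (Fin k)) (W : Finset (Fin k × Fin k)) : ℕ :=
  (univ.filter (fun i => i ∉ K ∧ (i, ρ (σ i)) ∈ W)).card

end Pool.Agent.MP_dc7d7b.LS
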