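import Pool.Agent.Lib.MP_dc7d7b_co.LS.Ov

set_option autoImplicit false

/-!
# Module DetSav: the savings, from the good events

Notation: `q = 1 / m`, `N₀ = nb0 w`, `K u` = kept cells of `u` seen from `w` = `cells (kept x u) (x u).1 (π u w)`,
`Blk v = blkd x v (π v w)`, `B v = early w v`, `sav` = the savings in `W`, `S v` = the union of the `K u`, `u ∈ N₀`
earlier than `v`.

PROOF.
(1) `|W \ Blk u| ≥ |W| - (4/3) q |W| - s ≥ |W| / 2 - s` for `u ∈ N₀` (`blkd_le`, `|prev u| ≤ D ≤ 4/3 k`, `m ≥ 3`).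
(2) `Good.c` and `ch_kept`, for `v ∈ N₀`: `∑ u ∈ B v, |K u ∩ W| = ∑ u ∈ B v, ah (x u) (π u w) (W \ Blk u)
`≥ ∑ u ∈ B v, |W \ Blk u| / (m k) - s ≥ (q |B v| / k) (|W| / 2 - s) - s ≥ (q |B v| / (2 k)) |W| - 2 s`
(as `|B v| ≤ D ≤ 4/3 k`, so `q |B v| / k ≤ 1`).
(3) `fam_mono` for `B v ⊆ N₀`: `|⋃ u ∈ B v, K u ∩ W| ≥ ∑ u ∈ B v, |K u ∩ W| - sav`.
(4) `|(⋃ u ∈ B v, K u) ∩ Blk v ∩ W| ≤ 9 q² |W| + 2 s`: `K u ⊆ A u`, the active cells of `u` (`tr_early`: the
transport is `π u w`), `Blk v` is the union of the `A y`, `y ∈ prev v` (`blkd_eq`), `B v` and `prev v` are disjoint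
(`early_disjoint_prev`), `fam_inter` and `ov_fam`.
(5) The elements of `B v` are in `N₀` and earlier than `v`, so `⋃ u ∈ B v, K u ⊆ S v`, and by (2), (3), (4)
`|(W ∩ S v) \ Blk v| ≥ (q |B v| / (2 k)) |W| - sav - 9 q² |W| - 4 s`.
(6) `fam_sum` for the family `K` on `N₀`: `sav = ∑ v ∈ N₀, |K v ∩ (W ∩ S v)|`, and by `ch_kept` and `Good.d`
`sav = ∑ v, ah (x v) (π v w) ((W ∩ S v) \ Blk v) ≥ ∑ v ∈ N₀, |(W ∩ S v) \ Blk v| / (m k) - s`.
(7) Insert (5), with `∑ v |B v| ≥ η₁ D²`, `|N₀| ≤ D ≤ 4/3 k`, `D ≥ k / 2`: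
`sav ≥ (q² η₁ D² / (2 k²)) |W| - (4/3) q (sav + 9 q² |W| + 4 s) - s`
`    ≥ (q² η₁ / 8) |W| - (4/3) q sav - 12 q³ |W| - 3 s`   (`(16/3) q ≤ 2`)
and `12 q³ ≤ q² η₁ / 16` because `q ≤ η₁ / 192`.  So `(1 + (4/3) q) sav ≥ (q² η₁ / 16) |W| - 3 s`, `1 + (4/3) q ≤ 2`
and `sav ≥ 0` (`sav_nonneg`) give `sav ≥ (q² η₁ / 32) |W| - 3 s` (if the right side of the previous inequality is
negative this is trivial).
-/

namespace Pool.Agent.MP_dc7d7b.LS

open Finset

variable {V : Type*} [Fintype V] [DecidableEq V] {k m : ℕ} (G : SimpleGraph V) [DecidableRel G.Adj] (V0 : Finset V)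
  (ord : V → ℕ) (π : V → V → Equiv.Perm (Fin k))

/-- Step (5). -/
theorem sav_step {D : ℕ} (hk : 0 < k) (hm : 3 ≤ m) (hDk : (D : ℝ) ≤ 4 / 3 * k)
    (hdeg : ∀ v, (univ.filter (fun w => G.Adj v w)).card ≤ D) (hord : Function.Injective ord)
    (x : V → Al k m) (w : V) (W : Finset (Fin k × Fin k)) (s : ℝ) (hs : 0 ≤ s)
    (hgood : Good G V0 ord π x w W s) (v : V) (hv : v ∈ nb0 G V0 w) :
    ((early G V0 ord w v).card : ℝ) / (2 * m * k) * W.card -
        sav G V0 π (kept G V0 ord π x) (fun v => (x v).1) w W - 9 / m ^ 2 * W.card - 4 * s ≤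
      (((W ∩ ((nb0 G V0 w).filter (fun u => ord u < ord v)).biUnion
        (fun u => cells (kept G V0 ord π x u) (x u).1 (π u w))) \ blkd G V0 ord π x v (π v w)).card : ℝ) := by
  have hkr : (0 : ℝ) < (k : ℝ) := by exact_mod_cast hk
  have hm3 : (3 : ℝ) ≤ (m : ℝ) := by exact_mod_cast hm
  have hmr : (0 : ℝ) < (m : ℝ) := by linarith
  have hW0 : (0 : ℝ) ≤ (W.card : ℝ) := by positivity
  have hnb : ∀ u, ((nb0 G V0 u).card : ℝ) ≤ 4 / 3 * k := by
    intro u
    have h1 : (nb0 G V0 u).card ≤ D := by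
      refine (card_le_card ?_).trans (hdeg u)
      intro y hy
      unfold nb0 at hy
      rw [mem_filter] at hy ⊢
      exact ⟨mem_univ _, hy.2⟩
    have h2 : ((nb0 G V0 u).card : ℝ) ≤ D := by exact_mod_cast h1
    linarith
  have hprev : ∀ u, ((prev G V0 ord u).card : ℝ) ≤ 4 / 3 * k := by
    intro u
    have h1 : ((prev G V0 ord u).card : ℝ) ≤ ((nb0 G V0 u).card : ℝ) := by
      exact_mod_cast card_filter_le _ _
    exact h1.trans (hnb u)
  set AK : V → Finset (Fin k × Fin k) := fun u => cells (kept G V0 ord π x u) (x u).1 (π u w) with hAK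
  set A : V → Finset (Fin k × Fin k) := fun z => cells (act (x z)) (x z).1 (tr G V0 ord π w v z) with hA
  -- (1)
  have h1 : ∀ u ∈ nb0 G V0 w, (W.card : ℝ) / 2 - s ≤ ((W \ blkd G V0 ord π x u (π u w)).card : ℝ) := by
    intro u hu
    have e1 := blkd_le G V0 ord π x w W s hgood u hu
    have e2 : ((W \ blkd G V0 ord π x u (π u w)).card : ℝ) =
        W.card - ((blkd G V0 ord π x u (π u w) ∩ W).card : ℝ) := by
      have := card_sdiff_add_card_inter W (blkd G V0 ord π x u (π u w))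
      rw [inter_comm] at this
      rw [← this]
      push_cast
      ring
    have e3 : ((prev G V0 ord u).card : ℝ) * ((W.card : ℝ) / (m * k)) ≤ (W.card : ℝ) / 2 := by
      calc ((prev G V0 ord u).card : ℝ) * ((W.card : ℝ) / (m * k))
          ≤ (4 / 3 * k) * ((W.card : ℝ) / (m * k)) :=
            mul_le_mul_of_nonneg_right (hprev u) (by positivity)
        _ = (4 / 3 / m) * W.card := by field_simp
        _ ≤ (1 / 2) * W.card := by
            apply mul_le_mul_of_nonneg_right _ hW0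
            rw [div_div, div_le_div_iff₀ (by positivity) (by norm_num)]
            linarith
        _ = (W.card : ℝ) / 2 := by ring
    rw [e2]
    linarith
  -- (2)
  have hB : ((early G V0 ord w v).card : ℝ) / (m * k) ≤ 1 := by
    have e1 : ((early G V0 ord w v).card : ℝ) ≤ ((nb0 G V0 w).card : ℝ) := by
      exact_mod_cast card_filter_le _ _
    rw [div_le_one (by positivity)]
    have e2 := hnb w
    nlinarith
  have h2 : ((early G V0 ord w v).card : ℝ) / (2 * m * k) * W.card - 2 * s ≤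
      ∑ u ∈ early G V0 ord w v, ((AK u ∩ W).card : ℝ) := by
    have e1 := (abs_le.mp (hgood.c v hv)).1
    unfold dev at e1
    rw [sum_sub_distrib] at e1
    have e2 : ∑ u ∈ early G V0 ord w v,
        (ah (x u) (π u w) (W \ blkd G V0 ord π x u (π u w)) : ℝ) =
        ∑ u ∈ early G V0 ord w v, ((AK u ∩ W).card : ℝ) := by
      refine sum_congr rfl fun u _ => ?_
      rw [hAK]
      simp only
      rw [card_cells_inter, ch_kept]
    rw [e2] at e1
    have e3 : ((early G V0 ord w v).card : ℝ) * (((W.card : ℝ) / 2 - s) / (m * k)) ≤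
        ∑ u ∈ early G V0 ord w v, ((W \ blkd G V0 ord π x u (π u w)).card : ℝ) / (m * k) := by
      rw [← nsmul_eq_mul]
      refine card_nsmul_le_sum _ _ _ fun u hu => ?_
      apply div_le_div_of_nonneg_right _ (by positivity)
      exact h1 u (mem_filter.mp hu).1
    have e4 : ((early G V0 ord w v).card : ℝ) * (((W.card : ℝ) / 2 - s) / (m * k)) =
        ((early G V0 ord w v).card : ℝ) / (2 * m * k) * W.card -
          ((early G V0 ord w v).card : ℝ) / (m * k) * s := by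
      field_simp
    have e5 : ((early G V0 ord w v).card : ℝ) / (m * k) * s ≤ s :=
      mul_le_of_le_one_left hs hB
    linarith
  -- (3)
  have h3 : ∑ u ∈ early G V0 ord w v, ((AK u ∩ W).card : ℝ) -
      sav G V0 π (kept G V0 ord π x) (fun v => (x v).1) w W ≤
      (((early G V0 ord w v).biUnion AK ∩ W).card : ℝ) := by
    have e1 := fam_mono AK W (M := nb0 G V0 w) (M' := early G V0 ord w v) (filter_subset _ _)
    have e2 : (∑ u ∈ early G V0 ord w v, ((AK u ∩ W).card : ℝ)) +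
        (((nb0 G V0 w).biUnion AK ∩ W).card : ℝ) ≤
        (((early G V0 ord w v).biUnion AK ∩ W).card : ℝ) +
          ∑ u ∈ nb0 G V0 w, ((AK u ∩ W).card : ℝ) := by exact_mod_cast e1
    unfold sav
    linarith
  -- (4)
  have h4 : (((early G V0 ord w v).biUnion AK ∩ blkd G V0 ord π x v (π v w) ∩ W).card : ℝ) ≤
      9 / m ^ 2 * W.card + 2 * s := by
    have e1 := fam_inter A W (early_disjoint_prev G V0 ord w v)
    have e2 := ov_fam G V0 ord π hk hm hDk hdeg hord x w W s hs hgood v hv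
    have e3 : ∑ z ∈ fam G V0 ord w v, (ah (x z) (tr G V0 ord π w v z) W : ℝ) =
        ∑ z ∈ fam G V0 ord w v, ((A z ∩ W).card : ℝ) := by
      refine sum_congr rfl fun z _ => ?_
      rw [hA]
      simp only
      rw [ah_eq]
    rw [e3] at e2
    have e4 : ((early G V0 ord w v).biUnion AK ∩ blkd G V0 ord π x v (π v w) ∩ W).card ≤
        (((early G V0 ord w v).biUnion A ∩ (prev G V0 ord v).biUnion A) ∩ W).card := by
      apply card_le_card
      apply inter_subset_inter_right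
      rw [blkd_eq]
      apply inter_subset_inter_right
      intro e he
      rw [mem_biUnion] at he ⊢
      obtain ⟨u, hu, he⟩ := he
      refine ⟨u, hu, ?_⟩
      rw [hA]
      simp only
      rw [tr_early G V0 ord π hu]
      exact cells_subset (kept_subset G V0 ord π x u) _ _ he
    have e5 : ((((early G V0 ord w v).biUnion A ∩ (prev G V0 ord v).biUnion A) ∩ W).card : ℝ) +
        (((fam G V0 ord w v).biUnion A ∩ W).card : ℝ) ≤
        ∑ z ∈ fam G V0 ord w v, ((A z ∩ W).card : ℝ) := by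
      unfold fam
      exact_mod_cast e1
    have e6 : (((early G V0 ord w v).biUnion AK ∩ blkd G V0 ord π x v (π v w) ∩ W).card : ℝ) ≤
        ((((early G V0 ord w v).biUnion A ∩ (prev G V0 ord v).biUnion A) ∩ W).card : ℝ) := by
      exact_mod_cast e4
    linarith
  -- (5)
  have h5 : (((early G V0 ord w v).biUnion AK ∩ W).card : ℝ) -
      (((early G V0 ord w v).biUnion AK ∩ blkd G V0 ord π x v (π v w) ∩ W).card : ℝ) ≤
      (((W ∩ ((nb0 G V0 w).filter (fun u => ord u < ord v)).biUnion AK) \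
        blkd G V0 ord π x v (π v w)).card : ℝ) := by
    have e1 : (early G V0 ord w v).biUnion AK ∩ W ⊆
        ((W ∩ ((nb0 G V0 w).filter (fun u => ord u < ord v)).biUnion AK) \
          blkd G V0 ord π x v (π v w)) ∪
        ((early G V0 ord w v).biUnion AK ∩ blkd G V0 ord π x v (π v w) ∩ W) := by
      intro e he
      rw [mem_inter] at he
      by_cases h6 : e ∈ blkd G V0 ord π x v (π v w)
      · rw [mem_union]
        right
        rw [mem_inter, mem_inter]
        exact ⟨⟨he.1, h6⟩, he.2⟩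
      · rw [mem_union]
        left
        rw [mem_sdiff, mem_inter]
        refine ⟨⟨he.2, ?_⟩, h6⟩
        have h7 := he.1
        rw [mem_biUnion] at h7 ⊢
        obtain ⟨u, hu, h8⟩ := h7
        unfold early at hu
        rw [mem_filter] at hu
        exact ⟨u, mem_filter.mpr ⟨hu.1, hu.2.1⟩, h8⟩
    have e2 := (card_le_card e1).trans (card_union_le _ _)
    have e3 : (((early G V0 ord w v).biUnion AK ∩ W).card : ℝ) ≤
        (((W ∩ ((nb0 G V0 w).filter (fun u => ord u < ord v)).biUnion AK) \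
          blkd G V0 ord π x v (π v w)).card : ℝ) +
        (((early G V0 ord w v).biUnion AK ∩ blkd G V0 ord π x v (π v w) ∩ W).card : ℝ) := by
      exact_mod_cast e2
    linarith
  linarith

theorem det_sav {D : ℕ} (hk : 0 < k) (hDk : (D : ℝ) ≤ 4 / 3 * k) (hkD : (k : ℝ) ≤ 2 * D)
    (hdeg : ∀ v, (univ.filter (fun w => G.Adj v w)).card ≤ D) (hord : Function.Injective ord)
    (η₁ : ℝ) (hη₁ : 0 < η₁) (hη₁1 : η₁ ≤ 1) (hm : 192 / η₁ ≤ m)
    (x : V → Al k m) (w : V) (W : Finset (Fin k × Fin k)) (s : ℝ) (hs : 0 ≤ s)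
    (hpairs : η₁ * (D : ℝ) ^ 2 ≤ ∑ v ∈ nb0 G V0 w, ((early G V0 ord w v).card : ℝ))
    (hgood : Good G V0 ord π x w W s) :
    η₁ / (32 * m ^ 2) * W.card - 3 * s ≤ sav G V0 π (kept G V0 ord π x) (fun v => (x v).1) w W := by
  have hkr : (0 : ℝ) < (k : ℝ) := by exact_mod_cast hk
  have hm192 : (192 : ℝ) ≤ (m : ℝ) := by
    refine le_trans ?_ hm
    rw [le_div_iff₀ hη₁]
    nlinarith
  have hmη : 192 ≤ (m : ℝ) * η₁ := by
    rwa [div_le_iff₀ hη₁] at hm
  have hm3 : 3 ≤ m := by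
    have : (3 : ℝ) ≤ (m : ℝ) := by linarith
    exact_mod_cast this
  have hmr : (0 : ℝ) < (m : ℝ) := by linarith
  have hW0 : (0 : ℝ) ≤ (W.card : ℝ) := by positivity
  have hsav0 := sav_nonneg G V0 π (kept G V0 ord π x) (fun v => (x v).1) w W
  have hnb : ((nb0 G V0 w).card : ℝ) ≤ 4 / 3 * k := by
    have h1 : (nb0 G V0 w).card ≤ D := by
      refine (card_le_card ?_).trans (hdeg w)
      intro y hy
      unfold nb0 at hy
      rw [mem_filter] at hy ⊢
      exact ⟨mem_univ _, hy.2⟩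
    have h2 : ((nb0 G V0 w).card : ℝ) ≤ D := by exact_mod_cast h1
    linarith
  set AK : V → Finset (Fin k × Fin k) := fun u => cells (kept G V0 ord π x u) (x u).1 (π u w) with hAK
  set Sv : V → Finset (Fin k × Fin k) := fun v => (W ∩
    ((nb0 G V0 w).filter (fun u => ord u < ord v)).biUnion AK) \ blkd G V0 ord π x v (π v w) with hSv
  -- (6)
  have h6 : sav G V0 π (kept G V0 ord π x) (fun v => (x v).1) w W =
      ∑ v ∈ nb0 G V0 w, (ah (x v) (π v w) (Sv v) : ℝ) := by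
    have e1 := fam_sum ord hord AK W (nb0 G V0 w)
    have e2 : ∑ v ∈ nb0 G V0 w, ((AK v ∩ W).card : ℝ) =
        (((nb0 G V0 w).biUnion AK ∩ W).card : ℝ) + ∑ v ∈ nb0 G V0 w,
          ((AK v ∩ (W ∩ ((nb0 G V0 w).filter (fun u => ord u < ord v)).biUnion AK)).card : ℝ) := by
      exact_mod_cast e1
    unfold sav
    have e3 : ∀ v, (ah (x v) (π v w) (Sv v) : ℝ) =
        ((AK v ∩ (W ∩ ((nb0 G V0 w).filter (fun u => ord u < ord v)).biUnion AK)).card : ℝ) := by
      intro v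
      rw [hSv]
      simp only
      rw [← ch_kept, ← card_cells_inter]
    rw [sum_congr rfl fun v _ => e3 v]
    linarith
  have h7 : ∑ v ∈ nb0 G V0 w, ((Sv v).card : ℝ) / (m * k) - s ≤
      sav G V0 π (kept G V0 ord π x) (fun v => (x v).1) w W := by
    have e1 := (abs_le.mp hgood.d).1
    unfold dev at e1
    rw [sum_sub_distrib] at e1
    rw [h6]
    have e2 : ∑ v ∈ nb0 G V0 w, (ah (x v) (π v w) (Sv v) : ℝ) -
        ∑ v ∈ nb0 G V0 w, ((Sv v).card : ℝ) / (m * k) ≥ - s := e1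
    linarith
  have h8 : ∀ v ∈ nb0 G V0 w, (((early G V0 ord w v).card : ℝ) / (2 * m * k) * W.card -
        sav G V0 π (kept G V0 ord π x) (fun v => (x v).1) w W - 9 / m ^ 2 * W.card - 4 * s) / (m * k) ≤
      ((Sv v).card : ℝ) / (m * k) := by
    intro v hv
    apply div_le_div_of_nonneg_right _ (by positivity)
    exact sav_step G V0 ord π hk hm3 hDk hdeg hord x w W s hs hgood v hv
  have h9 := sum_le_sum h8
  generalize sav G V0 π (kept G V0 ord π x) (fun v => (x v).1) w W = sv at *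
  generalize hWc : (W.card : ℝ) = Wc at *
  have h10 : ∑ v ∈ nb0 G V0 w, (((early G V0 ord w v).card : ℝ) / (2 * m * k) * Wc - sv -
      9 / m ^ 2 * Wc - 4 * s) / (m * k) =
      (∑ v ∈ nb0 G V0 w, ((early G V0 ord w v).card : ℝ)) * (Wc / (2 * (m * k) ^ 2)) -
        ((nb0 G V0 w).card : ℝ) / (m * k) * (sv + 9 / m ^ 2 * Wc + 4 * s) := by
    have e1 : ∀ v ∈ nb0 G V0 w, (((early G V0 ord w v).card : ℝ) / (2 * m * k) * Wc - sv -
      9 / m ^ 2 * Wc - 4 * s) / (m * k) = ((early G V0 ord w v).card : ℝ) * (Wc / (2 * (m * k) ^ 2)) -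
        (sv + 9 / m ^ 2 * Wc + 4 * s) / (m * k) := by
      intro v _
      field_simp
      ring
    rw [sum_congr rfl e1, sum_sub_distrib, ← sum_mul, sum_const, nsmul_eq_mul]
    ring
  rw [h10] at h9
  have h11 : η₁ / (8 * m ^ 2) * Wc ≤
      (∑ v ∈ nb0 G V0 w, ((early G V0 ord w v).card : ℝ)) * (Wc / (2 * (m * k) ^ 2)) := by
    have e1 : η₁ * (k : ℝ) ^ 2 / 4 ≤ η₁ * (D : ℝ) ^ 2 := by
      have : (k : ℝ) ^ 2 ≤ (2 * D) ^ 2 := pow_le_pow_left₀ hkr.le hkD 2
      nlinarith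
    calc η₁ / (8 * m ^ 2) * Wc = (η₁ * (k : ℝ) ^ 2 / 4) * (Wc / (2 * (m * k) ^ 2)) := by
          field_simp
          ring
      _ ≤ _ := mul_le_mul_of_nonneg_right (e1.trans hpairs) (by positivity)
  have h12 : ((nb0 G V0 w).card : ℝ) / (m * k) ≤ 4 / 3 / m := by
    rw [div_le_div_iff₀ (by positivity) hmr]
    nlinarith
  have h13 : 0 ≤ sv + 9 / m ^ 2 * Wc + 4 * s := by positivity
  have h14 : ((nb0 G V0 w).card : ℝ) / (m * k) * (sv + 9 / m ^ 2 * Wc + 4 * s) ≤
      4 / 3 / m * (sv + 9 / m ^ 2 * Wc + 4 * s) := mul_le_mul_of_nonneg_right h12 h13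
  have h15 : 4 / 3 / (m : ℝ) ≤ 1 / 100 := by
    rw [div_div, div_le_div_iff₀ (by positivity) (by norm_num)]
    linarith
  have h16 : 4 / 3 / (m : ℝ) * (9 / m ^ 2 * Wc) ≤ η₁ / (16 * m ^ 2) * Wc := by
    have e1 : 4 / 3 / (m : ℝ) * (9 / m ^ 2 * Wc) = (12 / m) / m ^ 2 * Wc := by
      field_simp
      ring
    have e2 : 12 / (m : ℝ) ≤ η₁ / 16 := by
      rw [div_le_div_iff₀ hmr (by norm_num)]
      linarith
    rw [e1]
    apply mul_le_mul_of_nonneg_right _ hW0
    calc 12 / (m : ℝ) / m ^ 2 ≤ η₁ / 16 / m ^ 2 := div_le_div_of_nonneg_right e2 (by positivity)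
      _ = η₁ / (16 * m ^ 2) := by field_simp
  have h17 : 4 / 3 / (m : ℝ) * (4 * s) ≤ 2 * s := by nlinarith
  have h18 : 4 / 3 / (m : ℝ) * sv ≤ sv := by nlinarith
  have h19 : η₁ / (8 * (m : ℝ) ^ 2) * Wc = 4 * (η₁ / (32 * m ^ 2) * Wc) := by
    field_simp
    ring
  have h20 : η₁ / (16 * (m : ℝ) ^ 2) * Wc = 2 * (η₁ / (32 * m ^ 2) * Wc) := by
    field_simp
    ring
  have h21 : 0 ≤ η₁ / (32 * (m : ℝ) ^ 2) * Wc := by positivity
  have h22 : 4 / 3 / (m : ℝ) * (sv + 9 / m ^ 2 * Wc + 4 * s) =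
      4 / 3 / (m : ℝ) * sv + 4 / 3 / (m : ℝ) * (9 / m ^ 2 * Wc) + 4 / 3 / (m : ℝ) * (4 * s) := by ring
  rw [h22] at h14
  rw [h19] at h11
  rw [h20] at h16
  linarith

end Pool.Agent.MP_dc7d7b.LS
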