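import Pool.Agent.Lib.MP_dc7d7b_co.LS.MomAll

set_option autoImplicit false

/-!
# Module DevMom: exponential moment of the deviation of one vertex

PROOF.  `dv x ρ Bl t` is a sum of `J = 2 P + 2` terms `max 0 (X j)` with `X j = ± (ah x ρ T - |T| / (m k))`.
By convexity of `exp` (Jensen, `ConvexOn.map_sum_le` with weights `1 / J`, or `Real.inner_le...`/AM-GM)
`exp (lam ∑ j, max 0 (X j)) ≤ (1 / J) ∑ j, exp (lam J max 0 (X j)) ≤ (1 / J) ∑ j, (1 + exp (lam J X j))`.
`one_moment` with `μ = ± lam J` (`|μ| ≤ 1`): `∑ x, exp (μ (ah x ρ T - |T| / (m k))) ≤ |Al| exp (μ² k + err)`, since by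
`mom_all` the sum of `exp (μ ah)` is at most `|Al| exp ((exp μ - 1) |T| / (m k) + err)`, `exp μ - 1 - μ ≤ μ²` for
`|μ| ≤ 1` (`Real.abs_exp_sub_one_sub_id_le`) and `|T| / (m k) ≤ k² / (m k) ≤ k`.
So the average of `exp (lam dv)` is at most `1 + exp (lam² J² k + err) ≤ 2 exp (lam² J² k + err)`.
-/

namespace Pool.Agent.MP_dc7d7b.LS

open Finset

theorem one_moment {k m : ℕ} (hk : 0 < k) (hm : 0 < m) (ρ : Equiv.Perm (Fin k)) (T : Finset (Fin k × Fin k))
    (μ : ℝ) (hμ : |μ| ≤ 1) :
    ∑ x : Al k m, Real.exp (μ * ((ah x ρ T : ℝ) - (T.card : ℝ) / (m * k))) ≤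
      Fintype.card (Al k m) * Real.exp (μ ^ 2 * k + (1 + Real.exp 1) * Real.sqrt k) := by
  set c : ℝ := (T.card : ℝ) / (m * k) with hc
  have hkr : (0 : ℝ) < (k : ℝ) := by exact_mod_cast hk
  have hmr : (1 : ℝ) ≤ (m : ℝ) := by exact_mod_cast hm
  have hc0 : 0 ≤ c := by rw [hc]; positivity
  have hck : c ≤ k := by
    rw [hc, div_le_iff₀ (by positivity)]
    have h1 : T.card ≤ k * k := by
      have := Finset.card_le_univ T
      rwa [Fintype.card_prod, Fintype.card_fin] at this
    have h2 : (T.card : ℝ) ≤ (k : ℝ) * k := by exact_mod_cast h1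
    nlinarith
  have h1 : ∀ x : Al k m, Real.exp (μ * ((ah x ρ T : ℝ) - c)) =
      Real.exp (-(μ * c)) * Real.exp (μ * ah x ρ T) := by
    intro x
    rw [← Real.exp_add]
    congr 1
    ring
  rw [sum_congr rfl fun x _ => h1 x, ← mul_sum]
  have h2 := mom_all (k := k) (m := m) hk hm ρ T (subset_univ T) μ hμ
  have h3 : Real.exp μ - 1 - μ ≤ μ ^ 2 := (le_abs_self _).trans (Real.abs_exp_sub_one_sub_id_le hμ)
  calc Real.exp (-(μ * c)) * ∑ x : Al k m, Real.exp (μ * ah x ρ T)
      ≤ Real.exp (-(μ * c)) * (Fintype.card (Al k m) *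
          Real.exp ((Real.exp μ - 1) * ((T.card : ℝ) / (m * k)) + (1 + Real.exp 1) * Real.sqrt k)) :=
        mul_le_mul_of_nonneg_left h2 (Real.exp_pos _).le
    _ = Fintype.card (Al k m) * Real.exp ((Real.exp μ - 1 - μ) * c + (1 + Real.exp 1) * Real.sqrt k) := by
        rw [← hc, mul_left_comm, ← Real.exp_add]
        congr 2
        ring
    _ ≤ Fintype.card (Al k m) * Real.exp (μ ^ 2 * k + (1 + Real.exp 1) * Real.sqrt k) := by
        apply mul_le_mul_of_nonneg_left _ (by positivity)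
        apply Real.exp_le_exp.mpr
        have h4 : (Real.exp μ - 1 - μ) * c ≤ μ ^ 2 * k := by
          calc (Real.exp μ - 1 - μ) * c ≤ μ ^ 2 * c := mul_le_mul_of_nonneg_right h3 hc0
            _ ≤ μ ^ 2 * k := mul_le_mul_of_nonneg_left hck (sq_nonneg μ)
        linarith

/-- Jensen for the exponential of a sum of positive parts. -/
private theorem devMom_jensen {ι : Type*} [Fintype ι] [Nonempty ι] (lam : ℝ) (hl : 0 ≤ lam) (X : ι → ℝ) :
    Real.exp (lam * ∑ j, max 0 (X j)) ≤
      (1 / (Fintype.card ι : ℝ)) * ∑ j, (1 + Real.exp (lam * Fintype.card ι * X j)) := by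
  have hJ : (0 : ℝ) < (Fintype.card ι : ℝ) := by exact_mod_cast Fintype.card_pos
  have h1 := convexOn_exp.map_sum_le (t := (univ : Finset ι)) (w := fun _ => 1 / (Fintype.card ι : ℝ))
    (p := fun j => lam * Fintype.card ι * max 0 (X j)) (fun j _ => by positivity)
    (by
      rw [sum_const, card_univ, nsmul_eq_mul]
      field_simp) (fun j _ => Set.mem_univ _)
  have h2 : ∑ j : ι, (1 / (Fintype.card ι : ℝ)) • (lam * Fintype.card ι * max 0 (X j)) =
      lam * ∑ j, max 0 (X j) := by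
    rw [mul_sum]
    refine sum_congr rfl fun j _ => ?_
    rw [smul_eq_mul]
    field_simp
  rw [h2] at h1
  refine h1.trans ?_
  rw [mul_sum]
  refine sum_le_sum fun j _ => ?_
  rw [smul_eq_mul]
  apply mul_le_mul_of_nonneg_left _ (by positivity)
  rcases le_total (X j) 0 with h | h
  · rw [max_eq_left h, mul_zero, Real.exp_zero]
    have := Real.exp_pos (lam * Fintype.card ι * X j)
    linarith
  · rw [max_eq_right h]
    linarith

theorem dev_moment {k m P : ℕ} (hk : 0 < k) (hm : 0 < m) (ρ : Equiv.Perm (Fin k)) (Bl : Finset (Fin k × Fin k))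
    (t : Ty k P) (lam : ℝ) (hl : 0 ≤ lam) (hl1 : lam * (2 * P + 2) ≤ 1) :
    ∑ x : Al k m, Real.exp (lam * dv x ρ Bl t) ≤
      Fintype.card (Al k m) *
        (2 * Real.exp (lam ^ 2 * (2 * P + 2) ^ 2 * k + (1 + Real.exp 1) * Real.sqrt k)) := by
  set T : Bool ⊕ (Fin P ⊕ Fin P) → Finset (Fin k × Fin k) :=
    Sum.elim (fun b => if b = true then tyset t \ Bl else univ \ Bl)
      (Sum.elim (fun α => rowT t α \ Bl) (fun β => colT t β \ Bl)) with hT
  set sg : Bool ⊕ (Fin P ⊕ Fin P) → ℝ := Sum.elim (fun _ => 1) (fun _ => -1) with hsg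
  have hJ : (Fintype.card (Bool ⊕ (Fin P ⊕ Fin P)) : ℝ) = 2 * P + 2 := by
    rw [Fintype.card_sum, Fintype.card_sum, Fintype.card_bool, Fintype.card_fin]
    push_cast
    ring
  have hdv : ∀ x : Al k m, dv x ρ Bl t =
      ∑ j, max 0 (sg j * ((ah x ρ (T j) : ℝ) - ((T j).card : ℝ) / (m * k))) := by
    intro x
    unfold dv
    rw [Fintype.sum_sum_type, Fintype.sum_sum_type, Fintype.sum_bool]
    simp only [hT, hsg, Sum.elim_inl, Sum.elim_inr, if_true, one_mul, neg_mul, neg_sub,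
      Bool.false_eq_true, if_false]
    ring
  have hsg2 : ∀ j, sg j ^ 2 = 1 := by
    intro j
    rcases j with j | j <;> simp [hsg]
  have hJpos : (0 : ℝ) < 2 * P + 2 := by positivity
  set E : ℝ := Real.exp (lam ^ 2 * (2 * P + 2) ^ 2 * k + (1 + Real.exp 1) * Real.sqrt k) with hE
  have hE1 : 1 ≤ E := by
    rw [hE]
    apply Real.one_le_exp
    have := Real.exp_pos 1
    positivity
  have hmom : ∀ j, ∑ x : Al k m, Real.exp (lam * (2 * P + 2) *
      (sg j * ((ah x ρ (T j) : ℝ) - ((T j).card : ℝ) / (m * k)))) ≤ Fintype.card (Al k m) * E := by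
    intro j
    have h1 : |lam * (2 * P + 2) * sg j| ≤ 1 := by
      have h2 : |sg j| = 1 := by
        have := hsg2 j
        rcases j with j | j <;> simp [hsg]
      rw [abs_mul, h2, mul_one, abs_of_nonneg (by positivity)]
      exact hl1
    have h3 := one_moment hk hm ρ (T j) (lam * (2 * P + 2) * sg j) h1
    have h4 : (lam * (2 * P + 2) * sg j) ^ 2 = lam ^ 2 * (2 * P + 2) ^ 2 := by
      rw [mul_pow, hsg2, mul_one, mul_pow]
    rw [h4] at h3
    refine (le_of_eq (sum_congr rfl fun x _ => ?_)).trans h3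
    congr 1
    ring
  calc ∑ x : Al k m, Real.exp (lam * dv x ρ Bl t)
      ≤ ∑ x : Al k m, (1 / ((2 : ℝ) * P + 2)) * ∑ j, (1 + Real.exp (lam * (2 * P + 2) *
          (sg j * ((ah x ρ (T j) : ℝ) - ((T j).card : ℝ) / (m * k))))) := by
        refine sum_le_sum fun x _ => ?_
        rw [hdv x]
        have h5 := devMom_jensen lam hl
          (fun j => sg j * ((ah x ρ (T j) : ℝ) - ((T j).card : ℝ) / (m * k)))
        rw [hJ] at h5
        exact h5
    _ = (1 / ((2 : ℝ) * P + 2)) * ∑ j, ((Fintype.card (Al k m) : ℝ) + ∑ x : Al k m,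
          Real.exp (lam * (2 * P + 2) *
          (sg j * ((ah x ρ (T j) : ℝ) - ((T j).card : ℝ) / (m * k))))) := by
        rw [← mul_sum, sum_comm]
        congr 1
        refine sum_congr rfl fun j _ => ?_
        rw [sum_add_distrib, sum_const, card_univ, nsmul_eq_mul, mul_one]
    _ ≤ (1 / ((2 : ℝ) * P + 2)) * ∑ j : Bool ⊕ (Fin P ⊕ Fin P),
          ((Fintype.card (Al k m) : ℝ) * (2 * E)) := by
        apply mul_le_mul_of_nonneg_left _ (by positivity)
        refine sum_le_sum fun j _ => ?_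
        have h6 := hmom j
        have h7 : (Fintype.card (Al k m) : ℝ) ≤ Fintype.card (Al k m) * E :=
          le_mul_of_one_le_right (by positivity) hE1
        linarith
    _ = Fintype.card (Al k m) * (2 * E) := by
        rw [sum_const, card_univ, nsmul_eq_mul, hJ]
        field_simp

end Pool.Agent.MP_dc7d7b.LS
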