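import Mathlib

set_option autoImplicit false

/-!
# Module Mart: exponential moments along an order

PROOF.  Claim: for every finite set `M` of vertices, `∑ x, exp (∑ v ∈ M, Y v x) ≤ |V → α|`.  Induction on `M.card`:
for `M` nonempty let `v` be the element of `M` with the largest `ord v`, `M' = M.erase v`.  For every function `F`
on `V → α` we have `∑ x, F x = (1 / |α|) ∑ x, ∑ a, F (update x v a)` (each `y` is `update x v a` for exactly `|α|`
pairs `(x, a)`; for instance by the equivalence of `V → α` with `α × ({u // u ≠ v} → α)`, or `Fintype.sum_bijective`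
for the map `(x, a) ↦ (update x v a, x v)` of `(V → α) × α` to itself, an involution).  Apply it to
`F = exp (∑ v ∈ M, Y v)`: by `hY` the functions `Y u`, `u ∈ M'`, do not change when the coordinate `v` is changed
(`ord u < ord v`, as `ord` is injective), so
`∑ a, F (update x v a) = exp (∑ u ∈ M', Y u x) * ∑ a, exp (Y v (update x v a)) ≤ exp (∑ u ∈ M', Y u x) * |α|`,
and the claim follows.  The theorem follows by Markov's inequality: the points counted have
`exp t ≤ exp (∑ v ∈ M, Y v x)`.
-/

namespace Pool.Agent.MP_dc7d7b.LS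

open Finset

/-- averaging over one coordinate -/
private theorem mart_avg {V α : Type*} [Fintype V] [DecidableEq V] [Fintype α] (F : (V → α) → ℝ)
    (v : V) : (Fintype.card α : ℝ) * ∑ x, F x = ∑ x, ∑ a, F (Function.update x v a) := by
  have h1 : ∑ x : V → α, ∑ a, F (Function.update x v a) =
      ∑ p : (V → α) × α, F (Function.update p.1 v p.2) := by
    rw [Fintype.sum_prod_type]
  have hinv : Function.Involutive
      (fun p : (V → α) × α => ((Function.update p.1 v p.2, p.1 v) : (V → α) × α)) := by
    rintro ⟨x, a⟩
    simp only [Function.update_idem, Function.update_eq_self, Function.update_self]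
  have h2 : ∑ p : (V → α) × α, F (Function.update p.1 v p.2) = ∑ p : (V → α) × α, F p.1 :=
    Fintype.sum_bijective _ hinv.bijective _ _ fun p => rfl
  rw [h1, h2, Fintype.sum_prod_type]
  simp only [sum_const, card_univ, nsmul_eq_mul]
  rw [mul_sum]

private theorem mart_exp {V α : Type*} [Fintype V] [DecidableEq V] [Fintype α] [Nonempty α]
    (ord : V → ℕ) (hord : Function.Injective ord) (Y : V → (V → α) → ℝ)
    (hY : ∀ v x y, (∀ u, ord u ≤ ord v → x u = y u) → Y v x = Y v y)
    (hE : ∀ v x, ∑ a, Real.exp (Y v (Function.update x v a)) ≤ Fintype.card α) (M : Finset V) :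
    ∑ x, Real.exp (∑ v ∈ M, Y v x) ≤ Fintype.card (V → α) := by
  induction M using Finset.induction_on_max_value ord with
  | empty => simp
  | insert v M' hv hmax ih =>
    have hc : (0 : ℝ) < Fintype.card α := by exact_mod_cast Fintype.card_pos
    refine le_of_mul_le_mul_left ?_ hc
    rw [mart_avg _ v]
    have h1 : ∀ x : V → α, ∑ a, Real.exp (∑ u ∈ insert v M', Y u (Function.update x v a)) ≤
        Real.exp (∑ u ∈ M', Y u x) * Fintype.card α := by
      intro x
      have h2 : ∀ a, Real.exp (∑ u ∈ insert v M', Y u (Function.update x v a)) =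
          Real.exp (∑ u ∈ M', Y u x) * Real.exp (Y v (Function.update x v a)) := by
        intro a
        rw [sum_insert hv, Real.exp_add, mul_comm]
        congr 2
        refine sum_congr rfl fun u hu => ?_
        refine hY u _ _ fun w hw => ?_
        have hne : w ≠ v := by
          rintro rfl
          have h3 : ord u = ord w := le_antisymm (hmax u hu) hw
          exact hv (hord h3 ▸ hu)
        exact Function.update_of_ne hne _ _
      rw [sum_congr rfl fun a _ => h2 a, ← mul_sum]
      exact mul_le_mul_of_nonneg_left (hE v x) (Real.exp_pos _).le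
    calc ∑ x, ∑ a, Real.exp (∑ u ∈ insert v M', Y u (Function.update x v a))
        ≤ ∑ x, Real.exp (∑ u ∈ M', Y u x) * Fintype.card α := sum_le_sum fun x _ => h1 x
      _ = Fintype.card α * ∑ x, Real.exp (∑ u ∈ M', Y u x) := by rw [← sum_mul, mul_comm]
      _ ≤ Fintype.card α * Fintype.card (V → α) := mul_le_mul_of_nonneg_left ih hc.le

open Classical in
/-- The tail bound. -/
theorem mart {V α : Type*} [Fintype V] [DecidableEq V] [Fintype α] [Nonempty α] (ord : V → ℕ)
    (hord : Function.Injective ord) (Y : V → (V → α) → ℝ)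
    (hY : ∀ v x y, (∀ u, ord u ≤ ord v → x u = y u) → Y v x = Y v y)
    (hE : ∀ v x, ∑ a, Real.exp (Y v (Function.update x v a)) ≤ Fintype.card α) (M : Finset V) (t : ℝ) :
    ((univ.filter (fun x : V → α => t ≤ ∑ v ∈ M, Y v x)).card : ℝ) ≤
      Real.exp (-t) * Fintype.card (V → α) := by
  have h1 := mart_exp ord hord Y hY hE M
  have h2 : ((univ.filter (fun x : V → α => t ≤ ∑ v ∈ M, Y v x)).card : ℝ) * Real.exp t ≤
      ∑ x, Real.exp (∑ v ∈ M, Y v x) := by
    rw [← nsmul_eq_mul, ← sum_const]
    refine (sum_le_sum fun x hx => ?_).trans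
      (sum_le_sum_of_subset_of_nonneg (filter_subset _ _) fun x _ _ => (Real.exp_pos _).le)
    exact Real.exp_le_exp.2 (mem_filter.1 hx).2
  have h3 := h2.trans h1
  rw [Real.exp_neg, inv_mul_eq_div, le_div_iff₀ (Real.exp_pos t)]
  exact h3

end Pool.Agent.MP_dc7d7b.LS
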