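import Pool.Agent.Lib.MP_dc7d7b_co.LS.DevMom
import Pool.Agent.Lib.MP_dc7d7b_co.LS.Mart

set_option autoImplicit false

/-!
# Module DevSum: the sum of the deviations of the neighbours is small

PROOF.  `J = 2 P + 2`, `lam = ε₃ / (4 J²)` (so `lam J ≤ 1`), `C = (1 + e) √k`,
`Y u x = lam * dv (x u) (π u w) (blkd x u (π u w)) t - log 2 - lam² J² k - C`.
`Y u` depends on the coordinates of `u` and of earlier vertices (`blkd` uses `prev u`); in `Y u (update x u a)` the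
blocked cells do not change, so `∑ a, exp (Y u (update x u a)) ≤ |Al|` by `dev_moment`.  If
`∑ u ∈ nb0 w, dv > ε₃ k²` then, as `|nb0 w| ≤ D ≤ 4/3 k`, `log 2 ≤ 1` and `lam² J² = lam ε₃ / 4`,
`∑ Y ≥ lam ε₃ k² - (4/3) k (1 + lam ε₃ k / 4 + C) ≥ lam ε₃ k² (2/3) - (4/3) k (1 + C) ≥ lam ε₃ k² / 2`
by `hbig` (`(4/3) k (1 + C) ≤ ε₃² k² / (24 J²) = lam ε₃ k² / 6`).  `mart` with `M = nb0 w`, `t = lam ε₃ k² / 2 = ε₃² k² / (8 J²)`.
-/

namespace Pool.Agent.MP_dc7d7b.LS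

open Finset

variable {V : Type*} [Fintype V] [DecidableEq V] {k m : ℕ} (G : SimpleGraph V) [DecidableRel G.Adj] (V0 : Finset V)
  (ord : V → ℕ) (π : V → V → Equiv.Perm (Fin k))

open Classical in
theorem dev_sum {D P : ℕ} (hk : 0 < k) (hm : 0 < m) (hDk : (D : ℝ) ≤ 4 / 3 * k)
    (hdeg : ∀ v, (univ.filter (fun w => G.Adj v w)).card ≤ D) (hord : Function.Injective ord)
    (w : V) (t : Ty k P) (ε₃ : ℝ) (h3 : 0 < ε₃) (h31 : ε₃ ≤ 1)
    (hbig : 32 * (2 * P + 2) ^ 2 * ((k : ℝ) * (1 + (1 + Real.exp 1) * Real.sqrt k)) ≤ ε₃ ^ 2 * k ^ 2) :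
    ((univ.filter (fun x : V → Al k m => ε₃ * (k : ℝ) ^ 2 <
      ∑ u ∈ nb0 G V0 w, dv (x u) (π u w) (blkd G V0 ord π x u (π u w)) t)).card : ℝ) ≤
      Real.exp (-(ε₃ ^ 2 * k ^ 2 / (8 * (2 * P + 2) ^ 2))) * Fintype.card (V → Al k m) := by
  have hk' : (0 : ℝ) < k := by exact_mod_cast hk
  obtain ⟨J, hJ⟩ : ∃ J : ℝ, J = 2 * P + 2 := ⟨_, rfl⟩
  have hJ2 : 2 ≤ J := by
    rw [hJ]
    have : (0 : ℝ) ≤ P := by positivity
    linarith
  have hJ0 : 0 < J := by linarith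
  obtain ⟨lam, hlam⟩ : ∃ lam : ℝ, lam = ε₃ / (4 * J ^ 2) := ⟨_, rfl⟩
  have hlam0 : 0 < lam := by rw [hlam]; positivity
  have hlamJ2 : lam * J ^ 2 = ε₃ / 4 := by
    rw [hlam]
    field_simp
  have hlamJ : lam * J ≤ 1 := by
    have h1 : lam * J * 1 ≤ lam * J * J := mul_le_mul_of_nonneg_left (by linarith) (by positivity)
    have h2 : lam * J * J = lam * J ^ 2 := by ring
    rw [h2, hlamJ2] at h1
    linarith
  obtain ⟨C, hC⟩ : ∃ C : ℝ, C = (1 + Real.exp 1) * Real.sqrt k := ⟨_, rfl⟩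
  have hC0 : 0 ≤ C := by rw [hC]; positivity
  rw [← hJ, ← hC] at hbig
  rw [← hJ]
  obtain ⟨Y, hY⟩ : ∃ Y : V → (V → Al k m) → ℝ, Y = fun u x =>
      lam * dv (x u) (π u w) (blkd G V0 ord π x u (π u w)) t - (Real.log 2 + (lam ^ 2 * J ^ 2 * k + C)) := ⟨_, rfl⟩
  have : Nonempty (Al k m) := ⟨(1, fun _ => ⟨0, hm⟩)⟩
  have hprev : ∀ (x y : V → Al k m) (v : V) (ρ : Equiv.Perm (Fin k)), (∀ u ∈ prev G V0 ord v, x u = y u) →
      blkd G V0 ord π x v ρ = blkd G V0 ord π y v ρ := by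
    intro x y v ρ h
    unfold blkd
    refine Finset.biUnion_congr rfl ?_
    intro z hz
    rw [h z hz]
  have hprevlt : ∀ v u, u ∈ prev G V0 ord v → ord u < ord v := by
    intro v u hu
    unfold prev at hu
    exact (Finset.mem_filter.mp hu).2
  have hYc : ∀ v x y, (∀ u, ord u ≤ ord v → x u = y u) → Y v x = Y v y := by
    intro v x y h
    rw [hY]
    simp only
    rw [hprev x y v (π v w) (fun u hu => h u (hprevlt v u hu).le), h v le_rfl]
  have hYE : ∀ v x, ∑ a, Real.exp (Y v (Function.update x v a)) ≤ Fintype.card (Al k m) := by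
    intro v x
    have h1 : ∀ a, Real.exp (Y v (Function.update x v a)) =
        Real.exp (lam * dv a (π v w) (blkd G V0 ord π x v (π v w)) t) *
          Real.exp (-(Real.log 2 + (lam ^ 2 * J ^ 2 * k + C))) := by
      intro a
      rw [← Real.exp_add, hY]
      simp only
      rw [hprev (Function.update x v a) x v (π v w) (fun u hu => by
        rw [Function.update_of_ne]
        rintro rfl
        exact absurd (hprevlt _ _ hu) (lt_irrefl _)), Function.update_self, sub_eq_add_neg]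
    rw [Finset.sum_congr rfl (fun a _ => h1 a), ← Finset.sum_mul]
    have h2 := dev_moment (P := P) hk hm (π v w) (blkd G V0 ord π x v (π v w)) t lam hlam0.le
      (by rw [← hJ]; exact hlamJ)
    rw [← hJ, ← hC] at h2
    have h3 := mul_le_mul_of_nonneg_right h2 (Real.exp_pos (-(Real.log 2 + (lam ^ 2 * J ^ 2 * k + C)))).le
    refine h3.trans (le_of_eq ?_)
    have h4 : (2 : ℝ) = Real.exp (Real.log 2) := (Real.exp_log (by norm_num)).symm
    have h5 : 2 * Real.exp (lam ^ 2 * J ^ 2 * k + C) * Real.exp (-(Real.log 2 + (lam ^ 2 * J ^ 2 * k + C))) = 1 := by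
      rw [Real.exp_neg, Real.exp_add (Real.log 2), Real.exp_log (by norm_num)]
      field_simp
    rw [mul_assoc, h5, mul_one]
  have hmart := mart ord hord Y hYc hYE (nb0 G V0 w) (ε₃ ^ 2 * k ^ 2 / (8 * J ^ 2))
  refine le_trans ?_ hmart
  have hsub : univ.filter (fun x : V → Al k m => ε₃ * (k : ℝ) ^ 2 <
      ∑ u ∈ nb0 G V0 w, dv (x u) (π u w) (blkd G V0 ord π x u (π u w)) t) ⊆
      univ.filter (fun x : V → Al k m => ε₃ ^ 2 * k ^ 2 / (8 * J ^ 2) ≤ ∑ v ∈ nb0 G V0 w, Y v x) := by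
    intro x hx
    rw [Finset.mem_filter] at hx ⊢
    refine ⟨hx.1, ?_⟩
    have hlt := hx.2
    rw [hY]
    simp only
    rw [Finset.sum_sub_distrib, ← Finset.mul_sum, Finset.sum_const, nsmul_eq_mul]
    have hcard : ((nb0 G V0 w).card : ℝ) ≤ 4 / 3 * k := by
      refine le_trans ?_ hDk
      have h1 : (nb0 G V0 w).card ≤ D := by
        refine le_trans (Finset.card_le_card ?_) (hdeg w)
        intro y hy
        unfold nb0 at hy
        rw [Finset.mem_filter] at hy ⊢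
        exact ⟨Finset.mem_univ _, hy.2⟩
      exact_mod_cast h1
    have hlog : Real.log 2 ≤ 1 := by
      have := Real.log_two_lt_d9
      linarith
    have hlog0 : 0 ≤ Real.log 2 := Real.log_nonneg (by norm_num)
    have h1 : ((nb0 G V0 w).card : ℝ) * (Real.log 2 + (lam ^ 2 * J ^ 2 * k + C)) ≤
        (4 / 3 * k) * (1 + (lam * (ε₃ / 4) * k + C)) := by
      refine mul_le_mul hcard ?_ (by positivity) (by positivity)
      have h2 : lam ^ 2 * J ^ 2 = lam * (ε₃ / 4) := by rw [← hlamJ2]; ring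
      rw [h2]
      linarith
    have h2 : lam * (ε₃ * (k : ℝ) ^ 2) ≤
        lam * ∑ u ∈ nb0 G V0 w, dv (x u) (π u w) (blkd G V0 ord π x u (π u w)) t :=
      mul_le_mul_of_nonneg_left hlt.le hlam0.le
    have h3 : ε₃ ^ 2 * (k : ℝ) ^ 2 / (8 * J ^ 2) = lam * ε₃ * (k : ℝ) ^ 2 / 2 := by
      rw [hlam]
      field_simp
      norm_num
    have h4 : (k : ℝ) * (1 + C) ≤ lam * ε₃ * (k : ℝ) ^ 2 / 8 := by
      have h5 : lam * ε₃ * (k : ℝ) ^ 2 / 8 = ε₃ ^ 2 * (k : ℝ) ^ 2 / (32 * J ^ 2) := by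
        rw [hlam]
        field_simp
        norm_num
      rw [h5, le_div_iff₀ (by positivity)]
      linarith
    rw [h3]
    have h5 : (4 / 3 * k) * (1 + (lam * (ε₃ / 4) * k + C)) =
        4 / 3 * ((k : ℝ) * (1 + C)) + lam * ε₃ * (k : ℝ) ^ 2 / 3 := by ring
    have h6 : 0 ≤ lam * ε₃ * (k : ℝ) ^ 2 := by positivity
    linarith
  exact_mod_cast Finset.card_le_card hsub

end Pool.Agent.MP_dc7d7b.LS
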