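import Mathlib

set_option autoImplicit false

/-!
# Module Fam: unions of families of sets along an order

PROOFS.  `fam_sum`: induction on `M` (remove the element with the largest `ord`): for `v` the last element,
`|(A v ∪ U) ∩ W| = |U ∩ W| + |A v ∩ W| - |A v ∩ W ∩ U|`, `U` the union of the others, which are all the elements of
`M` before `v`.
`fam_mono`: the difference `∑ |A v ∩ W| - |⋃ A v ∩ W|` is the sum over the elements of `W` of
`(multiplicity - 1)` positive part; or: adding one set increases the sum by `|A v ∩ W|` and the union by at most that.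
`fam_inter`: `|X ∩ Y| = |X| + |Y| - |X ∪ Y|` for `X`, `Y` the two unions intersected with `W`, and `|X|`, `|Y|`
are at most the sums.
-/

namespace Pool.Agent.MP_dc7d7b.LS

open Finset

variable {V E : Type*} [DecidableEq V] [DecidableEq E]

private theorem fam_card (X Y W : Finset E) :
    ((X ∪ Y) ∩ W).card + (X ∩ (W ∩ Y)).card = (X ∩ W).card + (Y ∩ W).card := by
  have h := Finset.card_union_add_card_inter (X ∩ W) (Y ∩ W)
  have h1 : X ∩ W ∪ Y ∩ W = (X ∪ Y) ∩ W := by
    ext e; simp only [mem_union, mem_inter]; tauto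
  have h2 : X ∩ W ∩ (Y ∩ W) = X ∩ (W ∩ Y) := by
    ext e; simp only [mem_inter]; tauto
  rw [h1, h2] at h
  exact h

private theorem fam_card_le (A : V → Finset E) (W : Finset E) (M : Finset V) :
    (M.biUnion A ∩ W).card ≤ ∑ v ∈ M, (A v ∩ W).card := by
  have h1 : M.biUnion A ∩ W = M.biUnion (fun v => A v ∩ W) := by
    ext e
    simp only [mem_inter, mem_biUnion]
    constructor
    · rintro ⟨⟨v, hv, he⟩, hw⟩
      exact ⟨v, hv, he, hw⟩
    · rintro ⟨v, hv, he, hw⟩
      exact ⟨⟨v, hv, he⟩, hw⟩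
  rw [h1]
  exact card_biUnion_le

theorem fam_sum (ord : V → ℕ) (hord : Function.Injective ord) (A : V → Finset E) (W : Finset E) (M : Finset V) :
    ∑ v ∈ M, (A v ∩ W).card =
      (M.biUnion A ∩ W).card + ∑ v ∈ M, (A v ∩ (W ∩ (M.filter (fun u => ord u < ord v)).biUnion A)).card := by
  refine Finset.induction_on_max_value ord M ?_ ?_
  · simp
  · intro a s ha hmax ih
    have hlt : ∀ x ∈ s, ord x < ord a := by
      intro x hx
      refine lt_of_le_of_ne (hmax x hx) ?_
      intro h
      exact ha (hord h ▸ hx)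
    have hf1 : (insert a s).filter (fun u => ord u < ord a) = s := by
      ext u
      simp only [mem_filter, mem_insert]
      constructor
      · rintro ⟨h | h, h'⟩
        · subst h; exact absurd h' (lt_irrefl _)
        · exact h
      · intro h; exact ⟨Or.inr h, hlt u h⟩
    have hf2 : ∀ v ∈ s, (insert a s).filter (fun u => ord u < ord v) =
        s.filter (fun u => ord u < ord v) := by
      intro v hv
      ext u
      simp only [mem_filter, mem_insert]
      constructor
      · rintro ⟨h | h, h'⟩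
        · subst h; exact absurd h' (not_lt.2 (hlt v hv).le)
        · exact ⟨h, h'⟩
      · rintro ⟨h, h'⟩; exact ⟨Or.inr h, h'⟩
    rw [Finset.sum_insert ha, Finset.sum_insert ha, hf1, ih, Finset.biUnion_insert]
    have hs : ∑ v ∈ s, (A v ∩ (W ∩ ((insert a s).filter (fun u => ord u < ord v)).biUnion A)).card =
        ∑ v ∈ s, (A v ∩ (W ∩ (s.filter (fun u => ord u < ord v)).biUnion A)).card :=
      Finset.sum_congr rfl fun v hv => by rw [hf2 v hv]
    rw [hs]
    have hc := fam_card (A a) (s.biUnion A) W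
    omega

theorem fam_mono (A : V → Finset E) (W : Finset E) {M M' : Finset V} (h : M' ⊆ M) :
    ∑ v ∈ M', (A v ∩ W).card + (M.biUnion A ∩ W).card ≤ (M'.biUnion A ∩ W).card + ∑ v ∈ M, (A v ∩ W).card := by
  have h1 : ∑ v ∈ M \ M', (A v ∩ W).card + ∑ v ∈ M', (A v ∩ W).card = ∑ v ∈ M, (A v ∩ W).card :=
    Finset.sum_sdiff h
  have h2 := fam_card_le A W (M \ M')
  have h3 : M.biUnion A ∩ W ⊆ (M'.biUnion A ∩ W) ∪ ((M \ M').biUnion A ∩ W) := by
    intro e he
    simp only [mem_inter, mem_biUnion, mem_union, mem_sdiff] at he ⊢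
    obtain ⟨⟨v, hv, hev⟩, hw⟩ := he
    by_cases hv' : v ∈ M'
    · exact Or.inl ⟨⟨v, hv', hev⟩, hw⟩
    · exact Or.inr ⟨⟨v, ⟨hv, hv'⟩, hev⟩, hw⟩
  have h4 := (Finset.card_le_card h3).trans (Finset.card_union_le _ _)
  omega

theorem fam_inter (A : V → Finset E) (W : Finset E) {M M' : Finset V} (h : Disjoint M M') :
    ((M.biUnion A ∩ M'.biUnion A) ∩ W).card + ((M ∪ M').biUnion A ∩ W).card ≤ ∑ v ∈ M ∪ M', (A v ∩ W).card := by
  have h1 := fam_card (M.biUnion A) (M'.biUnion A) W
  have h2 : (M ∪ M').biUnion A = M.biUnion A ∪ M'.biUnion A := Finset.union_biUnion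
  have h3 : M.biUnion A ∩ M'.biUnion A ∩ W = M.biUnion A ∩ (W ∩ M'.biUnion A) := by
    ext e; simp only [mem_inter]; tauto
  have h4 := fam_card_le A W M
  have h5 := fam_card_le A W M'
  rw [h2, h3, Finset.sum_union h]
  omega

end Pool.Agent.MP_dc7d7b.LS
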