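import Pool.Agent.Lib.MP_dc7d7b_co.LS.Step

set_option autoImplicit false

/-!
# Module Mach: the parameters of the greedy procedure

PROOF: as `asym_aux` in Asym.lean (copy it).  Given `η`, `ζ`: `M = 2 (1/η + 32/(η ζ²))`, `m` a natural number
`≥ 3 M / η` (then `2 M D ≤ 2 M (4/3) k ≤ η m k`), `n₁ = 2 m`, `C = 4 + 12/ζ`, `Kc = 2 C (4/η + 1) + 10`,
`τ = η ζ² / (4000 Kc ^ (2 m))`, `T` with `2 (1/η + 1) / √T ≤ τ`, `q 0 = 2`, `q (n + 1) = q n ^ T + 1`,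
`P = q (2 m)`, `d = τ`.
For `D`, `V`, `G`, `k`: `lam = τ`, `α = √k`, `ξ = (1 + e M) / √k`, `dd n = τ Kc ^ (2 m - n)`,
`δ n = 4 dd n / η + 2 (1/η + 1) / √T ≤ dd n (4/η + 1)`, `e₁ n = C δ (n + 1) + τ + ξ / τ`; `ξ / τ ≤ τ` and
`log (D ^ D card (Ty k P)) / τ ≤ τ k²` for large `k`, exactly as in `asym_aux` (`D ≤ 2 k`).
`15 δ n ≤ 75 dd n / η ≤ ζ` and `4 dd n ≤ η ζ² / 32` because `dd n ≤ τ Kc ^ (2 m) = η ζ² / 4000`.
`hdd`: for `n < 2 m`, `dd n = Kc dd (n + 1)`, and the left side is at most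
`(τ + (4/3) (C (4/η + 1) dd (n + 1) + 3 τ) + τ) k² ≤ Kc dd (n + 1) k²` (`τ ≤ dd (n + 1)`).
`c v = c' v + (if v ∈ V0 then m else 0)` with `c'` from `lovasz G m`; `c v < 2 m`; `c w = c v` implies `c' w = c' v`
(compare modulo the two cases: if exactly one of `v`, `w` is in `V0` then `c w ≠ c v`).
-/

namespace Pool.Agent.MP_dc7d7b.LS

open Finset

theorem machine (η ζ : ℝ) (hη : 0 < η) (hη1 : η ≤ 1) (hζ : 0 < ζ) (hζ1 : ζ ≤ 1) :
    ∃ (P : ℕ) (d : ℝ), 0 < P ∧ 0 < d ∧ ∃ D₀ : ℕ, ∀ D : ℕ, D₀ ≤ D →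
    ∀ (V : Type) [Fintype V] [DecidableEq V] (G : SimpleGraph V) [DecidableRel G.Adj],
      (∀ v, (univ.filter (fun w => G.Adj v w)).card ≤ D) →
    ∀ k : ℕ, (D : ℝ) ≤ 4 / 3 * k → k ≤ 2 * D →
    ∀ (π : V → V → Equiv.Perm (Fin k)), (∀ u v, π v u = (π u v).symm) → ∀ (V0 : Finset V)
      (K : V → Finset (Fin k)) (g : V → Equiv.Perm (Fin k)), (∀ u, u ∉ V0 → K u = ∅) →
      (∀ u, 2 * (K u).card ≤ k) →
      (∀ u v, G.Adj u v → ∀ i, i ∈ K u → i ∈ K v → π u v (g u i) ≠ g v i) →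
      (∀ w i, i ∉ K w → ((nbp G V0 w).card : ℝ) + ζ * k ≤ (k : ℝ) - (K w).card + sav G V0 π K g w (rowl i)) →
      (∀ w c, (g w).symm c ∉ K w →
        ((nbp G V0 w).card : ℝ) + ζ * k ≤ (k : ℝ) - (K w).card + sav G V0 π K g w (coll c)) →
      (∀ w, ∀ t : Ty k P, ∑ u ∈ nbp G V0 w, zz (K u) (g u) (π u w) (tyset t) -
        sav G V0 π K g w (tyset t) ≤ (1 - 2 * η) * (tyset t).card + d * (k : ℝ) ^ 2) →
    ∃ f : V → Equiv.Perm (Fin k), ∀ u v, G.Adj u v → ∀ i, π u v (f u i) ≠ f v i := by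
  classical
  obtain ⟨M, hM⟩ : ∃ M : ℝ, M = 2 * (1 / η + 32 / (η * ζ ^ 2)) := ⟨_, rfl⟩
  have hM0 : 0 < M := by rw [hM]; positivity
  obtain ⟨m, hm⟩ : ∃ m : ℕ, 3 * M / η ≤ m := exists_nat_ge _
  have hm0 : 0 < m := by
    have h1 : 0 < 3 * M / η := by positivity
    have h2 : (0 : ℝ) < m := lt_of_lt_of_le h1 hm
    exact_mod_cast h2
  have hm' : (0 : ℝ) < m := by exact_mod_cast hm0
  obtain ⟨C, hC⟩ : ∃ C : ℝ, C = 4 + 12 / ζ := ⟨_, rfl⟩
  have hC0 : 0 < C := by rw [hC]; positivity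
  obtain ⟨K₁, hK₁⟩ : ∃ K₁ : ℝ, K₁ = 2 * C * (4 / η + 1) + 10 := ⟨_, rfl⟩
  have hK1 : 1 ≤ K₁ := by
    rw [hK₁]
    have : 0 < 2 * C * (4 / η + 1) := by positivity
    linarith
  obtain ⟨τ, hτ⟩ : ∃ τ : ℝ, τ = η * ζ ^ 2 / (4000 * K₁ ^ (2 * m)) := ⟨_, rfl⟩
  have hKm : 1 ≤ K₁ ^ (2 * m) := one_le_pow₀ hK1
  have hKp : 0 < K₁ := by linarith
  have hτ0 : 0 < τ := by rw [hτ]; positivity
  have hτK : τ * K₁ ^ (2 * m) = η * ζ ^ 2 / 4000 := by
    rw [hτ]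
    field_simp
  have hηζ : η * ζ ^ 2 ≤ 1 := by
    have h1 : ζ ^ 2 ≤ 1 := pow_le_one₀ hζ.le hζ1
    calc η * ζ ^ 2 ≤ 1 * 1 := mul_le_mul hη1 h1 (by positivity) zero_le_one
      _ = 1 := one_mul 1
  have hτ1 : τ ≤ 1 := by
    have h1 : τ * 1 ≤ τ * K₁ ^ (2 * m) := mul_le_mul_of_nonneg_left hKm hτ0.le
    rw [hτK] at h1
    linarith
  obtain ⟨T, hT⟩ : ∃ T : ℕ, (2 * (1 / η + 1) / τ) ^ 2 ≤ T := exists_nat_ge _
  have hT0 : 0 < T := by
    have h1 : 0 < (2 * (1 / η + 1) / τ) ^ 2 := by positivity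
    have h2 : (0 : ℝ) < T := lt_of_lt_of_le h1 hT
    exact_mod_cast h2
  have hT' : (0 : ℝ) < T := by exact_mod_cast hT0
  have hTτ : 2 * (1 / η + 1) / Real.sqrt T ≤ τ := by
    have h1 : 2 * (1 / η + 1) / τ ≤ Real.sqrt T := Real.le_sqrt_of_sq_le hT
    have h2 : 0 < Real.sqrt T := Real.sqrt_pos.mpr hT'
    rw [div_le_iff₀ h2]
    rw [div_le_iff₀ hτ0] at h1
    linarith
  obtain ⟨q, hq0, hqs⟩ : ∃ q : ℕ → ℕ, q 0 = 2 ∧ ∀ n, q (n + 1) = q n ^ T + 1 :=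
    ⟨fun n => Nat.rec 2 (fun _ x => x ^ T + 1) n, rfl, fun _ => rfl⟩
  have hqm : Monotone q := by
    refine monotone_nat_of_le_succ ?_
    intro n
    rw [hqs]
    exact (Nat.le_self_pow hT0.ne' _).trans (Nat.le_succ _)
  have hq2 : ∀ n, 2 ≤ q n := by
    intro n
    rw [← hq0]
    exact hqm (Nat.zero_le n)
  obtain ⟨Q, hQ⟩ : ∃ Q : ℕ, Q = q (2 * m) := ⟨_, rfl⟩
  -- the threshold
  obtain ⟨D₀, hD₀⟩ : ∃ D₀ : ℕ, ((1 + Real.exp 1 * M + (4 + 2 * Q + (Q : ℝ) ^ 2)) / τ ^ 2) ^ 2 ≤ D₀ :=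
    exists_nat_ge _
  refine ⟨q (2 * m), τ, by have := hq2 (2 * m); omega, hτ0, 2 * D₀ + 2, ?_⟩
  intro D hD V _ _ G _ hdeg k hDk hkD π hπ V0 K g hK0 hKk hfree hrow hcol hbox
  have hD0 : 1 ≤ D := by omega
  have hD' : (1 : ℝ) ≤ D := by exact_mod_cast hD0
  have hDD : 2 * (D₀ : ℝ) + 2 ≤ D := by exact_mod_cast hD
  have hkD₀ : (D₀ : ℝ) ≤ k := by
    have : (0 : ℝ) ≤ D₀ := by positivity
    linarith
  have hk1 : (1 : ℝ) ≤ k := by
    have : (0 : ℝ) ≤ D₀ := by positivity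
    linarith
  have hk' : (0 : ℝ) < k := by linarith
  have hk0 : 0 < k := by exact_mod_cast hk'
  have hsk : 0 < Real.sqrt k := Real.sqrt_pos.mpr hk'
  have hsk1 : 1 ≤ Real.sqrt k := by
    rw [Real.one_le_sqrt]
    exact hk1
  have hsk2 : Real.sqrt k * Real.sqrt k = k := Real.mul_self_sqrt hk'.le
  have hthr : (1 + Real.exp 1 * M + (4 + 2 * Q + (Q : ℝ) ^ 2)) / τ ^ 2 ≤ Real.sqrt k :=
    Real.le_sqrt_of_sq_le (hD₀.trans hkD₀)
  have hthr1 : (1 + Real.exp 1 * M) / Real.sqrt k ≤ τ ^ 2 := by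
    rw [div_le_iff₀ (by positivity)] at hthr
    rw [div_le_iff₀ hsk]
    have : (0 : ℝ) ≤ 4 + 2 * Q + (Q : ℝ) ^ 2 := by positivity
    linarith
  have hthr2 : (4 + 2 * Q + (Q : ℝ) ^ 2) / Real.sqrt k ≤ τ ^ 2 := by
    rw [div_le_iff₀ (by positivity)] at hthr
    rw [div_le_iff₀ hsk]
    have : (0 : ℝ) ≤ 1 + Real.exp 1 * M := by positivity
    linarith
  obtain ⟨ξ, hξ⟩ : ∃ ξ : ℝ, ξ = (1 + Real.exp 1 * M) / Real.sqrt k := ⟨_, rfl⟩
  have hξ0 : 0 ≤ ξ := by rw [hξ]; positivity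
  have hξτ : ξ / τ ≤ τ := by
    rw [div_le_iff₀ hτ0, hξ]
    calc _ ≤ τ ^ 2 := hthr1
      _ = τ * τ := by ring
  obtain ⟨c, hc⟩ := lovasz G m hm0
  obtain ⟨cc, hcc⟩ : ∃ cc : V → ℕ, cc = fun v => (c v : ℕ) + (if v ∈ V0 then m else 0) := ⟨_, rfl⟩
  have hcc1 : ∀ v, v ∈ V0 → cc v = (c v : ℕ) + m := by
    intro v hv
    rw [hcc]
    simp only [if_pos hv]
  have hcc2 : ∀ v, v ∉ V0 → cc v = (c v : ℕ) := by
    intro v hv
    rw [hcc]
    simp only [if_neg hv, add_zero]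
  -- errors
  obtain ⟨dd, hdd⟩ : ∃ dd : ℕ → ℝ, dd = fun n => τ * K₁ ^ (2 * m - n) := ⟨_, rfl⟩
  have hddτ : ∀ n, τ ≤ dd n := by
    intro n
    rw [hdd]
    simp only
    calc τ = τ * 1 := (mul_one τ).symm
      _ ≤ τ * K₁ ^ (2 * m - n) := mul_le_mul_of_nonneg_left (one_le_pow₀ hK1) hτ0.le
  have hddm : ∀ n n', n ≤ n' → dd n' ≤ dd n := by
    intro n n' h
    rw [hdd]
    simp only
    exact mul_le_mul_of_nonneg_left (pow_le_pow_right₀ hK1 (by omega)) hτ0.le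
  have hddle : ∀ n, dd n ≤ η * ζ ^ 2 / 4000 := by
    intro n
    rw [← hτK, hdd]
    simp only
    exact mul_le_mul_of_nonneg_left (pow_le_pow_right₀ hK1 (by omega)) hτ0.le
  have hdds : ∀ n < 2 * m, dd n = K₁ * dd (n + 1) := by
    intro n hn
    rw [hdd]
    simp only
    have : 2 * m - n = (2 * m - (n + 1)) + 1 := by omega
    rw [this, pow_succ]
    ring
  have hdd0 : ∀ n, 0 < dd n := fun n => lt_of_lt_of_le hτ0 (hddτ n)
  obtain ⟨δ, hδ⟩ : ∃ δ : ℕ → ℝ, δ = fun n => 4 * dd n / η + 2 * (1 / η + 1) / Real.sqrt T := ⟨_, rfl⟩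
  have hδ0 : ∀ n, 0 ≤ δ n := by
    intro n
    rw [hδ]
    have := hdd0 n
    positivity
  have hδle : ∀ n, δ n ≤ dd n * (4 / η + 1) := by
    intro n
    rw [hδ]
    simp only
    have := hddτ n
    have h1 : 4 * dd n / η = dd n * (4 / η) := by ring
    rw [h1]
    linarith
  have hδm : ∀ n n', n ≤ n' → δ n' ≤ δ n := by
    intro n n' h
    rw [hδ]
    simp only
    have h1 : 4 * dd n' / η ≤ 4 * dd n / η := by
      rw [div_le_div_iff_of_pos_right hη]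
      have := hddm n n' h
      linarith
    linarith
  refine greedy2 hk0 G V0 π hπ K g hK0 hKk hfree m D (2 * m) T hm0 hD0 hT0 hdeg q hq2 hqm hqs cc ?_ ?_ ?_
    M τ (Real.sqrt k) ξ η ζ τ dd δ (fun n => C * δ (n + 1) + τ + ξ / τ) hη hη1 hζ hζ1 hM hτ0 hτ1 hsk hξ0 (by
      intro n
      have := hδ0 (n + 1)
      positivity) (fun n => (hdd0 n).le) ?_ (fun n => by rw [hδ]) ?_ ?_ ?_ ?_ ?_ hrow hcol hbox
  · -- the classes
    intro v
    by_cases hv : v ∈ V0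
    · rw [hcc1 v hv]
      have := (c v).2
      omega
    · rw [hcc2 v hv]
      have := (c v).2
      omega
  · intro u v hu hv
    rw [hcc1 u hu, hcc2 v hv]
    have := (c v).2
    omega
  · intro v
    refine le_trans (Nat.mul_le_mul_left m (Finset.card_le_card ?_)) ((hc v).trans (hdeg v))
    intro w hw
    rw [Finset.mem_filter] at hw ⊢
    refine ⟨hw.1, hw.2.1, ?_⟩
    have h1 := hw.2.2
    have h2 := (c v).2
    have h3 := (c w).2
    refine Fin.ext ?_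
    by_cases hv : v ∈ V0
    · by_cases hw0 : w ∈ V0
      · rw [hcc1 v hv, hcc1 w hw0] at h1
        omega
      · rw [hcc1 v hv, hcc2 w hw0] at h1
        omega
    · by_cases hw0 : w ∈ V0
      · rw [hcc2 v hv, hcc1 w hw0] at h1
        omega
      · rw [hcc2 v hv, hcc2 w hw0] at h1
        omega
  · -- ξ
    have h1 : (k : ℝ) / (1 + Real.sqrt k) ≤ Real.sqrt k := by
      rw [div_le_iff₀ (by positivity)]
      nlinarith
    have h2 : ξ * k = Real.sqrt k * (1 + Real.exp 1 * M) := by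
      rw [hξ]
      field_simp
      rw [sq, hsk2]
    rw [h2]
    linarith
  · -- dd
    intro n
    have := hddle n
    have h1 : 0 < η * ζ ^ 2 := by positivity
    linarith
  · -- δ
    intro n
    have h1 := hδle n
    have h2 := mul_le_mul_of_nonneg_right (hddle n) (show 0 ≤ 4 / η + 1 by positivity)
    have h3 : η * ζ ^ 2 / 4000 * (4 / η + 1) = ζ ^ 2 * (4 + η) / 4000 := by
      field_simp
    rw [h3] at h2
    have h4 : ζ ^ 2 * (4 + η) ≤ ζ * 5 := by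
      have : ζ ^ 2 ≤ ζ := by nlinarith
      exact mul_le_mul this (by linarith) (by positivity) hζ.le
    linarith
  · -- M
    rw [div_le_iff₀ hη] at hm
    have h1 : 3 * M * k ≤ η * m * k := by
      refine mul_le_mul_of_nonneg_right ?_ hk'.le
      linarith
    have h2 : 2 * M * D ≤ 2 * M * (4 / 3 * k) := mul_le_mul_of_nonneg_left hDk (by positivity)
    have h3 : 0 ≤ M * k := by positivity
    linarith
  · -- e₁
    intro n n' hn' _
    have h1 : δ n ≤ δ (n' + 1) := hδm _ _ hn'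
    have h2 := mul_le_mul_of_nonneg_left h1 hC0.le
    rw [← hC]
    linarith
  · -- the error recursion
    intro n hn
    have hcard := card_ty_le (k := k) (p := q (n + 1)) (by have := hq2 (n + 1); omega)
    have hcardpos : (0 : ℝ) < Fintype.card (Ty k (q (n + 1))) := by
      have : NeZero (q (n + 1)) := ⟨by have := hq2 (n + 1); omega⟩
      have : 0 < Fintype.card (Ty k (q (n + 1))) := Fintype.card_pos_iff.mpr ⟨((fun _ => 0, fun _ => 0), ∅)⟩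
      exact_mod_cast this
    have hqQ : (q (n + 1) : ℝ) ≤ Q := by
      rw [hQ]
      exact_mod_cast hqm hn
    have hlogD : Real.log D ≤ 2 * Real.sqrt k := by
      have h0 : (D : ℝ) ≤ 2 * k := by linarith
      have h1 : Real.log D ≤ Real.log (2 * k) := Real.log_le_log (by linarith) h0
      rw [Real.log_mul (by norm_num) hk'.ne'] at h1
      have h2 : Real.log k = 2 * Real.log (Real.sqrt k) := by
        rw [Real.log_sqrt hk'.le]
        ring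
      have h3 := Real.log_le_sub_one_of_pos hsk
      have h4 : Real.log 2 ≤ 1 := by
        have := Real.log_two_lt_d9
        linarith
      linarith
    have hcost : Real.log ((D : ℝ) ^ D * Fintype.card (Ty k (q (n + 1)))) ≤
        (4 + 2 * Q + (Q : ℝ) ^ 2) * (k * Real.sqrt k) := by
      rw [Real.log_mul (by positivity) hcardpos.ne', Real.log_pow]
      have h1 : (D : ℝ) * Real.log D ≤ (2 * k) * (2 * Real.sqrt k) :=
        mul_le_mul (by linarith) hlogD (Real.log_nonneg hD') (by positivity)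
      have h2 : (2 : ℝ) * k * q (n + 1) ≤ 2 * Q * (k * Real.sqrt k) := by
        calc (2 : ℝ) * k * q (n + 1) ≤ 2 * k * Q := mul_le_mul_of_nonneg_left hqQ (by positivity)
          _ = 2 * Q * (k * 1) := by ring
          _ ≤ _ := by
            refine mul_le_mul_of_nonneg_left ?_ (by positivity)
            exact mul_le_mul_of_nonneg_left hsk1 hk'.le
      have h3 : (q (n + 1) : ℝ) ^ 2 ≤ (Q : ℝ) ^ 2 * (k * Real.sqrt k) := by
        have h4 : (q (n + 1) : ℝ) ^ 2 ≤ (Q : ℝ) ^ 2 := pow_le_pow_left₀ (by positivity) hqQ 2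
        have h5 : (1 : ℝ) ≤ k * Real.sqrt k := by
          calc (1 : ℝ) = 1 * 1 := by ring
            _ ≤ _ := mul_le_mul hk1 hsk1 zero_le_one hk'.le
        calc (q (n + 1) : ℝ) ^ 2 ≤ (Q : ℝ) ^ 2 * 1 := by linarith
          _ ≤ _ := mul_le_mul_of_nonneg_left h5 (by positivity)
      linarith
    have hcost2 : Real.log ((D : ℝ) ^ D * Fintype.card (Ty k (q (n + 1)))) / τ ≤ τ * (k : ℝ) ^ 2 := by
      rw [div_le_iff₀ hτ0]
      refine hcost.trans ?_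
      rw [div_le_iff₀ hsk] at hthr2
      have h1 : (4 + 2 * Q + (Q : ℝ) ^ 2) * (k * Real.sqrt k) ≤ (τ ^ 2 * Real.sqrt k) * (k * Real.sqrt k) :=
        mul_le_mul_of_nonneg_right hthr2 (by positivity)
      refine h1.trans (le_of_eq ?_)
      calc (τ ^ 2 * Real.sqrt k) * (k * Real.sqrt k) = τ ^ 2 * k * (Real.sqrt k * Real.sqrt k) := by ring
        _ = _ := by rw [hsk2]; ring
    have h1 : (D : ℝ) * ((C * δ (n + 1) + τ + ξ / τ + ξ / τ) * k) ≤
        (4 / 3 * k) * ((C * (dd (n + 1) * (4 / η + 1)) + τ + τ + τ) * k) := by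
      have h2 := mul_le_mul_of_nonneg_left (hδle (n + 1)) hC0.le
      have h3 := hδ0 (n + 1)
      refine mul_le_mul hDk ?_ (by positivity) (by positivity)
      refine mul_le_mul_of_nonneg_right ?_ hk'.le
      linarith
    have h2 : dd n * (k : ℝ) ^ 2 = k * ((2 * (C * (dd (n + 1) * (4 / η + 1))) + 10 * dd (n + 1)) * k) := by
      rw [hdds n hn, hK₁]
      ring
    have h3 : (4 / 3 * k) * ((C * (dd (n + 1) * (4 / η + 1)) + τ + τ + τ) * k) + τ * (k : ℝ) ^ 2 +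
        τ * (k : ℝ) ^ 2 ≤ k * ((2 * (C * (dd (n + 1) * (4 / η + 1))) + 10 * dd (n + 1)) * k) := by
      have h4 := hddτ (n + 1)
      have h6 : 0 ≤ C * (dd (n + 1) * (4 / η + 1)) := by
        have := hdd0 (n + 1)
        positivity
      have h5 : (4 / 3 * k) * ((C * (dd (n + 1) * (4 / η + 1)) + τ + τ + τ) * k) + τ * (k : ℝ) ^ 2 +
          τ * (k : ℝ) ^ 2 = k * ((4 / 3 * (C * (dd (n + 1) * (4 / η + 1))) + 6 * τ) * k) := by ring
      rw [h5]
      refine mul_le_mul_of_nonneg_left ?_ hk'.le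
      refine mul_le_mul_of_nonneg_right ?_ hk'.le
      linarith
    rw [h2]
    linarith

end Pool.Agent.MP_dc7d7b.LS
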