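import Mathlib

set_option autoImplicit false

/-!
# Module Part: a weighted partition

PROOF (compare `lovasz` in Lovasz.lean).  Choose `V0` with the smallest value of
`E(V0) = #{(x, y) | G.Adj x y, x, y ∈ V0} + s #{(x, y) | G.Adj x y, x, y ∉ V0}`.  For a vertex `v` let `a` be the
number of neighbours in `V0`, `b` the number outside.  Moving `v` changes only the pairs with `x = v` or `y = v`:
they contribute `2 a` if `v ∈ V0` and `2 s b` if `v ∉ V0`.  So `v ∈ V0` implies `a ≤ s b`, i.e. `(s + 1) a ≤ s (a + b)`,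
and `v ∉ V0` implies `s b ≤ a`, i.e. `(s + 1) b ≤ a + b`.
-/

namespace Pool.Agent.MP_dc7d7b.LS

open Finset

theorem part {V : Type*} [Fintype V] [DecidableEq V] (G : SimpleGraph V) [DecidableRel G.Adj] (s : ℕ) :
    ∃ V0 : Finset V,
      (∀ v ∈ V0, (s + 1) * (V0.filter (fun u => G.Adj v u)).card ≤ s * (univ.filter (fun u => G.Adj v u)).card) ∧
      ∀ v ∉ V0, (s + 1) * ((univ.filter (fun u => G.Adj v u)) \ V0).card ≤
        (univ.filter (fun u => G.Adj v u)).card := by
  classical
  obtain ⟨F, hF⟩ : ∃ F : Finset V → V → V → ℕ, F = fun A x y =>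
      if G.Adj x y then (if x ∈ A ∧ y ∈ A then 1 else if x ∉ A ∧ y ∉ A then s else 0) else 0 := ⟨_, rfl⟩
  have hFs : ∀ A x y, F A x y = F A y x := by
    intro A x y
    rw [hF]
    simp only [G.adj_comm y x, and_comm (a := y ∈ A), and_comm (a := y ∉ A)]
  have hF0 : ∀ A x, F A x x = 0 := by
    intro A x
    rw [hF]
    simp only [G.irrefl, if_false]
  obtain ⟨E, hE⟩ : ∃ E : Finset V → ℕ, E = fun A => ∑ x, ∑ y, F A x y := ⟨_, rfl⟩
  obtain ⟨V0, _, hV0⟩ := Finset.exists_min_image (univ : Finset (Finset V)) E ⟨∅, Finset.mem_univ _⟩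
  have hdec : ∀ (A : Finset V) (v : V), E A = 2 * ∑ y, F A v y +
      ∑ x ∈ univ.erase v, ∑ y ∈ univ.erase v, F A x y := by
    intro A v
    have h1 : E A = (∑ y, F A v y) + ∑ x ∈ univ.erase v, ∑ y, F A x y := by
      rw [hE]
      exact (Finset.add_sum_erase _ _ (Finset.mem_univ v)).symm
    have h2 : ∀ x, ∑ y, F A x y = F A x v + ∑ y ∈ univ.erase v, F A x y := by
      intro x
      exact (Finset.add_sum_erase _ _ (Finset.mem_univ v)).symm
    have h3 : ∑ x ∈ univ.erase v, F A x v = ∑ x, F A v x := by
      rw [← Finset.add_sum_erase _ _ (Finset.mem_univ v), hF0, zero_add]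
      exact Finset.sum_congr rfl (fun x _ => hFs A x v)
    rw [h1, Finset.sum_congr rfl (fun x _ => h2 x), Finset.sum_add_distrib, h3]
    ring
  have hrest : ∀ (A B : Finset V) (v : V), (∀ x, x ≠ v → (x ∈ A ↔ x ∈ B)) →
      ∑ x ∈ univ.erase v, ∑ y ∈ univ.erase v, F A x y = ∑ x ∈ univ.erase v, ∑ y ∈ univ.erase v, F B x y := by
    intro A B v h
    refine Finset.sum_congr rfl ?_
    intro x hx
    refine Finset.sum_congr rfl ?_
    intro y hy
    rw [hF]
    simp only [h x (Finset.ne_of_mem_erase hx), h y (Finset.ne_of_mem_erase hy)]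
  have hin : ∀ (A : Finset V) (v : V), v ∈ A → ∑ y, F A v y = (A.filter (fun u => G.Adj v u)).card := by
    intro A v hv
    have h1 : ∀ y, F A v y = if y ∈ A ∧ G.Adj v y then 1 else 0 := by
      intro y
      rw [hF]
      simp only [hv, true_and, not_true_eq_false, false_and, if_false]
      by_cases h : G.Adj v y <;> by_cases h' : y ∈ A <;> simp [h, h']
    rw [Finset.sum_congr rfl (fun y _ => h1 y), Finset.sum_boole, Nat.cast_id]
    congr 1
    ext y
    simp only [Finset.mem_filter, Finset.mem_univ, true_and]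
  have hout : ∀ (A : Finset V) (v : V), v ∉ A →
      ∑ y, F A v y = s * ((univ.filter (fun u => G.Adj v u)) \ A).card := by
    intro A v hv
    have h1 : ∀ y, F A v y = if y ∉ A ∧ G.Adj v y then s else 0 := by
      intro y
      rw [hF]
      simp only [hv, not_false_eq_true, true_and, false_and, if_false]
      by_cases h : G.Adj v y <;> by_cases h' : y ∈ A <;> simp [h, h']
    rw [Finset.sum_congr rfl (fun y _ => h1 y), ← Finset.sum_filter, Finset.sum_const, smul_eq_mul, mul_comm]
    congr 2
    ext y
    simp only [Finset.mem_filter, Finset.mem_univ, true_and, Finset.mem_sdiff]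
    tauto
  have hsplit : ∀ v, (V0.filter (fun u => G.Adj v u)).card + ((univ.filter (fun u => G.Adj v u)) \ V0).card =
      (univ.filter (fun u => G.Adj v u)).card := by
    intro v
    rw [← Finset.card_inter_add_card_sdiff (univ.filter (fun u => G.Adj v u)) V0]
    congr 2
    ext y
    simp only [Finset.mem_filter, Finset.mem_univ, true_and, Finset.mem_inter]
    tauto
  refine ⟨V0, ?_, ?_⟩
  · intro v hv
    have h1 := hV0 (V0.erase v) (Finset.mem_univ _)
    rw [hdec V0 v, hdec (V0.erase v) v, hin V0 v hv, hout (V0.erase v) v (Finset.notMem_erase v V0),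
      hrest V0 (V0.erase v) v (fun x hx => by rw [Finset.mem_erase]; tauto)] at h1
    have h2 : (univ.filter (fun u => G.Adj v u)) \ V0.erase v = (univ.filter (fun u => G.Adj v u)) \ V0 := by
      ext y
      simp only [Finset.mem_sdiff, Finset.mem_filter, Finset.mem_univ, true_and, Finset.mem_erase]
      constructor
      · rintro ⟨h, h'⟩
        exact ⟨h, fun h2 => h' ⟨h.ne', h2⟩⟩
      · rintro ⟨h, h'⟩
        exact ⟨h, fun h2 => h' h2.2⟩
    rw [h2] at h1
    have h3 := hsplit v
    rw [← h3]
    have h4 : (V0.filter (fun u => G.Adj v u)).card ≤ s * ((univ.filter (fun u => G.Adj v u)) \ V0).card := by omega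
    calc (s + 1) * (V0.filter (fun u => G.Adj v u)).card
        = s * (V0.filter (fun u => G.Adj v u)).card + (V0.filter (fun u => G.Adj v u)).card := by ring
      _ ≤ s * (V0.filter (fun u => G.Adj v u)).card + s * ((univ.filter (fun u => G.Adj v u)) \ V0).card :=
          Nat.add_le_add_left h4 _
      _ = _ := by ring
  · intro v hv
    have h1 := hV0 (insert v V0) (Finset.mem_univ _)
    rw [hdec V0 v, hdec (insert v V0) v, hout V0 v hv, hin (insert v V0) v (Finset.mem_insert_self v V0),
      hrest V0 (insert v V0) v (fun x hx => by rw [Finset.mem_insert]; tauto)] at h1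
    have h2 : (insert v V0).filter (fun u => G.Adj v u) = V0.filter (fun u => G.Adj v u) := by
      rw [Finset.filter_insert, if_neg G.irrefl]
    rw [h2] at h1
    have h3 := hsplit v
    rw [← h3]
    have h4 : s * ((univ.filter (fun u => G.Adj v u)) \ V0).card ≤ (V0.filter (fun u => G.Adj v u)).card := by omega
    calc (s + 1) * ((univ.filter (fun u => G.Adj v u)) \ V0).card
        = s * ((univ.filter (fun u => G.Adj v u)) \ V0).card + ((univ.filter (fun u => G.Adj v u)) \ V0).card := by
          ring
      _ ≤ _ := Nat.add_le_add_right h4 _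

end Pool.Agent.MP_dc7d7b.LS
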