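import Pool.Agent.Lib.MP_dc7d7b_co.Main

set_option autoImplicit false

/-!
# Module Trans: the matchings as permutations

PROOF.  `exists_extend` (Main.lean) gives for all `u`, `w` a permutation `π₀ u w` with
`H.Adj (u, a) (w, b) → π₀ u w a = b`.  Take an injective `ord : V → ℕ` and let `π u w = π₀ u w` if `ord u < ord w`,
`π u w = (π₀ w u).symm` if `ord w < ord u` and the identity if `u = w` (there is no edge in a fibre).
-/

namespace Pool.Agent.MP_dc7d7b.LS

open Finset

theorem trans_exists {V : Type*} [Fintype V] {k : ℕ} {G : SimpleGraph V} {H : SimpleGraph (V × Fin k)}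
    (hH : Cover G H) :
    ∃ π : V → V → Equiv.Perm (Fin k), (∀ u v, π v u = (π u v).symm) ∧
      ∀ u v a b, H.Adj (u, a) (v, b) → π u v a = b := by
  classical
  have hπ : ∀ u w : V, ∃ π : Equiv.Perm (Fin k), ∀ a b, H.Adj (u, a) (w, b) → π a = b := by
    intro u w
    exact exists_extend (fun a b => H.Adj (u, a) (w, b))
        (fun a b b' h h' => hH.mat _ _ _ _ _ h h')
        (fun a a' b h h' => hH.mat _ _ _ _ _ h.symm h'.symm)
  choose π₀ hπ₀ using hπ
  obtain ⟨ord, hord⟩ : ∃ ord : V → ℕ, Function.Injective ord :=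
    ⟨fun v => (Fintype.equivFin V v : ℕ), fun a b h => (Fintype.equivFin V).injective (Fin.ext h)⟩
  refine ⟨fun u w => if ord u < ord w then π₀ u w else if ord w < ord u then (π₀ w u).symm else 1, ?_, ?_⟩
  · intro u v
    simp only
    rcases lt_trichotomy (ord u) (ord v) with h | h | h
    · rw [if_neg (not_lt.mpr h.le), if_pos h, if_pos h]
    · rw [if_neg (not_lt.mpr h.le), if_neg (not_lt.mpr h.ge), if_neg (not_lt.mpr h.ge), if_neg (not_lt.mpr h.le)]
      rfl
    · rw [if_pos h, if_neg (not_lt.mpr h.le), if_pos h, Equiv.symm_symm]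
  · intro u v a b hadj
    simp only
    rcases lt_trichotomy (ord u) (ord v) with h | h | h
    · rw [if_pos h]
      exact hπ₀ u v a b hadj
    · exfalso
      have := hord h
      subst this
      exact hH.fib _ _ _ hadj
    · rw [if_neg (not_lt.mpr h.le), if_pos h, Equiv.symm_apply_eq]
      exact (hπ₀ v u b a hadj.symm).symm

end Pool.Agent.MP_dc7d7b.LS
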