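import Pool.Agent.Lib.MP_dc7d7b_co.LS.Kept
import Pool.Agent.Lib.MP_dc7d7b_co.LS.Mach
import Pool.Agent.Lib.MP_dc7d7b_co.LS.Part
import Pool.Agent.Lib.MP_dc7d7b_co.LS.Trans

set_option autoImplicit false

/-!
# Module Final: packings of covers of locally sparse graphs

PROOF.  We may assume `η ≤ 1` (replace `η` by `min η 1`).
Constants: `s = ⌈12 / η⌉` (natural), `ε' = 1 / (s + 1)`, so `η / 14 ≤ ε' ≤ η / 12`; `η₁ = η / 100`; `τ` from
`kept_exists η₁` (`τ ≤ η₁`); `c = τ / 8`, `ζ = τ / 2`, `ηm = τ / 8`; `P`, `d`, `D₁` from `machine ηm ζ`; `D₂` from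
`kept_exists` for `P`, `d₀ = d / 2`; `D₃` from `asym 1` (the case `k ≥ 2 D`); `D₀` the maximum of these and `6 / η`.
Let `k ≥ (1 - c) D`; if `k ≥ 2 D` use `asym 1`.  Otherwise `k ≤ 2 D`, and `D ≤ k / (1 - c) ≤ (1 + 2 c) k ≤ 4/3 k`.
`V0` from `part G s`, `π` from `trans_exists`, `K`, `g` from `kept_exists`.  Hypotheses of `machine`:
(a) `w ∈ V0`: `nbp w = nb0 w` has at most `(1 - ε') D ≤ (1 - ε') (1 + 2 c) k` elements, `sav ≥ 0`, `|K w| ≤ η₁ k`:
lines: `(1 - ε')(1 + 2 c) + ζ ≤ 1 - η₁`; boxes: `∑ zz ≤ ((1 - ε')(1 + 2 c) + τ / 2) |W| + d₀ k²`, and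
`(1 - ε')(1 + 2 c) + τ / 2 ≤ 1 - 2 ηm` (`ε' ≥ η / 14`, `τ ≤ η / 100`).
(b) `w ∉ V0` (`K w = ∅`), `deg w ≤ (1 - η / 4) D`: `nbp w = N(w)`, lines:
`(1 - η / 4)(1 + 2 c) + ζ ≤ 1`; boxes: for `u ∈ N(w)` outside `V0`, `zz ∅ (g u) _ W = |W| / k`, so
`∑ u ∈ N(w), zz ≤ (deg w / k + τ / 2) |W| + d₀ k²`, and `(1 - η / 4)(1 + 2 c) + τ / 2 ≤ 1 - 2 ηm`; `sav ≥ 0`.
(c) `w ∉ V0`, `deg w > (1 - η / 4) D`: the number of ordered pairs of distinct non-adjacent vertices of `N(w)` is at
least `deg² - deg - (1 - η) D² ≥ ((1 - η/4)² - (1 - η)) D² - D ≥ (η / 2) D² - D ≥ (η / 3) D²` (`D ≥ 6 / η`), and at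
most `2 ε' D * D ≤ (η / 6) D²` of them have a member outside `V0` (`part`: at most `deg w / (s + 1) ≤ ε' D` neighbours
outside `V0`), so at least `(η / 6) D² ≥ 2 η₁ D²` are in `nb0 w ×ˢ nb0 w`.  So `sav ≥ τ k` on lines:
`(1 + 2 c) k + ζ k ≤ k + τ k`; boxes: `∑ zz - sav ≤ (D / k + τ / 2 - τ) |W| + 2 d₀ k²` and
`1 + 2 c - τ / 2 ≤ 1 - 2 ηm`.
The permutations `f` of `machine` are a packing by `trans_exists`: `H.Adj (u, f u i) (v, f v i)` would give
`π u v (f u i) = f v i`, and `G.Adj u v` by `Cover.edge`.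
-/

namespace Pool.Agent.MP_dc7d7b.LS

open Finset

/-- `zz` for a vertex without kept cells. -/
theorem zz_empty {k : ℕ} (hk : 0 < k) (g ρ : Equiv.Perm (Fin k)) (W : Finset (Fin k × Fin k)) :
    zz ∅ g ρ W = W.card / k := by
  have h0 : (0 : ℝ) < k := by exact_mod_cast hk
  unfold zz
  have h1 : cells (∅ : Finset (Fin k)) g ρ = ∅ := by unfold cells; exact image_empty _
  have h2 : fboard (∅ : Finset (Fin k)) g ρ = univ := by
    unfold fboard
    refine filter_true_of_mem fun e _ => ⟨notMem_empty _, notMem_empty _⟩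
  rw [h1, h2, empty_inter, univ_inter, card_empty, card_empty, Nat.cast_zero, zero_add, sub_zero]

/-- Many non-adjacent pairs. -/
theorem many_pairs {V : Type*} [Fintype V] [DecidableEq V] (G : SimpleGraph V) [DecidableRel G.Adj] (η : ℝ)
    (hη : 0 < η) (hη1 : η ≤ 1) (D s : ℕ) (hD : 6 / η ≤ D) (hs : 12 / η ≤ s) (w : V)
    (hdeg : (univ.filter (fun u => G.Adj w u)).card ≤ D)
    (hdeg2 : (1 - η / 4) * D < ((univ.filter (fun u => G.Adj w u)).card : ℝ))
    (hsp : (((univ.filter (fun p : V × V => G.Adj w p.1 ∧ G.Adj w p.2 ∧ G.Adj p.1 p.2)).card : ℕ) : ℝ) ≤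
      (1 - η) * (D : ℝ) ^ 2) (V0 : Finset V)
    (hV0 : (s + 1) * ((univ.filter (fun u => G.Adj w u)) \ V0).card ≤ (univ.filter (fun u => G.Adj w u)).card) :
    2 * (η / 100) * (D : ℝ) ^ 2 ≤
      (((nb0 G V0 w ×ˢ nb0 G V0 w).filter (fun p => p.1 ≠ p.2 ∧ ¬ G.Adj p.1 p.2)).card : ℝ) := by
  obtain ⟨S, hS⟩ : ∃ S, S = univ.filter (fun u => G.Adj w u) := ⟨_, rfl⟩
  rw [← hS] at hdeg hdeg2 hV0
  have hDr : (6 : ℝ) ≤ η * D := by
    rw [div_le_iff₀ hη] at hD
    linarith
  have hsr : (12 : ℝ) ≤ η * s := by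
    rw [div_le_iff₀ hη] at hs
    linarith
  have hD0 : (0 : ℝ) ≤ D := Nat.cast_nonneg D
  have hnb : nb0 G V0 w = S ∩ V0 := by
    rw [hS]
    ext u
    simp only [nb0, mem_filter, mem_inter, mem_univ, true_and]
    tauto
  have h1 : ((S \ V0).card : ℝ) + ((S ∩ V0).card : ℝ) = (S.card : ℝ) := by
    exact_mod_cast card_sdiff_add_card_inter S V0
  have h2 : ((s : ℝ) + 1) * ((S \ V0).card : ℝ) ≤ D := by
    have h3 : ((s : ℝ) + 1) * ((S \ V0).card : ℝ) ≤ (S.card : ℝ) := by exact_mod_cast hV0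
    have h4 : (S.card : ℝ) ≤ D := by exact_mod_cast hdeg
    linarith
  have h5 : ((S \ V0).card : ℝ) ≤ η / 12 * D := by
    have h6 : (0 : ℝ) ≤ ((S \ V0).card : ℝ) := Nat.cast_nonneg _
    have h7 : 12 * ((S \ V0).card : ℝ) ≤ η * D := by
      calc 12 * ((S \ V0).card : ℝ) ≤ (η * s) * ((S \ V0).card : ℝ) := mul_le_mul_of_nonneg_right hsr h6
        _ ≤ η * (((s : ℝ) + 1) * ((S \ V0).card : ℝ)) := by nlinarith
        _ ≤ η * D := mul_le_mul_of_nonneg_left h2 hη.le
    linarith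
  obtain ⟨a, ha⟩ : ∃ a : ℝ, a = ((nb0 G V0 w).card : ℝ) := ⟨_, rfl⟩
  have ha1 : (1 - η / 3) * D ≤ a := by
    rw [ha, hnb]
    nlinarith
  have haD : a ≤ D := by
    rw [ha, hnb]
    have h4 : (S.card : ℝ) ≤ D := by exact_mod_cast hdeg
    have h6 : (0 : ℝ) ≤ ((S \ V0).card : ℝ) := Nat.cast_nonneg _
    linarith
  -- count the pairs
  have hcount : (nb0 G V0 w).card * (nb0 G V0 w).card ≤
      ((nb0 G V0 w ×ˢ nb0 G V0 w).filter (fun p => p.1 ≠ p.2 ∧ ¬ G.Adj p.1 p.2)).card +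
        ((nb0 G V0 w).card +
          (univ.filter (fun p : V × V => G.Adj w p.1 ∧ G.Adj w p.2 ∧ G.Adj p.1 p.2)).card) := by
    rw [← card_product]
    have hsub : nb0 G V0 w ×ˢ nb0 G V0 w ⊆
        (nb0 G V0 w ×ˢ nb0 G V0 w).filter (fun p => p.1 ≠ p.2 ∧ ¬ G.Adj p.1 p.2) ∪
          ((nb0 G V0 w).image (fun u => (u, u)) ∪
            univ.filter (fun p : V × V => G.Adj w p.1 ∧ G.Adj w p.2 ∧ G.Adj p.1 p.2)) := by
      rintro ⟨u, v⟩ huv
      rw [mem_union, mem_union, mem_filter, mem_image, mem_filter]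
      rw [mem_product] at huv
      by_cases h8 : u = v
      · right; left
        exact ⟨u, huv.1, by rw [h8]⟩
      · by_cases h9 : G.Adj u v
        · right; right
          refine ⟨mem_univ _, ?_, ?_, h9⟩
          · exact (mem_filter.mp huv.1).2
          · exact (mem_filter.mp huv.2).2
        · left
          exact ⟨mem_product.mpr huv, h8, h9⟩
    refine (card_le_card hsub).trans ((card_union_le _ _).trans ?_)
    apply Nat.add_le_add_left
    refine (card_union_le _ _).trans ?_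
    apply Nat.add_le_add_right
    exact card_image_le
  have hcr : a * a ≤ (((nb0 G V0 w ×ˢ nb0 G V0 w).filter (fun p => p.1 ≠ p.2 ∧ ¬ G.Adj p.1 p.2)).card : ℝ) +
      (a + (((univ.filter (fun p : V × V => G.Adj w p.1 ∧ G.Adj w p.2 ∧ G.Adj p.1 p.2)).card : ℕ) : ℝ)) := by
    rw [ha]
    exact_mod_cast hcount
  have h10 : ((1 - η / 3) * D) * ((1 - η / 3) * D) ≤ a * a :=
    mul_self_le_mul_self (mul_nonneg (by linarith) hD0) ha1
  have h11 : (D : ℝ) ≤ η / 6 * (D : ℝ) ^ 2 := by nlinarith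
  have h12 : (0 : ℝ) ≤ (D : ℝ) ^ 2 := by positivity
  have h13 : 0 ≤ η * (D : ℝ) ^ 2 := by positivity
  have h14 : 0 ≤ η ^ 2 * (D : ℝ) ^ 2 := by positivity
  nlinarith

private theorem sparse_aux (η : ℝ) (hη : 0 < η) (hη1 : η ≤ 1) : ∃ c : ℝ, 0 < c ∧ ∃ D₀ : ℕ, ∀ D : ℕ, D₀ ≤ D →
    ∀ (V : Type) [Fintype V] [DecidableEq V] (G : SimpleGraph V) [DecidableRel G.Adj],
      (∀ v, (univ.filter (fun w => G.Adj v w)).card ≤ D) →
      (∀ w, (((univ.filter (fun p : V × V => G.Adj w p.1 ∧ G.Adj w p.2 ∧ G.Adj p.1 p.2)).card : ℕ) : ℝ) ≤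
        (1 - η) * (D : ℝ) ^ 2) →
      ∀ k : ℕ, (1 - c) * D ≤ k → ∀ H : SimpleGraph (V × Fin k), Cover G H →
        ∃ f : V → Equiv.Perm (Fin k), ∀ i u v, ¬ H.Adj (u, f u i) (v, f v i) := by
  obtain ⟨s, hs⟩ : ∃ s : ℕ, s = ⌈12 / η⌉₊ := ⟨_, rfl⟩
  have hs1 : 12 / η ≤ s := by rw [hs]; exact Nat.le_ceil _
  have hs2 : (s : ℝ) < 12 / η + 1 := by rw [hs]; exact Nat.ceil_lt_add_one (by positivity)
  have hs3 : ((s : ℝ) + 1) * η ≤ 14 := by
    have : ((s : ℝ) + 1) * η ≤ (12 / η + 2) * η := mul_le_mul_of_nonneg_right (by linarith) hη.le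
    have h2 : (12 / η + 2) * η = 12 + 2 * η := by field_simp
    linarith
  obtain ⟨τ, hτ0, hτ1, hkept⟩ := kept_exists (η / 100) (by positivity) (by linarith)
  obtain ⟨P, d, hP, hd, D₁, hmach⟩ := machine (τ / 8) (τ / 2) (by positivity) (by linarith) (by positivity)
    (by linarith)
  obtain ⟨D₂, hkept⟩ := hkept P (d / 2) hP (by positivity)
  obtain ⟨D₃, hasym⟩ := asym 1 one_pos
  refine ⟨τ / 8, by positivity, max D₁ (max D₂ (max D₃ ⌈6 / η⌉₊)), ?_⟩
  intro D hD V _ _ G _ hdeg hsp k hk H hH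
  have hDD₁ : D₁ ≤ D := le_trans (le_max_left _ _) hD
  have hD' := le_trans (le_max_right _ _) hD
  have hDD₂ : D₂ ≤ D := le_trans (le_max_left _ _) hD'
  have hD'' := le_trans (le_max_right _ _) hD'
  have hDD₃ : D₃ ≤ D := le_trans (le_max_left _ _) hD''
  have hDη : 6 / η ≤ D := by
    have h1 : ⌈6 / η⌉₊ ≤ D := le_trans (le_max_right _ _) hD''
    exact (Nat.le_ceil _).trans (by exact_mod_cast h1)
  by_cases hk2 : 2 * D ≤ k
  · refine hasym D hDD₃ V G hdeg k ?_ H hH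
    have : (2 : ℝ) * D ≤ k := by exact_mod_cast hk2
    linarith
  · push Not at hk2
    have hk2' : k ≤ 2 * D := hk2.le
    have hDpos : (0 : ℝ) < D := lt_of_lt_of_le (by positivity) hDη
    have hkD : (D : ℝ) ≤ (1 + τ / 4) * k := by
      have h1 : (D : ℝ) ≤ (1 + τ / 4) * ((1 - τ / 8) * D) := by
        have h2 : 1 ≤ (1 + τ / 4) * (1 - τ / 8) := by nlinarith
        nlinarith
      exact h1.trans (mul_le_mul_of_nonneg_left hk (by positivity))
    have hk43 : (D : ℝ) ≤ 4 / 3 * k := by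
      refine hkD.trans (mul_le_mul_of_nonneg_right (by linarith) (Nat.cast_nonneg k))
    have hk0 : (0 : ℝ) < k := by
      by_contra h
      push Not at h
      linarith
    have hkn : 0 < k := by exact_mod_cast hk0
    obtain ⟨V0, hpa, hpb⟩ := part G s
    obtain ⟨π, hπ, htr⟩ := trans_exists hH
    obtain ⟨K, g, hK0, hK1, hK2, hconf, hsav, hbox⟩ := hkept D hDD₂ V G hdeg k hk43 hk2' π hπ V0
    -- degrees into `V0`
    have hnb : ∀ w ∈ V0, ((nb0 G V0 w).card : ℝ) ≤ (1 - η / 14) * D := by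
      intro w hw
      have h1 : (s + 1) * (nb0 G V0 w).card ≤ s * D :=
        (hpa w hw).trans (Nat.mul_le_mul_left s (hdeg w))
      have h2 : ((s : ℝ) + 1) * ((nb0 G V0 w).card : ℝ) ≤ s * D := by exact_mod_cast h1
      have h3 : (0 : ℝ) < (s : ℝ) + 1 := by positivity
      have h4 : ((s : ℝ) + 1) * ((1 - η / 14) * D) = (s : ℝ) * D + D * (1 - (((s : ℝ) + 1) * η) / 14) := by
        ring
      have h5 : 0 ≤ D * (1 - (((s : ℝ) + 1) * η) / 14) := mul_nonneg hDpos.le (by linarith)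
      exact le_of_mul_le_mul_left (by linarith) h3
    have hcase : ∀ w, w ∉ V0 → ((univ.filter (fun u => G.Adj w u)).card : ℝ) ≤ (1 - η / 4) * D ∨
        (2 * (η / 100) * (D : ℝ) ^ 2 ≤
          (((nb0 G V0 w ×ˢ nb0 G V0 w).filter (fun p => p.1 ≠ p.2 ∧ ¬ G.Adj p.1 p.2)).card : ℝ)) := by
      intro w hw
      rcases le_or_gt ((univ.filter (fun u => G.Adj w u)).card : ℝ) ((1 - η / 4) * D) with h | h
      · exact Or.inl h
      · exact Or.inr (many_pairs G η hη hη1 D s hDη hs1 w (hdeg w) h (hsp w) V0 (hpb w hw))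
    have hlin : ∀ (w : V) (W : Finset (Fin k × Fin k)), (w ∉ V0 → (2 * (η / 100) * (D : ℝ) ^ 2 ≤
          (((nb0 G V0 w ×ˢ nb0 G V0 w).filter (fun p => p.1 ≠ p.2 ∧ ¬ G.Adj p.1 p.2)).card : ℝ)) →
          τ * k ≤ sav G V0 π K g w W) →
        ((nbp G V0 w).card : ℝ) + τ / 2 * k ≤ (k : ℝ) - (K w).card + sav G V0 π K g w W := by
      intro w W hsW
      have hs0 := sav_nonneg G V0 π K g w W
      by_cases hw : w ∈ V0
      · unfold nbp
        rw [if_pos hw]
        have h1 := hnb w hw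
        have h2 : (1 - η / 14) * (D : ℝ) ≤ (1 - η / 14) * ((1 + τ / 4) * k) :=
          mul_le_mul_of_nonneg_left hkD (by linarith)
        have h3 := hK1 w
        have h4 : (1 - η / 14) * (1 + τ / 4) + τ / 2 ≤ 1 - η / 100 := by nlinarith
        have h5 := mul_le_mul_of_nonneg_right h4 hk0.le
        linarith
      · unfold nbp
        rw [if_neg hw, hK0 w hw, card_empty, Nat.cast_zero, sub_zero]
        rcases hcase w hw with h | h
        · have h2 : (1 - η / 4) * (D : ℝ) ≤ (1 - η / 4) * ((1 + τ / 4) * k) :=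
            mul_le_mul_of_nonneg_left hkD (by linarith)
          have h4 : (1 - η / 4) * (1 + τ / 4) + τ / 2 ≤ 1 := by nlinarith
          have h5 := mul_le_mul_of_nonneg_right h4 hk0.le
          linarith
        · have h1 := hsW hw h
          have h2 : ((univ.filter (fun u => G.Adj w u)).card : ℝ) ≤ D := by exact_mod_cast hdeg w
          have h3 : 0 ≤ τ * k := by positivity
          nlinarith
    have hrow : ∀ w i, i ∉ K w → ((nbp G V0 w).card : ℝ) + τ / 2 * k ≤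
        (k : ℝ) - (K w).card + sav G V0 π K g w (rowl i) :=
      fun w i _ => hlin w _ fun _ h => (hsav w h).1 i
    have hcol : ∀ w c, (g w).symm c ∉ K w → ((nbp G V0 w).card : ℝ) + τ / 2 * k ≤
        (k : ℝ) - (K w).card + sav G V0 π K g w (coll c) :=
      fun w c _ => hlin w _ fun _ h => (hsav w h).2.1 c
    have hbx : ∀ w, ∀ t : Ty k P, ∑ u ∈ nbp G V0 w, zz (K u) (g u) (π u w) (tyset t) -
        sav G V0 π K g w (tyset t) ≤ (1 - 2 * (τ / 8)) * (tyset t).card + d * (k : ℝ) ^ 2 := by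
      intro w t
      have hs0 := sav_nonneg G V0 π K g w (tyset t)
      have hb := hbox w t
      obtain ⟨W, hW⟩ : ∃ W : ℝ, W = ((tyset t).card : ℝ) := ⟨_, rfl⟩
      rw [← hW] at hb ⊢
      have hW0 : 0 ≤ W := by rw [hW]; exact Nat.cast_nonneg _
      have hdk : 0 ≤ d * (k : ℝ) ^ 2 := by positivity
      by_cases hw : w ∈ V0
      · unfold nbp
        rw [if_pos hw]
        have h1 : ((nb0 G V0 w).card : ℝ) / k ≤ (1 - η / 14) * (1 + τ / 4) := by
          rw [div_le_iff₀ hk0]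
          have h2 : (1 - η / 14) * (D : ℝ) ≤ (1 - η / 14) * ((1 + τ / 4) * k) :=
            mul_le_mul_of_nonneg_left hkD (by linarith)
          linarith [hnb w hw]
        have h2 := mul_le_mul_of_nonneg_right h1 hW0
        have h4 : (1 - η / 14) * (1 + τ / 4) + τ / 2 ≤ 1 - 2 * (τ / 8) := by nlinarith
        have h5 := mul_le_mul_of_nonneg_right h4 hW0
        linarith
      · -- the neighbours outside `V0`
        have hsum : ∑ u ∈ nbp G V0 w, zz (K u) (g u) (π u w) (tyset t) ≤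
            ((univ.filter (fun u => G.Adj w u)).card : ℝ) / k * W + τ / 2 * W + d / 2 * (k : ℝ) ^ 2 := by
          unfold nbp
          rw [if_neg hw]
          have h1 : (univ.filter (fun u => G.Adj w u)).filter (fun u => u ∈ V0) = nb0 G V0 w := by
            ext u
            simp only [nb0, mem_filter, mem_univ, true_and]
            tauto
          rw [← sum_filter_add_sum_filter_not (univ.filter (fun u => G.Adj w u)) (fun u => u ∈ V0), h1]
          have h2 : ∑ u ∈ (univ.filter (fun u => G.Adj w u)).filter (fun u => ¬ u ∈ V0),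
              zz (K u) (g u) (π u w) (tyset t) =
              (((univ.filter (fun u => G.Adj w u)).filter (fun u => ¬ u ∈ V0)).card : ℝ) * (W / k) := by
            rw [← nsmul_eq_mul, ← sum_const]
            refine sum_congr rfl fun u hu => ?_
            rw [hK0 u (mem_filter.mp hu).2, zz_empty hkn, hW]
          have h3 : (((univ.filter (fun u => G.Adj w u)).filter (fun u => u ∈ V0)).card : ℝ) +
              (((univ.filter (fun u => G.Adj w u)).filter (fun u => ¬ u ∈ V0)).card : ℝ) =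
              ((univ.filter (fun u => G.Adj w u)).card : ℝ) := by
            exact_mod_cast card_filter_add_card_filter_not (s := univ.filter (fun u => G.Adj w u)) (fun u => u ∈ V0)
          rw [h1] at h3
          rw [h2, ← h3]
          have h4 : (((nb0 G V0 w).card : ℝ) +
              (((univ.filter (fun u => G.Adj w u)).filter (fun u => ¬ u ∈ V0)).card : ℝ)) / k * W =
              ((nb0 G V0 w).card : ℝ) / k * W +
              (((univ.filter (fun u => G.Adj w u)).filter (fun u => ¬ u ∈ V0)).card : ℝ) * (W / k) := by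
            ring
          rw [h4]
          linarith
        rcases hcase w hw with h | h
        · have h1 : ((univ.filter (fun u => G.Adj w u)).card : ℝ) / k ≤ (1 - η / 4) * (1 + τ / 4) := by
            rw [div_le_iff₀ hk0]
            have h2 : (1 - η / 4) * (D : ℝ) ≤ (1 - η / 4) * ((1 + τ / 4) * k) :=
              mul_le_mul_of_nonneg_left hkD (by linarith)
            linarith
          have h2 := mul_le_mul_of_nonneg_right h1 hW0
          have h4 : (1 - η / 4) * (1 + τ / 4) + τ / 2 ≤ 1 - 2 * (τ / 8) := by nlinarith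
          have h5 := mul_le_mul_of_nonneg_right h4 hW0
          linarith
        · have hsv := (hsav w h).2.2 t
          rw [← hW] at hsv
          have h1 : ((univ.filter (fun u => G.Adj w u)).card : ℝ) / k ≤ 1 + τ / 4 := by
            rw [div_le_iff₀ hk0]
            have h2 : ((univ.filter (fun u => G.Adj w u)).card : ℝ) ≤ D := by exact_mod_cast hdeg w
            linarith
          have h2 := mul_le_mul_of_nonneg_right h1 hW0
          linarith
    obtain ⟨f, hf⟩ := hmach D hDD₁ V G hdeg k hk43 hk2' π hπ V0 K g hK0 hK2 hconf hrow hcol hbx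
    refine ⟨f, fun i u v hadj => ?_⟩
    exact hf u v (hH.edge u v _ _ hadj) i (htr u v _ _ hadj)

theorem sparse_main (η : ℝ) (hη : 0 < η) : ∃ c : ℝ, 0 < c ∧ ∃ D₀ : ℕ, ∀ D : ℕ, D₀ ≤ D →
    ∀ (V : Type) [Fintype V] [DecidableEq V] (G : SimpleGraph V) [DecidableRel G.Adj],
      (∀ v, (univ.filter (fun w => G.Adj v w)).card ≤ D) →
      (∀ w, (((univ.filter (fun p : V × V => G.Adj w p.1 ∧ G.Adj w p.2 ∧ G.Adj p.1 p.2)).card : ℕ) : ℝ) ≤
        (1 - η) * (D : ℝ) ^ 2) →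
      ∀ k : ℕ, (1 - c) * D ≤ k → ∀ H : SimpleGraph (V × Fin k), Cover G H →
        ∃ f : V → Equiv.Perm (Fin k), ∀ i u v, ¬ H.Adj (u, f u i) (v, f v i) := by
  obtain ⟨c, hc, D₀, h⟩ := sparse_aux (min η 1) (by positivity) (min_le_right _ _)
  refine ⟨c, hc, D₀, ?_⟩
  intro D hD V _ _ G _ hdeg hsp k hk H hH
  refine h D hD V G hdeg (fun w => (hsp w).trans ?_) k hk H hH
  refine mul_le_mul_of_nonneg_right ?_ (by positivity)
  have := min_le_left η 1
  linarith

end Pool.Agent.MP_dc7d7b.LS
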