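import Pool.Agent.Lib.MP_dc7d7b_co.GreedyMain

set_option autoImplicit false

/-!
# Module GreedyAbs: the greedy procedure with exponential potentials, abstract form

PROOF: as `greedy` in GreedyMain.lean (copy it).  Potential of `w` for the processed set `S`:
`potA w S f = ∑ t : Ty k (p w), exp (lam * ∑ x ∈ S.filter (G.Adj w ·), (h x w (f x) (tyset t) - bud x w (tyset t)))`.
Induction on `n = |S|`: there are `S`, `f` with `|S| = n`, `∀ x ∈ S, ∀ y ∉ S, c y ≤ c x`, `∀ x ∈ S, Cn x (f x)`,
`∀ x ∈ S, ∀ y ∈ S, G.Adj x y → Rel x y (f x) (f y)`, and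
`∀ w ∉ S, potA w S f ≤ Δ ^ |S.filter (G.Adj w ·)| * card (Ty k (p w))`.
Step: `u` with the largest `c` outside `S`; from the potential bound of `u` one gets the hypothesis on the logarithms
(each term of the sum over `t` is at most the whole, `Δ ^ |..| ≤ Δ ^ Δ`); take `P` from `step`; the expected
potential of a neighbour `w ∉ S` does not grow (the proof of `pot_expect`); `pick` (Greedy.lean) with
`Nb = {w ∉ insert u S | G.Adj w u}` gives `σ` with `P σ > 0` and all potentials multiplied by at most `|Nb| ≤ Δ`;
for `w` not adjacent to `u` the potential does not change.  `Rel` for the new pairs by `step` and `hRel`.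
`c` is used only to choose the order.
-/

namespace Pool.Agent.MP_dc7d7b.LS

open Finset

section

variable {k : ℕ} {V : Type*} [DecidableEq V]

/-- The potential of the vertex `w`. -/
private noncomputable def potA (G : SimpleGraph V) [DecidableRel G.Adj] (p : V → ℕ)
    (h : V → V → Equiv.Perm (Fin k) → Finset (Fin k × Fin k) → ℝ)
    (bud : V → V → Finset (Fin k × Fin k) → ℝ) (lam : ℝ) (w : V) (S : Finset V) (f : V → Equiv.Perm (Fin k)) : ℝ :=
  ∑ t : Ty k (p w), Real.exp (lam * ∑ x ∈ S.filter (fun x => G.Adj w x), (h x w (f x) (tyset t) - bud x w (tyset t)))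

variable (G : SimpleGraph V) [DecidableRel G.Adj] (p : V → ℕ)
    (h : V → V → Equiv.Perm (Fin k) → Finset (Fin k × Fin k) → ℝ)
    (bud : V → V → Finset (Fin k × Fin k) → ℝ) (lam : ℝ)

omit [DecidableEq V] in
private theorem potA_nonneg (w : V) (S : Finset V) (f : V → Equiv.Perm (Fin k)) : 0 ≤ potA G p h bud lam w S f :=
  Finset.sum_nonneg (fun _ _ => (Real.exp_pos _).le)

omit [DecidableEq V] in
private theorem potA_pos (w : V) (hw : 0 < p w) (S : Finset V) (f : V → Equiv.Perm (Fin k)) :
    0 < potA G p h bud lam w S f := by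
  have : NeZero (p w) := ⟨hw.ne'⟩
  exact Finset.sum_pos (fun _ _ => (Real.exp_pos _)) ⟨((fun _ => 0, fun _ => 0), ∅), Finset.mem_univ _⟩

private theorem potA_insert_not_adj {w u : V} (hwu : ¬ G.Adj w u) (S : Finset V) (hu : u ∉ S)
    (f : V → Equiv.Perm (Fin k)) (σ : Equiv.Perm (Fin k)) :
    potA G p h bud lam w (insert u S) (Function.update f u σ) = potA G p h bud lam w S f := by
  unfold potA
  refine Finset.sum_congr rfl ?_
  intro t _
  rw [Finset.filter_insert, if_neg hwu]
  congr 2
  refine Finset.sum_congr rfl ?_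
  intro x hx
  rw [Function.update_of_ne]
  rintro rfl
  exact hu (Finset.mem_filter.mp hx).1

private theorem potA_insert_adj {w u : V} (hwu : G.Adj w u) (S : Finset V) (hu : u ∉ S)
    (f : V → Equiv.Perm (Fin k)) (σ : Equiv.Perm (Fin k)) :
    potA G p h bud lam w (insert u S) (Function.update f u σ) =
      ∑ t : Ty k (p w), Real.exp (lam * ∑ x ∈ S.filter (fun x => G.Adj w x),
        (h x w (f x) (tyset t) - bud x w (tyset t))) *
        (Real.exp (lam * h u w σ (tyset t)) * Real.exp (- (lam * bud u w (tyset t)))) := by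
  unfold potA
  refine Finset.sum_congr rfl ?_
  intro t _
  rw [Finset.filter_insert, if_pos hwu, Finset.sum_insert, ← Real.exp_add, ← Real.exp_add]
  · congr 1
    rw [Function.update_self]
    have h1 : ∑ x ∈ S.filter (fun u => G.Adj w u),
        (h x w (Function.update f u σ x) (tyset t) - bud x w (tyset t)) =
        ∑ x ∈ S.filter (fun u => G.Adj w u), (h x w (f x) (tyset t) - bud x w (tyset t)) := by
      refine Finset.sum_congr rfl ?_
      intro x hx
      rw [Function.update_of_ne]
      rintro rfl
      exact hu (Finset.mem_filter.mp hx).1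
    rw [h1]
    ring
  · intro h
    exact hu (Finset.mem_filter.mp h).1

/-- The expected potential does not grow. -/
private theorem potA_expect {w u : V} (hwu : G.Adj w u) (S : Finset V) (hu : u ∉ S)
    (f : V → Equiv.Perm (Fin k)) (P : Equiv.Perm (Fin k) → ℝ)
    (hE : ∀ t : Ty k (p w), ∑ σ, P σ * Real.exp (lam * h u w σ (tyset t)) ≤
      (∑ σ, P σ) * Real.exp (lam * bud u w (tyset t))) :
    ∑ σ, P σ * potA G p h bud lam w (insert u S) (Function.update f u σ) ≤
      (∑ σ, P σ) * potA G p h bud lam w S f := by
  have h0 : ∀ σ, P σ * potA G p h bud lam w (insert u S) (Function.update f u σ) =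
      ∑ t : Ty k (p w), P σ * (Real.exp (lam * ∑ x ∈ S.filter (fun x => G.Adj w x),
        (h x w (f x) (tyset t) - bud x w (tyset t))) *
        (Real.exp (lam * h u w σ (tyset t)) * Real.exp (- (lam * bud u w (tyset t))))) := by
    intro σ
    rw [potA_insert_adj G p h bud lam hwu S hu f, Finset.mul_sum]
  rw [Finset.sum_congr rfl (fun σ _ => h0 σ), Finset.sum_comm]
  unfold potA
  rw [Finset.mul_sum]
  refine Finset.sum_le_sum ?_
  intro t _
  set g := Real.exp (lam * ∑ x ∈ S.filter (fun x => G.Adj w x),
        (h x w (f x) (tyset t) - bud x w (tyset t))) with hg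
  have hg0 : 0 < g := Real.exp_pos _
  calc ∑ σ, P σ * (g * (Real.exp (lam * h u w σ (tyset t)) * Real.exp (- (lam * bud u w (tyset t)))))
      = g * Real.exp (- (lam * bud u w (tyset t))) *
        ∑ σ, P σ * Real.exp (lam * h u w σ (tyset t)) := by
        rw [Finset.mul_sum]
        refine Finset.sum_congr rfl ?_
        intro σ _
        ring
    _ ≤ g * Real.exp (- (lam * bud u w (tyset t))) *
        ((∑ σ, P σ) * Real.exp (lam * bud u w (tyset t))) :=
        mul_le_mul_of_nonneg_left (hE t) (by positivity)
    _ = (∑ σ, P σ) * g * (Real.exp (lam * bud u w (tyset t)) *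
        Real.exp (- (lam * bud u w (tyset t)))) := by ring
    _ = (∑ σ, P σ) * g := by
        rw [← Real.exp_add, add_neg_cancel, Real.exp_zero, mul_one]

end

theorem greedy_abs {V : Type*} [Fintype V] [DecidableEq V] {k : ℕ} (G : SimpleGraph V) [DecidableRel G.Adj] (Δ : ℕ)
    (hΔ : 1 ≤ Δ) (hdeg : ∀ v, (univ.filter (fun w => G.Adj v w)).card ≤ Δ) (c p : V → ℕ) (hp : ∀ v, 0 < p v)
    (h : V → V → Equiv.Perm (Fin k) → Finset (Fin k × Fin k) → ℝ)
    (bud : V → V → Finset (Fin k × Fin k) → ℝ) (lam : ℝ)
    (Rel : V → V → Equiv.Perm (Fin k) → Equiv.Perm (Fin k) → Prop)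
    (hRel : ∀ u v σ τ, Rel u v σ τ → Rel v u τ σ) (Cn : V → Equiv.Perm (Fin k) → Prop)
    (step : ∀ (u : V) (S : Finset V) (f : V → Equiv.Perm (Fin k)), u ∉ S → (∀ x ∈ S, ∀ y ∉ S, c y ≤ c x) →
      (∀ y ∉ S, c y ≤ c u) → (∀ x ∈ S, Cn x (f x)) →
      (∀ t : Ty k (p u), lam * ∑ x ∈ S.filter (fun x => G.Adj u x), (h x u (f x) (tyset t) - bud x u (tyset t)) ≤
        Real.log ((Δ : ℝ) ^ Δ * Fintype.card (Ty k (p u)))) →
      ∃ P : Equiv.Perm (Fin k) → ℝ, (∀ σ, 0 ≤ P σ) ∧ 0 < ∑ σ, P σ ∧
        (∀ σ, 0 < P σ → Cn u σ ∧ ∀ x ∈ S, G.Adj u x → Rel x u (f x) σ) ∧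
        ∀ w ∉ S, w ≠ u → G.Adj w u → ∀ t : Ty k (p w),
          ∑ σ, P σ * Real.exp (lam * h u w σ (tyset t)) ≤ (∑ σ, P σ) * Real.exp (lam * bud u w (tyset t))) :
    ∃ f : V → Equiv.Perm (Fin k), (∀ v, Cn v (f v)) ∧ ∀ u v, G.Adj u v → Rel u v (f u) (f v) := by
  have hΔ' : (1 : ℝ) ≤ Δ := by exact_mod_cast hΔ
  have key : ∀ n : ℕ, n ≤ Fintype.card V → ∃ (S : Finset V) (f : V → Equiv.Perm (Fin k)), S.card = n ∧
      (∀ x ∈ S, ∀ y ∉ S, c y ≤ c x) ∧ (∀ x ∈ S, Cn x (f x)) ∧
      (∀ x ∈ S, ∀ y ∈ S, G.Adj x y → Rel x y (f x) (f y)) ∧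
      (∀ w ∉ S, potA G p h bud lam w S f ≤
        (Δ : ℝ) ^ ((S.filter (fun u => G.Adj w u)).card) * Fintype.card (Ty k (p w))) := by
    intro n
    induction n with
    | zero =>
      intro _
      refine ⟨∅, fun _ => 1, by simp, by simp, by simp, by simp, ?_⟩
      intro w _
      unfold potA
      simp
    | succ n ih =>
      intro hn
      obtain ⟨S, f, hSn, hord, hCn, hprop, hpot⟩ := ih (by omega)
      -- the next vertex
      have hne : (Sᶜ).Nonempty := by
        rw [← Finset.card_pos, Finset.card_compl]
        omega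
      obtain ⟨u, hu, humax⟩ := Finset.exists_max_image Sᶜ c hne
      rw [Finset.mem_compl] at hu
      have humax' : ∀ y, y ∉ S → c y ≤ c u := fun y hy => humax y (Finset.mem_compl.mpr hy)
      set N := S.filter (fun x => G.Adj u x) with hN
      have hNΔ : N.card ≤ Δ := by
        refine le_trans (Finset.card_le_card ?_) (hdeg u)
        intro x hx
        rw [hN, Finset.mem_filter] at hx
        exact Finset.mem_filter.mpr ⟨Finset.mem_univ _, hx.2⟩
      have hTypos : (0 : ℝ) < Fintype.card (Ty k (p u)) := by
        have : NeZero (p u) := ⟨(hp _).ne'⟩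
        have : 0 < Fintype.card (Ty k (p u)) := Fintype.card_pos_iff.mpr ⟨((fun _ => 0, fun _ => 0), ∅)⟩
        exact_mod_cast this
      have hCpos : 0 < (Δ : ℝ) ^ Δ * Fintype.card (Ty k (p u)) := by positivity
      have hpotu : potA G p h bud lam u S f ≤ (Δ : ℝ) ^ Δ * Fintype.card (Ty k (p u)) := by
        refine (hpot u hu).trans ?_
        refine mul_le_mul_of_nonneg_right ?_ hTypos.le
        exact pow_le_pow_right₀ hΔ' hNΔ
      obtain ⟨P, hP0, hZ, hPs, hPm⟩ := step u S f hu hord humax' hCn (by
        intro t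
        rw [Real.le_log_iff_exp_le hCpos]
        refine le_trans ?_ hpotu
        unfold potA
        exact Finset.single_le_sum (f := fun t : Ty k (p u) => Real.exp (lam * ∑ x ∈ S.filter (fun x => G.Adj u x),
          (h x u (f x) (tyset t) - bud x u (tyset t)))) (fun _ _ => (Real.exp_pos _).le)
          (Finset.mem_univ t))
      set Nb : Finset V := univ.filter (fun w => w ∉ S ∧ G.Adj w u) with hNb
      have hNbΔ : Nb.card ≤ Δ := by
        refine le_trans (Finset.card_le_card ?_) (hdeg u)
        intro x hx
        rw [hNb, Finset.mem_filter] at hx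
        exact Finset.mem_filter.mpr ⟨Finset.mem_univ _, hx.2.2.symm⟩
      obtain ⟨σ, hσP, hσ⟩ := pick P hP0 hZ Nb
        (fun w σ => potA G p h bud lam w (insert u S) (Function.update f u σ) / potA G p h bud lam w S f)
        (fun w σ => div_nonneg (potA_nonneg G p h bud lam w _ _) (potA_nonneg G p h bud lam w _ _)) (by
          intro w hw
          rw [hNb, Finset.mem_filter] at hw
          have hpp := potA_pos G p h bud lam w (hp _) S f
          have h1 := potA_expect G p h bud lam hw.2.2 S hu f P (by
            intro t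
            exact hPm w hw.2.1 hw.2.2.ne hw.2.2 t)
          have h2 : ∑ σ, P σ * (potA G p h bud lam w (insert u S) (Function.update f u σ) /
              potA G p h bud lam w S f) = (∑ σ, P σ * potA G p h bud lam w (insert u S) (Function.update f u σ)) /
              potA G p h bud lam w S f := by
            rw [Finset.sum_div]
            refine Finset.sum_congr rfl ?_
            intro σ _
            ring
          rw [h2, div_le_iff₀ hpp]
          exact h1)
      obtain ⟨hσC, hσR⟩ := hPs σ hσP
      refine ⟨insert u S, Function.update f u σ, ?_, ?_, ?_, ?_, ?_⟩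
      · rw [Finset.card_insert_of_notMem hu, hSn]
      · intro x hx y hy
        rw [Finset.mem_insert] at hx hy
        push Not at hy
        rcases hx with rfl | hx
        · exact humax' y hy.2
        · exact hord x hx y hy.2
      · intro x hx
        rw [Finset.mem_insert] at hx
        by_cases hxu : x = u
        · subst hxu
          rw [Function.update_self]
          exact hσC
        · rw [Function.update_of_ne hxu]
          exact hCn x (hx.resolve_left hxu)
      · -- relations
        intro x hx y hy hadj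
        rw [Finset.mem_insert] at hx hy
        by_cases hxu : x = u
        · by_cases hyu : y = u
          · subst hxu; subst hyu
            exact absurd hadj (G.irrefl)
          · subst hxu
            rw [Function.update_self, Function.update_of_ne hyu]
            exact hRel _ _ _ _ (hσR y (hy.resolve_left hyu) hadj)
        · by_cases hyu : y = u
          · subst hyu
            rw [Function.update_self, Function.update_of_ne hxu]
            exact hσR x (hx.resolve_left hxu) hadj.symm
          · rw [Function.update_of_ne hxu, Function.update_of_ne hyu]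
            exact hprop x (hx.resolve_left hxu) y (hy.resolve_left hyu) hadj
      · intro w hw
        rw [Finset.mem_insert] at hw
        push Not at hw
        by_cases hwu : G.Adj w u
        · have hwNb : w ∈ Nb := by
            rw [hNb, Finset.mem_filter]
            exact ⟨Finset.mem_univ _, hw.2, hwu⟩
          have h1 := hσ w hwNb
          have hpp := potA_pos G p h bud lam w (hp _) S f
          rw [div_le_iff₀ hpp] at h1
          have h2 := hpot w hw.2
          have h3 : (Nb.card : ℝ) ≤ Δ := by exact_mod_cast hNbΔ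
          rw [Finset.filter_insert, if_pos hwu, Finset.card_insert_of_notMem
            (fun h => hu (Finset.mem_filter.mp h).1), pow_succ]
          calc _ ≤ (Nb.card : ℝ) * potA G p h bud lam w S f := h1
            _ ≤ Δ * ((Δ : ℝ) ^ ((S.filter (fun u => G.Adj w u)).card) * Fintype.card (Ty k (p w))) :=
                mul_le_mul h3 h2 hpp.le (by positivity)
            _ = _ := by ring
        · rw [potA_insert_not_adj G p h bud lam hwu S hu f σ, Finset.filter_insert, if_neg hwu]
          exact hpot w hw.2
  obtain ⟨S, f, hSn, _, hCn, hprop, _⟩ := key (Fintype.card V) le_rfl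
  have hS : S = univ := Finset.eq_univ_of_card S hSn
  subst hS
  exact ⟨f, fun v => hCn v (Finset.mem_univ _), fun u v huv => hprop u (Finset.mem_univ _) v (Finset.mem_univ _) huv⟩

end Pool.Agent.MP_dc7d7b.LS
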