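import Pool.Agent.Lib.MP_dc7d7b_co.Asym

set_option autoImplicit false

/-!
# Module Num: the numerical conditions for large `k`

PROOF.  `card (Ty k P) ≤ exp (2 k P + P²)` (`card_ty_le` in Asym.lean), `D ≤ 4/3 k ≤ 2 k`.  Every term of the long
inequality is at most `(a polynomial in k) * exp (- c k + C √k)` or
`(a polynomial in k) * exp (- c k² + 2 k P + P²)`, and tends to `0`
(`Real.tendsto_pow_mul_exp_neg_atTop_nhds_zero`; `C √k ≤ c k / 2` and `2 k P + P² ≤ c k² / 2` for large `k`).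
It is convenient to prove the three inequalities separately as `∀ᶠ k in atTop` and to bound each of the four terms
of the last one by `1 / 4`.
-/

namespace Pool.Agent.MP_dc7d7b.LS

open Finset

private theorem num_ev_exp (c K : ℝ) (n : ℕ) (hc : 0 < c) :
    ∀ᶠ k : ℕ in Filter.atTop, K * (k : ℝ) ^ n * Real.exp (-(c * k)) ≤ 1 / 4 := by
  have t : Filter.Tendsto (fun x : ℝ => x ^ n * Real.exp (-x)) Filter.atTop (nhds 0) :=
    Real.tendsto_pow_mul_exp_neg_atTop_nhds_zero n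
  have t2 : Filter.Tendsto (fun k : ℕ => c * (k : ℝ)) Filter.atTop Filter.atTop :=
    Filter.Tendsto.const_mul_atTop hc tendsto_natCast_atTop_atTop
  have t3 := (t.comp t2).const_mul (K / c ^ n)
  rw [mul_zero] at t3
  have t4 := t3.eventually (eventually_le_nhds (show (0 : ℝ) < 1 / 4 by norm_num))
  filter_upwards [t4] with k hk
  have hc' : c ^ n ≠ 0 := pow_ne_zero _ hc.ne'
  have e : K * (k : ℝ) ^ n * Real.exp (-(c * k)) =
      K / c ^ n * ((fun x : ℝ => x ^ n * Real.exp (-x)) ∘ fun k : ℕ => c * (k : ℝ)) k := by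
    simp only [Function.comp]
    rw [mul_pow]
    field_simp
  rw [e]
  exact hk

private theorem num_ev_sqrt (a b : ℝ) (ha : 0 < a) :
    ∀ᶠ k : ℕ in Filter.atTop, b * Real.sqrt k ≤ a * k := by
  have t : Filter.Tendsto (fun k : ℕ => Real.sqrt (k : ℝ)) Filter.atTop Filter.atTop :=
    Real.tendsto_sqrt_atTop.comp tendsto_natCast_atTop_atTop
  filter_upwards [t.eventually_ge_atTop (b / a)] with k hk
  have h1 : b ≤ a * Real.sqrt k := by
    rw [div_le_iff₀ ha] at hk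
    linarith
  have h2 : Real.sqrt k * Real.sqrt k = (k : ℝ) := Real.mul_self_sqrt (Nat.cast_nonneg k)
  calc b * Real.sqrt k ≤ a * Real.sqrt k * Real.sqrt k :=
        mul_le_mul_of_nonneg_right h1 (Real.sqrt_nonneg _)
    _ = a * k := by rw [mul_assoc, h2]

private theorem num_ev_lin (a b d : ℝ) (ha : 0 < a) :
    ∀ᶠ k : ℕ in Filter.atTop, b * k + d ≤ a * (k : ℝ) ^ 2 := by
  have t : Filter.Tendsto (fun k : ℕ => (k : ℝ)) Filter.atTop Filter.atTop := tendsto_natCast_atTop_atTop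
  filter_upwards [t.eventually_ge_atTop ((|b| + |d|) / a), t.eventually_ge_atTop 1] with k hk hk1
  have h1 : |b| + |d| ≤ a * k := by
    rw [div_le_iff₀ ha] at hk
    linarith
  have h0 : (0 : ℝ) ≤ k := by linarith
  calc b * k + d ≤ |b| * k + |d| * k := by
        have e1 := mul_le_mul_of_nonneg_right (le_abs_self b) h0
        have e2 := le_abs_self d
        have e3 := mul_le_mul_of_nonneg_left hk1 (abs_nonneg d)
        linarith
    _ = (|b| + |d|) * k := by ring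
    _ ≤ a * k * k := mul_le_mul_of_nonneg_right h1 h0
    _ = a * (k : ℝ) ^ 2 := by ring

theorem num_p1 (m P : ℕ) (ε ε₂ ε₃ : ℝ) (hm : 0 < m) (hP : 0 < P) (hε : 0 < ε) (hε₂ : 0 < ε₂) (hε₃ : 0 < ε₃) :
    ∃ k₀ : ℕ, ∀ k D : ℕ, k₀ ≤ k → (D : ℝ) ≤ 4 / 3 * k →
      (1 + Real.exp 1) * Real.sqrt k * (3 * k) ≤ ε₂ ^ 2 * (k : ℝ) ^ 2 / 18 ∧
      32 * (2 * P + 2) ^ 2 * ((k : ℝ) * (1 + (1 + Real.exp 1) * Real.sqrt k)) ≤ ε₃ ^ 2 * k ^ 2 ∧
      4 * (1 + (D : ℝ) + D ^ 2) ^ 2 *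
        (2 * k * ((4 * D + 2) * (2 * Real.exp (-(ε ^ 2 * k / 6)))) +
          Fintype.card (Ty k P) * ((4 * D + 2) * (2 * Real.exp (-(ε₂ ^ 2 * (k : ℝ) ^ 2 / 6)))) +
          Fintype.card (Ty k P) * Real.exp (-(ε₃ ^ 2 * k ^ 2 / (8 * (2 * P + 2) ^ 2))) +
          Real.exp (-(k / (4 * m)) + (1 + Real.exp 1) * Real.sqrt k)) ≤ 1 := by
  have hm' : (0 : ℝ) < m := by exact_mod_cast hm
  have hP' : (0 : ℝ) < P := by exact_mod_cast hP
  have e1 : (0 : ℝ) < Real.exp 1 := Real.exp_pos 1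
  have hPP : (0 : ℝ) < 8 * (2 * P + 2) ^ 2 := by positivity
  -- the constants
  have c1 : 0 < ε ^ 2 / 6 := by positivity
  have c2 : 0 < ε₂ ^ 2 / 12 := by positivity
  have c3 : 0 < ε₃ ^ 2 / (8 * (2 * P + 2) ^ 2) / 2 := by positivity
  have c4 : 0 < 1 / (8 * (m : ℝ)) := by positivity
  have A1 := num_ev_sqrt (ε₂ ^ 2 / 18) (3 * (1 + Real.exp 1)) (by positivity)
  have A2 := num_ev_sqrt (ε₃ ^ 2) (32 * (2 * P + 2) ^ 2 * (2 + Real.exp 1)) (by positivity)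
  have A3 := num_ev_sqrt (1 / (8 * (m : ℝ))) (1 + Real.exp 1) c4
  have B1 := num_ev_exp (ε ^ 2 / 6) 3200 6 c1
  have B2 := num_ev_exp (ε₂ ^ 2 / 12) 1600 5 c2
  have B3 := num_ev_exp (ε₃ ^ 2 / (8 * (2 * P + 2) ^ 2) / 2) 100 4 c3
  have B4 := num_ev_exp (1 / (8 * (m : ℝ))) 100 4 c4
  have L2 := num_ev_lin (ε₂ ^ 2 / 12) (2 * P) ((P : ℝ) ^ 2) c2
  have L3 := num_ev_lin (ε₃ ^ 2 / (8 * (2 * P + 2) ^ 2) / 2) (2 * P) ((P : ℝ) ^ 2) c3
  have O := Filter.eventually_ge_atTop 1 (α := ℕ)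
  have all := A1.and (A2.and (A3.and (B1.and (B2.and (B3.and (B4.and (L2.and (L3.and O))))))))
  obtain ⟨k₀, hk₀⟩ := Filter.eventually_atTop.1 all
  refine ⟨k₀, fun k D hk hD => ?_⟩
  obtain ⟨a1, a2, a3, b1, b2, b3, b4, l2, l3, ho⟩ := hk₀ k hk
  have hk1 : (1 : ℝ) ≤ k := by exact_mod_cast ho
  have hk0 : (0 : ℝ) < k := by linarith
  have hs1 : 1 ≤ Real.sqrt k := by
    rw [show (1 : ℝ) = Real.sqrt 1 by simp]
    exact Real.sqrt_le_sqrt hk1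
  refine ⟨?_, ?_, ?_⟩
  · have := mul_le_mul_of_nonneg_right a1 hk0.le
    calc (1 + Real.exp 1) * Real.sqrt k * (3 * k) = 3 * (1 + Real.exp 1) * Real.sqrt k * k := by ring
      _ ≤ ε₂ ^ 2 / 18 * k * k := this
      _ = ε₂ ^ 2 * (k : ℝ) ^ 2 / 18 := by ring
  · have h1 : 1 + (1 + Real.exp 1) * Real.sqrt k ≤ (2 + Real.exp 1) * Real.sqrt k := by linarith
    have h2 : (0 : ℝ) ≤ 32 * (2 * P + 2) ^ 2 * k := by positivity
    calc 32 * (2 * P + 2) ^ 2 * ((k : ℝ) * (1 + (1 + Real.exp 1) * Real.sqrt k))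
        = 32 * (2 * P + 2) ^ 2 * k * (1 + (1 + Real.exp 1) * Real.sqrt k) := by ring
      _ ≤ 32 * (2 * P + 2) ^ 2 * k * ((2 + Real.exp 1) * Real.sqrt k) := mul_le_mul_of_nonneg_left h1 h2
      _ = (32 * (2 * P + 2) ^ 2 * (2 + Real.exp 1) * Real.sqrt k) * k := by ring
      _ ≤ (ε₃ ^ 2 * k) * k := mul_le_mul_of_nonneg_right a2 hk0.le
      _ = ε₃ ^ 2 * k ^ 2 := by ring
  · have hD0 : (0 : ℝ) ≤ D := Nat.cast_nonneg D
    have q1 : (1 + (D : ℝ) + D ^ 2) ≤ 5 * (k : ℝ) ^ 2 := by nlinarith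
    have q2 : 4 * (1 + (D : ℝ) + D ^ 2) ^ 2 ≤ 100 * (k : ℝ) ^ 4 := by
      have := pow_le_pow_left₀ (by positivity) q1 2
      nlinarith
    have q3 : (4 * (D : ℝ) + 2) ≤ 8 * k := by linarith
    have hT : (Fintype.card (Ty k P) : ℝ) ≤ Real.exp (2 * k * P + P ^ 2) := by
      have h := card_ty_le (k := k) (p := P) hP
      have hpos : (0 : ℝ) < Fintype.card (Ty k P) := by
        have : NeZero P := ⟨hP.ne'⟩
        have : 0 < Fintype.card (Ty k P) := Fintype.card_pos_iff.mpr ⟨((fun _ => 0, fun _ => 0), ∅)⟩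
        exact_mod_cast this
      rw [← Real.exp_log hpos]
      exact Real.exp_le_exp.2 h
    have hkk : (k : ℝ) ≤ (k : ℝ) ^ 2 := by nlinarith
    have t2 : (Fintype.card (Ty k P) : ℝ) * Real.exp (-(ε₂ ^ 2 * (k : ℝ) ^ 2 / 6)) ≤
        Real.exp (-(ε₂ ^ 2 / 12 * k)) := by
      calc (Fintype.card (Ty k P) : ℝ) * Real.exp (-(ε₂ ^ 2 * (k : ℝ) ^ 2 / 6))
          ≤ Real.exp (2 * k * P + P ^ 2) * Real.exp (-(ε₂ ^ 2 * (k : ℝ) ^ 2 / 6)) :=
            mul_le_mul_of_nonneg_right hT (Real.exp_pos _).le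
        _ = Real.exp (2 * k * P + P ^ 2 + -(ε₂ ^ 2 * (k : ℝ) ^ 2 / 6)) := (Real.exp_add _ _).symm
        _ ≤ Real.exp (-(ε₂ ^ 2 / 12 * k)) := by
            refine Real.exp_le_exp.2 ?_
            have := mul_le_mul_of_nonneg_left hkk c2.le
            linarith
    have t3 : (Fintype.card (Ty k P) : ℝ) * Real.exp (-(ε₃ ^ 2 * k ^ 2 / (8 * (2 * P + 2) ^ 2))) ≤
        Real.exp (-(ε₃ ^ 2 / (8 * (2 * P + 2) ^ 2) / 2 * k)) := by
      have ee : ε₃ ^ 2 * (k : ℝ) ^ 2 / (8 * (2 * P + 2) ^ 2) = ε₃ ^ 2 / (8 * (2 * P + 2) ^ 2) / 2 * k ^ 2 * 2 := by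
        ring
      calc (Fintype.card (Ty k P) : ℝ) * Real.exp (-(ε₃ ^ 2 * k ^ 2 / (8 * (2 * P + 2) ^ 2)))
          ≤ Real.exp (2 * k * P + P ^ 2) * Real.exp (-(ε₃ ^ 2 * k ^ 2 / (8 * (2 * P + 2) ^ 2))) :=
            mul_le_mul_of_nonneg_right hT (Real.exp_pos _).le
        _ = Real.exp (2 * k * P + P ^ 2 + -(ε₃ ^ 2 * k ^ 2 / (8 * (2 * P + 2) ^ 2))) := (Real.exp_add _ _).symm
        _ ≤ Real.exp (-(ε₃ ^ 2 / (8 * (2 * P + 2) ^ 2) / 2 * k)) := by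
            refine Real.exp_le_exp.2 ?_
            rw [ee]
            have := mul_le_mul_of_nonneg_left hkk c3.le
            linarith
    have t4 : Real.exp (-(k / (4 * m)) + (1 + Real.exp 1) * Real.sqrt k) ≤
        Real.exp (-(1 / (8 * (m : ℝ)) * k)) := by
      refine Real.exp_le_exp.2 ?_
      have ee : (k : ℝ) / (4 * m) = 2 * (1 / (8 * (m : ℝ)) * k) := by
        field_simp
        ring
      rw [ee]
      linarith
    set E1 := Real.exp (-(ε ^ 2 * k / 6)) with hE1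
    have E1e : E1 = Real.exp (-(ε ^ 2 / 6 * k)) := by
      rw [hE1]; congr 1; ring
    set E2 := Real.exp (-(ε₂ ^ 2 * (k : ℝ) ^ 2 / 6)) with hE2
    set E3 := Real.exp (-(ε₃ ^ 2 * k ^ 2 / (8 * (2 * P + 2) ^ 2))) with hE3
    set E4 := Real.exp (-(k / (4 * m)) + (1 + Real.exp 1) * Real.sqrt k) with hE4
    set T : ℝ := (Fintype.card (Ty k P) : ℝ) with hTdef
    have hT0 : 0 ≤ T := Nat.cast_nonneg _
    have hE10 : 0 ≤ E1 := (Real.exp_pos _).le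
    have hE20 : 0 ≤ E2 := (Real.exp_pos _).le
    have hE30 : 0 ≤ E3 := (Real.exp_pos _).le
    have hE40 : 0 ≤ E4 := (Real.exp_pos _).le
    have s1 : 2 * k * ((4 * D + 2) * (2 * E1)) ≤ 32 * (k : ℝ) ^ 2 * E1 := by
      have : (4 * (D : ℝ) + 2) * (4 * k * E1) ≤ 8 * k * (4 * k * E1) :=
        mul_le_mul_of_nonneg_right q3 (by positivity)
      calc 2 * k * ((4 * (D : ℝ) + 2) * (2 * E1)) = (4 * (D : ℝ) + 2) * (4 * k * E1) := by ring
        _ ≤ 8 * k * (4 * k * E1) := this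
        _ = 32 * (k : ℝ) ^ 2 * E1 := by ring
    have s2 : T * ((4 * D + 2) * (2 * E2)) ≤ 16 * k * Real.exp (-(ε₂ ^ 2 / 12 * k)) := by
      calc T * ((4 * (D : ℝ) + 2) * (2 * E2)) = (4 * (D : ℝ) + 2) * (2 * (T * E2)) := by ring
        _ ≤ 8 * k * (2 * (T * E2)) := mul_le_mul_of_nonneg_right q3 (by positivity)
        _ ≤ 8 * k * (2 * Real.exp (-(ε₂ ^ 2 / 12 * k))) :=
            mul_le_mul_of_nonneg_left (by linarith) (by positivity)
        _ = 16 * k * Real.exp (-(ε₂ ^ 2 / 12 * k)) := by ring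
    have hsum : 2 * k * ((4 * D + 2) * (2 * E1)) + T * ((4 * D + 2) * (2 * E2)) + T * E3 + E4 ≤
        32 * (k : ℝ) ^ 2 * E1 + 16 * k * Real.exp (-(ε₂ ^ 2 / 12 * k)) +
          Real.exp (-(ε₃ ^ 2 / (8 * (2 * P + 2) ^ 2) / 2 * k)) + Real.exp (-(1 / (8 * (m : ℝ)) * k)) := by
      linarith
    have hpos : 0 ≤ 32 * (k : ℝ) ^ 2 * E1 + 16 * k * Real.exp (-(ε₂ ^ 2 / 12 * k)) +
          Real.exp (-(ε₃ ^ 2 / (8 * (2 * P + 2) ^ 2) / 2 * k)) + Real.exp (-(1 / (8 * (m : ℝ)) * k)) := by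
      positivity
    have hprod := mul_le_mul q2 hsum (by positivity) (by positivity)
    refine hprod.trans ?_
    have fin : 100 * (k : ℝ) ^ 4 * (32 * (k : ℝ) ^ 2 * E1 + 16 * k * Real.exp (-(ε₂ ^ 2 / 12 * k)) +
          Real.exp (-(ε₃ ^ 2 / (8 * (2 * P + 2) ^ 2) / 2 * k)) + Real.exp (-(1 / (8 * (m : ℝ)) * k))) =
        3200 * (k : ℝ) ^ 6 * E1 + 1600 * (k : ℝ) ^ 5 * Real.exp (-(ε₂ ^ 2 / 12 * k)) +
          100 * (k : ℝ) ^ 4 * Real.exp (-(ε₃ ^ 2 / (8 * (2 * P + 2) ^ 2) / 2 * k)) +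
          100 * (k : ℝ) ^ 4 * Real.exp (-(1 / (8 * (m : ℝ)) * k)) := by ring
    rw [fin, E1e]
    linarith

end Pool.Agent.MP_dc7d7b.LS
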