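import Pool.Agent.Lib.MP_dc7d7b_co.LS.Base

set_option autoImplicit false

/-!
# Module PairSum: the number of earlier non-adjacent neighbours

PROOF.  `∑ v ∈ nb0 w, |early w v|` counts the pairs `(u, v)` of non-adjacent vertices of `nb0 w` with
`ord u < ord v`; the pairs `(u, v)` with `u ≠ v` not adjacent are these and their mirror images (`ord` is
injective, adjacency is symmetric).
-/

namespace Pool.Agent.MP_dc7d7b.LS

open Finset

variable {V : Type*} [Fintype V] [DecidableEq V] (G : SimpleGraph V) [DecidableRel G.Adj] (V0 : Finset V)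
  (ord : V → ℕ)

theorem pair_sum (hord : Function.Injective ord) (w : V) :
    ((nb0 G V0 w ×ˢ nb0 G V0 w).filter (fun p => p.1 ≠ p.2 ∧ ¬ G.Adj p.1 p.2)).card =
      2 * ∑ v ∈ nb0 G V0 w, (early G V0 ord w v).card := by
  set N := nb0 G V0 w with hN
  have h1 : ∀ v, (early G V0 ord w v).card = ∑ u ∈ N, if (ord u < ord v ∧ ¬ G.Adj v u) then 1 else 0 := by
    intro v
    rw [early, Finset.card_filter]
  have h2 : ((N ×ˢ N).filter (fun p => p.1 ≠ p.2 ∧ ¬ G.Adj p.1 p.2)).card =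
      ∑ v ∈ N, ∑ u ∈ N, if (v ≠ u ∧ ¬ G.Adj v u) then 1 else 0 := by
    rw [Finset.card_filter, Finset.sum_product]
  have h3 : ∀ v ∈ N, ∀ u ∈ N, (if (v ≠ u ∧ ¬ G.Adj v u) then 1 else 0 : ℕ) =
      (if (ord u < ord v ∧ ¬ G.Adj v u) then 1 else 0) + (if (ord v < ord u ∧ ¬ G.Adj u v) then 1 else 0) := by
    intro v _ u _
    by_cases ha : G.Adj v u
    · simp [ha, ha.symm]
    · have ha' : ¬ G.Adj u v := fun h => ha h.symm
      by_cases hvu : v = u
      · subst hvu; simp
      · have hne : ord v ≠ ord u := fun h => hvu (hord h)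
        rcases lt_or_gt_of_ne hne with h | h
        · simp [ha, ha', hvu, h, h.le, not_lt.2 h.le]
        · simp [ha, ha', hvu, h, h.le, not_lt.2 h.le]
  have h4 : ∑ v ∈ N, ∑ u ∈ N, (if (ord v < ord u ∧ ¬ G.Adj u v) then 1 else 0 : ℕ) =
      ∑ v ∈ N, ∑ u ∈ N, (if (ord u < ord v ∧ ¬ G.Adj v u) then 1 else 0 : ℕ) := Finset.sum_comm
  rw [h2, Finset.sum_congr rfl fun v hv => Finset.sum_congr rfl fun u hu => h3 v hv u hu]
  simp only [Finset.sum_add_distrib]
  rw [h4, Finset.sum_congr rfl fun v _ => h1 v, two_mul]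

end Pool.Agent.MP_dc7d7b.LS
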