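import Pool.Agent.Lib.MP_dc7d7b_co.LS.KeptLLL
import Pool.Agent.Lib.MP_dc7d7b_co.LS.DetSav
import Pool.Agent.Lib.MP_dc7d7b_co.LS.BoxSum
import Pool.Agent.Lib.MP_dc7d7b_co.LS.PairSum
import Pool.Agent.Lib.MP_dc7d7b_co.LS.Num

set_option autoImplicit false

/-!
# Module Kept: the kept cells

PROOF.  `m` a natural number `≥ 30000 / η₁` (so `m ≥ 3`, `m ≥ 192 / η₁`, `m ≥ 4 / η₁`), `τ = η₁ / (64 m²)`,
`ε = η₁ / (3000 m²)` (`≤ 1/2`).  Given `P`, `d₀`: `ε₂ = min (η₁ / (9000 m)) (d₀ / 16)` and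
`ε₃ = min 1 (d₀ / (2 (5 + 4 P)))` (all positive and at most `1`); `k₀` from `num_p1`, `D₀ = k₀ + 1`
(`k ≥ (3/4) D`, so take `D₀ ≥ 2 k₀ + 2`).  `ord` = any injective function `V → ℕ` (`Fintype.equivFin`).
`x` from `exists_good`; `g u = (x u).1`, `K u = kept x u` if `u ∈ V0` and `∅` otherwise.  As `nb0 w ⊆ V0`, sums over
`nb0 w` and `sav` may be computed with `kept x`.
* `|K u| ≤ |act (x u)| ≤ 2 k / m ≤ η₁ k`, and `2 |kept x u| ≤ k`.
* Conflict-free: `u`, `v` adjacent, both in `V0` (otherwise `K` is empty), say `ord u < ord v` (`ord u ≠ ord v`).  Then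
`u ∈ prev v`, `i ∈ act (x u)`, so `(i, π u v (g u i)) ∈ blkd x v 1`, and `(i, g v i) ∉ blkd x v 1`.  If `ord v < ord u`
use `π v u = (π u v).symm`.
* Lines: `det_sav` with `s = ε k`, `|W| = k`, `hpairs` from `pair_sum`: `sav ≥ η₁ / (32 m²) k - 3 ε k ≥ τ k` since
`3 ε = η₁ / (1000 m²) ≤ η₁ / (64 m²)`.
* Boxes: `det_sav` with `s = ε₂ k²`: `sav ≥ τ |W| - 3 ε₂ k² ≥ τ |W| - d₀ k²`.
* `box_sum`: the coefficient of `|W|` is `(20/3) (1/m) (ε + 9/m² + 3 ε₂)`, and `(20/3) ε / m ≤ η₁ / (450 m³)`,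
`60 / m³ ≤ η₁ / (500 m²)` (`m ≥ 30000 / η₁`), `20 ε₂ / m ≤ η₁ / (450 m²)`; the sum is at most `η₁ / (128 m²) = τ / 2`.
The last term is at most `(4 ε₂ / m + d₀ / 2) k² ≤ d₀ k²`.
-/

namespace Pool.Agent.MP_dc7d7b.LS

open Finset

section

variable {V : Type*} [Fintype V] [DecidableEq V] {k m : ℕ} (G : SimpleGraph V) [DecidableRel G.Adj] (V0 : Finset V)
  (ord : V → ℕ) (π : V → V → Equiv.Perm (Fin k))

omit [Fintype V] in
private theorem sav_congr (K K' : V → Finset (Fin k)) (g : V → Equiv.Perm (Fin k)) (h : ∀ u ∈ V0, K u = K' u) (w : V)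
    (W : Finset (Fin k × Fin k)) : sav G V0 π K g w W = sav G V0 π K' g w W := by
  unfold sav
  have h1 : ∀ u ∈ nb0 G V0 w, K u = K' u := fun u hu => h u (Finset.mem_filter.mp hu).1
  congr 1
  · refine Finset.sum_congr rfl ?_
    intro u hu
    rw [h1 u hu]
  · congr 3
    refine Finset.biUnion_congr rfl ?_
    intro u hu
    rw [h1 u hu]

omit [Fintype V] in
private theorem kept_free (hπ : ∀ u v, π v u = (π u v).symm) (hord : Function.Injective ord) (x : V → Al k m)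
    (u v : V) (huv : G.Adj u v) (hu : u ∈ V0) (hv : v ∈ V0) (i : Fin k) (hi : i ∈ kept G V0 ord π x u)
    (hj : i ∈ kept G V0 ord π x v) : π u v ((x u).1 i) ≠ (x v).1 i := by
  intro h
  unfold kept at hi hj
  rw [Finset.mem_filter] at hi hj
  have hne : ord u ≠ ord v := fun h2 => huv.ne (hord h2)
  rcases lt_or_gt_of_ne hne with h2 | h2
  · refine hj.2 ?_
    rw [mem_blkd]
    refine ⟨u, ?_, hi.1, ?_⟩
    · unfold prev nb0
      rw [Finset.mem_filter, Finset.mem_filter]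
      exact ⟨⟨hu, huv.symm⟩, h2⟩
    · simpa using h
  · refine hi.2 ?_
    rw [mem_blkd]
    refine ⟨v, ?_, hj.1, ?_⟩
    · unfold prev nb0
      rw [Finset.mem_filter, Finset.mem_filter]
      exact ⟨⟨hv, huv⟩, h2⟩
    · rw [← h, hπ u v]
      simp

end

theorem kept_exists (η₁ : ℝ) (hη₁ : 0 < η₁) (hη₁1 : η₁ ≤ 1) : ∃ τ : ℝ, 0 < τ ∧ τ ≤ η₁ ∧
    ∀ (P : ℕ) (d₀ : ℝ), 0 < P → 0 < d₀ → ∃ D₀ : ℕ, ∀ D : ℕ, D₀ ≤ D →
    ∀ (V : Type) [Fintype V] [DecidableEq V] (G : SimpleGraph V) [DecidableRel G.Adj],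
      (∀ v, (univ.filter (fun w => G.Adj v w)).card ≤ D) →
    ∀ k : ℕ, (D : ℝ) ≤ 4 / 3 * k → k ≤ 2 * D →
    ∀ (π : V → V → Equiv.Perm (Fin k)), (∀ u v, π v u = (π u v).symm) → ∀ V0 : Finset V,
    ∃ (K : V → Finset (Fin k)) (g : V → Equiv.Perm (Fin k)),
      (∀ u, u ∉ V0 → K u = ∅) ∧ (∀ u, ((K u).card : ℝ) ≤ η₁ * k) ∧ (∀ u, 2 * (K u).card ≤ k) ∧
      (∀ u v, G.Adj u v → ∀ i, i ∈ K u → i ∈ K v → π u v (g u i) ≠ g v i) ∧
      (∀ w, 2 * η₁ * (D : ℝ) ^ 2 ≤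
          (((nb0 G V0 w ×ˢ nb0 G V0 w).filter (fun p => p.1 ≠ p.2 ∧ ¬ G.Adj p.1 p.2)).card : ℝ) →
        (∀ i, τ * k ≤ sav G V0 π K g w (rowl i)) ∧ (∀ c, τ * k ≤ sav G V0 π K g w (coll c)) ∧
        ∀ t : Ty k P, τ * (tyset t).card - d₀ * (k : ℝ) ^ 2 ≤ sav G V0 π K g w (tyset t)) ∧
      (∀ w, ∀ t : Ty k P, ∑ u ∈ nb0 G V0 w, zz (K u) (g u) (π u w) (tyset t) ≤
        (nb0 G V0 w).card / k * (tyset t).card + τ / 2 * (tyset t).card + d₀ * (k : ℝ) ^ 2) := by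
  obtain ⟨m, hm⟩ : ∃ m : ℕ, 30000 / η₁ ≤ m := exists_nat_ge _
  have hηm : 30000 ≤ η₁ * m := by
    rw [div_le_iff₀ hη₁] at hm
    linarith
  have hm30 : (30000 : ℝ) ≤ m := by
    have h1 : η₁ * m ≤ 1 * m := mul_le_mul_of_nonneg_right hη₁1 (by positivity)
    linarith
  have hm0 : (0 : ℝ) < m := by linarith
  have hm3 : 3 ≤ m := by
    have h1 : (3 : ℝ) ≤ m := by linarith
    exact_mod_cast h1
  have hm2 : (0 : ℝ) < (m : ℝ) ^ 2 := by positivity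
  have hm21 : (1 : ℝ) ≤ (m : ℝ) ^ 2 := by nlinarith
  obtain ⟨τ, hτ⟩ : ∃ τ : ℝ, τ = η₁ / (64 * m ^ 2) := ⟨_, rfl⟩
  obtain ⟨θ, hθ⟩ : ∃ θ : ℝ, θ = η₁ / m ^ 2 := ⟨_, rfl⟩
  have hθ0 : 0 < θ := by rw [hθ]; positivity
  have hτθ : τ = θ / 64 := by
    rw [hτ, hθ]
    field_simp
  have hθ1 : θ ≤ η₁ := by
    rw [hθ, div_le_iff₀ hm2]
    nlinarith
  refine ⟨τ, by rw [hτθ]; positivity, by rw [hτθ]; linarith, ?_⟩
  intro P d₀ hP hd₀
  obtain ⟨ε, hε⟩ : ∃ ε : ℝ, ε = θ / 3000 := ⟨_, rfl⟩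
  have hε0 : 0 < ε := by rw [hε]; positivity
  have hε1 : ε ≤ 1 / 2 := by rw [hε]; linarith
  obtain ⟨ε₂, hε₂⟩ : ∃ ε₂ : ℝ, ε₂ = min (η₁ / (9000 * m)) (d₀ / 16) := ⟨_, rfl⟩
  have hε₂0 : 0 < ε₂ := by rw [hε₂]; positivity
  have hε₂a : ε₂ ≤ η₁ / (9000 * m) := by rw [hε₂]; exact min_le_left _ _
  have hε₂b : ε₂ ≤ d₀ / 16 := by rw [hε₂]; exact min_le_right _ _
  have hε₂1 : ε₂ ≤ 1 := by
    refine hε₂a.trans ?_
    rw [div_le_one (by positivity)]
    linarith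
  have hP0 : (0 : ℝ) < 5 + 4 * P := by positivity
  obtain ⟨ε₃, hε₃⟩ : ∃ ε₃ : ℝ, ε₃ = min 1 (d₀ / (2 * (5 + 4 * P))) := ⟨_, rfl⟩
  have hε₃0 : 0 < ε₃ := by rw [hε₃]; positivity
  have hε₃1 : ε₃ ≤ 1 := by rw [hε₃]; exact min_le_left _ _
  have hε₃b : (5 + 4 * P) * ε₃ ≤ d₀ / 2 := by
    have h1 : ε₃ ≤ d₀ / (2 * (5 + 4 * P)) := by rw [hε₃]; exact min_le_right _ _
    calc (5 + 4 * P) * ε₃ ≤ (5 + 4 * P) * (d₀ / (2 * (5 + 4 * P))) := mul_le_mul_of_nonneg_left h1 hP0.le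
      _ = d₀ / 2 := by field_simp
  obtain ⟨k₀, hk₀⟩ := num_p1 m P ε ε₂ ε₃ (by omega) hP hε0 hε₂0 hε₃0
  refine ⟨2 * k₀ + 2, ?_⟩
  intro D hD V _ _ G _ hdeg k hDk hkD π hπ V0
  have hkk : k₀ + 1 ≤ k := by
    have h1 : ((2 * k₀ + 2 : ℕ) : ℝ) ≤ D := by exact_mod_cast hD
    push_cast at h1
    have h2 : ((k₀ + 1 : ℕ) : ℝ) ≤ k := by
      push_cast
      have h0 : (0 : ℝ) ≤ k₀ := by positivity
      linarith
    exact_mod_cast h2
  have hk : 0 < k := by omega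
  have hk' : (0 : ℝ) < k := by exact_mod_cast hk
  have hkD' : (k : ℝ) ≤ 2 * D := by exact_mod_cast hkD
  obtain ⟨h1, h2, h3⟩ := hk₀ k D (by omega) hDk
  obtain ⟨ord, hord⟩ : ∃ ord : V → ℕ, Function.Injective ord :=
    ⟨fun v => (Fintype.equivFin V v : ℕ), fun a b h => (Fintype.equivFin V).injective (Fin.ext h)⟩
  obtain ⟨x, hx⟩ := exists_good G V0 ord π hk hm3 hDk hdeg hord ε ε₂ ε₃ hε0 (by linarith) hε₂0 hε₂1 hε₃0 hε₃1 h1 h2 h3
  set Kf : V → Finset (Fin k) := fun u => if u ∈ V0 then kept G V0 ord π x u else ∅ with hKf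
  have hKf1 : ∀ u ∈ V0, Kf u = kept G V0 ord π x u := fun u hu => by rw [hKf]; simp only [if_pos hu]
  have hKf0 : ∀ u, u ∉ V0 → Kf u = ∅ := fun u hu => by rw [hKf]; simp only [if_neg hu]
  have hkept : ∀ u, ((kept G V0 ord π x u).card : ℝ) ≤ 2 * k / m := by
    intro u
    refine le_trans ?_ (hx u).act
    exact_mod_cast Finset.card_le_card (kept_subset G V0 ord π x u)
  have hkept2 : ∀ u, 2 * (kept G V0 ord π x u).card ≤ k := by
    intro u
    have h4 := hkept u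
    have h5 : 2 * (k : ℝ) / m ≤ k / 2 := by
      rw [div_le_div_iff₀ hm0 two_pos]
      nlinarith
    have h6 : ((2 * (kept G V0 ord π x u).card : ℕ) : ℝ) ≤ k := by
      push_cast
      linarith
    exact_mod_cast h6
  have hsavc : ∀ w W, sav G V0 π Kf (fun u => (x u).1) w W =
      sav G V0 π (kept G V0 ord π x) (fun u => (x u).1) w W := fun w W => sav_congr G V0 π _ _ _ hKf1 w W
  refine ⟨Kf, fun u => (x u).1, hKf0, ?_, ?_, ?_, ?_, ?_⟩
  · intro u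
    by_cases hu : u ∈ V0
    · rw [hKf1 u hu]
      refine (hkept u).trans ?_
      rw [div_le_iff₀ hm0]
      nlinarith
    · rw [hKf0 u hu, Finset.card_empty, Nat.cast_zero]
      positivity
  · intro u
    by_cases hu : u ∈ V0
    · rw [hKf1 u hu]
      exact hkept2 u
    · rw [hKf0 u hu, Finset.card_empty]
      omega
  · intro u v huv i hi hj
    have hu : u ∈ V0 := by
      by_contra h
      rw [hKf0 u h] at hi
      exact absurd hi (Finset.notMem_empty _)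
    have hv : v ∈ V0 := by
      by_contra h
      rw [hKf0 v h] at hj
      exact absurd hj (Finset.notMem_empty _)
    rw [hKf1 u hu] at hi
    rw [hKf1 v hv] at hj
    exact kept_free G V0 ord π hπ hord x u v huv hu hv i hi hj
  · intro w hw
    have hpairs : η₁ * (D : ℝ) ^ 2 ≤ ∑ v ∈ nb0 G V0 w, ((early G V0 ord w v).card : ℝ) := by
      rw [pair_sum G V0 ord hord w] at hw
      push_cast at hw
      linarith
    have hm192 : 192 / η₁ ≤ m := by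
      rw [div_le_iff₀ hη₁]
      linarith
    have hq : η₁ / (32 * (m : ℝ) ^ 2) = θ / 32 := by
      rw [hθ]
      field_simp
    refine ⟨?_, ?_, ?_⟩
    · intro i
      have h4 := det_sav G V0 ord π hk hDk hkD' hdeg hord η₁ hη₁ hη₁1 hm192 x w (rowl i) (ε * k) (by positivity) hpairs
        ((hx w).row i)
      rw [card_rowl, hq] at h4
      rw [hsavc, hτθ]
      refine le_trans ?_ h4
      rw [hε]
      nlinarith
    · intro i
      have h4 := det_sav G V0 ord π hk hDk hkD' hdeg hord η₁ hη₁ hη₁1 hm192 x w (coll i) (ε * k) (by positivity) hpairs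
        ((hx w).col i)
      rw [card_coll, hq] at h4
      rw [hsavc, hτθ]
      refine le_trans ?_ h4
      rw [hε]
      nlinarith
    · intro t
      have h4 := det_sav G V0 ord π hk hDk hkD' hdeg hord η₁ hη₁ hη₁1 hm192 x w (tyset t) (ε₂ * (k : ℝ) ^ 2)
        (by positivity) hpairs ((hx w).box t)
      rw [hq] at h4
      rw [hsavc, hτθ]
      refine le_trans ?_ h4
      have h5 : ε₂ * (k : ℝ) ^ 2 ≤ d₀ / 16 * (k : ℝ) ^ 2 := mul_le_mul_of_nonneg_right hε₂b (by positivity)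
      have h6 : (0 : ℝ) ≤ (tyset t).card := Nat.cast_nonneg _
      have h7 : 0 ≤ d₀ * (k : ℝ) ^ 2 := by positivity
      have h8 : 0 ≤ θ * (tyset t).card := mul_nonneg hθ0.le h6
      linarith
  · intro w t
    have h4 : ∑ u ∈ nb0 G V0 w, zz (Kf u) (x u).1 (π u w) (tyset t) =
        ∑ u ∈ nb0 G V0 w, zz (kept G V0 ord π x u) (x u).1 (π u w) (tyset t) := by
      refine Finset.sum_congr rfl ?_
      intro u hu
      rw [hKf1 u (Finset.mem_filter.mp hu).1]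
    simp only [h4]
    refine (box_sum G V0 ord π hk hm3 hP hDk hdeg hord x w ε ε₂ ε₃ hε0.le hε1 hε₂0.le (fun u => (hx u).row)
      (fun u => (hx u).col) ((hx w).box) ((hx w).dev) hkept2 t).trans ?_
    have h5 : 20 / 3 * (1 / (m : ℝ) * (ε + 9 / m ^ 2 + 3 * ε₂)) ≤ τ / 2 := by
      have h6 : 3 * ε₂ ≤ η₁ / (3000 * m) := by
        have : η₁ / (3000 * m) = 3 * (η₁ / (9000 * m)) := by
          rw [mul_div_assoc', div_eq_div_iff (by positivity) (by positivity)]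
          ring
        rw [this]
        linarith
      have h7 : 1 / (m : ℝ) * (3 * ε₂) ≤ θ / 3000 := by
        calc 1 / (m : ℝ) * (3 * ε₂) ≤ 1 / (m : ℝ) * (η₁ / (3000 * m)) := mul_le_mul_of_nonneg_left h6 (by positivity)
          _ = θ / 3000 := by
            rw [hθ, div_mul_div_comm, one_mul, div_div, div_eq_div_iff (by positivity) (by positivity)]
            ring
      have h8 : 1 / (m : ℝ) * ε ≤ ε / 30000 := by
        rw [div_mul_eq_mul_div, one_mul, div_le_div_iff₀ hm0 (by norm_num)]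
        nlinarith
      have h9 : 1 / (m : ℝ) * (9 / m ^ 2) ≤ 9 * θ / 30000 := by
        rw [hθ, div_mul_div_comm, one_mul, mul_div_assoc', div_div, div_le_div_iff₀ (by positivity) (by positivity)]
        nlinarith
      rw [mul_add, mul_add, hτθ]
      rw [hε] at h8 ⊢
      linarith
    have h6 : 4 / (m : ℝ) * ε₂ ≤ d₀ / 4 := by
      have h7 : 4 / (m : ℝ) ≤ 4 := by
        rw [div_le_iff₀ hm0]
        linarith
      calc 4 / (m : ℝ) * ε₂ ≤ 4 * (d₀ / 16) := mul_le_mul h7 hε₂b hε₂0.le (by norm_num)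
        _ = d₀ / 4 := by ring
    have h7 := mul_le_mul_of_nonneg_right h5 (Nat.cast_nonneg (α := ℝ) (tyset t).card)
    have h8 : (4 / (m : ℝ) * ε₂ + (5 + 4 * P) * ε₃) * (k : ℝ) ^ 2 ≤ d₀ * (k : ℝ) ^ 2 :=
      mul_le_mul_of_nonneg_right (by linarith) (by positivity)
    linarith

end Pool.Agent.MP_dc7d7b.LS
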