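import Pool.Agent.Lib.MP_dc7d7b_co.LS.Base

set_option autoImplicit false

/-!
# Module MomLine: exponential moments for rows and columns

PROOF.  Row `i`: for `T ⊆ rowl i` and a vertex choice `x = (σ, e)`, `ah x ρ T` is `1` if `e i = 0` and
`(i, ρ (σ i)) ∈ T`, and `0` otherwise.  The pair `(σ i, e i)` is uniform in `Fin k × Fin m`: the number of `x` with
`ah x ρ T = 1` is `|Al k m| * |T| / (k m)` (the number of `σ` with `σ i = c` is `(k - 1)!`, the number of `e` with
`e i = 0` is `m ^ (k - 1)`; or by a double counting: the numbers of `x` with `(σ i, e i) = (c, b)` do not depend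
on `(c, b)`, because composing `σ` with a transposition and `e i` with a permutation are bijections).  So
`∑ x, exp (lam * ah x ρ T) = |Al k m| * (1 + (exp lam - 1) * |T| / (m k)) ≤ |Al k m| * exp ((exp lam - 1) * |T| / (m k))`.

Column `c`: for `T ⊆ coll c` the only row that counts is `i = σ⁻¹ (ρ⁻¹ c)`, and `ah x ρ T` is `1` iff
`e i = 0` and `(i, c) ∈ T`.  Again the pair `(σ⁻¹ (ρ⁻¹ c), e (σ⁻¹ (ρ⁻¹ c)))` is uniform: the number of
`x = (σ, e)` with `ah x ρ T = 1` is the sum over the `|T|` rows `i` with `(i, c) ∈ T` of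
`#{σ | σ i = ρ⁻¹ c} * #{e | e i = 0}`.
-/

namespace Pool.Agent.MP_dc7d7b.LS

open Finset

private theorem ml_sum_row {m : ℕ} (hm : 0 < m) (lam : ℝ) (P : Prop) [Decidable P] :
    ∑ b : Fin m, (if (b : ℕ) = 0 ∧ P then Real.exp lam else 1) =
      m * (if P then 1 + (Real.exp lam - 1) / m else 1) := by
  have hm' : (m : ℝ) ≠ 0 := by exact_mod_cast hm.ne'
  by_cases hP : P
  · simp only [hP, and_true, if_true]
    have h1 : ∀ b : Fin m, (if (b : ℕ) = 0 then Real.exp lam else 1) =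
        (if b = ⟨0, hm⟩ then (Real.exp lam - 1) else 0) + 1 := by
      intro b
      by_cases hb : (b : ℕ) = 0
      · rw [if_pos hb, if_pos (Fin.ext hb)]; ring
      · rw [if_neg hb, if_neg (fun h => hb (by rw [h]))]; ring
    rw [Finset.sum_congr rfl fun b _ => h1 b, Finset.sum_add_distrib, Finset.sum_ite_eq' univ]
    simp only [Finset.mem_univ, if_true, Finset.sum_const, Finset.card_univ, Fintype.card_fin,
      nsmul_eq_mul, mul_one]
    field_simp
    ring
  · simp [hP]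

private theorem ml_sum {k m : ℕ} (hm : 0 < m) (lam : ℝ) (ρ : Equiv.Perm (Fin k)) (T : Finset (Fin k × Fin k)) :
    ∑ x : Al k m, Real.exp (lam * ah x ρ T) =
      (m : ℝ) ^ k * ∑ σ : Equiv.Perm (Fin k), ∏ i, (if (i, ρ (σ i)) ∈ T then 1 + (Real.exp lam - 1) / m else 1) := by
  rw [Fintype.sum_prod_type, Finset.mul_sum]
  refine Finset.sum_congr rfl fun σ _ => ?_
  have h2 : ∀ e : Fin k → Fin m, Real.exp (lam * ah ((σ, e) : Al k m) ρ T) =
      ∏ i, (if (e i : ℕ) = 0 ∧ (i, ρ (σ i)) ∈ T then Real.exp lam else 1) := by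
    intro e
    rw [Finset.prod_ite, Finset.prod_const, Finset.prod_const_one, mul_one]
    unfold ah ch act
    rw [Finset.filter_filter, mul_comm, Real.exp_nat_mul]
  rw [Finset.sum_congr rfl fun e _ => h2 e]
  have h3 := Finset.prod_univ_sum (fun _ : Fin k => (univ : Finset (Fin m)))
    (fun i b => (if (b : ℕ) = 0 ∧ (i, ρ (σ i)) ∈ T then Real.exp lam else 1))
  rw [Fintype.piFinset_univ] at h3
  rw [← h3, Finset.prod_congr rfl fun i _ => ml_sum_row hm lam ((i, ρ (σ i)) ∈ T), Finset.prod_mul_distrib,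
    Finset.prod_const, Finset.card_univ, Fintype.card_fin]

/-- The value of a random permutation at one place is uniform. -/
private theorem ml_unif {k : ℕ} (F : Fin k → ℝ) (i : Fin k) :
    (k : ℝ) * ∑ σ : Equiv.Perm (Fin k), F (σ i) = (k.factorial : ℝ) * ∑ c, F c := by
  have h1 : ∀ j : Fin k, ∑ σ : Equiv.Perm (Fin k), F (σ j) = ∑ σ : Equiv.Perm (Fin k), F (σ i) := by
    intro j
    rw [← Equiv.sum_comp (Equiv.mulRight (Equiv.swap i j)) (fun σ : Equiv.Perm (Fin k) => F (σ j))]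
    refine Finset.sum_congr rfl fun σ _ => ?_
    simp [Equiv.Perm.mul_apply]
  have h2 : ∑ j : Fin k, ∑ σ : Equiv.Perm (Fin k), F (σ j) =
      ∑ j : Fin k, ∑ σ : Equiv.Perm (Fin k), F (σ i) := Finset.sum_congr rfl fun j _ => h1 j
  rw [Finset.sum_const, Finset.card_univ, Fintype.card_fin, nsmul_eq_mul] at h2
  rw [← h2, Finset.sum_comm]
  have h3 : ∀ σ : Equiv.Perm (Fin k), ∑ j, F (σ j) = ∑ c, F c := fun σ => Equiv.sum_comp σ F
  rw [Finset.sum_congr rfl fun σ _ => h3 σ, Finset.sum_const, Finset.card_univ, Fintype.card_perm,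
    Fintype.card_fin, nsmul_eq_mul]

private theorem ml_final {k m : ℕ} (hk : 0 < k) (lam : ℝ) (S : ℝ) (t : ℕ)
    (hS : (k : ℝ) * S = (k.factorial : ℝ) * (k + (Real.exp lam - 1) / m * t)) :
    (m : ℝ) ^ k * S ≤ Fintype.card (Al k m) * Real.exp ((Real.exp lam - 1) * ((t : ℝ) / (m * k)) + 0) := by
  have hk' : (0 : ℝ) < k := by exact_mod_cast hk
  have hcard : (Fintype.card (Al k m) : ℝ) = (k.factorial : ℝ) * (m : ℝ) ^ k := by
    rw [Fintype.card_prod, Fintype.card_perm, Fintype.card_fun, Fintype.card_fin, Fintype.card_fin]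
    push_cast
    ring
  have h1 : S = (k.factorial : ℝ) * ((Real.exp lam - 1) * ((t : ℝ) / (m * k)) + 1) := by
    have h2 : (k : ℝ) * S = k * ((k.factorial : ℝ) * ((Real.exp lam - 1) * ((t : ℝ) / (m * k)) + 1)) := by
      rw [hS]
      have h3 : (Real.exp lam - 1) / (m : ℝ) * t = k * ((Real.exp lam - 1) * ((t : ℝ) / (m * k))) := by
        rcases eq_or_ne (m : ℝ) 0 with h | h
        · simp [h]
        · field_simp
      rw [h3]
      ring
    exact mul_left_cancel₀ hk'.ne' h2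
  rw [h1, hcard, add_zero]
  have h4 := Real.add_one_le_exp ((Real.exp lam - 1) * ((t : ℝ) / (m * k)))
  have h5 : (0 : ℝ) ≤ (m : ℝ) ^ k * k.factorial := by positivity
  calc (m : ℝ) ^ k * ((k.factorial : ℝ) * ((Real.exp lam - 1) * ((t : ℝ) / (m * k)) + 1))
      = (m : ℝ) ^ k * k.factorial * ((Real.exp lam - 1) * ((t : ℝ) / (m * k)) + 1) := by ring
    _ ≤ (m : ℝ) ^ k * k.factorial * Real.exp ((Real.exp lam - 1) * ((t : ℝ) / (m * k))) :=
        mul_le_mul_of_nonneg_left h4 h5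
    _ = (k.factorial : ℝ) * (m : ℝ) ^ k * Real.exp ((Real.exp lam - 1) * ((t : ℝ) / (m * k))) := by ring

theorem mom_row {k m : ℕ} (hk : 0 < k) (hm : 0 < m) (i : Fin k) : Mom m (rowl i) 0 := by
  intro ρ T hT lam _
  rw [ml_sum hm lam ρ T]
  refine ml_final hk lam _ T.card ?_
  have h1 : ∀ σ : Equiv.Perm (Fin k), ∏ j, (if (j, ρ (σ j)) ∈ T then 1 + (Real.exp lam - 1) / (m : ℝ) else 1) =
      (fun c => if (i, ρ c) ∈ T then 1 + (Real.exp lam - 1) / (m : ℝ) else 1) (σ i) := by
    intro σ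
    refine Finset.prod_eq_single i ?_ ?_
    · intro j _ hj
      rw [if_neg]
      intro h
      have := hT h
      unfold rowl at this
      rw [Finset.mem_filter] at this
      exact hj this.2
    · intro h
      exact absurd (Finset.mem_univ i) h
  rw [Finset.sum_congr rfl fun σ _ => h1 σ,
    ml_unif (fun c => if (i, ρ c) ∈ T then 1 + (Real.exp lam - 1) / (m : ℝ) else 1) i]
  congr 1
  have h2 : ∀ c : Fin k, (if (i, ρ c) ∈ T then 1 + (Real.exp lam - 1) / (m : ℝ) else 1) =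
      1 + (Real.exp lam - 1) / (m : ℝ) * (if (i, ρ c) ∈ T then 1 else 0) := by
    intro c
    split_ifs <;> ring
  rw [Finset.sum_congr rfl fun c _ => h2 c, Finset.sum_add_distrib, ← Finset.mul_sum, Finset.sum_const,
    Finset.card_univ, Fintype.card_fin, nsmul_eq_mul, mul_one]
  congr 2
  rw [Equiv.sum_comp ρ (fun c => if (i, c) ∈ T then (1 : ℝ) else 0), Finset.sum_ite, Finset.sum_const_zero, add_zero,
    Finset.sum_const, nsmul_eq_mul, mul_one]
  congr 1
  refine Finset.card_bij (fun c _ => (i, c)) ?_ ?_ ?_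
  · intro c hc
    exact (Finset.mem_filter.1 hc).2
  · intro a _ b _ h
    exact (Prod.mk.injEq _ _ _ _ ▸ h : _ ∧ a = b).2
  · intro e he
    have h3 := hT he
    unfold rowl at h3
    rw [Finset.mem_filter] at h3
    refine ⟨e.2, Finset.mem_filter.2 ⟨Finset.mem_univ _, ?_⟩, ?_⟩
    · rw [← h3.2]; exact he
    · rw [← h3.2]

theorem mom_col {k m : ℕ} (hk : 0 < k) (hm : 0 < m) (c : Fin k) : Mom m (coll c) 0 := by
  intro ρ T hT lam _
  rw [ml_sum hm lam ρ T]
  refine ml_final hk lam _ T.card ?_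
  have h1 : ∀ σ : Equiv.Perm (Fin k), ∏ j, (if (j, ρ (σ j)) ∈ T then 1 + (Real.exp lam - 1) / (m : ℝ) else 1) =
      (fun j => if (j, c) ∈ T then 1 + (Real.exp lam - 1) / (m : ℝ) else 1) (σ⁻¹ (ρ.symm c)) := by
    intro σ
    have h0 : ρ (σ (σ⁻¹ (ρ.symm c))) = c := by simp
    rw [Finset.prod_eq_single (σ⁻¹ (ρ.symm c))]
    · simp only [h0]
    · intro j _ hj
      rw [if_neg]
      intro h
      have := hT h
      unfold coll at this
      rw [Finset.mem_filter] at this
      apply hj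
      have h5 : ρ (σ j) = c := this.2
      rw [← h5]
      simp
    · intro h
      exact absurd (Finset.mem_univ _) h
  rw [Finset.sum_congr rfl fun σ _ => h1 σ]
  rw [← Equiv.sum_comp (Equiv.inv (Equiv.Perm (Fin k)))
    (fun σ : Equiv.Perm (Fin k) => (fun j => if (j, c) ∈ T then 1 + (Real.exp lam - 1) / (m : ℝ) else 1)
      (σ⁻¹ (ρ.symm c)))]
  simp only [Equiv.inv_apply, inv_inv]
  rw [ml_unif (fun j => if (j, c) ∈ T then 1 + (Real.exp lam - 1) / (m : ℝ) else 1) (ρ.symm c)]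
  congr 1
  have h2 : ∀ j : Fin k, (if (j, c) ∈ T then 1 + (Real.exp lam - 1) / (m : ℝ) else 1) =
      1 + (Real.exp lam - 1) / (m : ℝ) * (if (j, c) ∈ T then 1 else 0) := by
    intro j
    split_ifs <;> ring
  rw [Finset.sum_congr rfl fun j _ => h2 j, Finset.sum_add_distrib, ← Finset.mul_sum, Finset.sum_const,
    Finset.card_univ, Fintype.card_fin, nsmul_eq_mul, mul_one]
  congr 2
  rw [Finset.sum_ite, Finset.sum_const_zero, add_zero, Finset.sum_const, nsmul_eq_mul, mul_one]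
  congr 1
  refine Finset.card_bij (fun j _ => (j, c)) ?_ ?_ ?_
  · intro j hj
    exact (Finset.mem_filter.1 hj).2
  · intro a _ b _ h
    exact (Prod.mk.injEq _ _ _ _ ▸ h : a = b ∧ _).1
  · intro e he
    have h3 := hT he
    unfold coll at h3
    rw [Finset.mem_filter] at h3
    refine ⟨e.1, Finset.mem_filter.2 ⟨Finset.mem_univ _, ?_⟩, ?_⟩
    · rw [← h3.2]; exact he
    · rw [← h3.2]

end Pool.Agent.MP_dc7d7b.LS
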