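import Pool.Agent.Lib.MP_dc7d7b_co.LS.Base

set_option autoImplicit false

/-!
# Module Local: the good events are local

`ball2 w`: `w`, its neighbours and their neighbours.  PROOF of `good_congr`: `dev` of a family only uses `x` at the
members of the family (`Finset.sum_congr`), the sets `T v` use `x` at the members of `fam w v`, `nb0 w`, and
`prev u` for `u ∈ nb0 w` (through `blkd`, `kept`).  All these vertices are in `ball2 w` (for `v ∈ nb0 w`:
`early w v ⊆ nb0 w ⊆ N(w)`, `prev v ⊆ N(v)`).  Show first `blkd_congr`, `kept_congr`.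
`card_meet`: if `ball2 w` and `ball2 w'` meet in `z` then `w' ∈ ball2 z` (the relation is symmetric), and
`|ball2 z| ≤ 1 + D + D²`, so the number of such `w'` is at most `(1 + D + D²)²`.
-/

namespace Pool.Agent.MP_dc7d7b.LS

open Finset

variable {V : Type*} [Fintype V] [DecidableEq V] {k m : ℕ} (G : SimpleGraph V) [DecidableRel G.Adj] (V0 : Finset V)
  (ord : V → ℕ) (π : V → V → Equiv.Perm (Fin k))

/-- The ball of radius two. -/
def ball2 (w : V) : Finset V :=
  {w} ∪ univ.filter (fun y => G.Adj w y) ∪ (univ.filter (fun z => G.Adj w z)).biUnion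
    (fun z => univ.filter (fun y => G.Adj z y))

private theorem local_mem_ball2 {w y : V} :
    y ∈ ball2 G w ↔ y = w ∨ G.Adj w y ∨ ∃ z, G.Adj w z ∧ G.Adj z y := by
  unfold ball2
  simp only [mem_union, mem_singleton, mem_filter, mem_univ, true_and, mem_biUnion]
  tauto

private theorem local_ball2_symm {w y : V} (h : y ∈ ball2 G w) : w ∈ ball2 G y := by
  rw [local_mem_ball2] at h ⊢
  rcases h with h | h | ⟨z, h1, h2⟩
  · exact Or.inl h.symm
  · exact Or.inr (Or.inl h.symm)
  · exact Or.inr (Or.inr ⟨z, h2.symm, h1.symm⟩)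

private theorem local_card_ball2 {D : ℕ} (hdeg : ∀ v, (univ.filter (fun w => G.Adj v w)).card ≤ D) (w : V) :
    (ball2 G w).card ≤ 1 + D + D ^ 2 := by
  unfold ball2
  refine (card_union_le _ _).trans ?_
  refine Nat.add_le_add ?_ ?_
  · refine (card_union_le _ _).trans ?_
    rw [card_singleton]
    exact Nat.add_le_add_left (hdeg w) 1
  · refine card_biUnion_le.trans ?_
    calc ∑ z ∈ univ.filter (fun z => G.Adj w z), (univ.filter (fun y => G.Adj z y)).card
        ≤ ∑ z ∈ univ.filter (fun z => G.Adj w z), D := sum_le_sum fun z _ => hdeg z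
      _ = (univ.filter (fun z => G.Adj w z)).card * D := by rw [sum_const, smul_eq_mul]
      _ ≤ D * D := Nat.mul_le_mul_right _ (hdeg w)
      _ = D ^ 2 := by ring

theorem card_meet {D : ℕ} (hdeg : ∀ v, (univ.filter (fun w => G.Adj v w)).card ≤ D) (w : V) :
    (univ.filter (fun w' => ¬ Disjoint (ball2 G w) (ball2 G w'))).card ≤ (1 + D + D ^ 2) ^ 2 := by
  have h1 : univ.filter (fun w' => ¬ Disjoint (ball2 G w) (ball2 G w')) ⊆ (ball2 G w).biUnion (ball2 G) := by
    intro w' hw'
    rw [mem_filter, not_disjoint_iff] at hw'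
    obtain ⟨_, z, hz1, hz2⟩ := hw'
    rw [mem_biUnion]
    exact ⟨z, hz1, local_ball2_symm G hz2⟩
  refine (card_le_card h1).trans (card_biUnion_le.trans ?_)
  calc ∑ z ∈ ball2 G w, (ball2 G z).card ≤ ∑ z ∈ ball2 G w, (1 + D + D ^ 2) :=
        sum_le_sum fun z _ => local_card_ball2 G hdeg z
    _ = (ball2 G w).card * (1 + D + D ^ 2) := by rw [sum_const, smul_eq_mul]
    _ ≤ (1 + D + D ^ 2) * (1 + D + D ^ 2) := Nat.mul_le_mul_right _ (local_card_ball2 G hdeg w)
    _ = (1 + D + D ^ 2) ^ 2 := by ring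

theorem blkd_congr (x y : V → Al k m) (u : V) (ρ : Equiv.Perm (Fin k)) (h : ∀ z ∈ prev G V0 ord u, x z = y z) :
    blkd G V0 ord π x u ρ = blkd G V0 ord π y u ρ := by
  unfold blkd
  refine biUnion_congr rfl fun z hz => ?_
  rw [h z hz]

theorem kept_congr (x y : V → Al k m) (u : V) (hu : x u = y u) (h : ∀ z ∈ prev G V0 ord u, x z = y z) :
    kept G V0 ord π x u = kept G V0 ord π y u := by
  unfold kept
  rw [hu, blkd_congr G V0 ord π x y u 1 h]

omit [Fintype V] in
private theorem local_dev_congr (x y : V → Al k m) (M : Finset V) (ρ : V → Equiv.Perm (Fin k))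
    (T T' : V → Finset (Fin k × Fin k)) (h : ∀ z ∈ M, x z = y z) (hT : ∀ z ∈ M, T z = T' z) :
    dev x M ρ T = dev y M ρ T' := by
  unfold dev
  refine sum_congr rfl fun z hz => ?_
  rw [h z hz, hT z hz]

omit [Fintype V] in
private theorem local_nb0_adj {w v : V} (h : v ∈ nb0 G V0 w) : G.Adj w v := by
  unfold nb0 at h
  exact (mem_filter.1 h).2

omit [Fintype V] in
private theorem local_prev_adj {v y : V} (h : y ∈ prev G V0 ord v) : G.Adj v y := by
  unfold prev at h
  exact local_nb0_adj G V0 (mem_filter.1 h).1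

omit [Fintype V] in
private theorem local_early_adj {w v y : V} (h : y ∈ early G V0 ord w v) : G.Adj w y := by
  unfold early at h
  exact local_nb0_adj G V0 (mem_filter.1 h).1

theorem good_congr (x y : V → Al k m) (w : V) (W : Finset (Fin k × Fin k)) (s : ℝ)
    (h : ∀ z ∈ ball2 G w, x z = y z) (hx : Good G V0 ord π x w W s) : Good G V0 ord π y w W s := by
  have hN : ∀ z, G.Adj w z → x z = y z := fun z hz =>
    h z ((local_mem_ball2 G).2 (Or.inr (Or.inl hz)))
  have hNN : ∀ u z, G.Adj w u → G.Adj u z → x z = y z := fun u z hu hz =>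
    h z ((local_mem_ball2 G).2 (Or.inr (Or.inr ⟨u, hu, hz⟩)))
  have hprev : ∀ u, G.Adj w u → ∀ z ∈ prev G V0 ord u, x z = y z := fun u hu z hz =>
    hNN u z hu (local_prev_adj G V0 ord hz)
  have hearly : ∀ v, ∀ z ∈ early G V0 ord w v, x z = y z := fun v z hz =>
    hN z (local_early_adj G V0 ord hz)
  have hfam : ∀ v ∈ nb0 G V0 w, ∀ z ∈ fam G V0 ord w v, x z = y z := by
    intro v hv z hz
    unfold fam at hz
    rcases mem_union.1 hz with hz | hz
    · exact hearly v z hz
    · exact hprev v (local_nb0_adj G V0 hv) z hz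
  have hblk : ∀ u, G.Adj w u → ∀ ρ, blkd G V0 ord π x u ρ = blkd G V0 ord π y u ρ := fun u hu ρ =>
    blkd_congr G V0 ord π x y u ρ (hprev u hu)
  refine ⟨fun v hv => ?_, fun v hv => ?_, fun v hv => ?_, ?_, fun v hv => ?_, ?_⟩
  · rw [← local_dev_congr x y (fam G V0 ord w v) (tr G V0 ord π w v) (fun _ => W) (fun _ => W) (hfam v hv)
      (fun _ _ => rfl)]
    exact hx.a v hv
  · refine (congrArg (fun r : ℝ => |r| ≤ s) (local_dev_congr x y (fam G V0 ord w v) (tr G V0 ord π w v) _ _
      (hfam v hv) (fun z _ => ?_))).mp (hx.b v hv)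
    congr 1
    refine biUnion_congr rfl fun u hu => ?_
    rw [hfam v hv u (mem_filter.1 hu).1]
  · refine (congrArg (fun r : ℝ => |r| ≤ s) (local_dev_congr x y (early G V0 ord w v) (fun u => π u w) _ _
      (hearly v) (fun z hz => ?_))).mp (hx.c v hv)
    rw [hblk z (local_early_adj G V0 ord hz)]
  · refine (congrArg (fun r : ℝ => |r| ≤ s) (local_dev_congr x y (nb0 G V0 w) (fun u => π u w) _ _
      (fun z hz => hN z (local_nb0_adj G V0 hz)) (fun z hz => ?_))).mp hx.d
    rw [hblk z (local_nb0_adj G V0 hz)]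
    congr 2
    refine biUnion_congr rfl fun u hu => ?_
    have hu' := local_nb0_adj G V0 (mem_filter.1 hu).1
    rw [kept_congr G V0 ord π x y u (hN u hu') (hprev u hu'), hN u hu']
  · rw [← local_dev_congr x y (prev G V0 ord v) (fun y => (π y v).trans (π v w)) (fun _ => W) (fun _ => W)
      (hprev v (local_nb0_adj G V0 hv)) (fun _ _ => rfl)]
    exact hx.e v hv
  · rw [← local_dev_congr x y (prev G V0 ord w) (fun y => π y w) (fun _ => W) (fun _ => W)
      (fun z hz => hN z (local_prev_adj G V0 ord hz)) (fun _ _ => rfl)]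
    exact hx.f

theorem devsum_congr {P : ℕ} (x y : V → Al k m) (w : V) (t : Ty k P) (h : ∀ z ∈ ball2 G w, x z = y z) :
    ∑ u ∈ nb0 G V0 w, dv (x u) (π u w) (blkd G V0 ord π x u (π u w)) t =
      ∑ u ∈ nb0 G V0 w, dv (y u) (π u w) (blkd G V0 ord π y u (π u w)) t := by
  refine sum_congr rfl fun u hu => ?_
  have hu' := local_nb0_adj G V0 hu
  rw [h u ((local_mem_ball2 G).2 (Or.inr (Or.inl hu'))),
    blkd_congr G V0 ord π x y u _ (fun z hz => h z ((local_mem_ball2 G).2 (Or.inr (Or.inr
      ⟨u, hu', local_prev_adj G V0 ord hz⟩))))]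

end Pool.Agent.MP_dc7d7b.LS
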