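import Pool.Agent.Lib.MP_dc7d7b_co.LS.Base

set_option autoImplicit false

/-!
# Module MomAll: exponential moments of the number of active cells in a set

PROOF.  `perm_moment`: let `Y i j = ω i j / k`.  By `per_upper` (PermUpper.lean) with `y = e₀ / k`:
`∑ σ, ∏ i, Y i (σ i) ≤ exp (-k (1 - 1 / (1 + α))) ∏ i, (∑ j, Y i j + α e₀ / k)`.  Here
`∑ j, Y i j + α e₀ / k ≤ exp (∑ j, Y i j - 1 + α e₀ / k)` (`Real.add_one_le_exp`), so the right side is at most
`exp (-k + k / (1 + α) + ∑ i, (∑ j, Y i j - 1) + α e₀)`, and `∑ i (∑ j, Y i j - 1) = (∑ i, ∑ j, (ω i j - 1)) / k`.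
The left side is `k ^ (-k) ∑ σ, ∏ i, ω i (σ i)`.  Finally `k ^ k ≤ exp k * k!` (one term of the exponential series,
`Real.pow_div_factorial_le_exp`).

`mom_all`: take `ω i j = (∑ b : Fin m, if (b : ℕ) = 0 ∧ (i, ρ j) ∈ T then exp lam else 1) / m`
`= 1 + (exp lam - 1) / m` if `(i, ρ j) ∈ T` and `1` otherwise; `0 ≤ ω ≤ exp 1`.  For every `σ`
`∑ e : Fin k → Fin m, exp (lam * ah (σ, e) ρ T) = ∏ i, ∑ b, (...) = m ^ k ∏ i, ω i (σ i)` (`Finset.prod_univ_sum`
or `Fintype.piFinset`; `exp (lam * card of a filter) = ∏ i, if ... then exp lam else 1`).  Use `perm_moment`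
with `α = √k`: `k / (1 + √k) ≤ √k`, and `∑ i, ∑ j, (ω i j - 1) = (exp lam - 1) / m * |T|` (the map
`(i, j) ↦ (i, ρ j)` is a bijection; compare `sum_cells` in Greedy.lean).  `|Al k m| = k! m ^ k`.
The same holds for every subset `T` of `W`, so `Mom m univ ((1 + exp 1) √k)`.
-/

namespace Pool.Agent.MP_dc7d7b.LS

open Finset

/-- The upper bound for the average over the permutations of a product of bounded weights. -/
theorem perm_moment {k : ℕ} (hk : 0 < k) (ω : Fin k → Fin k → ℝ) (e₀ α : ℝ) (h0 : ∀ i j, 0 ≤ ω i j)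
    (h1 : ∀ i j, ω i j ≤ e₀) (he : 0 < e₀) (hα : 0 < α) :
    ∑ σ : Equiv.Perm (Fin k), ∏ i, ω i (σ i) ≤
      (k.factorial : ℝ) * Real.exp (k / (1 + α) + α * e₀ + (∑ i, ∑ j, (ω i j - 1)) / k) := by
  have hk' : (0 : ℝ) < k := by exact_mod_cast hk
  have hper := per_upper (fun i j => ω i j / k) (e₀ / k) α (fun i j => div_nonneg (h0 i j) hk'.le)
    (fun i j => by
      show ω i j / k ≤ e₀ / k
      gcongr
      exact h1 i j) hα (div_pos he hk')
  have hsum : ∑ σ : Equiv.Perm (Fin k), ∏ i, ω i (σ i) = (k : ℝ) ^ k * per (fun i j => ω i j / k) := by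
    unfold per
    rw [Finset.mul_sum]
    refine Finset.sum_congr rfl fun σ _ => ?_
    rw [Finset.prod_div_distrib, Finset.prod_const, Finset.card_univ, Fintype.card_fin]
    field_simp
  have hprod : ∏ i, (∑ j, (fun i j => ω i j / k) i j + α * (e₀ / k)) ≤
      Real.exp ((∑ i, ∑ j, (ω i j - 1)) / k + α * e₀) := by
    have h2 : ∀ i ∈ (univ : Finset (Fin k)), (∑ j, (fun i j => ω i j / k) i j + α * (e₀ / k)) ≤
        Real.exp (∑ j, ω i j / k + α * (e₀ / k) - 1) := by
      intro i _
      have := Real.add_one_le_exp (∑ j, ω i j / k + α * (e₀ / k) - 1)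
      simpa using this
    have h3 : ∀ i ∈ (univ : Finset (Fin k)), 0 ≤ (∑ j, (fun i j => ω i j / k) i j + α * (e₀ / k)) := by
      intro i _
      have : 0 ≤ ∑ j, (fun i j => ω i j / k) i j :=
        Finset.sum_nonneg fun j _ => div_nonneg (h0 i j) hk'.le
      have h4 : 0 ≤ α * (e₀ / k) := by positivity
      linarith
    refine (Finset.prod_le_prod h3 h2).trans ?_
    rw [← Real.exp_sum]
    refine Real.exp_le_exp.2 (le_of_eq ?_)
    rw [Finset.sum_sub_distrib, Finset.sum_add_distrib, Finset.sum_const, Finset.sum_const,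
      Finset.card_univ, Fintype.card_fin, nsmul_eq_mul, nsmul_eq_mul, mul_one]
    have h5 : ∑ i, ∑ j, (ω i j - 1) = ∑ i, ∑ j, ω i j - k * k := by
      simp only [Finset.sum_sub_distrib, Finset.sum_const, Finset.card_univ, Fintype.card_fin, nsmul_eq_mul, mul_one]
    have h6 : ∑ i, ∑ j, ω i j / k = (∑ i, ∑ j, ω i j) / k := by
      rw [Finset.sum_div]
      exact Finset.sum_congr rfl fun i _ => (Finset.sum_div _ _ _).symm
    rw [h5, h6]
    field_simp
    ring
  have hfac : (k : ℝ) ^ k ≤ Real.exp k * k.factorial := by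
    have h := Real.pow_div_factorial_le_exp (k : ℝ) hk'.le k
    have hf : (0 : ℝ) < k.factorial := by exact_mod_cast k.factorial_pos
    rwa [div_le_iff₀ hf] at h
  rw [hsum]
  calc (k : ℝ) ^ k * per (fun i j => ω i j / k)
      ≤ (Real.exp k * k.factorial) * (Real.exp (-(k : ℝ) * (1 - 1 / (1 + α))) *
          Real.exp ((∑ i, ∑ j, (ω i j - 1)) / k + α * e₀)) := by
        refine mul_le_mul hfac (hper.trans (mul_le_mul_of_nonneg_left hprod (Real.exp_pos _).le)) ?_ (by positivity)
        exact per_nonneg _ fun i j => div_nonneg (h0 i j) hk'.le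
    _ = (k.factorial : ℝ) * Real.exp (k / (1 + α) + α * e₀ + (∑ i, ∑ j, (ω i j - 1)) / k) := by
        rw [← Real.exp_add, mul_comm (Real.exp (k : ℝ)), mul_assoc, ← Real.exp_add]
        congr 2
        field_simp
        ring

private theorem ma_sum_row {m : ℕ} (hm : 0 < m) (lam : ℝ) (P : Prop) [Decidable P] :
    ∑ b : Fin m, (if (b : ℕ) = 0 ∧ P then Real.exp lam else 1) =
      m * (if P then 1 + (Real.exp lam - 1) / m else 1) := by
  have hm' : (m : ℝ) ≠ 0 := by exact_mod_cast hm.ne'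
  by_cases hP : P
  · simp only [hP, and_true, if_true]
    have h1 : ∀ b : Fin m, (if (b : ℕ) = 0 then Real.exp lam else 1) =
        (if b = ⟨0, hm⟩ then (Real.exp lam - 1) else 0) + 1 := by
      intro b
      by_cases hb : (b : ℕ) = 0
      · rw [if_pos hb, if_pos (Fin.ext hb)]; ring
      · rw [if_neg hb, if_neg (fun h => hb (by rw [h]))]; ring
    rw [Finset.sum_congr rfl fun b _ => h1 b, Finset.sum_add_distrib, Finset.sum_ite_eq' univ]
    simp only [Finset.mem_univ, if_true, Finset.sum_const, Finset.card_univ, Fintype.card_fin,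
      nsmul_eq_mul, mul_one]
    field_simp
    ring
  · simp [hP]

/-- Every set of cells has the moment property with error `(1 + e) √k`. -/
theorem mom_all {k m : ℕ} (hk : 0 < k) (hm : 0 < m) :
    Mom m (univ : Finset (Fin k × Fin k)) ((1 + Real.exp 1) * Real.sqrt k) := by
  intro ρ T _ lam hlam
  have hk' : (0 : ℝ) < k := by exact_mod_cast hk
  have hm' : (0 : ℝ) < m := by exact_mod_cast hm
  have hm1 : (1 : ℝ) ≤ m := by exact_mod_cast hm
  have hs : 0 < Real.sqrt k := Real.sqrt_pos.2 hk'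
  have hss : Real.sqrt k * Real.sqrt k = k := Real.mul_self_sqrt hk'.le
  have hl := abs_le.1 hlam
  have hel : Real.exp lam ≤ Real.exp 1 := Real.exp_le_exp.2 hl.2
  have hepos : 0 < Real.exp lam := Real.exp_pos _
  have he1 : 1 ≤ Real.exp 1 := Real.one_le_exp zero_le_one
  set ω : Fin k → Fin k → ℝ := fun i j => if (i, ρ j) ∈ T then 1 + (Real.exp lam - 1) / m else 1 with hω
  have hval : 1 + (Real.exp lam - 1) / m = (m - 1 + Real.exp lam) / m := by
    field_simp
    ring
  have h0 : ∀ i j, 0 ≤ ω i j := by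
    intro i j
    simp only [hω]
    split_ifs
    · rw [hval]
      exact div_nonneg (by linarith) hm'.le
    · exact zero_le_one
  have h1 : ∀ i j, ω i j ≤ Real.exp 1 := by
    intro i j
    simp only [hω]
    split_ifs
    · rw [hval, div_le_iff₀ hm']
      nlinarith
    · exact he1
  have hpm := perm_moment hk ω (Real.exp 1) (Real.sqrt k) h0 h1 (Real.exp_pos 1) hs
  have hL : ∑ x : Al k m, Real.exp (lam * ah x ρ T) =
      (m : ℝ) ^ k * ∑ σ : Equiv.Perm (Fin k), ∏ i, ω i (σ i) := by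
    rw [Fintype.sum_prod_type, Finset.mul_sum]
    refine Finset.sum_congr rfl fun σ _ => ?_
    have h2 : ∀ e : Fin k → Fin m, Real.exp (lam * ah ((σ, e) : Al k m) ρ T) =
        ∏ i, (if (e i : ℕ) = 0 ∧ (i, ρ (σ i)) ∈ T then Real.exp lam else 1) := by
      intro e
      rw [Finset.prod_ite, Finset.prod_const, Finset.prod_const_one, mul_one]
      unfold ah ch act
      rw [Finset.filter_filter, mul_comm, Real.exp_nat_mul]
    rw [Finset.sum_congr rfl fun e _ => h2 e]
    have h3 := Finset.prod_univ_sum (fun _ : Fin k => (univ : Finset (Fin m)))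
      (fun i b => (if (b : ℕ) = 0 ∧ (i, ρ (σ i)) ∈ T then Real.exp lam else 1))
    rw [Fintype.piFinset_univ] at h3
    rw [← h3, Finset.prod_congr rfl fun i _ => ma_sum_row hm lam ((i, ρ (σ i)) ∈ T), Finset.prod_mul_distrib,
      Finset.prod_const, Finset.card_univ, Fintype.card_fin]
  have hcard : (Fintype.card (Al k m) : ℝ) = (k.factorial : ℝ) * (m : ℝ) ^ k := by
    rw [Fintype.card_prod, Fintype.card_perm, Fintype.card_fun, Fintype.card_fin, Fintype.card_fin]
    push_cast
    ring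
  have hsumω : ∑ i, ∑ j, (ω i j - 1) = (Real.exp lam - 1) / m * T.card := by
    have h4 : ∀ i j, ω i j - 1 = if (i, ρ j) ∈ T then (Real.exp lam - 1) / m else 0 := by
      intro i j
      simp only [hω]
      split_ifs
      · ring
      · ring
    rw [Finset.sum_congr rfl fun i _ => Finset.sum_congr rfl fun j _ => h4 i j]
    rw [sum_cells (fun _ _ => (Real.exp lam - 1) / m) ρ T, Finset.sum_const, nsmul_eq_mul, mul_comm]
  have hfin : (k : ℝ) / (1 + Real.sqrt k) ≤ Real.sqrt k := by
    rw [div_le_iff₀ (by positivity)]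
    nlinarith
  rw [hL, hcard]
  calc (m : ℝ) ^ k * ∑ σ : Equiv.Perm (Fin k), ∏ i, ω i (σ i)
      ≤ (m : ℝ) ^ k * ((k.factorial : ℝ) * Real.exp (k / (1 + Real.sqrt k) + Real.sqrt k * Real.exp 1 +
          (∑ i, ∑ j, (ω i j - 1)) / k)) := mul_le_mul_of_nonneg_left hpm (by positivity)
    _ = (k.factorial : ℝ) * (m : ℝ) ^ k * Real.exp (k / (1 + Real.sqrt k) + Real.sqrt k * Real.exp 1 +
          (∑ i, ∑ j, (ω i j - 1)) / k) := by ring
    _ ≤ (k.factorial : ℝ) * (m : ℝ) ^ k *
          Real.exp ((Real.exp lam - 1) * ((T.card : ℝ) / (m * k)) + (1 + Real.exp 1) * Real.sqrt k) := by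
        refine mul_le_mul_of_nonneg_left (Real.exp_le_exp.2 ?_) (by positivity)
        rw [hsumω]
        have h5 : (Real.exp lam - 1) / m * T.card / k = (Real.exp lam - 1) * ((T.card : ℝ) / (m * k)) := by
          field_simp
        rw [h5]
        linarith

/-- The moment property for subsets. -/
theorem Mom.mono {k m : ℕ} {W W' : Finset (Fin k × Fin k)} {err : ℝ} (h : Mom m W err) (hW : W' ⊆ W) :
    Mom m W' err := fun ρ T hT lam hl => h ρ T (hT.trans hW) lam hl

end Pool.Agent.MP_dc7d7b.LS
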