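import Pool.Agent.Lib.MP_dc7d7b_co.LS.Key
import Pool.Agent.Lib.MP_dc7d7b_co.LS.MomAll
import Pool.Agent.Lib.MP_dc7d7b_co.LS.Local

set_option autoImplicit false

/-!
# Module Prob: the good events are very likely

PROOF of `good_prob`.  The complement of `Good` is the union of the following sets, each bounded by `key` (with
`M` = the family, which has at most `2 D ≤ 3 k` elements): for every `v ∈ nb0 w` (at most `D` vertices) the four sets
for the fields `a`, `b`, `c`, `e`, and the two sets for `d`, `f`.  In each case `T x v ⊆ W`, and `T x v` depends only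
on the coordinates earlier than `v`:
a, e, f: `T x v = W`;  b: `W ∩` union of the active cells of the members of the family earlier than `y`;
c: `W \ blkd x u _` (`blkd` uses `prev u`, all earlier than `u`);
d: `(W ∩ union of the kept cells of the u ∈ nb0 w earlier than v) \ blkd x v _`, and `kept x u` uses `x` at `u` and
at `prev u`, all earlier than `v`.
`act_prob`: `mom_all` for `T = univ`, `ρ = 1`, `lam = 1 / 2`: `ah x 1 univ = |act x|`, so
`∑ x, exp (|act x| / 2) ≤ |Al| exp ((exp (1/2) - 1) k / m + (1 + e) √k)`; Markov: the number of `a : Al k m` with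
`2 k / m < |act a|` is at most `|Al| exp (-k / m + 0.65 k / m + ...) ≤ |Al| exp (-k / (4 m) + (1 + e) √k)`
(`exp (1/2) ≤ 1.65`); the coordinate `x w` is uniform.
-/

namespace Pool.Agent.MP_dc7d7b.LS

open Finset

variable {V : Type*} [Fintype V] [DecidableEq V] {k m : ℕ} (G : SimpleGraph V) [DecidableRel G.Adj] (V0 : Finset V)
  (ord : V → ℕ) (π : V → V → Equiv.Perm (Fin k))

omit [DecidableEq V] in
private theorem prob_card_nb0 {D : ℕ} (hdeg : ∀ v, (univ.filter (fun w => G.Adj v w)).card ≤ D) (w : V) :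
    (nb0 G V0 w).card ≤ D := by
  refine (card_le_card ?_).trans (hdeg w)
  intro u hu
  unfold nb0 at hu
  rw [mem_filter] at hu ⊢
  exact ⟨mem_univ _, hu.2⟩

omit [DecidableEq V] in
private theorem prob_card_prev {D : ℕ} (hdeg : ∀ v, (univ.filter (fun w => G.Adj v w)).card ≤ D) (v : V) :
    (prev G V0 ord v).card ≤ D :=
  (card_filter_le _ _).trans (prob_card_nb0 G V0 hdeg v)

omit [DecidableEq V] in
private theorem prob_card_early {D : ℕ} (hdeg : ∀ v, (univ.filter (fun w => G.Adj v w)).card ≤ D) (w v : V) :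
    (early G V0 ord w v).card ≤ D :=
  (card_filter_le _ _).trans (prob_card_nb0 G V0 hdeg w)

private theorem prob_card_fam {D : ℕ} (hdeg : ∀ v, (univ.filter (fun w => G.Adj v w)).card ≤ D) (w v : V) :
    (fam G V0 ord w v).card ≤ D + D :=
  (card_union_le _ _).trans
    (add_le_add (prob_card_early G V0 ord hdeg w v) (prob_card_prev G V0 ord hdeg v))

omit [Fintype V] [DecidableEq V] in
private theorem prob_prev_lt {u z : V} (h : z ∈ prev G V0 ord u) : ord z < ord u := by
  unfold prev at h
  exact (mem_filter.1 h).2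

open Classical in
theorem good_prob {D : ℕ} (hk : 0 < k) (hm : 3 ≤ m) (hDk : (D : ℝ) ≤ 4 / 3 * k)
    (hdeg : ∀ v, (univ.filter (fun w => G.Adj v w)).card ≤ D) (hord : Function.Injective ord)
    (w : V) (W : Finset (Fin k × Fin k)) (N ε err : ℝ) (hW : (W.card : ℝ) ≤ N) (hε : 0 < ε) (hε1 : ε ≤ 1)
    (hmom : Mom m W err) (herr0 : 0 ≤ err) (herr : err * (3 * k) ≤ ε ^ 2 * N / 18) :
    ((univ.filter (fun x : V → Al k m => ¬ Good G V0 ord π x w W (ε * N))).card : ℝ) ≤
      (4 * D + 2) * (2 * Real.exp (-(ε ^ 2 * N / 6))) * Fintype.card (V → Al k m) := by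
  have hkR : (0 : ℝ) < k := by exact_mod_cast hk
  set C : ℝ := 2 * Real.exp (-(ε ^ 2 * N / 6)) * Fintype.card (V → Al k m) with hC
  have hC0 : 0 ≤ C := by positivity
  -- sizes of the families
  have hD3 : ∀ M : Finset V, M.card ≤ D + D → (M.card : ℝ) ≤ 3 * k := by
    intro M hM
    have h1 : (M.card : ℝ) ≤ D + D := by exact_mod_cast hM
    linarith
  -- the bad sets
  set bA : V → Finset (V → Al k m) := fun v => univ.filter (fun x : V → Al k m =>
    ε * N < |dev x (fam G V0 ord w v) (tr G V0 ord π w v) (fun _ => W)|) with hbA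
  set bB : V → Finset (V → Al k m) := fun v => univ.filter (fun x : V → Al k m =>
    ε * N < |dev x (fam G V0 ord w v) (tr G V0 ord π w v) (fun y => W ∩
      ((fam G V0 ord w v).filter (fun z => ord z < ord y)).biUnion
        (fun z => cells (act (x z)) (x z).1 (tr G V0 ord π w v z)))|) with hbB
  set bC : V → Finset (V → Al k m) := fun v => univ.filter (fun x : V → Al k m =>
    ε * N < |dev x (early G V0 ord w v) (fun u => π u w)
      (fun u => W \ blkd G V0 ord π x u (π u w))|) with hbC
  set bD : Finset (V → Al k m) := univ.filter (fun x : V → Al k m =>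
    ε * N < |dev x (nb0 G V0 w) (fun v => π v w) (fun v => (W ∩
      ((nb0 G V0 w).filter (fun u => ord u < ord v)).biUnion
        (fun u => cells (kept G V0 ord π x u) (x u).1 (π u w))) \
          blkd G V0 ord π x v (π v w))|) with hbD
  set bE : V → Finset (V → Al k m) := fun v => univ.filter (fun x : V → Al k m =>
    ε * N < |dev x (prev G V0 ord v) (fun y => (π y v).trans (π v w)) (fun _ => W)|) with hbE
  set bF : Finset (V → Al k m) := univ.filter (fun x : V → Al k m =>
    ε * N < |dev x (prev G V0 ord w) (fun y => π y w) (fun _ => W)|) with hbF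
  have hA : ∀ v, ((bA v).card : ℝ) ≤ C := fun v =>
    key hk hm ord hord _ (hD3 _ (prob_card_fam G V0 ord hdeg w v)) _ W N ε err hW hε hε1 hmom herr0
      herr (fun _ _ => W) (fun _ _ => Subset.rfl) (fun _ _ _ _ => rfl)
  have hB : ∀ v, ((bB v).card : ℝ) ≤ C := fun v =>
    key hk hm ord hord _ (hD3 _ (prob_card_fam G V0 ord hdeg w v)) _ W N ε err hW hε hε1 hmom herr0
      herr (fun x y => W ∩ ((fam G V0 ord w v).filter (fun z => ord z < ord y)).biUnion
        (fun z => cells (act (x z)) (x z).1 (tr G V0 ord π w v z)))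
      (fun _ _ => inter_subset_left) (fun u x y h => by
        congr 1
        refine biUnion_congr rfl fun z hz => ?_
        rw [h z (mem_filter.1 hz).2])
  have hCc : ∀ v, ((bC v).card : ℝ) ≤ C := fun v =>
    key hk hm ord hord _ (hD3 _ ((prob_card_early G V0 ord hdeg w v).trans (by omega))) _ W N ε err
      hW hε hε1 hmom herr0 herr (fun x u => W \ blkd G V0 ord π x u (π u w))
      (fun _ _ => sdiff_subset) (fun u x y h => by
        rw [blkd_congr G V0 ord π x y u (π u w) fun z hz => h z (prob_prev_lt G V0 ord hz)])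
  have hDd : (bD.card : ℝ) ≤ C :=
    key hk hm ord hord _ (hD3 _ ((prob_card_nb0 G V0 hdeg w).trans (by omega))) _ W N ε err
      hW hε hε1 hmom herr0 herr (fun x v => (W ∩
        ((nb0 G V0 w).filter (fun u => ord u < ord v)).biUnion
          (fun u => cells (kept G V0 ord π x u) (x u).1 (π u w))) \ blkd G V0 ord π x v (π v w))
      (fun _ _ => sdiff_subset.trans inter_subset_left) (fun u x y h => by
        have h1 : ((nb0 G V0 w).filter (fun z => ord z < ord u)).biUnion
            (fun z => cells (kept G V0 ord π x z) (x z).1 (π z w)) =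
            ((nb0 G V0 w).filter (fun z => ord z < ord u)).biUnion
            (fun z => cells (kept G V0 ord π y z) (y z).1 (π z w)) := by
          refine biUnion_congr rfl fun z hz => ?_
          have hzu := (mem_filter.1 hz).2
          rw [kept_congr G V0 ord π x y z (h z hzu)
            fun t ht => h t ((prob_prev_lt G V0 ord ht).trans hzu), h z hzu]
        have h2 := blkd_congr G V0 ord π x y u (π u w) fun z hz => h z (prob_prev_lt G V0 ord hz)
        simp only [h1, h2])
  have hE : ∀ v, ((bE v).card : ℝ) ≤ C := fun v =>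
    key hk hm ord hord _ (hD3 _ ((prob_card_prev G V0 ord hdeg v).trans (by omega))) _ W N ε err
      hW hε hε1 hmom herr0 herr (fun _ _ => W) (fun _ _ => Subset.rfl) (fun _ _ _ _ => rfl)
  have hF : (bF.card : ℝ) ≤ C :=
    key hk hm ord hord _ (hD3 _ ((prob_card_prev G V0 ord hdeg w).trans (by omega))) _ W N ε err
      hW hε hε1 hmom herr0 herr (fun _ _ => W) (fun _ _ => Subset.rfl) (fun _ _ _ _ => rfl)
  -- the union
  have hsub : (univ.filter (fun x : V → Al k m => ¬ Good G V0 ord π x w W (ε * N))) ⊆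
      ((nb0 G V0 w).biUnion (fun v => bA v ∪ bB v ∪ bC v ∪ bE v)) ∪ bD ∪ bF := by
    intro x hx
    by_contra hnot
    refine (mem_filter.1 hx).2 ?_
    have h1 : ∀ v ∈ nb0 G V0 w, x ∉ bA v ∧ x ∉ bB v ∧ x ∉ bC v ∧ x ∉ bE v := by
      intro v hv
      have h2 : x ∉ bA v ∪ bB v ∪ bC v ∪ bE v := fun h =>
        hnot (mem_union_left _ (mem_union_left _ (mem_biUnion.2 ⟨v, hv, h⟩)))
      simp only [mem_union, not_or] at h2
      exact ⟨h2.1.1.1, h2.1.1.2, h2.1.2, h2.2⟩
    have h2 : x ∉ bD := fun h => hnot (mem_union_left _ (mem_union_right _ h))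
    have h3 : x ∉ bF := fun h => hnot (mem_union_right _ h)
    refine ⟨fun v hv => ?_, fun v hv => ?_, fun v hv => ?_, ?_, fun v hv => ?_, ?_⟩
    · exact not_lt.1 fun h => (h1 v hv).1 (mem_filter.2 ⟨mem_univ _, h⟩)
    · exact not_lt.1 fun h => (h1 v hv).2.1 (mem_filter.2 ⟨mem_univ _, h⟩)
    · exact not_lt.1 fun h => (h1 v hv).2.2.1 (mem_filter.2 ⟨mem_univ _, h⟩)
    · exact not_lt.1 fun h => h2 (mem_filter.2 ⟨mem_univ _, h⟩)
    · exact not_lt.1 fun h => (h1 v hv).2.2.2 (mem_filter.2 ⟨mem_univ _, h⟩)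
    · exact not_lt.1 fun h => h3 (mem_filter.2 ⟨mem_univ _, h⟩)
  have hv4 : ∀ v, ((bA v ∪ bB v ∪ bC v ∪ bE v).card : ℝ) ≤ 4 * C := by
    intro v
    have h1 : (bA v ∪ bB v ∪ bC v ∪ bE v).card ≤
        (bA v).card + (bB v).card + (bC v).card + (bE v).card := by
      refine (card_union_le _ _).trans (Nat.add_le_add_right ?_ _)
      refine (card_union_le _ _).trans (Nat.add_le_add_right ?_ _)
      exact card_union_le _ _
    have h2 : ((bA v ∪ bB v ∪ bC v ∪ bE v).card : ℝ) ≤
        (bA v).card + (bB v).card + (bC v).card + (bE v).card := by exact_mod_cast h1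
    linarith [hA v, hB v, hCc v, hE v]
  have hbi : (((nb0 G V0 w).biUnion (fun v => bA v ∪ bB v ∪ bC v ∪ bE v)).card : ℝ) ≤
      D * (4 * C) := by
    calc (((nb0 G V0 w).biUnion (fun v => bA v ∪ bB v ∪ bC v ∪ bE v)).card : ℝ)
        ≤ ∑ v ∈ nb0 G V0 w, ((bA v ∪ bB v ∪ bC v ∪ bE v).card : ℝ) := by
          exact_mod_cast card_biUnion_le
      _ ≤ (nb0 G V0 w).card • (4 * C) := sum_le_card_nsmul _ _ _ fun v _ => hv4 v
      _ = ((nb0 G V0 w).card : ℝ) * (4 * C) := nsmul_eq_mul _ _
      _ ≤ D * (4 * C) := by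
          apply mul_le_mul_of_nonneg_right _ (by positivity)
          exact_mod_cast prob_card_nb0 G V0 hdeg w
  have hall : ((univ.filter (fun x : V → Al k m => ¬ Good G V0 ord π x w W (ε * N))).card : ℝ) ≤
      (((nb0 G V0 w).biUnion (fun v => bA v ∪ bB v ∪ bC v ∪ bE v)).card : ℝ) + bD.card +
        bF.card := by
    have h1 := (card_le_card hsub).trans ((card_union_le _ _).trans
      (Nat.add_le_add_right (card_union_le _ _) _))
    exact_mod_cast h1
  calc ((univ.filter (fun x : V → Al k m => ¬ Good G V0 ord π x w W (ε * N))).card : ℝ)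
      ≤ D * (4 * C) + C + C := by linarith
    _ = (4 * D + 2) * (2 * Real.exp (-(ε ^ 2 * N / 6))) * Fintype.card (V → Al k m) := by
        rw [hC]; ring

open Classical in
theorem act_prob (hk : 0 < k) (hm : 0 < m) (w : V) :
    ((univ.filter (fun x : V → Al k m => 2 * (k : ℝ) / m < ((act (x w)).card : ℝ))).card : ℝ) ≤
      Real.exp (-(k / (4 * m)) + (1 + Real.exp 1) * Real.sqrt k) * Fintype.card (V → Al k m) := by
  have hkR : (0 : ℝ) < k := by exact_mod_cast hk
  have hmR : (0 : ℝ) < m := by exact_mod_cast hm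
  set A : Finset (Al k m) := univ.filter (fun a : Al k m => 2 * (k : ℝ) / m < ((act a).card : ℝ))
    with hA
  set c : ℝ := Real.exp (-(k / (4 * m)) + (1 + Real.exp 1) * Real.sqrt k) with hc
  -- one coordinate
  have h1 : (A.card : ℝ) ≤ c * Fintype.card (Al k m) := by
    have h2 := mom_all (k := k) (m := m) hk hm 1 univ Subset.rfl (1 / 2)
      (by rw [abs_of_pos (by norm_num)]; norm_num)
    have h3 : ∀ a : Al k m, ah a 1 (univ : Finset (Fin k × Fin k)) = (act a).card := fun a =>
      ch_univ _ _ _
    have h4 : ((univ : Finset (Fin k × Fin k)).card : ℝ) / (m * k) = k / m := by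
      rw [card_univ, Fintype.card_prod, Fintype.card_fin]
      push_cast
      field_simp
    simp only [h3, h4] at h2
    have h5 : (A.card : ℝ) * Real.exp (k / m) ≤
        ∑ a : Al k m, Real.exp (1 / 2 * ((act a).card : ℝ)) := by
      rw [← nsmul_eq_mul, ← sum_const]
      refine (sum_le_sum fun a ha => ?_).trans
        (sum_le_sum_of_subset_of_nonneg (filter_subset _ _) fun x _ _ => (Real.exp_pos _).le)
      refine Real.exp_le_exp.2 ?_
      have h6 := (mem_filter.1 ha).2
      have h7 : 2 * (k : ℝ) / m = 2 * (k / m) := by ring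
      rw [h7] at h6
      linarith
    have h8 : Real.exp (1 / 2) ≤ 1.65 := by
      have h9 : Real.exp (1 / 2) ^ 2 = Real.exp 1 := by
        rw [← Real.exp_nat_mul]
        norm_num
      have h10 := Real.exp_one_lt_d9
      have h11 := Real.exp_pos (1 / 2)
      nlinarith
    have h12 : (A.card : ℝ) ≤ Fintype.card (Al k m) * Real.exp ((Real.exp (1 / 2) - 1) * (k / m) +
        (1 + Real.exp 1) * Real.sqrt k) * Real.exp (-(k / m)) := by
      have h13 := mul_le_mul_of_nonneg_right (h5.trans h2) (Real.exp_pos (-((k : ℝ) / m))).le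
      rw [mul_assoc, ← Real.exp_add, add_neg_cancel, Real.exp_zero, mul_one] at h13
      exact h13
    refine h12.trans ?_
    rw [mul_assoc, ← Real.exp_add, mul_comm c]
    refine mul_le_mul_of_nonneg_left (Real.exp_le_exp.2 ?_) (Nat.cast_nonneg _)
    have h14 : (0 : ℝ) < k / m := by positivity
    have h15 : (k : ℝ) / (4 * m) = 1 / 4 * (k / m) := by
      field_simp
    rw [h15]
    nlinarith
  -- all coordinates
  have h2 : (univ.filter (fun x : V → Al k m => 2 * (k : ℝ) / m < ((act (x w)).card : ℝ))) =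
      Fintype.piFinset (fun v : V => if v = w then A else univ) := by
    ext x
    rw [mem_filter, Fintype.mem_piFinset]
    constructor
    · intro hx v
      split_ifs with hv
      · rw [hv, hA, mem_filter]
        exact ⟨mem_univ _, hx.2⟩
      · exact mem_univ _
    · intro hx
      have h3 := hx w
      rw [if_pos rfl, hA, mem_filter] at h3
      exact ⟨mem_univ _, h3.2⟩
  rw [h2, Fintype.card_piFinset, Fintype.card_pi]
  rw [← mul_prod_erase univ _ (mem_univ w), ← mul_prod_erase univ (fun _ : V => Fintype.card (Al k m))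
    (mem_univ w), if_pos rfl]
  have h3 : ∏ v ∈ univ.erase w, (if v = w then A else univ).card =
      ∏ v ∈ univ.erase w, Fintype.card (Al k m) := by
    refine prod_congr rfl fun v hv => ?_
    rw [if_neg (ne_of_mem_erase hv), card_univ]
  rw [h3]
  push_cast
  rw [← mul_assoc]
  exact mul_le_mul_of_nonneg_right h1 (by positivity)

end Pool.Agent.MP_dc7d7b.LS
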