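import Pool.Agent.Lib.MP_dc7d7b_co.LS.LLL
import Pool.Agent.Lib.MP_dc7d7b_co.LS.MomLine
import Pool.Agent.Lib.MP_dc7d7b_co.LS.Prob
import Pool.Agent.Lib.MP_dc7d7b_co.LS.DevSum

set_option autoImplicit false

/-!
# Module KeptLLL: a choice that is good everywhere

PROOF.  `lll` with `ι = V`, `α = Al k m` (nonempty because `m > 0`), `S w = ball2 G w`, `d = (1 + D + D²)²`
(`card_meet`), `B w = {x | ¬ GoodAll x w}`.  `GoodAll x w` only depends on the coordinates in `ball2 G w`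
(`good_congr`, `devsum_congr`; `w ∈ ball2 w`).  `B w` is the union of: for each of the `2 k` lines `W` the complement of
`Good x w W (ε k)` (`good_prob` with `N = k`, `err = 0`, `mom_row`, `mom_col`, `card_rowl`), for each of the
`card (Ty k P)` descriptions the complement of `Good x w (tyset t) (ε₂ k²)` (`good_prob` with `N = k²`,
`err = (1 + e) √k`, `mom_all`, `Mom.mono`, `h1`) and the set of `dev_sum` (`h2`), and the set of `act_prob`.
So `|B w| ≤ (the long sum in h3) * |Ω|` and `4 d |B w| ≤ |Ω|` by `h3`.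
-/

namespace Pool.Agent.MP_dc7d7b.LS

open Finset

variable {V : Type*} [Fintype V] [DecidableEq V] {k m : ℕ} (G : SimpleGraph V) [DecidableRel G.Adj] (V0 : Finset V)
  (ord : V → ℕ) (π : V → V → Equiv.Perm (Fin k))

/-- All good events at `w`. -/
structure GoodAll (P : ℕ) (ε ε₂ ε₃ : ℝ) (x : V → Al k m) (w : V) : Prop where
  row : ∀ i, Good G V0 ord π x w (rowl i) (ε * k)
  col : ∀ c, Good G V0 ord π x w (coll c) (ε * k)
  box : ∀ t : Ty k P, Good G V0 ord π x w (tyset t) (ε₂ * (k : ℝ) ^ 2)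
  dev : ∀ t : Ty k P, ∑ u ∈ nb0 G V0 w, dv (x u) (π u w) (blkd G V0 ord π x u (π u w)) t ≤ ε₃ * (k : ℝ) ^ 2
  act : ((act (x w)).card : ℝ) ≤ 2 * k / m

private theorem keptlll_congr (P : ℕ) (ε ε₂ ε₃ : ℝ) (x y : V → Al k m) (w : V)
    (h : ∀ z ∈ ball2 G w, x z = y z) (hx : GoodAll G V0 ord π P ε ε₂ ε₃ x w) :
    GoodAll G V0 ord π P ε ε₂ ε₃ y w := by
  refine ⟨fun i => good_congr G V0 ord π x y w _ _ h (hx.row i),
    fun c => good_congr G V0 ord π x y w _ _ h (hx.col c),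
    fun t => good_congr G V0 ord π x y w _ _ h (hx.box t), fun t => ?_, ?_⟩
  · rw [← devsum_congr G V0 ord π x y w t h]
    exact hx.dev t
  · have hw : w ∈ ball2 G w := by
      unfold ball2
      simp
    rw [← h w hw]
    exact hx.act

open Classical in
private theorem keptlll_card {D P : ℕ} (hk : 0 < k) (hm : 3 ≤ m) (hDk : (D : ℝ) ≤ 4 / 3 * k)
    (hdeg : ∀ v, (univ.filter (fun w => G.Adj v w)).card ≤ D) (hord : Function.Injective ord)
    (ε ε₂ ε₃ : ℝ) (hε : 0 < ε) (hε1 : ε ≤ 1) (hε₂ : 0 < ε₂) (hε₂1 : ε₂ ≤ 1) (hε₃ : 0 < ε₃) (hε₃1 : ε₃ ≤ 1)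
    (h1 : (1 + Real.exp 1) * Real.sqrt k * (3 * k) ≤ ε₂ ^ 2 * (k : ℝ) ^ 2 / 18)
    (h2 : 32 * (2 * P + 2) ^ 2 * ((k : ℝ) * (1 + (1 + Real.exp 1) * Real.sqrt k)) ≤ ε₃ ^ 2 * k ^ 2) (w : V) :
    ((univ.filter (fun x : V → Al k m => ¬ GoodAll G V0 ord π P ε ε₂ ε₃ x w)).card : ℝ) ≤
        (2 * k * ((4 * D + 2) * (2 * Real.exp (-(ε ^ 2 * k / 6)))) +
          Fintype.card (Ty k P) * ((4 * D + 2) * (2 * Real.exp (-(ε₂ ^ 2 * (k : ℝ) ^ 2 / 6)))) +
          Fintype.card (Ty k P) * Real.exp (-(ε₃ ^ 2 * k ^ 2 / (8 * (2 * P + 2) ^ 2))) +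
          Real.exp (-(k / (4 * m)) + (1 + Real.exp 1) * Real.sqrt k)) * Fintype.card (V → Al k m) := by
  have hm0 : 0 < m := by omega
  set A1 : Finset (V → Al k m) := (univ : Finset (Fin k)).biUnion (fun i =>
    univ.filter (fun x => ¬ Good G V0 ord π x w (rowl i) (ε * k))) with hA1
  set A2 : Finset (V → Al k m) := (univ : Finset (Fin k)).biUnion (fun c =>
    univ.filter (fun x => ¬ Good G V0 ord π x w (coll c) (ε * k))) with hA2
  set A3 : Finset (V → Al k m) := (univ : Finset (Ty k P)).biUnion (fun t =>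
    univ.filter (fun x => ¬ Good G V0 ord π x w (tyset t) (ε₂ * (k : ℝ) ^ 2))) with hA3
  set A4 : Finset (V → Al k m) := (univ : Finset (Ty k P)).biUnion (fun t =>
    univ.filter (fun x => ε₃ * (k : ℝ) ^ 2 <
      ∑ u ∈ nb0 G V0 w, dv (x u) (π u w) (blkd G V0 ord π x u (π u w)) t)) with hA4
  set A5 : Finset (V → Al k m) := univ.filter (fun x => 2 * (k : ℝ) / m < ((act (x w)).card : ℝ)) with hA5
  have hsub : univ.filter (fun x : V → Al k m => ¬ GoodAll G V0 ord π P ε ε₂ ε₃ x w) ⊆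
      A1 ∪ A2 ∪ A3 ∪ A4 ∪ A5 := by
    intro x hx
    rw [mem_filter] at hx
    by_contra hcon
    simp only [hA1, hA2, hA3, hA4, hA5, mem_union, mem_biUnion, mem_filter, mem_univ, true_and, not_or,
      not_exists, not_not, not_lt] at hcon
    obtain ⟨⟨⟨⟨c1, c2⟩, c3⟩, c4⟩, c5⟩ := hcon
    exact hx.2 ⟨c1, c2, c3, c4, c5⟩
  have hc : ((univ.filter (fun x : V → Al k m => ¬ GoodAll G V0 ord π P ε ε₂ ε₃ x w)).card : ℝ) ≤
      A1.card + A2.card + A3.card + A4.card + A5.card := by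
    have h := (card_le_card hsub).trans (card_union_le _ _)
    have h' := card_union_le (A1 ∪ A2 ∪ A3) A4
    have h'' := card_union_le (A1 ∪ A2) A3
    have h3 := card_union_le A1 A2
    have : (univ.filter (fun x : V → Al k m => ¬ GoodAll G V0 ord π P ε ε₂ ε₃ x w)).card ≤
      A1.card + A2.card + A3.card + A4.card + A5.card := by omega
    exact_mod_cast this
  set Om : ℝ := (Fintype.card (V → Al k m) : ℝ) with hOm
  have hunion : ∀ {ι : Type} [Fintype ι] (F : ι → Finset (V → Al k m)) (b : ℝ),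
      (∀ i, ((F i).card : ℝ) ≤ b) → ((univ.biUnion F).card : ℝ) ≤ (Fintype.card ι : ℝ) * b := by
    intro ι _ F b hF
    have h := (card_biUnion_le (s := (univ : Finset ι)) (t := F))
    have h' : ((univ.biUnion F).card : ℝ) ≤ ∑ i : ι, ((F i).card : ℝ) := by exact_mod_cast h
    refine h'.trans ?_
    calc ∑ i : ι, ((F i).card : ℝ) ≤ ∑ i : ι, b := sum_le_sum fun i _ => hF i
      _ = (Fintype.card ι : ℝ) * b := by rw [sum_const, card_univ, nsmul_eq_mul]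
  have hk0 : (0 : ℝ) ≤ k := Nat.cast_nonneg k
  have e0 : (0 : ℝ) * (3 * k) ≤ ε ^ 2 * k / 18 := by
    rw [zero_mul]; positivity
  have b1 : (A1.card : ℝ) ≤ k * ((4 * D + 2) * (2 * Real.exp (-(ε ^ 2 * k / 6))) * Om) := by
    have h := hunion (ι := Fin k) (fun i => univ.filter (fun x => ¬ Good G V0 ord π x w (rowl i) (ε * k)))
      ((4 * D + 2) * (2 * Real.exp (-(ε ^ 2 * k / 6))) * Om) (fun i =>
        good_prob G V0 ord π hk hm hDk hdeg hord w (rowl i) k ε 0 (by rw [card_rowl]) hε hε1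
          (mom_row hk hm0 i) le_rfl e0)
    rwa [Fintype.card_fin] at h
  have b2 : (A2.card : ℝ) ≤ k * ((4 * D + 2) * (2 * Real.exp (-(ε ^ 2 * k / 6))) * Om) := by
    have h := hunion (ι := Fin k) (fun i => univ.filter (fun x => ¬ Good G V0 ord π x w (coll i) (ε * k)))
      ((4 * D + 2) * (2 * Real.exp (-(ε ^ 2 * k / 6))) * Om) (fun i =>
        good_prob G V0 ord π hk hm hDk hdeg hord w (coll i) k ε 0 (by rw [card_coll]) hε hε1
          (mom_col hk hm0 i) le_rfl e0)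
    rwa [Fintype.card_fin] at h
  have b3 : (A3.card : ℝ) ≤ Fintype.card (Ty k P) *
      ((4 * D + 2) * (2 * Real.exp (-(ε₂ ^ 2 * (k : ℝ) ^ 2 / 6))) * Om) := by
    refine hunion (ι := Ty k P) (fun t => univ.filter (fun x => ¬ Good G V0 ord π x w (tyset t) (ε₂ * (k : ℝ) ^ 2)))
      _ (fun t => good_prob G V0 ord π hk hm hDk hdeg hord w (tyset t) ((k : ℝ) ^ 2) ε₂
          ((1 + Real.exp 1) * Real.sqrt k) ?_ hε₂ hε₂1 ((mom_all hk hm0).mono (subset_univ _)) (by positivity) h1)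
    have h := card_le_univ (tyset t)
    rw [Fintype.card_prod, Fintype.card_fin] at h
    calc ((tyset t).card : ℝ) ≤ ((k * k : ℕ) : ℝ) := by exact_mod_cast h
      _ = (k : ℝ) ^ 2 := by push_cast; ring
  have b4 : (A4.card : ℝ) ≤ Fintype.card (Ty k P) *
      (Real.exp (-(ε₃ ^ 2 * k ^ 2 / (8 * (2 * P + 2) ^ 2))) * Om) :=
    hunion (ι := Ty k P) (fun t => univ.filter (fun x => ε₃ * (k : ℝ) ^ 2 <
      ∑ u ∈ nb0 G V0 w, dv (x u) (π u w) (blkd G V0 ord π x u (π u w)) t)) _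
      (fun t => dev_sum G V0 ord π hk hm0 hDk hdeg hord w t ε₃ hε₃ hε₃1 h2)
  have b5 : (A5.card : ℝ) ≤ Real.exp (-(k / (4 * m)) + (1 + Real.exp 1) * Real.sqrt k) * Om :=
    act_prob hk hm0 w
  refine hc.trans ?_
  calc (A1.card : ℝ) + A2.card + A3.card + A4.card + A5.card ≤
        k * ((4 * D + 2) * (2 * Real.exp (-(ε ^ 2 * k / 6))) * Om) +
        k * ((4 * D + 2) * (2 * Real.exp (-(ε ^ 2 * k / 6))) * Om) +
        Fintype.card (Ty k P) * ((4 * D + 2) * (2 * Real.exp (-(ε₂ ^ 2 * (k : ℝ) ^ 2 / 6))) * Om) +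
        Fintype.card (Ty k P) * (Real.exp (-(ε₃ ^ 2 * k ^ 2 / (8 * (2 * P + 2) ^ 2))) * Om) +
        Real.exp (-(k / (4 * m)) + (1 + Real.exp 1) * Real.sqrt k) * Om :=
        add_le_add (add_le_add (add_le_add (add_le_add b1 b2) b3) b4) b5
    _ = _ := by ring

theorem exists_good {D P : ℕ} (hk : 0 < k) (hm : 3 ≤ m) (hDk : (D : ℝ) ≤ 4 / 3 * k)
    (hdeg : ∀ v, (univ.filter (fun w => G.Adj v w)).card ≤ D) (hord : Function.Injective ord)
    (ε ε₂ ε₃ : ℝ) (hε : 0 < ε) (hε1 : ε ≤ 1) (hε₂ : 0 < ε₂) (hε₂1 : ε₂ ≤ 1) (hε₃ : 0 < ε₃) (hε₃1 : ε₃ ≤ 1)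
    (h1 : (1 + Real.exp 1) * Real.sqrt k * (3 * k) ≤ ε₂ ^ 2 * (k : ℝ) ^ 2 / 18)
    (h2 : 32 * (2 * P + 2) ^ 2 * ((k : ℝ) * (1 + (1 + Real.exp 1) * Real.sqrt k)) ≤ ε₃ ^ 2 * k ^ 2)
    (h3 : 4 * (1 + (D : ℝ) + D ^ 2) ^ 2 *
        (2 * k * ((4 * D + 2) * (2 * Real.exp (-(ε ^ 2 * k / 6)))) +
          Fintype.card (Ty k P) * ((4 * D + 2) * (2 * Real.exp (-(ε₂ ^ 2 * (k : ℝ) ^ 2 / 6)))) +
          Fintype.card (Ty k P) * Real.exp (-(ε₃ ^ 2 * k ^ 2 / (8 * (2 * P + 2) ^ 2))) +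
          Real.exp (-(k / (4 * m)) + (1 + Real.exp 1) * Real.sqrt k)) ≤ 1) :
    ∃ x : V → Al k m, ∀ w, GoodAll G V0 ord π P ε ε₂ ε₃ x w := by
  classical
  have : NeZero m := ⟨by omega⟩
  have : Nonempty (Al k m) := ⟨(1, fun _ => 0)⟩
  obtain ⟨x, hx⟩ := lll (V := V) (α := Al k m) (ι := V)
    (fun w => univ.filter (fun x : V → Al k m => ¬ GoodAll G V0 ord π P ε ε₂ ε₃ x w)) (ball2 G)
    ((1 + D + D ^ 2) ^ 2) (by positivity)
    (by
      intro w x y h hx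
      rw [mem_filter] at hx ⊢
      exact ⟨mem_univ _, fun hy => hx.2 (keptlll_congr G V0 ord π P ε ε₂ ε₃ y x w
        (fun z hz => (h z hz).symm) hy)⟩)
    (fun w => card_meet G hdeg w)
    (by
      intro w
      have h := keptlll_card G V0 ord π (P := P) hk hm hDk hdeg hord ε ε₂ ε₃ hε hε1 hε₂ hε₂1 hε₃ hε₃1 h1 h2 w
      have hd0 : (0 : ℝ) ≤ 4 * (1 + (D : ℝ) + D ^ 2) ^ 2 := by positivity
      have h' := mul_le_mul_of_nonneg_left h hd0
      have hOm : (0 : ℝ) ≤ (Fintype.card (V → Al k m) : ℝ) := Nat.cast_nonneg _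
      have h'' := mul_le_mul_of_nonneg_right h3 hOm
      rw [mul_assoc] at h''
      have h4 := h'.trans h''
      rw [one_mul] at h4
      have : ((4 * (1 + D + D ^ 2) ^ 2 *
        (univ.filter (fun x : V → Al k m => ¬ GoodAll G V0 ord π P ε ε₂ ε₃ x w)).card : ℕ) : ℝ) ≤
          ((Fintype.card (V → Al k m) : ℕ) : ℝ) := by
        push_cast
        exact_mod_cast h4
      exact_mod_cast this)
  refine ⟨x, fun w => ?_⟩
  have := hx w
  rw [mem_filter] at this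
  by_contra hcon
  exact this ⟨mem_univ _, hcon⟩

end Pool.Agent.MP_dc7d7b.LS
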