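import Pool.Agent.Lib.MP_dc7d7b_co.LS.Base
import Pool.Agent.Lib.MP_dc7d7b_co.LS.Mart

set_option autoImplicit false

/-!
# Module Key: concentration of the number of active cells in sets determined by the past

PROOF.  Put `lam = ε / 3`, `Q v x = |T x v| / (m k)`, so `∑ v ∈ M, Q v x ≤ 3 k * N / (m k) = 3 N / m ≤ N` (`m ≥ 3`).
Two applications of `mart` with `t = ε² N / 6`.

Upper side: `Y v x = lam * ah (x v) (ρ v) (T x v) - (exp lam - 1) * Q v x - err`.  `Y v` depends on the
coordinates `u` with `ord u ≤ ord v` (`hloc`; `x v` is one of them).  In `Y v (update x v a)` the set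
`T (update x v a) v = T x v` (by `hloc`, as the coordinate `v` is not earlier than `v`), so `hE` is the moment
property `Mom m W err` with `T := T x v` and `ρ := ρ v`.  (`Y v` can be used for all `v`; only the sum over `M` matters.)
If `∑ v ∈ M, (ah - Q) > ε N` then, with `exp lam - 1 - lam ≤ lam²`,
`∑ v ∈ M, Y v x ≥ lam ε N - lam² ∑ Q - err |M| ≥ ε² N (1/3 - 1/9 - 1/18) = ε² N / 6`.

Lower side: `Y v x = - lam * ah (x v) (ρ v) (T x v) + (1 - exp (-lam)) * Q v x - err`, moment property with `-lam`,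
and `lam - (1 - exp (-lam)) ≤ lam²`.

The set in the theorem is the union of the two.
-/

namespace Pool.Agent.MP_dc7d7b.LS

open Finset

open Classical in
private theorem key_half {V : Type*} [Fintype V] [DecidableEq V] {k m : ℕ} (hk : 0 < k) (hm : 3 ≤ m) (ord : V → ℕ)
    (hord : Function.Injective ord) (M : Finset V) (hM : (M.card : ℝ) ≤ 3 * k) (ρ : V → Equiv.Perm (Fin k))
    (W : Finset (Fin k × Fin k)) (N ε err : ℝ) (hW : (W.card : ℝ) ≤ N) (hε : 0 < ε) (hε1 : ε ≤ 1)
    (hmom : Mom m W err) (herr0 : 0 ≤ err) (herr : err * (3 * k) ≤ ε ^ 2 * N / 18)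
    (T : (V → Al k m) → V → Finset (Fin k × Fin k)) (hT : ∀ x v, T x v ⊆ W)
    (hloc : ∀ v x y, (∀ u, ord u < ord v → x u = y u) → T x v = T y v) (s : ℝ) (hs : s = 1 ∨ s = -1) :
    ((univ.filter (fun x : V → Al k m => ε * N < s * dev x M ρ (T x))).card : ℝ) ≤
      Real.exp (-(ε ^ 2 * N / 6)) * Fintype.card (V → Al k m) := by
  have : NeZero m := ⟨by omega⟩
  have : Nonempty (Al k m) := ⟨(1, fun _ => 0)⟩
  have hs2 : s * s = 1 := by rcases hs with rfl | rfl <;> norm_num
  have hsabs : |s| = 1 := by rcases hs with rfl | rfl <;> norm_num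
  set lam : ℝ := s * (ε / 3) with hlam
  have hlamabs : |lam| = ε / 3 := by
    rw [hlam, abs_mul, hsabs, one_mul, abs_of_pos (by positivity)]
  have hlam1 : |lam| ≤ 1 := by rw [hlamabs]; linarith
  have hlamsq : lam ^ 2 = ε ^ 2 / 9 := by
    rw [hlam, mul_pow, sq s, hs2]; ring
  have hkR : (0 : ℝ) < k := by exact_mod_cast hk
  have hmR : (3 : ℝ) ≤ m := by exact_mod_cast hm
  have hmk : (0 : ℝ) < m * k := by positivity
  have hN0 : 0 ≤ N := le_trans (Nat.cast_nonneg _) hW
  set Q : V → (V → Al k m) → ℝ := fun v x => ((T x v).card : ℝ) / (m * k) with hQ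
  set Y : V → (V → Al k m) → ℝ := fun v x =>
    lam * ah (x v) (ρ v) (T x v) - (Real.exp lam - 1) * Q v x - err with hYdef
  have hYloc : ∀ v x y, (∀ u, ord u ≤ ord v → x u = y u) → Y v x = Y v y := by
    intro v x y hxy
    have h1 : T x v = T y v := hloc v x y fun u hu => hxy u hu.le
    simp only [hYdef, hQ, h1, hxy v le_rfl]
  have hE : ∀ v x, ∑ a, Real.exp (Y v (Function.update x v a)) ≤ Fintype.card (Al k m) := by
    intro v x
    have h1 : ∀ a, T (Function.update x v a) v = T x v := by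
      intro a
      refine hloc v _ _ fun u hu => ?_
      have hne : u ≠ v := by rintro rfl; exact lt_irrefl _ hu
      exact Function.update_of_ne hne _ _
    have h2 : ∀ a, Real.exp (Y v (Function.update x v a)) =
        Real.exp (lam * ah a (ρ v) (T x v)) * Real.exp (-((Real.exp lam - 1) * Q v x + err)) := by
      intro a
      rw [← Real.exp_add]
      congr 1
      simp only [hYdef, hQ, h1, Function.update_self]
      ring
    rw [sum_congr rfl fun a _ => h2 a, ← sum_mul]
    have h3 := hmom (ρ v) (T x v) (hT x v) lam hlam1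
    calc (∑ a : Al k m, Real.exp (lam * ah a (ρ v) (T x v))) *
          Real.exp (-((Real.exp lam - 1) * Q v x + err))
        ≤ (Fintype.card (Al k m) * Real.exp ((Real.exp lam - 1) * (((T x v).card : ℝ) / (m * k)) + err)) *
          Real.exp (-((Real.exp lam - 1) * Q v x + err)) :=
          mul_le_mul_of_nonneg_right h3 (Real.exp_pos _).le
      _ = Fintype.card (Al k m) := by
          rw [mul_assoc, ← Real.exp_add, hQ, add_neg_cancel, Real.exp_zero, mul_one]
  refine le_trans ?_ (mart ord hord Y hYloc hE M (ε ^ 2 * N / 6))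
  refine Nat.cast_le.2 (card_le_card fun x hx => ?_)
  rw [mem_filter] at hx ⊢
  refine ⟨mem_univ _, ?_⟩
  have hx2 := hx.2
  have hQle : ∑ v ∈ M, Q v x ≤ N := by
    have h1 : ∀ v ∈ M, Q v x ≤ N / (m * k) := by
      intro v _
      simp only [hQ]
      have h2 : ((T x v).card : ℝ) ≤ N :=
        le_trans (by exact_mod_cast card_le_card (hT x v)) hW
      gcongr
    refine (sum_le_card_nsmul _ _ _ h1).trans ?_
    rw [nsmul_eq_mul]
    calc (M.card : ℝ) * (N / (m * k)) ≤ (3 * k) * (N / (m * k)) :=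
          mul_le_mul_of_nonneg_right hM (by positivity)
      _ = 3 * N / m := by field_simp
      _ ≤ N := by
          rw [div_le_iff₀ (by linarith)]
          nlinarith
  have hQ0 : 0 ≤ ∑ v ∈ M, Q v x := sum_nonneg fun v _ => by
    simp only [hQ]; positivity
  have hexp : Real.exp lam - 1 - lam ≤ lam ^ 2 :=
    (le_abs_self _).trans (Real.abs_exp_sub_one_sub_id_le hlam1)
  have hsum : ∑ v ∈ M, Y v x = lam * dev x M ρ (T x) -
      (Real.exp lam - 1 - lam) * ∑ v ∈ M, Q v x - M.card * err := by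
    unfold dev
    simp only [hYdef, hQ, sum_sub_distrib, ← mul_sum, sum_const, nsmul_eq_mul]
    ring
  rw [hsum]
  have h1 : (Real.exp lam - 1 - lam) * ∑ v ∈ M, Q v x ≤ ε ^ 2 / 9 * N := by
    calc (Real.exp lam - 1 - lam) * ∑ v ∈ M, Q v x ≤ lam ^ 2 * ∑ v ∈ M, Q v x :=
          mul_le_mul_of_nonneg_right hexp hQ0
      _ ≤ lam ^ 2 * N := mul_le_mul_of_nonneg_left hQle (sq_nonneg _)
      _ = ε ^ 2 / 9 * N := by rw [hlamsq]
  have h2 : (M.card : ℝ) * err ≤ ε ^ 2 * N / 18 := by
    calc (M.card : ℝ) * err ≤ (3 * k) * err := mul_le_mul_of_nonneg_right hM herr0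
      _ = err * (3 * k) := mul_comm _ _
      _ ≤ _ := herr
  have h3 : lam * dev x M ρ (T x) = (ε / 3) * (s * dev x M ρ (T x)) := by rw [hlam]; ring
  have h4 : (ε / 3) * (ε * N) ≤ (ε / 3) * (s * dev x M ρ (T x)) :=
    mul_le_mul_of_nonneg_left hx2.le (by positivity)
  rw [h3]
  nlinarith

open Classical in
theorem key {V : Type*} [Fintype V] [DecidableEq V] {k m : ℕ} (hk : 0 < k) (hm : 3 ≤ m) (ord : V → ℕ)
    (hord : Function.Injective ord) (M : Finset V) (hM : (M.card : ℝ) ≤ 3 * k) (ρ : V → Equiv.Perm (Fin k))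
    (W : Finset (Fin k × Fin k)) (N ε err : ℝ) (hW : (W.card : ℝ) ≤ N) (hε : 0 < ε) (hε1 : ε ≤ 1)
    (hmom : Mom m W err) (herr0 : 0 ≤ err) (herr : err * (3 * k) ≤ ε ^ 2 * N / 18)
    (T : (V → Al k m) → V → Finset (Fin k × Fin k)) (hT : ∀ x v, T x v ⊆ W)
    (hloc : ∀ v x y, (∀ u, ord u < ord v → x u = y u) → T x v = T y v) :
    ((univ.filter (fun x : V → Al k m => ε * N < |dev x M ρ (T x)|)).card : ℝ) ≤
      2 * Real.exp (-(ε ^ 2 * N / 6)) * Fintype.card (V → Al k m) := by
  have h1 := key_half hk hm ord hord M hM ρ W N ε err hW hε hε1 hmom herr0 herr T hT hloc 1 (Or.inl rfl)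
  have h2 := key_half hk hm ord hord M hM ρ W N ε err hW hε hε1 hmom herr0 herr T hT hloc (-1) (Or.inr rfl)
  have h3 : (univ.filter (fun x : V → Al k m => ε * N < |dev x M ρ (T x)|)) ⊆
      (univ.filter (fun x : V → Al k m => ε * N < 1 * dev x M ρ (T x))) ∪
      (univ.filter (fun x : V → Al k m => ε * N < -1 * dev x M ρ (T x))) := by
    intro x hx
    rw [mem_filter] at hx
    rw [mem_union, mem_filter, mem_filter]
    rcases lt_abs.1 hx.2 with h4 | h4
    · exact Or.inl ⟨mem_univ _, by linarith⟩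
    · exact Or.inr ⟨mem_univ _, by linarith⟩
  have h4 := (card_le_card h3).trans (card_union_le _ _)
  have h5 : ((univ.filter (fun x : V → Al k m => ε * N < |dev x M ρ (T x)|)).card : ℝ) ≤
      ((univ.filter (fun x : V → Al k m => ε * N < 1 * dev x M ρ (T x))).card : ℝ) +
      ((univ.filter (fun x : V → Al k m => ε * N < -1 * dev x M ρ (T x))).card : ℝ) := by
    exact_mod_cast h4
  linarith

end Pool.Agent.MP_dc7d7b.LS
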