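import Mathlib

set_option autoImplicit false

/-!
# Module LLL: the symmetric local lemma, counting form

PROOF.  Write `good T = {x | ∀ j ∈ T, x ∉ B j}` for a finite set `T` of indices.  Claim, by strong induction on
`T.card`: `0 < |good T|` and for every index `i`, `2 d |B i ∩ good T| ≤ |good T|`.

Step.  Given `T` and `i` let `T₂ = {j ∈ T | S i, S j disjoint}` and `T₁ = T \ T₂`; `|T₁| ≤ d` by `hdeg`.
(1) `|B i ∩ good T₂| * |Ω| = |B i| * |good T₂|`, because `B i` is determined by the coordinates in `S i` and
`good T₂` by the coordinates outside `S i` (write `V → α` as a product, `Equiv.piEquivPiSubtypeProd`).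
(2) `|good T| ≥ |good T₂| / 2`: if `T₁` is empty the sets are equal; otherwise `T₂` is smaller than `T`, `good T₂ \ good T` is
contained in the union over `j ∈ T₁` of `B j ∩ good T₂`, and by induction each of these at most `d` sets has at
most `|good T₂| / (2 d)` elements.
(3) So `2 d |B i ∩ good T| ≤ 2 d |B i ∩ good T₂| = 2 d |B i| |good T₂| / |Ω| ≤ |good T₂| / 2 ≤ |good T|`
(with `4 d |B i| ≤ |Ω|`).
Positivity: `T = insert j T'`; `|good T| ≥ |good T'| - |B j ∩ good T'| ≥ |good T'| (1 - 1 / (2 d)) > 0` by the
induction hypothesis for `T'` (and `good ∅ = Ω`, which is nonempty as `α` is nonempty).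
At the end take `T = univ`.
-/

namespace Pool.Agent.MP_dc7d7b.LS

open Finset

/-- sets determined by complementary sets of coordinates are independent -/
private theorem lll_indep {V α : Type*} [Fintype V] [DecidableEq V] [Fintype α] [DecidableEq α]
    (A C : Finset (V → α)) (S : Finset V)
    (hA : ∀ x y, (∀ v ∈ S, x v = y v) → x ∈ A → y ∈ A)
    (hC : ∀ x y, (∀ v, v ∉ S → x v = y v) → x ∈ C → y ∈ C) :
    (A ∩ C).card * Fintype.card (V → α) = A.card * C.card := by
  set mix : (V → α) → (V → α) → (V → α) := fun a b v => if v ∈ S then a v else b v with hmix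
  have hin : ∀ a b v, v ∈ S → mix a b v = a v := fun a b v hv => by simp only [hmix, if_pos hv]
  have hout : ∀ a b v, v ∉ S → mix a b v = b v := fun a b v hv => by simp only [hmix, if_neg hv]
  have hinv : ∀ a b, mix (mix a b) (mix b a) = a := by
    intro a b
    funext v
    by_cases hv : v ∈ S
    · rw [hin _ _ v hv, hin _ _ v hv]
    · rw [hout _ _ v hv, hout _ _ v hv]
  rw [← card_univ, ← card_product, ← card_product]
  refine card_nbij' (fun p => (mix p.1 p.2, mix p.2 p.1)) (fun p => (mix p.1 p.2, mix p.2 p.1))
    ?_ ?_ ?_ ?_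
  · rintro ⟨a, b⟩ hp
    rw [mem_coe, mem_product, mem_inter] at hp
    rw [mem_coe, mem_product]
    exact ⟨hA a _ (fun v hv => (hin a b v hv).symm) hp.1.1,
      hC a _ (fun v hv => (hout b a v hv).symm) hp.1.2⟩
  · rintro ⟨a, b⟩ hp
    rw [mem_coe, mem_product] at hp
    rw [mem_coe, mem_product, mem_inter]
    exact ⟨⟨hA a _ (fun v hv => (hin a b v hv).symm) hp.1,
      hC b _ (fun v hv => (hout a b v hv).symm) hp.2⟩, mem_univ _⟩
  · rintro ⟨a, b⟩ _
    exact Prod.ext (hinv a b) (hinv b a)
  · rintro ⟨a, b⟩ _
    exact Prod.ext (hinv a b) (hinv b a)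

/-- the points outside all bad sets of `T` -/
private def lllGood {V α ι : Type*} [Fintype V] [DecidableEq V] [Fintype α] [DecidableEq α]
    [DecidableEq ι] (B : ι → Finset (V → α)) (T : Finset ι) : Finset (V → α) :=
  univ.filter fun x => ∀ j ∈ T, x ∉ B j

private theorem lll_mem {V α ι : Type*} [Fintype V] [DecidableEq V] [Fintype α] [DecidableEq α]
    [DecidableEq ι] {B : ι → Finset (V → α)} {T : Finset ι} {x : V → α} :
    x ∈ lllGood B T ↔ ∀ j ∈ T, x ∉ B j := by
  unfold lllGood
  rw [mem_filter]
  exact ⟨fun h => h.2, fun h => ⟨mem_univ _, h⟩⟩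

private theorem lll_main {V α ι : Type*} [Fintype V] [DecidableEq V] [Fintype α] [DecidableEq α] [Nonempty α]
    [Fintype ι] [DecidableEq ι] (B : ι → Finset (V → α)) (S : ι → Finset V) (d : ℕ) (hd : 0 < d)
    (hB : ∀ i x y, (∀ v ∈ S i, x v = y v) → x ∈ B i → y ∈ B i)
    (hdeg : ∀ i, (univ.filter (fun j => ¬ Disjoint (S i) (S j))).card ≤ d)
    (hp : ∀ i, 4 * d * (B i).card ≤ Fintype.card (V → α)) (T : Finset ι) :
    0 < (lllGood B T).card ∧ ∀ i, 2 * d * (B i ∩ lllGood B T).card ≤ (lllGood B T).card := by
  induction T using Finset.strongInduction with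
  | H T ih =>
    refine ⟨?_, fun i => ?_⟩
    · rcases T.eq_empty_or_nonempty with rfl | ⟨j, hj⟩
      · have h1 : lllGood B ∅ = univ := by
          unfold lllGood
          simp
        rw [h1, card_univ]
        exact Fintype.card_pos
      · obtain ⟨h1, h2⟩ := ih (T.erase j) (erase_ssubset hj)
        have h3 := h2 j
        have h4 : lllGood B T = lllGood B (T.erase j) \ B j := by
          ext x
          simp only [lllGood, mem_filter, mem_univ, true_and, mem_sdiff, mem_erase]
          constructor
          · intro h
            exact ⟨fun l hl => h l hl.2, h j hj⟩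
          · rintro ⟨h, h'⟩ l hl
            by_cases hlj : l = j
            · rw [hlj]; exact h'
            · exact h l ⟨hlj, hl⟩
        rw [h4, card_sdiff]
        have h5 : 2 * (B j ∩ lllGood B (T.erase j)).card ≤
            2 * d * (B j ∩ lllGood B (T.erase j)).card :=
          Nat.mul_le_mul_right _ (by omega)
        omega
    · set T2 := T.filter (fun j => Disjoint (S i) (S j)) with hT2
      set T1 := T.filter (fun j => ¬ Disjoint (S i) (S j)) with hT1
      have hT1c : T1.card ≤ d :=
        (card_le_card (filter_subset_filter _ (subset_univ T))).trans (hdeg i)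
      have hsub : T2 ⊆ T := filter_subset _ _
      have hgood : lllGood B T ⊆ lllGood B T2 := by
        intro x hx
        simp only [lllGood, mem_filter, mem_univ, true_and] at hx ⊢
        exact fun j hj => hx j (hsub hj)
      -- step 2
      have hstep2 : (lllGood B T2).card ≤ 2 * (lllGood B T).card := by
        rcases T1.eq_empty_or_nonempty with h0 | ⟨j0, hj0⟩
        · have h1 : T2 = T := by
            rw [hT2]
            refine filter_true_of_mem fun j hj => ?_
            by_contra hcon
            have h2 : j ∈ T1 := by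
              rw [hT1]; exact mem_filter.2 ⟨hj, hcon⟩
            rw [h0] at h2
            exact absurd h2 (notMem_empty _)
          rw [h1]; omega
        · have hss : T2 ⊂ T := by
            refine (ssubset_iff_of_subset hsub).2 ⟨j0, (mem_filter.1 hj0).1, fun h => ?_⟩
            exact (mem_filter.1 hj0).2 (mem_filter.1 h).2
          obtain ⟨h1, h2⟩ := ih T2 hss
          have h3 : lllGood B T2 \ lllGood B T ⊆ T1.biUnion fun j => B j ∩ lllGood B T2 := by
            intro x hx
            rw [mem_sdiff] at hx
            obtain ⟨hx1, hx2⟩ := hx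
            have hx2' : ∃ j ∈ T, x ∈ B j := by
              by_contra hcon
              push Not at hcon
              exact hx2 (by
                simp only [lllGood, mem_filter, mem_univ, true_and]
                exact hcon)
            obtain ⟨j, hj, hxj⟩ := hx2'
            rw [mem_biUnion]
            refine ⟨j, ?_, mem_inter.2 ⟨hxj, hx1⟩⟩
            rw [hT1, mem_filter]
            refine ⟨hj, fun hdis => ?_⟩
            have h4 : j ∈ T2 := by rw [hT2]; exact mem_filter.2 ⟨hj, hdis⟩
            exact lll_mem.1 hx1 j h4 hxj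
          have h4 : (lllGood B T2 \ lllGood B T).card ≤
              ∑ j ∈ T1, (B j ∩ lllGood B T2).card := (card_le_card h3).trans card_biUnion_le
          have h5 : 2 * d * ∑ j ∈ T1, (B j ∩ lllGood B T2).card ≤ d * (lllGood B T2).card := by
            rw [mul_sum]
            calc ∑ j ∈ T1, 2 * d * (B j ∩ lllGood B T2).card
                ≤ ∑ j ∈ T1, (lllGood B T2).card := sum_le_sum fun j _ => h2 j
              _ = T1.card * (lllGood B T2).card := by rw [sum_const, smul_eq_mul]
              _ ≤ d * (lllGood B T2).card := Nat.mul_le_mul_right _ hT1c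
          have h6 : 2 * ∑ j ∈ T1, (B j ∩ lllGood B T2).card ≤ (lllGood B T2).card := by
            refine Nat.le_of_mul_le_mul_left ?_ hd
            calc d * (2 * ∑ j ∈ T1, (B j ∩ lllGood B T2).card)
                = 2 * d * ∑ j ∈ T1, (B j ∩ lllGood B T2).card := by ring
              _ ≤ _ := h5
          have h7 := card_sdiff_add_card_eq_card hgood
          omega
      -- step 3
      have hdet : ∀ x y, (∀ v, v ∉ S i → x v = y v) → x ∈ lllGood B T2 → y ∈ lllGood B T2 := by
        intro x y hxy hx
        simp only [lllGood, mem_filter, mem_univ, true_and] at hx ⊢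
        intro j hj hyj
        refine hx j hj (hB j y x (fun v hv => (hxy v fun hvi => ?_).symm) hyj)
        exact (disjoint_left.1 (mem_filter.1 hj).2) hvi hv
      have hind := lll_indep (B i) (lllGood B T2) (S i) (hB i) hdet
      have hO : 0 < Fintype.card (V → α) := Fintype.card_pos
      have h8 : 4 * d * (B i ∩ lllGood B T2).card ≤ (lllGood B T2).card := by
        refine Nat.le_of_mul_le_mul_right ?_ hO
        calc 4 * d * (B i ∩ lllGood B T2).card * Fintype.card (V → α)
            = 4 * d * ((B i).card * (lllGood B T2).card) := by rw [mul_assoc, hind]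
          _ = 4 * d * (B i).card * (lllGood B T2).card := by ring
          _ ≤ Fintype.card (V → α) * (lllGood B T2).card := Nat.mul_le_mul_right _ (hp i)
          _ = (lllGood B T2).card * Fintype.card (V → α) := mul_comm _ _
      have h9 : (B i ∩ lllGood B T).card ≤ (B i ∩ lllGood B T2).card :=
        card_le_card (inter_subset_inter_left hgood)
      have h10 : 2 * (2 * d * (B i ∩ lllGood B T).card) ≤ 2 * (lllGood B T).card := by
        calc 2 * (2 * d * (B i ∩ lllGood B T).card) = 4 * d * (B i ∩ lllGood B T).card := by ring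
          _ ≤ 4 * d * (B i ∩ lllGood B T2).card := Nat.mul_le_mul_left _ h9
          _ ≤ (lllGood B T2).card := h8
          _ ≤ _ := hstep2
      omega

/-- The symmetric local lemma. `B i` is the set of bad points, determined by the coordinates in `S i`. -/
theorem lll {V α ι : Type*} [Fintype V] [DecidableEq V] [Fintype α] [DecidableEq α] [Nonempty α] [Fintype ι]
    [DecidableEq ι] (B : ι → Finset (V → α)) (S : ι → Finset V) (d : ℕ) (hd : 0 < d)
    (hB : ∀ i x y, (∀ v ∈ S i, x v = y v) → x ∈ B i → y ∈ B i)
    (hdeg : ∀ i, (univ.filter (fun j => ¬ Disjoint (S i) (S j))).card ≤ d)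
    (hp : ∀ i, 4 * d * (B i).card ≤ Fintype.card (V → α)) :
    ∃ x : V → α, ∀ i, x ∉ B i := by
  obtain ⟨h1, -⟩ := lll_main B S d hd hB hdeg hp univ
  obtain ⟨x, hx⟩ := card_pos.1 h1
  exact ⟨x, fun i => lll_mem.1 hx i (mem_univ i)⟩

end Pool.Agent.MP_dc7d7b.LS
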