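import Pool.Agent.Lib.MP_dc7d7b_co.LS.Base
import Pool.Agent.Lib.MP_dc7d7b_co.LS.Fam

set_option autoImplicit false

/-!
# Module Ov: hits and overlaps of the families, from the good events

Throughout `w` is a vertex, `v ∈ nb0 w`, `W` a test set, `s` the error, `A z = cells (act (x z)) (x z).1 (tr w v z)`,
so that `|A z ∩ W| = ah (x z) (tr w v z) W` (`ah_eq`), and `F = fam w v`, `|F| ≤ 2 D ≤ 3 k`
(`early w v ⊆ N(w)`, `prev v ⊆ N(v)`).

PROOFS.
`hit_fam`: `Good.a`: `∑ z ∈ F, ah (x z) (tr z) W ≤ |F| |W| / (m k) + s ≤ 3 |W| / m + s`.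

`ov_fam`: `fam_sum` (for `A`, `M = F`): `∑ |A z ∩ W| - |⋃ A z ∩ W| = ∑ z ∈ F, |A z ∩ (W ∩ U z)|`, `U z` the union of
the `A u`, `u ∈ F` earlier than `z`; this is `∑ ah (x z) (tr z) (W ∩ U z)`, at most
`∑ z ∈ F, |W ∩ U z| / (m k) + s` by `Good.b`; `|W ∩ U z| ≤ ∑ u ∈ F, |A u ∩ W| ≤ 3 |W| / m + s`, so the sum is at
most `3 k / (m k) * (3 |W| / m + s) + s ≤ 9 |W| / m² + 2 s` (`m ≥ 3`).

`blkd_eq`: for `v ∈ nb0 w`, `blkd x v (π v w)` is the union of the `A y`, `y ∈ prev v` (`tr_prev`).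

`blkd_le`: `|blkd x v (π v w) ∩ W| ≤ ∑ y ∈ prev v, ah (x y) ((π y v).trans (π v w)) W ≤ |prev v| |W| / (m k) + s`
by `Good.e`.

`blkd_ge`: `|blkd ∩ W| = ∑ y ∈ prev v, |A y ∩ W| - (overlap of prev v)`; the overlap is at most that of `F` by
`fam_mono` (`prev v ⊆ F`), so `|blkd ∩ W| ≥ |prev v| |W| / (m k) - s - (9 |W| / m² + 2 s)` by `Good.e` and `ov_fam`.

`blkd_own`: the same as `blkd_le` for the vertex `w` itself, with `Good.f` (the transport is `π y w`; `blkd x w 1`).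
-/

namespace Pool.Agent.MP_dc7d7b.LS

open Finset

variable {V : Type*} [Fintype V] [DecidableEq V] {k m : ℕ} (G : SimpleGraph V) [DecidableRel G.Adj] (V0 : Finset V)
  (ord : V → ℕ) (π : V → V → Equiv.Perm (Fin k))

theorem card_fam_le {D : ℕ} (hdeg : ∀ v, (univ.filter (fun w => G.Adj v w)).card ≤ D) (w v : V) :
    (fam G V0 ord w v).card ≤ 2 * D := by
  unfold fam
  refine (Finset.card_union_le _ _).trans ?_
  have h1 : (early G V0 ord w v).card ≤ D := by
    refine (Finset.card_le_card ?_).trans (hdeg w)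
    intro y hy
    unfold early nb0 at hy
    rw [Finset.mem_filter, Finset.mem_filter] at hy
    exact Finset.mem_filter.mpr ⟨Finset.mem_univ _, hy.1.2⟩
  have h2 : (prev G V0 ord v).card ≤ D := by
    refine (Finset.card_le_card ?_).trans (hdeg v)
    intro y hy
    unfold prev nb0 at hy
    rw [Finset.mem_filter, Finset.mem_filter] at hy
    exact Finset.mem_filter.mpr ⟨Finset.mem_univ _, hy.1.2⟩
  omega

omit [Fintype V] [DecidableEq V] in
private theorem dev_const (x : V → Al k m) (M : Finset V) (ρ : V → Equiv.Perm (Fin k)) (W : Finset (Fin k × Fin k)) :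
    dev x M ρ (fun _ => W) = ∑ v ∈ M, (ah (x v) (ρ v) W : ℝ) - M.card * ((W.card : ℝ) / (m * k)) := by
  unfold dev
  rw [Finset.sum_sub_distrib, Finset.sum_const, nsmul_eq_mul]

theorem hit_fam {D : ℕ} (hk : 0 < k) (hm : 3 ≤ m) (hDk : (D : ℝ) ≤ 4 / 3 * k)
    (hdeg : ∀ v, (univ.filter (fun w => G.Adj v w)).card ≤ D) (x : V → Al k m) (w : V)
    (W : Finset (Fin k × Fin k)) (s : ℝ) (hs : 0 ≤ s) (hgood : Good G V0 ord π x w W s) (v : V)
    (hv : v ∈ nb0 G V0 w) :
    ∑ z ∈ fam G V0 ord w v, (ah (x z) (tr G V0 ord π w v z) W : ℝ) ≤ 3 / m * W.card + s := by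
  have hk' : (0 : ℝ) < k := by exact_mod_cast hk
  have hm' : (0 : ℝ) < m := by
    have : 0 < m := by omega
    exact_mod_cast this
  have h1 := hgood.a v hv
  rw [dev_const] at h1
  have h2 := (abs_le.mp h1).2
  have h3 : ((fam G V0 ord w v).card : ℝ) ≤ 3 * k := by
    have h4 : ((fam G V0 ord w v).card : ℝ) ≤ 2 * D := by exact_mod_cast card_fam_le G V0 ord hdeg w v
    linarith
  have hW0 : (0 : ℝ) ≤ (W.card : ℝ) := Nat.cast_nonneg _
  have h4 : ((fam G V0 ord w v).card : ℝ) * ((W.card : ℝ) / (m * k)) ≤ 3 * k * ((W.card : ℝ) / (m * k)) :=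
    mul_le_mul_of_nonneg_right h3 (div_nonneg hW0 (mul_pos hm' hk').le)
  have h5 : 3 * (k : ℝ) * ((W.card : ℝ) / (m * k)) = 3 / m * W.card := by
    field_simp
  linarith

theorem ov_fam {D : ℕ} (hk : 0 < k) (hm : 3 ≤ m) (hDk : (D : ℝ) ≤ 4 / 3 * k)
    (hdeg : ∀ v, (univ.filter (fun w => G.Adj v w)).card ≤ D) (hord : Function.Injective ord)
    (x : V → Al k m) (w : V) (W : Finset (Fin k × Fin k)) (s : ℝ) (hs : 0 ≤ s)
    (hgood : Good G V0 ord π x w W s) (v : V) (hv : v ∈ nb0 G V0 w) :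
    ∑ z ∈ fam G V0 ord w v, (ah (x z) (tr G V0 ord π w v z) W : ℝ) -
      ((((fam G V0 ord w v).biUnion (fun z => cells (act (x z)) (x z).1 (tr G V0 ord π w v z))) ∩ W).card : ℝ) ≤
      9 / m ^ 2 * W.card + 2 * s := by
  have hk' : (0 : ℝ) < k := by exact_mod_cast hk
  have hm' : (0 : ℝ) < m := by
    have : 0 < m := by omega
    exact_mod_cast this
  have hm3 : (3 : ℝ) ≤ m := by exact_mod_cast hm
  set F := fam G V0 ord w v with hF
  set A : V → Finset (Fin k × Fin k) := fun z => cells (act (x z)) (x z).1 (tr G V0 ord π w v z) with hA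
  have hAW : ∀ z T, (A z ∩ T).card = ah (x z) (tr G V0 ord π w v z) T := fun z T => ah_eq _ _ _
  have h1 := fam_sum ord hord A W F
  have h2 : (∑ z ∈ F, (ah (x z) (tr G V0 ord π w v z) W : ℝ)) = ((F.biUnion A ∩ W).card : ℝ) +
      ∑ z ∈ F, (ah (x z) (tr G V0 ord π w v z) (W ∩ (F.filter (fun u => ord u < ord z)).biUnion A) : ℝ) := by
    simp only [hAW] at h1
    exact_mod_cast h1
  have h3 := (abs_le.mp (hgood.b v hv)).2
  unfold dev at h3
  rw [Finset.sum_sub_distrib] at h3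
  have hHIT := hit_fam G V0 ord π hk hm hDk hdeg x w W s hs hgood v hv
  have hcardF : (F.card : ℝ) ≤ 3 * k := by
    have h4 : (F.card : ℝ) ≤ 2 * D := by exact_mod_cast card_fam_le G V0 ord hdeg w v
    linarith
  have hW0 : (0 : ℝ) ≤ (W.card : ℝ) := Nat.cast_nonneg _
  have h4 : ∀ y ∈ F, ((W ∩ (F.filter (fun z => ord z < ord y)).biUnion A).card : ℝ) / (m * k) ≤
      (3 / m * W.card + s) / (m * k) := by
    intro y _
    refine div_le_div_of_nonneg_right ?_ (mul_pos hm' hk').le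
    refine le_trans ?_ hHIT
    have h5 : (W ∩ (F.filter (fun z => ord z < ord y)).biUnion A).card ≤ ∑ z ∈ F, ah (x z) (tr G V0 ord π w v z) W := by
      rw [Finset.inter_comm, Finset.biUnion_inter]
      refine Finset.card_biUnion_le.trans ?_
      refine (Finset.sum_le_sum_of_subset (Finset.filter_subset _ _)).trans (le_of_eq ?_)
      exact Finset.sum_congr rfl (fun z _ => hAW z W)
    exact_mod_cast h5
  have h5 := Finset.sum_le_sum h4
  rw [Finset.sum_const, nsmul_eq_mul] at h5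
  have h6 : (F.card : ℝ) * ((3 / m * W.card + s) / (m * k)) ≤ 3 * k * ((3 / m * W.card + s) / (m * k)) := by
    refine mul_le_mul_of_nonneg_right hcardF ?_
    refine div_nonneg ?_ (mul_pos hm' hk').le
    have : 0 ≤ 3 / (m : ℝ) * W.card := mul_nonneg (by positivity) hW0
    linarith
  have h7 : 3 * (k : ℝ) * ((3 / m * W.card + s) / (m * k)) = 9 / m ^ 2 * W.card + 3 / m * s := by
    field_simp
    ring
  have h8 : 3 / (m : ℝ) * s ≤ s := by
    have : 3 / (m : ℝ) ≤ 1 := by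
      rw [div_le_one hm']
      exact hm3
    calc 3 / (m : ℝ) * s ≤ 1 * s := mul_le_mul_of_nonneg_right this hs
      _ = s := one_mul s
  linarith

theorem blkd_eq (x : V → Al k m) (w v : V) :
    blkd G V0 ord π x v (π v w) =
      (prev G V0 ord v).biUnion (fun z => cells (act (x z)) (x z).1 (tr G V0 ord π w v z)) := by
  unfold blkd
  refine Finset.biUnion_congr rfl ?_
  intro y hy
  rw [tr_prev G V0 ord π hy]

theorem blkd_le (x : V → Al k m) (w : V) (W : Finset (Fin k × Fin k)) (s : ℝ)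
    (hgood : Good G V0 ord π x w W s) (v : V) (hv : v ∈ nb0 G V0 w) :
    ((blkd G V0 ord π x v (π v w) ∩ W).card : ℝ) ≤ (prev G V0 ord v).card * (W.card / (m * k)) + s := by
  have h1 := (abs_le.mp (hgood.e v hv)).2
  rw [dev_const] at h1
  have h2 : ((blkd G V0 ord π x v (π v w) ∩ W).card : ℝ) ≤
      ∑ y ∈ prev G V0 ord v, (ah (x y) ((π y v).trans (π v w)) W : ℝ) := by
    have h3 : (blkd G V0 ord π x v (π v w) ∩ W).card ≤
        ∑ y ∈ prev G V0 ord v, ah (x y) ((π y v).trans (π v w)) W := by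
      unfold blkd
      rw [Finset.biUnion_inter]
      refine Finset.card_biUnion_le.trans (le_of_eq ?_)
      exact Finset.sum_congr rfl (fun z _ => ah_eq _ _ _)
    exact_mod_cast h3
  linarith

theorem blkd_ge {D : ℕ} (hk : 0 < k) (hm : 3 ≤ m) (hDk : (D : ℝ) ≤ 4 / 3 * k)
    (hdeg : ∀ v, (univ.filter (fun w => G.Adj v w)).card ≤ D) (hord : Function.Injective ord)
    (x : V → Al k m) (w : V) (W : Finset (Fin k × Fin k)) (s : ℝ) (hs : 0 ≤ s)
    (hgood : Good G V0 ord π x w W s) (v : V) (hv : v ∈ nb0 G V0 w) :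
    (prev G V0 ord v).card * ((W.card : ℝ) / (m * k)) - 9 / m ^ 2 * W.card - 3 * s ≤
      ((blkd G V0 ord π x v (π v w) ∩ W).card : ℝ) := by
  set A : V → Finset (Fin k × Fin k) := fun z => cells (act (x z)) (x z).1 (tr G V0 ord π w v z) with hA
  have hAW : ∀ z T, (A z ∩ T).card = ah (x z) (tr G V0 ord π w v z) T := fun z T => ah_eq _ _ _
  have h1 := (abs_le.mp (hgood.e v hv)).1
  rw [dev_const] at h1
  have h2 := ov_fam G V0 ord π hk hm hDk hdeg hord x w W s hs hgood v hv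
  have hsub : prev G V0 ord v ⊆ fam G V0 ord w v := Finset.subset_union_right
  have h3 := fam_mono A W hsub
  have h4 : (∑ z ∈ prev G V0 ord v, (ah (x z) ((π z v).trans (π v w)) W : ℝ)) +
      (((fam G V0 ord w v).biUnion A ∩ W).card : ℝ) ≤ ((blkd G V0 ord π x v (π v w) ∩ W).card : ℝ) +
      ∑ z ∈ fam G V0 ord w v, (ah (x z) (tr G V0 ord π w v z) W : ℝ) := by
    rw [blkd_eq]
    have h5 : ∑ z ∈ prev G V0 ord v, (A z ∩ W).card =
        ∑ z ∈ prev G V0 ord v, ah (x z) ((π z v).trans (π v w)) W := by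
      refine Finset.sum_congr rfl ?_
      intro z hz
      rw [hAW, tr_prev G V0 ord π hz]
    rw [h5] at h3
    simp only [hAW] at h3
    exact_mod_cast h3
  linarith

theorem blkd_own (x : V → Al k m) (w : V) (W : Finset (Fin k × Fin k)) (s : ℝ)
    (hgood : Good G V0 ord π x w W s) :
    ((blkd G V0 ord π x w 1 ∩ W).card : ℝ) ≤ (prev G V0 ord w).card * (W.card / (m * k)) + s := by
  have h1 := (abs_le.mp hgood.f).2
  rw [dev_const] at h1
  have h2 : ((blkd G V0 ord π x w 1 ∩ W).card : ℝ) ≤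
      ∑ y ∈ prev G V0 ord w, (ah (x y) (π y w) W : ℝ) := by
    have h3 : (blkd G V0 ord π x w 1 ∩ W).card ≤ ∑ y ∈ prev G V0 ord w, ah (x y) (π y w) W := by
      unfold blkd
      rw [Finset.biUnion_inter]
      refine Finset.card_biUnion_le.trans (le_of_eq ?_)
      refine Finset.sum_congr rfl (fun z _ => ?_)
      rw [ah_eq]
      rfl
    exact_mod_cast h3
  linarith

end Pool.Agent.MP_dc7d7b.LS
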