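import Pool.Agent.Lib.MP_dc7d7b_co.LS.Base

set_option autoImplicit false

/-!
# Module SubDS: doubly stochastic weights on a part of the board

PROOF.  Let `r = k - |K| ≥ k / 2 > 0`; the free rows are `Kᶜ`, the free colours are `(K.image g)ᶜ`, both of size `r`.
Take equivalences `er : Fin r ≃ {i // i ∉ K}` and `ec : Fin r ≃ {c // g.symm c ∉ K}`.  Let
`A' = {(i', c') | (er i', ec c') ∈ A}`.
`GoodSet (q ^ T) η (4 d) A'`: a block set `W' = blk a' b' B'` of `Fin r` with `q ^ T` types corresponds to the block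
set `W = blk a b B` of `Fin k` with `q ^ T + 1` types, where `a i = castSucc (a' i')` for `i = er i'` and `a i = last`
for `i ∈ K`, the same for `b`, and `B` = the image of `B'` under `castSucc × castSucc`; then `W ⊆ fboard K g 1`,
`|W| = |W'|`, `|A ∩ W| = |A' ∩ W'|`, and `d k² ≤ 4 d r²`.
Rows and columns of `A'` have at least `ζ k ≥ ζ r` elements.
Apply `dstoch` with `4 d` for `d`; let `X i c = X' i' c'` for `i = er i'`, `c = ec c'` and `0` otherwise.
`X' ≤ (1/η + 32/(η ζ²)) / r ≤ 2 (1/η + 32/(η ζ²)) / k`.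
For the last point: a block set `W = blk a b B` of `Fin k` with `q` types restricts to the block set
`W' = blk (a ∘ er) (b ∘ ec) B` of `Fin r`, `|W'| = |fboard K g 1 ∩ W|`, the sum of `X` over `W` is the sum of `X'`
over `W'`, and `(4 + 12/ζ) δ r ≤ (4 + 12/ζ) δ k`.
-/

namespace Pool.Agent.MP_dc7d7b.LS

open Finset

/-- embedding of the small board into the big one -/
private def subdsEmb {k r : ℕ} (K : Finset (Fin k)) (g : Equiv.Perm (Fin k)) (er : Fin r ≃ {i : Fin k // i ∉ K})
    (e : Fin r × Fin r) : Fin k × Fin k := ((er e.1).1, g (er e.2).1)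

private theorem subds_inj {k r : ℕ} (K : Finset (Fin k)) (g : Equiv.Perm (Fin k))
    (er : Fin r ≃ {i : Fin k // i ∉ K}) : Function.Injective (subdsEmb K g er) := by
  rintro ⟨a, b⟩ ⟨c, d⟩ h
  unfold subdsEmb at h
  simp only [Prod.mk.injEq, EmbeddingLike.apply_eq_iff_eq] at h
  have h1 := er.injective (Subtype.ext h.1)
  have h2 := er.injective (Subtype.ext h.2)
  rw [h1, h2]

private theorem subds_mem {k r : ℕ} (K : Finset (Fin k)) (g : Equiv.Perm (Fin k))
    (er : Fin r ≃ {i : Fin k // i ∉ K}) (e : Fin r × Fin r) : subdsEmb K g er e ∈ fboard K g 1 := by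
  unfold fboard subdsEmb
  rw [mem_filter]
  refine ⟨mem_univ _, (er e.1).2, ?_⟩
  have h : g.symm ((1 : Equiv.Perm (Fin k)).symm (g (er e.2).1)) = (er e.2).1 :=
    g.symm_apply_apply _
  rw [h]
  exact (er e.2).2

private theorem subds_surj {k r : ℕ} (K : Finset (Fin k)) (g : Equiv.Perm (Fin k))
    (er : Fin r ≃ {i : Fin k // i ∉ K}) (e : Fin k × Fin k) (he : e ∈ fboard K g 1) :
    ∃ e', subdsEmb K g er e' = e := by
  unfold fboard at he
  rw [mem_filter] at he
  have h2 : g.symm e.2 ∉ K := he.2.2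
  refine ⟨(er.symm ⟨e.1, he.2.1⟩, er.symm ⟨g.symm e.2, h2⟩), ?_⟩
  unfold subdsEmb
  simp

private theorem subds_image {k r : ℕ} (K : Finset (Fin k)) (g : Equiv.Perm (Fin k))
    (er : Fin r ≃ {i : Fin k // i ∉ K}) (S : Finset (Fin k × Fin k)) :
    (univ.filter (fun e' => subdsEmb K g er e' ∈ S)).image (subdsEmb K g er) = fboard K g 1 ∩ S := by
  ext e
  rw [mem_image, mem_inter]
  constructor
  · rintro ⟨e', h1, rfl⟩
    exact ⟨subds_mem K g er e', (mem_filter.1 h1).2⟩
  · rintro ⟨h1, h2⟩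
    obtain ⟨e', rfl⟩ := subds_surj K g er e h1
    exact ⟨e', mem_filter.2 ⟨mem_univ _, h2⟩, rfl⟩

private theorem subds_card {k r : ℕ} (K : Finset (Fin k)) (g : Equiv.Perm (Fin k))
    (er : Fin r ≃ {i : Fin k // i ∉ K}) (S : Finset (Fin k × Fin k)) :
    (univ.filter (fun e' => subdsEmb K g er e' ∈ S)).card = (fboard K g 1 ∩ S).card := by
  rw [← subds_image K g er S, card_image_of_injective _ (subds_inj K g er)]

private theorem subds_sum {k r : ℕ} (K : Finset (Fin k)) (g : Equiv.Perm (Fin k))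
    (er : Fin r ≃ {i : Fin k // i ∉ K}) (S : Finset (Fin k × Fin k)) (F : Fin k × Fin k → ℝ) :
    ∑ e' ∈ univ.filter (fun e' => subdsEmb K g er e' ∈ S), F (subdsEmb K g er e') =
      ∑ e ∈ fboard K g 1 ∩ S, F e := by
  rw [← subds_image K g er S, sum_image]
  intro a _ b _ h
  exact subds_inj K g er h

private theorem subds_line {k r : ℕ} (K : Finset (Fin k)) (er : Fin r ≃ {i : Fin k // i ∉ K}) (F : Fin k → ℝ)
    (hF : ∀ j ∈ K, F j = 0) : ∑ j, F j = ∑ c' : Fin r, F (er c').1 := by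
  rw [Equiv.sum_comp er (fun x : {i : Fin k // i ∉ K} => F x.1)]
  rw [← Finset.sum_subtype (univ.filter (fun i => i ∉ K)) (by intro x; simp) F]
  rw [sum_filter]
  refine sum_congr rfl fun j _ => ?_
  by_cases hj : j ∈ K
  · rw [if_neg (not_not.2 hj), hF j hj]
  · rw [if_pos hj]

/-- the big type function -/
private def subdsTy {k r p : ℕ} (K : Finset (Fin k)) (er : Fin r ≃ {i : Fin k // i ∉ K}) (a' : Fin r → Fin p)
    (i : Fin k) : Fin (p + 1) := if h : i ∉ K then (a' (er.symm ⟨i, h⟩)).castSucc else Fin.last p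

private theorem subdsTy_er {k r p : ℕ} (K : Finset (Fin k)) (er : Fin r ≃ {i : Fin k // i ∉ K}) (a' : Fin r → Fin p)
    (i : Fin r) : subdsTy K er a' (er i).1 = (a' i).castSucc := by
  unfold subdsTy
  rw [dif_pos (er i).2]
  congr 2
  exact er.symm_apply_apply i

private theorem subdsTy_mem {k r p : ℕ} (K : Finset (Fin k)) (er : Fin r ≃ {i : Fin k // i ∉ K}) (a' : Fin r → Fin p)
    (i : Fin k) (x : Fin p) (h : subdsTy K er a' i = x.castSucc) : i ∉ K := by
  intro hi
  unfold subdsTy at h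
  rw [dif_neg (not_not.2 hi)] at h
  have := congrArg Fin.val h
  have h2 := x.2
  simp at this
  omega

private theorem subds_good {k r p : ℕ} (K : Finset (Fin k)) (g : Equiv.Perm (Fin k))
    (er : Fin r ≃ {i : Fin k // i ∉ K}) (a' b' : Fin r → Fin p) (B' : Finset (Fin p × Fin p)) :
    ∃ t : Ty k (p + 1), tyset t ⊆ fboard K g 1 ∧
      univ.filter (fun e' => subdsEmb K g er e' ∈ tyset t) = blk a' b' B' := by
  refine ⟨((subdsTy K er a', fun c => subdsTy K er b' (g.symm c)),
    B'.image (fun e => (e.1.castSucc, e.2.castSucc))), ?_, ?_⟩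
  · intro e he
    unfold tyset blk at he
    rw [mem_filter, mem_image] at he
    obtain ⟨_, x, _, hx⟩ := he
    simp only [Prod.mk.injEq] at hx
    unfold fboard
    rw [mem_filter]
    exact ⟨mem_univ _, subdsTy_mem K er a' _ _ hx.1.symm, subdsTy_mem K er b' _ _ hx.2.symm⟩
  · ext e'
    unfold tyset blk
    rw [mem_filter, mem_filter, mem_filter, mem_image]
    unfold subdsEmb
    simp only [mem_univ, true_and, Equiv.symm_apply_apply, subdsTy_er]
    constructor
    · rintro ⟨x, hx, hx2⟩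
      simp only [Prod.mk.injEq] at hx2
      have h1 := Fin.castSucc_injective p hx2.1
      have h2 := Fin.castSucc_injective p hx2.2
      rw [← h1, ← h2]
      exact hx
    · intro h
      exact ⟨_, h, rfl⟩

theorem sub_ds {k q T : ℕ} (hk : 0 < k) (hq : 2 ≤ q) (hT : 0 < T) (K : Finset (Fin k)) (g : Equiv.Perm (Fin k))
    (hK : 2 * K.card ≤ k) (A : Finset (Fin k × Fin k)) (hA : A ⊆ fboard K g 1) (η ζ d : ℝ)
    (hη : 0 < η) (hη1 : η ≤ 1) (hζ : 0 < ζ) (hζ1 : ζ ≤ 1) (hd : 0 ≤ d)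
    (hgood : ∀ t : Ty k (q ^ T + 1), tyset t ⊆ fboard K g 1 →
      η * (tyset t).card - d * (k : ℝ) ^ 2 ≤ ((A ∩ tyset t).card : ℝ))
    (hrow : ∀ i, i ∉ K → ζ * k ≤ ((univ.filter (fun c => (i, c) ∈ A)).card : ℝ))
    (hcol : ∀ c, g.symm c ∉ K → ζ * k ≤ ((univ.filter (fun i => (i, c) ∈ A)).card : ℝ))
    (δ : ℝ) (hδ : δ = 4 * d / η + 2 * (1 / η + 1) / Real.sqrt T) (hd1 : 4 * d ≤ η * ζ ^ 2 / 32)
    (hδ1 : 15 * δ ≤ ζ) :
    ∃ X : Fin k → Fin k → ℝ, (∀ i c, 0 ≤ X i c) ∧ (∀ i, i ∉ K → ∑ c, X i c = 1) ∧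
      (∀ c, g.symm c ∉ K → ∑ i, X i c = 1) ∧ (∀ i c, (i, c) ∉ A → X i c = 0) ∧
      (∀ i c, X i c ≤ 2 * (1 / η + 32 / (η * ζ ^ 2)) / k) ∧
      ∀ t : Ty k q, ∑ e ∈ tyset t, X e.1 e.2 ≤
        ((fboard K g 1 ∩ tyset t).card : ℝ) / ((k : ℝ) - K.card) + (4 + 12 / ζ) * δ * k := by
  classical
  have hcard : Fintype.card {i : Fin k // i ∉ K} = k - K.card := by
    rw [Fintype.card_subtype_compl (fun i => i ∈ K), Fintype.card_fin, Fintype.card_coe]
  obtain ⟨r, hr⟩ : ∃ r, r = k - K.card := ⟨_, rfl⟩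
  have hr0 : 0 < r := by omega
  have hr2 : k ≤ 2 * r := by omega
  have hrk : r ≤ k := by omega
  have hrR : (r : ℝ) = (k : ℝ) - K.card := by
    have : r + K.card = k := by omega
    have h' : (r : ℝ) + K.card = k := by exact_mod_cast this
    linarith
  have er : Fin r ≃ {i : Fin k // i ∉ K} := (Fintype.equivFinOfCardEq (hcard.trans hr.symm)).symm
  have hk' : (0 : ℝ) < k := by exact_mod_cast hk
  have hr' : (0 : ℝ) < r := by exact_mod_cast hr0
  have hr2' : (k : ℝ) ≤ 2 * r := by exact_mod_cast hr2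
  have hrk' : (r : ℝ) ≤ k := by exact_mod_cast hrk
  have hδ0 : 0 ≤ δ := by rw [hδ]; positivity
  set A' : Finset (Fin r × Fin r) := univ.filter (fun e' => subdsEmb K g er e' ∈ A) with hA'
  have hgood' : GoodSet (q ^ T) η (4 * d) A' := by
    intro a' b' B'
    obtain ⟨t, ht, ht2⟩ := subds_good K g er a' b' B'
    have h1 := hgood t ht
    have h2 : (blk a' b' B').card = (tyset t).card := by
      rw [← ht2, subds_card, inter_eq_right.2 ht]
    have h3 : (A' ∩ blk a' b' B').card = (A ∩ tyset t).card := by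
      have h4 : A' ∩ blk a' b' B' = univ.filter (fun e' => subdsEmb K g er e' ∈ A ∩ tyset t) := by
        rw [← ht2, hA']
        ext e'
        simp only [mem_inter, mem_filter, mem_univ, true_and]
      rw [h4, subds_card, inter_eq_right.2 (inter_subset_left.trans hA)]
    rw [h2, h3]
    have h5 : d * (k : ℝ) ^ 2 ≤ 4 * d * (r : ℝ) ^ 2 := by
      have h6 : (k : ℝ) ^ 2 ≤ (2 * r) ^ 2 := pow_le_pow_left₀ hk'.le hr2' 2
      calc d * (k : ℝ) ^ 2 ≤ d * (2 * (r : ℝ)) ^ 2 := mul_le_mul_of_nonneg_left h6 hd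
        _ = 4 * d * (r : ℝ) ^ 2 := by ring
    linarith
  have hrow' : ∀ i, ζ * r ≤ ((univ.filter (fun c => (i, c) ∈ A')).card : ℝ) := by
    intro i
    refine (mul_le_mul_of_nonneg_left hrk' hζ.le).trans ((hrow (er i).1 (er i).2).trans ?_)
    have h1 : (univ.filter (fun c => ((er i).1, c) ∈ A)) =
        (univ.filter (fun c => (i, c) ∈ A')).image (fun c => g (er c).1) := by
      ext c
      rw [mem_image, mem_filter]
      constructor
      · rintro ⟨_, hc⟩
        obtain ⟨e', he'⟩ := subds_surj K g er _ (hA hc)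
        unfold subdsEmb at he'
        rw [Prod.mk.injEq] at he'
        have h2 := er.injective (Subtype.ext he'.1)
        refine ⟨e'.2, mem_filter.2 ⟨mem_univ _, ?_⟩, he'.2⟩
        rw [hA', mem_filter]
        refine ⟨mem_univ _, ?_⟩
        unfold subdsEmb
        simp only
        rw [he'.2]
        exact hc
      · rintro ⟨c', hc', rfl⟩
        refine ⟨mem_univ _, ?_⟩
        rw [mem_filter, hA', mem_filter] at hc'
        exact hc'.2.2
    rw [h1]
    exact_mod_cast card_image_le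
  have hcol' : ∀ c, ζ * r ≤ ((univ.filter (fun i => (i, c) ∈ A')).card : ℝ) := by
    intro c
    have hc0 : g.symm (g (er c).1) ∉ K := by
      rw [Equiv.symm_apply_apply]
      exact (er c).2
    refine (mul_le_mul_of_nonneg_left hrk' hζ.le).trans ((hcol (g (er c).1) hc0).trans ?_)
    have h1 : (univ.filter (fun i => (i, g (er c).1) ∈ A)) =
        (univ.filter (fun i => (i, c) ∈ A')).image (fun i => (er i).1) := by
      ext i
      rw [mem_image, mem_filter]
      constructor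
      · rintro ⟨_, hi⟩
        obtain ⟨e', he'⟩ := subds_surj K g er _ (hA hi)
        unfold subdsEmb at he'
        rw [Prod.mk.injEq] at he'
        refine ⟨e'.1, mem_filter.2 ⟨mem_univ _, ?_⟩, he'.1⟩
        rw [hA', mem_filter]
        refine ⟨mem_univ _, ?_⟩
        unfold subdsEmb
        simp only
        rw [he'.1]
        exact hi
      · rintro ⟨i', hi', rfl⟩
        refine ⟨mem_univ _, ?_⟩
        rw [mem_filter, hA', mem_filter] at hi'
        exact hi'.2.2
    rw [h1]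
    exact_mod_cast card_image_le
  obtain ⟨X', hX0, hXr, hXc, hXA, hXb, hXt⟩ := dstoch (q := q) hr0 hq hT A' η ζ (4 * d) hη hη1 hζ hζ1
    (by positivity) hgood' hrow' hcol' δ hδ hd1 hδ1
  set X : Fin k → Fin k → ℝ := fun i c =>
    if h : i ∉ K ∧ g.symm c ∉ K then X' (er.symm ⟨i, h.1⟩) (er.symm ⟨g.symm c, h.2⟩) else 0 with hX
  have hXe : ∀ i c, X (er i).1 (g (er c).1) = X' i c := by
    intro i c
    have hc0 : g.symm (g (er c).1) ∉ K := by
      rw [Equiv.symm_apply_apply]
      exact (er c).2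
    rw [hX]
    simp only
    rw [dif_pos ⟨(er i).2, hc0⟩]
    simp
  have hXz : ∀ i c, (i ∈ K ∨ g.symm c ∈ K) → X i c = 0 := by
    intro i c h
    rw [hX]
    simp only
    rw [dif_neg]
    tauto
  have hcase : ∀ i c, X i c = 0 ∨ ∃ i' c', i = (er i').1 ∧ c = g (er c').1 := by
    intro i c
    by_cases h : i ∈ K ∨ g.symm c ∈ K
    · exact Or.inl (hXz i c h)
    · rw [not_or] at h
      refine Or.inr ⟨er.symm ⟨i, h.1⟩, er.symm ⟨g.symm c, h.2⟩, ?_, ?_⟩
      · simp
      · simp
  refine ⟨X, ?_, ?_, ?_, ?_, ?_, ?_⟩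
  · intro i c
    rcases hcase i c with h | ⟨i', c', rfl, rfl⟩
    · rw [h]
    · rw [hXe]; exact hX0 _ _
  · intro i hi
    obtain ⟨i', rfl⟩ : ∃ i', i = (er i').1 := ⟨er.symm ⟨i, hi⟩, by simp⟩
    rw [← Equiv.sum_comp g, subds_line K er (fun j => X (er i').1 (g j))]
    · simp only [hXe]
      exact hXr i'
    · intro j hj
      refine hXz _ _ (Or.inr ?_)
      rw [Equiv.symm_apply_apply]
      exact hj
  · intro c hc
    obtain ⟨c', rfl⟩ : ∃ c', c = g (er c').1 := ⟨er.symm ⟨g.symm c, hc⟩, by simp⟩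
    rw [subds_line K er (fun j => X j (g (er c').1))]
    · simp only [hXe]
      exact hXc c'
    · intro j hj
      exact hXz _ _ (Or.inl hj)
  · intro i c h
    rcases hcase i c with h' | ⟨i', c', rfl, rfl⟩
    · exact h'
    · rw [hXe]
      refine hXA i' c' fun hcon => h ?_
      rw [hA', mem_filter] at hcon
      exact hcon.2
  · intro i c
    have hCC : 0 ≤ 1 / η + 32 / (η * ζ ^ 2) := by positivity
    rcases hcase i c with h' | ⟨i', c', rfl, rfl⟩
    · rw [h']; positivity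
    · rw [hXe]
      refine (hXb i' c').trans ?_
      rw [div_le_div_iff₀ hr' hk']
      calc (1 / η + 32 / (η * ζ ^ 2)) * k ≤ (1 / η + 32 / (η * ζ ^ 2)) * (2 * r) :=
            mul_le_mul_of_nonneg_left hr2' hCC
        _ = 2 * (1 / η + 32 / (η * ζ ^ 2)) * r := by ring
  · intro t
    have h1 : ∑ e ∈ tyset t, X e.1 e.2 = ∑ e ∈ fboard K g 1 ∩ tyset t, X e.1 e.2 := by
      refine (sum_subset inter_subset_right fun e he hne => ?_).symm
      rcases hcase e.1 e.2 with h' | ⟨i', c', h2, h3⟩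
      · exact h'
      · refine absurd (mem_inter.2 ⟨?_, he⟩) hne
        have h4 : e = subdsEmb K g er (i', c') := Prod.ext h2 h3
        rw [h4]
        exact subds_mem K g er _
    have h2 : univ.filter (fun e' => subdsEmb K g er e' ∈ tyset t) =
        blk (fun i => t.1.1 (er i).1) (fun c => t.1.2 (g (er c).1)) t.2 := by
      ext e'
      unfold tyset blk
      rw [mem_filter, mem_filter, mem_filter]
      unfold subdsEmb
      simp only [mem_univ, true_and]
    have h3 := hXt (fun i => t.1.1 (er i).1) (fun c => t.1.2 (g (er c).1)) t.2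
    rw [← h2, subds_card] at h3
    rw [h1, ← subds_sum K g er (tyset t) (fun e => X e.1 e.2)]
    have h4 : ∑ e' ∈ univ.filter (fun e' => subdsEmb K g er e' ∈ tyset t),
        X (subdsEmb K g er e').1 (subdsEmb K g er e').2 =
        ∑ e' ∈ univ.filter (fun e' => subdsEmb K g er e' ∈ tyset t), X' e'.1 e'.2 :=
      sum_congr rfl fun e' _ => hXe e'.1 e'.2
    rw [h4, ← hrR]
    refine h3.trans ?_
    have h5 : (4 + 12 / ζ) * δ * r ≤ (4 + 12 / ζ) * δ * k :=
      mul_le_mul_of_nonneg_left hrk' (by positivity)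
    linarith

end Pool.Agent.MP_dc7d7b.LS
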