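import Pool.Agent.Lib.MP_dc7d7b_co.LS.Base

set_option autoImplicit false

/-!
# Module SubMom: the random completion and its moments

`wt K g X σ` is the weight of the permutation `σ`: zero unless `σ` agrees with `g` on `K`, and then the product of
`X i (σ i)` over the rows outside `K`.

PROOF.  `r = k - |K| ≥ k / 2 > 0`, `er : Fin r ≃ {i // i ∉ K}`, `ec : Fin r ≃ {c // g.symm c ∉ K}` as in SubDS,
`X' i' c' = X (er i') (ec c')`: doubly stochastic (`X i c = 0` for `i ∉ K`, `g.symm c ∈ K` by `hsupp`, so the row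
sums over the free colours are `1`; the same for columns), `X' ≤ M / k ≤ M / r`.
The permutations `σ` that agree with `g` on `K` correspond to the permutations `σ'` of `Fin r` by
`σ (er i') = ec (σ' i')` (a bijection; such a `σ` maps `Kᶜ` onto the colours with `g.symm c ∉ K`), with
`wt K g X σ = ∏ i', X' i' (σ' i')` and `comp K σ ρ W = #{i' | (er i', ρ (ec (σ' i'))) ∈ W}`.
`wt_pos`: `∑ σ, wt K g X σ = ∑ σ', ∏ X' ≥ exp (-r) > 0` by `perm_lower`.
`sub_mom`: `moment` (Moment.lean) for `X'`, `M`, `α`, `lam` and the predicate `(er i', ρ (ec j')) ∈ W`, with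
`r / (1 + α) ≤ k / (1 + α)`; and `∑ i', ∑ j', if ... then X' i' j' = ∑ e ∈ W, X e.1 (ρ.symm e.2)` (cells with
`i ∈ K` or blocked colour contribute `0` by `hsupp`).
-/

namespace Pool.Agent.MP_dc7d7b.LS

open Finset

/-- The weight of a permutation. -/
noncomputable def wt {k : ℕ} (K : Finset (Fin k)) (g : Equiv.Perm (Fin k)) (X : Fin k → Fin k → ℝ)
    (σ : Equiv.Perm (Fin k)) : ℝ :=
  if ∀ i ∈ K, σ i = g i then ∏ i ∈ Kᶜ, X i (σ i) else 0

/-- the permutation of the whole board given by a permutation of the free rows -/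
private def smP {k r : ℕ} (K : Finset (Fin k)) (g : Equiv.Perm (Fin k)) (er : Fin r ≃ {i : Fin k // i ∉ K})
    (s : Equiv.Perm (Fin r)) : Equiv.Perm (Fin k) :=
  (Equiv.Perm.ofSubtype (er.permCongr s) : Equiv.Perm (Fin k)).trans g

private theorem smP_er {k r : ℕ} (K : Finset (Fin k)) (g : Equiv.Perm (Fin k))
    (er : Fin r ≃ {i : Fin k // i ∉ K}) (s : Equiv.Perm (Fin r)) (i : Fin r) :
    smP K g er s (er i).1 = g (er (s i)).1 := by
  unfold smP
  rw [Equiv.trans_apply, Equiv.Perm.ofSubtype_apply_coe]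
  congr 2
  rw [Equiv.permCongr_apply, Equiv.symm_apply_apply]

private theorem smP_mem {k r : ℕ} (K : Finset (Fin k)) (g : Equiv.Perm (Fin k))
    (er : Fin r ≃ {i : Fin k // i ∉ K}) (s : Equiv.Perm (Fin r)) (i : Fin k) (hi : i ∈ K) :
    smP K g er s i = g i := by
  unfold smP
  rw [Equiv.trans_apply, Equiv.Perm.ofSubtype_apply_of_not_mem]
  exact not_not.2 hi

private theorem smP_inj {k r : ℕ} (K : Finset (Fin k)) (g : Equiv.Perm (Fin k))
    (er : Fin r ≃ {i : Fin k // i ∉ K}) : Function.Injective (smP K g er) := by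
  intro s t h
  ext i
  have h1 := smP_er K g er s i
  rw [h, smP_er] at h1
  have h2 := er.injective (Subtype.ext (g.injective h1))
  rw [h2]

private theorem smP_surj {k r : ℕ} (K : Finset (Fin k)) (g : Equiv.Perm (Fin k))
    (er : Fin r ≃ {i : Fin k // i ∉ K}) (σ : Equiv.Perm (Fin k)) (hσ : ∀ i ∈ K, σ i = g i) :
    ∃ s, smP K g er s = σ := by
  let τ : Equiv.Perm (Fin k) := σ.trans g.symm
  have hτ : ∀ i ∈ K, τ i = i := by
    intro i hi
    show g.symm (σ i) = i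
    rw [hσ i hi, Equiv.symm_apply_apply]
  have hτ2 : ∀ x, τ x ∉ K ↔ x ∉ K := by
    intro x
    constructor
    · intro h hx
      rw [hτ x hx] at h
      exact h hx
    · intro h hx
      have h1 := hτ (τ x) hx
      rw [τ.injective h1] at hx
      exact h hx
  refine ⟨er.symm.permCongr (τ.subtypePerm hτ2), ?_⟩
  ext i
  by_cases hi : i ∈ K
  · rw [smP_mem K g er _ i hi, hσ i hi]
  · obtain ⟨i', hi'⟩ : ∃ i', er i' = ⟨i, hi⟩ := ⟨er.symm ⟨i, hi⟩, er.apply_symm_apply _⟩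
    have h1 : i = (er i').1 := by rw [hi']
    rw [h1, smP_er]
    have h2 : er (er.symm.permCongr (τ.subtypePerm hτ2) i') = τ.subtypePerm hτ2 (er i') := by
      rw [Equiv.permCongr_apply, Equiv.symm_symm, Equiv.apply_symm_apply]
    rw [h2]
    show ((g (τ (er i').1)) : ℕ) = _
    show ((g (g.symm (σ (er i').1))) : ℕ) = _
    rw [Equiv.apply_symm_apply]

private theorem smP_sum {k r : ℕ} (K : Finset (Fin k)) (g : Equiv.Perm (Fin k))
    (er : Fin r ≃ {i : Fin k // i ∉ K}) (F : Equiv.Perm (Fin k) → ℝ)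
    (hF : ∀ σ : Equiv.Perm (Fin k), ¬ (∀ i ∈ K, σ i = g i) → F σ = 0) :
    ∑ σ, F σ = ∑ s, F (smP K g er s) := by
  symm
  refine Finset.sum_of_injOn (smP K g er) (smP_inj K g er).injOn (fun _ _ => mem_coe.2 (mem_univ _))
    (fun σ _ hσ => hF σ fun h => hσ ?_) (fun _ _ => rfl)
  obtain ⟨s, hs⟩ := smP_surj K g er σ h
  exact ⟨s, mem_coe.2 (mem_univ _), hs⟩

private theorem sm_wt {k r : ℕ} (K : Finset (Fin k)) (g : Equiv.Perm (Fin k))
    (er : Fin r ≃ {i : Fin k // i ∉ K}) (X : Fin k → Fin k → ℝ) (s : Equiv.Perm (Fin r)) :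
    wt K g X (smP K g er s) = ∏ i, X (er i).1 (g (er (s i)).1) := by
  unfold wt
  rw [if_pos (fun i hi => smP_mem K g er s i hi)]
  have h1 : Kᶜ = (univ : Finset (Fin r)).image (fun i => (er i).1) := by
    ext i
    rw [mem_compl, mem_image]
    constructor
    · intro hi
      exact ⟨er.symm ⟨i, hi⟩, mem_univ _, by simp⟩
    · rintro ⟨i', _, rfl⟩
      exact (er i').2
  rw [h1, prod_image]
  · refine prod_congr rfl fun i _ => ?_
    rw [smP_er]
  · intro a _ b _ h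
    exact er.injective (Subtype.ext h)

private theorem sm_comp {k r : ℕ} (K : Finset (Fin k)) (g : Equiv.Perm (Fin k))
    (er : Fin r ≃ {i : Fin k // i ∉ K}) (s : Equiv.Perm (Fin r)) (ρ : Equiv.Perm (Fin k))
    (W : Finset (Fin k × Fin k)) :
    comp K (smP K g er s) ρ W = (univ.filter (fun i => ((er i).1, ρ (g (er (s i)).1)) ∈ W)).card := by
  unfold comp
  have h1 : univ.filter (fun i => i ∉ K ∧ (i, ρ (smP K g er s i)) ∈ W) =
      (univ.filter (fun i => ((er i).1, ρ (g (er (s i)).1)) ∈ W)).image (fun i => (er i).1) := by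
    ext i
    rw [mem_filter, mem_image]
    constructor
    · rintro ⟨_, hi, hW⟩
      obtain ⟨i', hi'⟩ : ∃ i', er i' = ⟨i, hi⟩ := ⟨er.symm ⟨i, hi⟩, er.apply_symm_apply _⟩
      have h2 : i = (er i').1 := by rw [hi']
      refine ⟨i', mem_filter.2 ⟨mem_univ _, ?_⟩, h2.symm⟩
      rw [h2, smP_er] at hW
      exact hW
    · rintro ⟨i', hi', rfl⟩
      refine ⟨mem_univ _, (er i').2, ?_⟩
      rw [smP_er]
      exact (mem_filter.1 hi').2
  rw [h1, card_image_of_injective]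
  intro a b h
  exact er.injective (Subtype.ext h)

private theorem sm_line {k r : ℕ} (K : Finset (Fin k)) (er : Fin r ≃ {i : Fin k // i ∉ K}) (F : Fin k → ℝ)
    (hF : ∀ j ∈ K, F j = 0) : ∑ j, F j = ∑ c' : Fin r, F (er c').1 := by
  rw [Equiv.sum_comp er (fun x : {i : Fin k // i ∉ K} => F x.1)]
  rw [← Finset.sum_subtype (univ.filter (fun i => i ∉ K)) (by intro x; simp) F]
  rw [sum_filter]
  refine sum_congr rfl fun j _ => ?_
  by_cases hj : j ∈ K
  · rw [if_neg (not_not.2 hj), hF j hj]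
  · rw [if_pos hj]

private theorem sm_er {k : ℕ} (hk : 0 < k) (K : Finset (Fin k)) (hK : 2 * K.card ≤ k) :
    ∃ r : ℕ, 0 < r ∧ r ≤ k ∧ Nonempty (Fin r ≃ {i : Fin k // i ∉ K}) := by
  have hcard : Fintype.card {i : Fin k // i ∉ K} = k - K.card := by
    rw [Fintype.card_subtype_compl (fun i => i ∈ K), Fintype.card_fin, Fintype.card_coe]
  exact ⟨k - K.card, by omega, by omega, ⟨(Fintype.equivFinOfCardEq hcard).symm⟩⟩

private theorem sm_fb {k : ℕ} (K : Finset (Fin k)) (g : Equiv.Perm (Fin k)) (i c : Fin k)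
    (h : i ∈ K ∨ g.symm c ∈ K) : (i, c) ∉ fboard K g 1 := by
  unfold fboard
  rw [mem_filter]
  rintro ⟨_, h1, h2⟩
  rcases h with h | h
  · exact h1 h
  · exact h2 h

private theorem sm_ds {k r : ℕ} (K : Finset (Fin k)) (g : Equiv.Perm (Fin k))
    (er : Fin r ≃ {i : Fin k // i ∉ K}) (X : Fin k → Fin k → ℝ) (hr : ∀ i, i ∉ K → ∑ c, X i c = 1)
    (hc : ∀ c, g.symm c ∉ K → ∑ i, X i c = 1) (hsupp : ∀ i c, (i, c) ∉ fboard K g 1 → X i c = 0) :
    (∀ i : Fin r, ∑ j : Fin r, X (er i).1 (g (er j).1) = 1) ∧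
      (∀ j : Fin r, ∑ i : Fin r, X (er i).1 (g (er j).1) = 1) := by
  constructor
  · intro i
    rw [← hr (er i).1 (er i).2, ← Equiv.sum_comp g, sm_line K er (fun j => X (er i).1 (g j))]
    intro j hj
    refine hsupp _ _ (sm_fb K g _ _ (Or.inr ?_))
    rw [Equiv.symm_apply_apply]
    exact hj
  · intro j
    have h1 : g.symm (g (er j).1) ∉ K := by
      rw [Equiv.symm_apply_apply]
      exact (er j).2
    rw [← hc (g (er j).1) h1, sm_line K er (fun i => X i (g (er j).1))]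
    intro i hi
    exact hsupp _ _ (sm_fb K g _ _ (Or.inl hi))

theorem wt_pos {k : ℕ} (hk : 0 < k) (K : Finset (Fin k)) (g : Equiv.Perm (Fin k)) (hK : 2 * K.card ≤ k)
    (X : Fin k → Fin k → ℝ) (h0 : ∀ i c, 0 ≤ X i c) (hr : ∀ i, i ∉ K → ∑ c, X i c = 1)
    (hc : ∀ c, g.symm c ∉ K → ∑ i, X i c = 1) (hsupp : ∀ i c, (i, c) ∉ fboard K g 1 → X i c = 0) :
    0 < ∑ σ, wt K g X σ := by
  obtain ⟨r, hr0, hrk, ⟨er⟩⟩ := sm_er hk K hK
  obtain ⟨h1, h2⟩ := sm_ds K g er X hr hc hsupp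
  rw [smP_sum K g er (fun σ => wt K g X σ) (fun σ hσ => if_neg hσ)]
  simp only [sm_wt]
  exact (Real.exp_pos _).trans_le
    (perm_lower (fun i j : Fin r => X (er i).1 (g (er j).1)) (fun _ _ => h0 _ _) h1 h2)

theorem sub_mom {k : ℕ} (hk : 0 < k) (K : Finset (Fin k)) (g : Equiv.Perm (Fin k)) (hK : 2 * K.card ≤ k)
    (X : Fin k → Fin k → ℝ) (h0 : ∀ i c, 0 ≤ X i c) (hr : ∀ i, i ∉ K → ∑ c, X i c = 1)
    (hc : ∀ c, g.symm c ∉ K → ∑ i, X i c = 1) (hsupp : ∀ i c, (i, c) ∉ fboard K g 1 → X i c = 0)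
    (M : ℝ) (hM : 0 < M) (hXM : ∀ i c, X i c ≤ M / k) (α lam : ℝ) (hα : 0 < α) (hl0 : 0 ≤ lam) (hl1 : lam ≤ 1)
    (ρ : Equiv.Perm (Fin k)) (W : Finset (Fin k × Fin k)) :
    ∑ σ, wt K g X σ * Real.exp (lam * comp K σ ρ W) ≤
      (∑ σ, wt K g X σ) * Real.exp (k / (1 + α) + α * Real.exp 1 * M +
        (Real.exp lam - 1) * ∑ e ∈ W, X e.1 (ρ.symm e.2)) := by
  classical
  obtain ⟨r, hr0, hrk, ⟨er⟩⟩ := sm_er hk K hK
  obtain ⟨h1, h2⟩ := sm_ds K g er X hr hc hsupp
  have hk' : (0 : ℝ) < k := by exact_mod_cast hk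
  have hr0' : (0 : ℝ) < r := by exact_mod_cast hr0
  have hrk' : (r : ℝ) ≤ k := by exact_mod_cast hrk
  rw [smP_sum K g er (fun σ => wt K g X σ) (fun σ hσ => if_neg hσ),
    smP_sum K g er (fun σ => wt K g X σ * Real.exp (lam * comp K σ ρ W))
      (fun σ hσ => by
        show wt K g X σ * _ = 0
        unfold wt
        rw [if_neg hσ, zero_mul])]
  obtain ⟨V, hV⟩ : ∃ V : Fin r → Fin r → Prop, ∀ i j, V i j ↔ ((er i).1, ρ (g (er j).1)) ∈ W :=
    ⟨_, fun _ _ => Iff.rfl⟩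
  have hcomp : ∀ s : Equiv.Perm (Fin r),
      comp K (smP K g er s) ρ W = (univ.filter (fun i => V i (s i))).card := by
    intro s
    rw [sm_comp]
    have h9 : univ.filter (fun i => ((er i).1, ρ (g (er (s i)).1)) ∈ W) =
        univ.filter (fun i => V i (s i)) := by
      ext i
      rw [mem_filter, mem_filter, hV]
    rw [h9]
  simp only [sm_wt, hcomp]
  have h3 := moment hr0 (fun i j : Fin r => X (er i).1 (g (er j).1)) (fun _ _ => h0 _ _) h1 h2 M hM
    (fun i j => (hXM _ _).trans (div_le_div_of_nonneg_left hM.le hr0' hrk')) α hα lam hl0 hl1 V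
  refine h3.trans ?_
  refine mul_le_mul_of_nonneg_left (Real.exp_le_exp.2 ?_)
    (sum_nonneg fun s _ => prod_nonneg fun i _ => h0 _ _)
  have h4 : (r : ℝ) / (1 + α) ≤ k / (1 + α) := div_le_div_of_nonneg_right hrk' (by linarith)
  have h5 : 0 ≤ Real.exp lam - 1 := by
    have := Real.one_le_exp hl0
    linarith
  have h6 : ∑ i : Fin r, ∑ j : Fin r,
      (if V i j then X (er i).1 (g (er j).1) else 0) ≤
        ∑ e ∈ W, X e.1 (ρ.symm e.2) := by
    rw [← Finset.sum_product', ← Finset.sum_filter]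
    have h7 : ∑ e' ∈ (univ ×ˢ univ : Finset (Fin r × Fin r)).filter
        (fun e' => V e'.1 e'.2), X (er e'.1).1 (g (er e'.2).1) =
        ∑ e ∈ ((univ ×ˢ univ : Finset (Fin r × Fin r)).filter
          (fun e' => V e'.1 e'.2)).image
            (fun e' => ((er e'.1).1, ρ (g (er e'.2).1))), X e.1 (ρ.symm e.2) := by
      rw [sum_image]
      · refine sum_congr rfl fun e' _ => ?_
        simp
      · rintro ⟨a, b⟩ _ ⟨c, d⟩ _ h
        simp only [Prod.mk.injEq, EmbeddingLike.apply_eq_iff_eq] at h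
        rw [er.injective (Subtype.ext h.1), er.injective (Subtype.ext h.2)]
    refine h7.le.trans (sum_le_sum_of_subset_of_nonneg ?_ fun _ _ _ => h0 _ _)
    intro e he
    rw [mem_image] at he
    obtain ⟨e', he', rfl⟩ := he
    exact (hV _ _).1 (mem_filter.1 he').2
  have h8 := mul_le_mul_of_nonneg_left h6 h5
  linarith

end Pool.Agent.MP_dc7d7b.LS
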