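import Pool.Agent.Lib.MP_dc7d7b_co.LS.StepBox
import Pool.Agent.Lib.MP_dc7d7b_co.LS.SubDS
import Pool.Agent.Lib.MP_dc7d7b_co.LS.SubMom
import Pool.Agent.Lib.MP_dc7d7b_co.LS.GreedyAbs

set_option autoImplicit false

/-!
# Module Step: the greedy procedure on top of the kept cells

PROOF.  `greedy_abs` with `p w = q (c w + 1)`, `h u w σ W = comp (K u) σ (π u w) W`, `bud = budg π K g c M (ξ / lam) e₁`,
`Rel u v σ τ = ∀ i, π u v (σ i) ≠ τ i` (symmetric by `hπ`), and
`Cn w σ = (∀ i ∈ K w, σ i = g w i) ∧ ∀ v, G.Adj v w → ∀ i ∈ K v, σ i ≠ π v w (g v i)`.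

`step` for `(u, S, f)`: let `A = fboard (K u) (g u) 1 \ blw u S f`, `n = c u`.
* `S.filter (G.Adj u ·) ⊆ nbp u`: clear if `u ∉ V0`; if `u ∈ V0` then every `x ∈ S` is in `V0`, otherwise `c x < c u`
  by `hcV0`, but `c u ≤ c x` by the order hypothesis.
* `A` is good: `step_box` with `L = log (...) / lam`, `e₂ = ξ / lam`, `dd = dd n`, `p = q (n + 1) = q n ^ T + 1`, and
  the last term of `step_box` vanishes if `tyset t ⊆ fboard`.
* rows and columns: `avail_row`, `avail_col` with `hrow`, `hcol` (`hS2` from `Cn`).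
* `sub_ds` (with `q = q n`) gives `X`, and `P = wt (K u) (g u) X`.  `wt_pos`, `sub_mom` apply (`A ⊆ fboard`).
* support: `wt σ > 0` means `σ = g u` on `K u` and `(i, σ i) ∈ A` for `i ∉ K u`.
* moments: as in `moment_budget` (GreedyMain.lean).
-/

namespace Pool.Agent.MP_dc7d7b.LS

open Finset

private theorem card_fboard_comp {k p : ℕ} (K : Finset (Fin k)) (g ρ : Equiv.Perm (Fin k)) (a b : Fin k → Fin p)
    (B : Finset (Fin p × Fin p)) :
    (fboard K g 1 ∩ blk a (fun j => b (ρ j)) B).card = (fboard K g ρ ∩ blk a b B).card := by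
  refine Finset.card_bij (fun e _ => (e.1, ρ e.2)) ?_ ?_ ?_
  · intro e he
    unfold fboard blk at he ⊢
    rw [Finset.mem_inter, Finset.mem_filter, Finset.mem_filter] at he ⊢
    refine ⟨⟨Finset.mem_univ _, he.1.2.1, ?_⟩, Finset.mem_univ _, he.2.2⟩
    have h1 : g.symm e.2 ∉ K := he.1.2.2
    show g.symm (ρ.symm (ρ e.2)) ∉ K
    rw [Equiv.symm_apply_apply]
    exact h1
  · intro e _ e' _ h
    rw [Prod.mk.injEq] at h
    exact Prod.ext h.1 (ρ.injective h.2)
  · intro e he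
    refine ⟨(e.1, ρ.symm e.2), ?_, by simp⟩
    unfold fboard blk at he ⊢
    rw [Finset.mem_inter, Finset.mem_filter, Finset.mem_filter] at he ⊢
    refine ⟨⟨Finset.mem_univ _, he.1.2.1, ?_⟩, Finset.mem_univ _, ?_⟩
    · exact he.1.2.2
    · have h1 := he.2.2
      simpa using h1

private theorem step_mom {V : Type*} {k : ℕ} (hk : 0 < k) (π : V → V → Equiv.Perm (Fin k))
    (K : V → Finset (Fin k)) (g : V → Equiv.Perm (Fin k)) (hK : ∀ u, 2 * (K u).card ≤ k) (c : V → ℕ) (q : ℕ → ℕ)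
    (hqm : Monotone q) (M lam α ξ δ : ℝ) (e₁ : ℕ → ℝ) (hM : 0 < M) (hlam : 0 < lam) (hlam1 : lam ≤ 1) (hα : 0 < α)
    (hξ : k / (1 + α) + α * Real.exp 1 * M ≤ ξ * k) (u w : V)
    (X : Fin k → Fin k → ℝ) (h0 : ∀ i j, 0 ≤ X i j) (hr : ∀ i, i ∉ K u → ∑ j, X i j = 1)
    (hcol : ∀ j, (g u).symm j ∉ K u → ∑ i, X i j = 1) (hsupp : ∀ i c, (i, c) ∉ fboard (K u) (g u) 1 → X i c = 0)
    (hXM : ∀ i j, X i j ≤ M / k) (hcuw : c w ≤ c u)
    (hXb : ∀ t : Ty k (q (c u)), ∑ e ∈ tyset t, X e.1 e.2 ≤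
      ((fboard (K u) (g u) 1 ∩ tyset t).card : ℝ) / ((k : ℝ) - (K u).card) + δ * k)
    (he₁ : c w < c u → δ + lam + ξ / lam ≤ e₁ (c w)) (t : Ty k (q (c w + 1))) :
    ∑ σ, wt (K u) (g u) X σ * Real.exp (lam * (comp (K u) σ (π u w) (tyset t) : ℝ)) ≤
      (∑ σ, wt (K u) (g u) X σ) * Real.exp (lam * budg π K g c M (ξ / lam) e₁ u w (tyset t)) := by
  have hk' : (0 : ℝ) < k := by exact_mod_cast hk
  refine (sub_mom hk (K u) (g u) (hK u) X h0 hr hcol hsupp M hM hXM α lam hα hlam.le hlam1 (π u w)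
    (tyset t)).trans ?_
  refine mul_le_mul_of_nonneg_left ?_ (wt_pos hk (K u) (g u) (hK u) X h0 hr hcol hsupp).le
  rw [Real.exp_le_exp]
  have hexp : Real.exp lam - 1 ≤ lam + lam ^ 2 := exp_sub_one_le hlam.le hlam1
  have hXW0 : 0 ≤ ∑ e ∈ tyset t, X e.1 ((π u w).symm e.2) := Finset.sum_nonneg (fun e _ => h0 _ _)
  unfold budg
  split_ifs with hcc
  · have h1 : ∑ e ∈ tyset t, X e.1 ((π u w).symm e.2) ≤ (tyset t).card * (M / k) := by
      calc ∑ e ∈ tyset t, X e.1 ((π u w).symm e.2) ≤ ∑ _e ∈ tyset t, M / k := Finset.sum_le_sum (fun e _ => hXM _ _)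
        _ = _ := by rw [Finset.sum_const, nsmul_eq_mul]
    have h2 : Real.exp lam - 1 ≤ 2 * lam := by nlinarith
    have h3 : (Real.exp lam - 1) * ∑ e ∈ tyset t, X e.1 ((π u w).symm e.2) ≤
        2 * lam * ((tyset t).card * (M / k)) := mul_le_mul h2 h1 hXW0 (by positivity)
    have h4 : lam * (2 * M * ((tyset t).card : ℝ) / k + ξ / lam * k) =
        2 * lam * ((tyset t).card * (M / k)) + ξ * k := by
      field_simp
    rw [h4]
    linarith
  · have hlt : c w < c u := lt_of_le_of_ne hcuw (fun h => hcc h.symm)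
    have h1 : ∑ e ∈ tyset t, X e.1 ((π u w).symm e.2) =
        ∑ e ∈ blk t.1.1 (fun j => t.1.2 (π u w j)) t.2, X e.1 e.2 := by
      unfold tyset
      exact sum_blk_comp X _ _ _ (π u w)
    have hqq : q (c w + 1) ≤ q (c u) := hqm hlt
    obtain ⟨a', b', B', hB'⟩ := blk_mono hqq t.1.1 (fun j => t.1.2 (π u w j)) t.2
    have h2 : ∑ e ∈ tyset t, X e.1 ((π u w).symm e.2) ≤
        ((fboard (K u) (g u) (π u w) ∩ tyset t).card : ℝ) / ((k : ℝ) - (K u).card) + δ * k := by
      rw [h1, hB']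
      have h3 := hXb ((a', b'), B')
      unfold tyset at h3
      simp only at h3
      refine h3.trans (le_of_eq ?_)
      rw [← hB', card_fboard_comp]
      rfl
    have h3 : ∑ e ∈ tyset t, X e.1 ((π u w).symm e.2) ≤ k := by
      rw [h1]
      calc ∑ e ∈ blk t.1.1 (fun j => t.1.2 (π u w j)) t.2, X e.1 e.2 ≤ ∑ e : Fin k × Fin k, X e.1 e.2 :=
            Finset.sum_le_sum_of_subset_of_nonneg (Finset.subset_univ _) (fun e _ _ => h0 _ _)
        _ = ∑ i, ∑ j, X i j := by rw [Fintype.sum_prod_type]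
        _ ≤ ∑ _i : Fin k, (1 : ℝ) := by
            refine Finset.sum_le_sum ?_
            intro i _
            by_cases hi : i ∈ K u
            · have h4 : ∑ j, X i j = 0 := by
                refine Finset.sum_eq_zero ?_
                intro j _
                refine hsupp i j ?_
                unfold fboard
                rw [Finset.mem_filter]
                rintro ⟨_, h5, _⟩
                exact h5 hi
              rw [h4]
              exact zero_le_one
            · rw [hr i hi]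
        _ = k := by simp
    have h4 := he₁ hlt
    have h5 : (Real.exp lam - 1) * ∑ e ∈ tyset t, X e.1 ((π u w).symm e.2) ≤
        (lam + lam ^ 2) * ∑ e ∈ tyset t, X e.1 ((π u w).symm e.2) := mul_le_mul_of_nonneg_right hexp hXW0
    set Z := ((fboard (K u) (g u) (π u w) ∩ tyset t).card : ℝ) / ((k : ℝ) - (K u).card) with hZ
    have h6 : (lam + lam ^ 2) * ∑ e ∈ tyset t, X e.1 ((π u w).symm e.2) ≤
        lam * (Z + δ * k) + lam ^ 2 * k := by
      have h7 := mul_le_mul_of_nonneg_left h2 hlam.le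
      have h8 := mul_le_mul_of_nonneg_left h3 (sq_nonneg lam)
      linarith
    have h7 : lam * (Z + (δ + lam + ξ / lam) * k) =
        lam * (Z + δ * k) + lam ^ 2 * k + ξ * k := by
      field_simp
      ring
    have h8 : lam * (Z + (δ + lam + ξ / lam) * k) ≤
        lam * (Z + e₁ (c w) * k) := by
      refine mul_le_mul_of_nonneg_left ?_ hlam.le
      have := mul_le_mul_of_nonneg_right h4 hk'.le
      linarith
    linarith

theorem greedy2 {V : Type*} [Fintype V] [DecidableEq V] {k : ℕ} (hk : 0 < k) (G : SimpleGraph V)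
    [DecidableRel G.Adj] (V0 : Finset V) (π : V → V → Equiv.Perm (Fin k)) (hπ : ∀ u v, π v u = (π u v).symm)
    (K : V → Finset (Fin k)) (g : V → Equiv.Perm (Fin k)) (hK0 : ∀ u, u ∉ V0 → K u = ∅)
    (hK : ∀ u, 2 * (K u).card ≤ k)
    (hfree : ∀ u v, G.Adj u v → ∀ i, i ∈ K u → i ∈ K v → π u v (g u i) ≠ g v i)
    (m Δ n₁ T : ℕ) (hm : 0 < m) (hΔ : 1 ≤ Δ) (hT : 0 < T)
    (hdeg : ∀ v, (univ.filter (fun w => G.Adj v w)).card ≤ Δ)
    (q : ℕ → ℕ) (hq : ∀ n, 2 ≤ q n) (hqm : Monotone q) (hqs : ∀ n, q (n + 1) = q n ^ T + 1)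
    (c : V → ℕ) (hc : ∀ v, c v < n₁) (hcV0 : ∀ u v, u ∈ V0 → v ∉ V0 → c v < c u)
    (hsame : ∀ v, m * (univ.filter (fun w => G.Adj v w ∧ c w = c v)).card ≤ Δ)
    (M lam α ξ η ζ d : ℝ) (dd δ e₁ : ℕ → ℝ) (hη : 0 < η) (hη1 : η ≤ 1) (hζ : 0 < ζ) (hζ1 : ζ ≤ 1)
    (hMdef : M = 2 * (1 / η + 32 / (η * ζ ^ 2))) (hlam : 0 < lam) (hlam1 : lam ≤ 1) (hα : 0 < α)
    (hξ0 : 0 ≤ ξ) (he₁0 : ∀ n, 0 ≤ e₁ n) (hdd0 : ∀ n, 0 ≤ dd n)
    (hξ : k / (1 + α) + α * Real.exp 1 * M ≤ ξ * k)
    (hδ : ∀ n, δ n = 4 * dd n / η + 2 * (1 / η + 1) / Real.sqrt T)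
    (hdd1 : ∀ n, 4 * dd n ≤ η * ζ ^ 2 / 32) (hδ1 : ∀ n, 15 * δ n ≤ ζ)
    (hMΔ : 2 * M * Δ ≤ η * m * k)
    (he₁ : ∀ n n', n' < n → n < n₁ → (4 + 12 / ζ) * δ n + lam + ξ / lam ≤ e₁ n')
    (hdd : ∀ n < n₁, Real.log ((Δ : ℝ) ^ Δ * Fintype.card (Ty k (q (n + 1)))) / lam +
      Δ * ((e₁ n + ξ / lam) * k) + d * (k : ℝ) ^ 2 ≤ dd n * (k : ℝ) ^ 2)
    (hrow : ∀ w i, i ∉ K w → ((nbp G V0 w).card : ℝ) + ζ * k ≤ (k : ℝ) - (K w).card + sav G V0 π K g w (rowl i))
    (hcol : ∀ w c, (g w).symm c ∉ K w →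
      ((nbp G V0 w).card : ℝ) + ζ * k ≤ (k : ℝ) - (K w).card + sav G V0 π K g w (coll c))
    (hbox : ∀ w, ∀ t : Ty k (q n₁), ∑ u ∈ nbp G V0 w, zz (K u) (g u) (π u w) (tyset t) -
      sav G V0 π K g w (tyset t) ≤ (1 - 2 * η) * (tyset t).card + d * (k : ℝ) ^ 2) :
    ∃ f : V → Equiv.Perm (Fin k), ∀ u v, G.Adj u v → ∀ i, π u v (f u i) ≠ f v i := by
  have hk' : (0 : ℝ) < k := by exact_mod_cast hk
  have hM : 0 < M := by rw [hMdef]; positivity
  have hnb : ∀ {u v : V}, G.Adj v u → v ∈ V0 → v ∈ nb0 G V0 u := by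
    intro u v h1 h2
    unfold nb0
    rw [Finset.mem_filter]
    exact ⟨h2, h1.symm⟩
  have hKV0 : ∀ {v : V} {i : Fin k}, i ∈ K v → v ∈ V0 := by
    intro v i hi
    by_contra h
    rw [hK0 v h] at hi
    exact absurd hi (Finset.notMem_empty _)
  obtain ⟨f, _, hf⟩ := greedy_abs G Δ hΔ hdeg c (fun w => q (c w + 1))
    (fun w => by have := hq (c w + 1); omega)
    (fun u w σ W => (comp (K u) σ (π u w) W : ℝ)) (budg π K g c M (ξ / lam) e₁) lam
    (fun u v σ τ => ∀ i, π u v (σ i) ≠ τ i) (by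
      intro u v σ τ h i h2
      refine h i ?_
      rw [← h2, hπ u v]
      simp)
    (fun w σ => (∀ i ∈ K w, σ i = g w i) ∧ ∀ v, G.Adj v w → ∀ i ∈ K v, σ i ≠ π v w (g v i)) (by
      intro u S f huS hord humax hCn hpot
      have hS : S.filter (fun x => G.Adj u x) ⊆ nbp G V0 u := by
        intro x hx
        rw [Finset.mem_filter] at hx
        unfold nbp
        split_ifs with hu
        · refine hnb hx.2.symm ?_
          by_contra h
          have h1 := hcV0 u x hu h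
          have h2 := hord x hx.1 u huS
          omega
        · exact Finset.mem_filter.mpr ⟨Finset.mem_univ _, hx.2⟩
      have hS2 : ∀ x ∈ S, ∀ i ∈ K x, f x i = g x i := fun x hx => (hCn x hx).1
      set A : Finset (Fin k × Fin k) := fboard (K u) (g u) 1 \ blw G V0 π K g u S f with hA
      have hAf : A ⊆ fboard (K u) (g u) 1 := Finset.sdiff_subset
      have hpot' : ∀ t : Ty k (q (c u + 1)), ∑ x ∈ S.filter (fun x => G.Adj u x),
          ((comp (K x) (f x) (π x u) (tyset t) : ℝ) - budg π K g c M (ξ / lam) e₁ x u (tyset t)) ≤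
          Real.log ((Δ : ℝ) ^ Δ * Fintype.card (Ty k (q (c u + 1)))) / lam := by
        intro t
        rw [le_div_iff₀ hlam]
        have := hpot t
        linarith
      have hbox' : ∀ t : Ty k (q (c u + 1)), ∑ x ∈ nbp G V0 u, zz (K x) (g x) (π x u) (tyset t) -
          sav G V0 π K g u (tyset t) ≤ (1 - 2 * η) * (tyset t).card + d * (k : ℝ) ^ 2 := by
        intro t
        have h1 : q (c u + 1) ≤ q n₁ := hqm (hc u)
        obtain ⟨a', b', B', hB'⟩ := blk_mono h1 t.1.1 t.1.2 t.2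
        have h2 := hbox u ((a', b'), B')
        have h3 : tyset ((((a', b'), B') : Ty k (q n₁))) = tyset t := hB'.symm
        rw [h3] at h2
        exact h2
      have hgood : ∀ t : Ty k (q (c u) ^ T + 1), tyset t ⊆ fboard (K u) (g u) 1 →
          η * (tyset t).card - dd (c u) * (k : ℝ) ^ 2 ≤ ((A ∩ tyset t).card : ℝ) := by
        rw [← hqs]
        intro t ht
        have h1 := step_box G V0 π K g hk hK hm c M (ξ / lam) η d (dd (c u))
          (Real.log ((Δ : ℝ) ^ Δ * Fintype.card (Ty k (q (c u + 1)))) / lam) e₁ hM.le (by positivity) he₁0 hdeg hsame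
          u S f hS hpot' hbox' hMΔ (hdd (c u) (hc u)) t
        have h2 : (tyset t \ fboard (K u) (g u) 1).card = 0 := by
          rw [Finset.card_eq_zero, Finset.sdiff_eq_empty_iff_subset]
          exact ht
        rw [h2, Nat.cast_zero, add_zero] at h1
        exact h1
      obtain ⟨X, hX0, hXr, hXc, hXA, hXM, hXb⟩ := sub_ds hk (hq (c u)) hT (K u) (g u) (hK u) A hAf η ζ (dd (c u))
        hη hη1 hζ hζ1 (hdd0 _) hgood
        (fun i hi => avail_row G V0 π K g u S f hS hS2 ζ i hi (hrow u i hi))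
        (fun j hj => avail_col G V0 π K g u S f hS hS2 ζ j hj (hcol u j hj))
        (δ (c u)) (hδ (c u)) (hdd1 (c u)) (hδ1 (c u))
      rw [← hMdef] at hXM
      have hsupp : ∀ i j, (i, j) ∉ fboard (K u) (g u) 1 → X i j = 0 := fun i j h => hXA i j (fun h2 => h (hAf h2))
      refine ⟨wt (K u) (g u) X, ?_, wt_pos hk (K u) (g u) (hK u) X hX0 hXr hXc hsupp, ?_, ?_⟩
      · intro σ
        unfold wt
        split_ifs
        · exact Finset.prod_nonneg (fun i _ => hX0 _ _)
        · exact le_rfl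
      · intro σ hσ
        have hσ1 : ∀ i ∈ K u, σ i = g u i := by
          by_contra h
          unfold wt at hσ
          rw [if_neg h] at hσ
          exact lt_irrefl _ hσ
        have hσ2 : ∀ i, i ∉ K u → (i, σ i) ∉ blw G V0 π K g u S f := by
          intro i hi h
          have h1 : X i (σ i) = 0 := by
            refine hXA _ _ ?_
            rw [hA, Finset.mem_sdiff]
            rintro ⟨_, h2⟩
            exact h2 h
          unfold wt at hσ
          rw [if_pos hσ1, Finset.prod_eq_zero (Finset.mem_compl.mpr hi) h1] at hσ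
          exact lt_irrefl _ hσ
        have hCu : ∀ v, G.Adj v u → ∀ i ∈ K v, σ i ≠ π v u (g v i) := by
          intro v hv i hi h
          by_cases hiu : i ∈ K u
          · rw [hσ1 i hiu] at h
            exact hfree v u hv i hi hiu h.symm
          · refine hσ2 i hiu ?_
            unfold blw
            rw [Finset.mem_union]
            left
            rw [Finset.mem_biUnion]
            exact ⟨v, hnb hv (hKV0 hi), mem_cells.mpr ⟨hi, h.symm⟩⟩
        refine ⟨⟨hσ1, hCu⟩, ?_⟩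
        intro x hx hux i h
        by_cases hiu : i ∈ K u
        · -- the cell of `u` is kept
          have h1 := (hCn x hx).2 u hux i hiu
          refine h1 ?_
          rw [← hσ1 i hiu, ← h, hπ x u]
          simp
        · by_cases hix : i ∈ K x
          · rw [hS2 x hx i hix] at h
            exact hCu x hux.symm i hix h.symm
          · refine hσ2 i hiu ?_
            unfold blw
            rw [Finset.mem_union]
            right
            rw [Finset.mem_biUnion]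
            exact ⟨x, Finset.mem_filter.mpr ⟨hx, hux⟩, mem_cells.mpr ⟨Finset.mem_compl.mpr hix, h⟩⟩
      · intro w hw _ _ t
        exact step_mom hk π K g hK c q hqm M lam α ξ ((4 + 12 / ζ) * δ (c u)) e₁ hM hlam hlam1 hα hξ u w X hX0 hXr hXc
          hsupp hXM (humax w hw) hXb (fun h => he₁ _ _ h (hc u)) t)
  exact ⟨f, hf⟩

end Pool.Agent.MP_dc7d7b.LS
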