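import Pool.Agent.Lib.MP_dc7d7b_co.LS.Blocked

set_option autoImplicit false

/-!
# Module StepBox: the available cells form a good set

PROOF.  `N = S.filter (G.Adj w ·) ⊆ nbp w`, `W = tyset t ⊆ fboard (K w) (g w) 1`.  The available cells in `W` are
`W \ blw`, so by `blw_le` and `hpot`
`|avail ∩ W| ≥ |W| - (∑ u ∈ nb0 w, |cells (K u) (g u) (π u w) ∩ W| - sav) - ∑ x ∈ N, budg x w W - L`.
`budg x w W ≤ [c x = c w] 2 M |W| / k + |fboard (K x) (g x) (π x w) ∩ W| / (k - |K x|) + (e₁ (c w) + e₂) k`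
(all terms are nonnegative; `k - |K x| > 0`).  Sum over `x ∈ N`: the number of `x` with `c x = c w` is at most
`Δ / m` (`hsame`), the second terms are at most the sum over `nbp w`, `|N| ≤ Δ`.  Also `nb0 w ⊆ nbp w`, so
`∑ u ∈ nb0 w, |cells ∩ W| + ∑ x ∈ nbp w, |fboard ∩ W| / (k - |K x|) ≤ ∑ u ∈ nbp w, zz (K u) (g u) (π u w) W`, and with `hbox`
`|avail ∩ W| ≥ |W| - (1 - 2 η) |W| - d k² - (Δ / m) 2 M |W| / k - Δ (e₁ (c w) + e₂) k - L`
`           ≥ 2 η |W| - η |W| - dd k²` by `hM` and `hdd`.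
-/

namespace Pool.Agent.MP_dc7d7b.LS

open Finset

variable {V : Type*} [Fintype V] [DecidableEq V] {k : ℕ} (G : SimpleGraph V) [DecidableRel G.Adj] (V0 : Finset V)
  (π : V → V → Equiv.Perm (Fin k)) (K : V → Finset (Fin k)) (g : V → Equiv.Perm (Fin k))

/-- The budget for the completed cells. -/
noncomputable def budg (c : V → ℕ) (M e₂ : ℝ) (e₁ : ℕ → ℝ) (u w : V) (W : Finset (Fin k × Fin k)) : ℝ :=
  if c u = c w then 2 * M * W.card / k + e₂ * k
  else ((fboard (K u) (g u) (π u w) ∩ W).card : ℝ) / ((k : ℝ) - (K u).card) + e₁ (c w) * k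

theorem step_box (hk : 0 < k) (hK : ∀ u, 2 * (K u).card ≤ k) {Δ m : ℕ} (hm : 0 < m) (c : V → ℕ)
    (M e₂ η d dd L : ℝ) (e₁ : ℕ → ℝ) (hM0 : 0 ≤ M) (he₂ : 0 ≤ e₂) (he₁ : ∀ n, 0 ≤ e₁ n)
    (hdeg : ∀ v, (univ.filter (fun w => G.Adj v w)).card ≤ Δ)
    (hsame : ∀ v, m * (univ.filter (fun w => G.Adj v w ∧ c w = c v)).card ≤ Δ)
    {p : ℕ} (w : V) (S : Finset V) (f : V → Equiv.Perm (Fin k))
    (hS : S.filter (fun x => G.Adj w x) ⊆ nbp G V0 w)
    (hpot : ∀ t : Ty k p, ∑ x ∈ S.filter (fun x => G.Adj w x),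
      ((comp (K x) (f x) (π x w) (tyset t) : ℝ) - budg π K g c M e₂ e₁ x w (tyset t)) ≤ L)
    (hbox : ∀ t : Ty k p, ∑ u ∈ nbp G V0 w, zz (K u) (g u) (π u w) (tyset t) - sav G V0 π K g w (tyset t) ≤
      (1 - 2 * η) * (tyset t).card + d * (k : ℝ) ^ 2)
    (hM : 2 * M * Δ ≤ η * m * k)
    (hdd : L + Δ * ((e₁ (c w) + e₂) * k) + d * (k : ℝ) ^ 2 ≤ dd * (k : ℝ) ^ 2) (t : Ty k p) :
    η * (tyset t).card - dd * (k : ℝ) ^ 2 ≤
      (((fboard (K w) (g w) 1 \ blw G V0 π K g w S f) ∩ tyset t).card : ℝ) +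
        ((tyset t \ fboard (K w) (g w) 1).card : ℝ) := by
  have hkR : (0 : ℝ) < (k : ℝ) := by exact_mod_cast hk
  have hmR : (0 : ℝ) < (m : ℝ) := by exact_mod_cast hm
  have hWR : (0 : ℝ) ≤ ((tyset t).card : ℝ) := Nat.cast_nonneg _
  have hnb0 : nb0 G V0 w ⊆ nbp G V0 w := by
    unfold nbp
    split_ifs
    · exact Finset.Subset.refl _
    · intro u hu
      unfold nb0 at hu
      rw [Finset.mem_filter] at hu
      exact Finset.mem_filter.mpr ⟨Finset.mem_univ _, hu.2⟩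
  have hden : ∀ u, (0 : ℝ) < (k : ℝ) - ((K u).card : ℝ) := by
    intro u
    have h1 : (2 : ℝ) * ((K u).card : ℝ) ≤ (k : ℝ) := by exact_mod_cast hK u
    linarith
  -- the cells outside the blocked cells
  have hcount : ((tyset t).card : ℝ) ≤ (((fboard (K w) (g w) 1 \ blw G V0 π K g w S f) ∩ tyset t).card : ℝ) +
      ((tyset t \ fboard (K w) (g w) 1).card : ℝ) + ((blw G V0 π K g w S f ∩ tyset t).card : ℝ) := by
    have h1 : tyset t ⊆ ((fboard (K w) (g w) 1 \ blw G V0 π K g w S f) ∩ tyset t ∪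
        (tyset t \ fboard (K w) (g w) 1)) ∪ (blw G V0 π K g w S f ∩ tyset t) := by
      intro e he
      rw [Finset.mem_union, Finset.mem_union, Finset.mem_inter, Finset.mem_sdiff, Finset.mem_sdiff, Finset.mem_inter]
      by_cases h2 : e ∈ blw G V0 π K g w S f
      · exact Or.inr ⟨h2, he⟩
      · by_cases h3 : e ∈ fboard (K w) (g w) 1
        · exact Or.inl (Or.inl ⟨⟨h3, h2⟩, he⟩)
        · exact Or.inl (Or.inr ⟨he, h3⟩)
    have h2 := le_trans (Finset.card_le_card h1) (Finset.card_union_le _ _)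
    have h3 := le_trans h2 (Nat.add_le_add_right (Finset.card_union_le _ _) _)
    exact_mod_cast h3
  have hblw := blw_le G V0 π K g w S f (tyset t)
  -- completed cells
  have hN1 : ∑ x ∈ S.filter (fun x => G.Adj w x), (comp (K x) (f x) (π x w) (tyset t) : ℝ) ≤
      ∑ x ∈ S.filter (fun x => G.Adj w x), budg π K g c M e₂ e₁ x w (tyset t) + L := by
    have h1 := hpot t
    rw [Finset.sum_sub_distrib] at h1
    linarith
  have hA0 : (0 : ℝ) ≤ 2 * M * ((tyset t).card : ℝ) / k := by positivity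
  have hN2 : ∑ x ∈ S.filter (fun x => G.Adj w x), budg π K g c M e₂ e₁ x w (tyset t) ≤
      ∑ x ∈ S.filter (fun x => G.Adj w x), ((if c x = c w then 2 * M * ((tyset t).card : ℝ) / k else 0) +
        (((fboard (K x) (g x) (π x w) ∩ tyset t).card : ℝ) / ((k : ℝ) - (K x).card)) +
        (e₁ (c w) + e₂) * k) := by
    refine Finset.sum_le_sum (fun x _ => ?_)
    have h1 : (0 : ℝ) ≤ ((fboard (K x) (g x) (π x w) ∩ tyset t).card : ℝ) / ((k : ℝ) - (K x).card) :=
      div_nonneg (Nat.cast_nonneg _) (hden x).le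
    have h2 : (0 : ℝ) ≤ e₁ (c w) * k := mul_nonneg (he₁ _) hkR.le
    have h3 : (0 : ℝ) ≤ e₂ * k := mul_nonneg he₂ hkR.le
    unfold budg
    split_ifs with hc
    · nlinarith
    · nlinarith
  have hN3 : ∑ x ∈ S.filter (fun x => G.Adj w x), ((if c x = c w then 2 * M * ((tyset t).card : ℝ) / k else 0) +
        (((fboard (K x) (g x) (π x w) ∩ tyset t).card : ℝ) / ((k : ℝ) - (K x).card)) +
        (e₁ (c w) + e₂) * k) ≤ η * ((tyset t).card : ℝ) +
        ∑ x ∈ nbp G V0 w, (((fboard (K x) (g x) (π x w) ∩ tyset t).card : ℝ) / ((k : ℝ) - (K x).card)) +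
        Δ * ((e₁ (c w) + e₂) * k) := by
    rw [Finset.sum_add_distrib, Finset.sum_add_distrib]
    have h1 : ∑ x ∈ S.filter (fun x => G.Adj w x), (if c x = c w then 2 * M * ((tyset t).card : ℝ) / k else 0) ≤
        η * ((tyset t).card : ℝ) := by
      rw [← Finset.sum_filter, Finset.sum_const, nsmul_eq_mul]
      have h11 : (((S.filter (fun x => G.Adj w x)).filter (fun x => c x = c w)).card : ℝ) * m ≤ Δ := by
        have h12 : ((S.filter (fun x => G.Adj w x)).filter (fun x => c x = c w)).card ≤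
            (univ.filter (fun x => G.Adj w x ∧ c x = c w)).card := by
          refine Finset.card_le_card ?_
          intro x hx
          rw [Finset.mem_filter, Finset.mem_filter] at hx
          exact Finset.mem_filter.mpr ⟨Finset.mem_univ _, hx.1.2, hx.2⟩
        have h13 : ((S.filter (fun x => G.Adj w x)).filter (fun x => c x = c w)).card * m ≤ Δ := by
          rw [mul_comm]
          exact le_trans (Nat.mul_le_mul_left m h12) (hsame w)
        exact_mod_cast h13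
      have h14 : (((S.filter (fun x => G.Adj w x)).filter (fun x => c x = c w)).card : ℝ) ≤ Δ / m := by
        rw [le_div_iff₀ hmR]
        exact h11
      refine le_trans (mul_le_mul_of_nonneg_right h14 hA0) ?_
      have h15 : (Δ : ℝ) / m * (2 * M * ((tyset t).card : ℝ) / k) = (2 * M * Δ) / (m * k) * ((tyset t).card : ℝ) := by
        field_simp
      rw [h15]
      refine mul_le_mul_of_nonneg_right ?_ hWR
      rw [div_le_iff₀ (mul_pos hmR hkR)]
      linarith
    have h2 : ∑ x ∈ S.filter (fun x => G.Adj w x),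
        (((fboard (K x) (g x) (π x w) ∩ tyset t).card : ℝ) / ((k : ℝ) - (K x).card)) ≤
        ∑ x ∈ nbp G V0 w, (((fboard (K x) (g x) (π x w) ∩ tyset t).card : ℝ) / ((k : ℝ) - (K x).card)) := by
      refine Finset.sum_le_sum_of_subset_of_nonneg hS (fun x _ _ => ?_)
      exact div_nonneg (Nat.cast_nonneg _) (hden x).le
    have h3 : ∑ x ∈ S.filter (fun x => G.Adj w x), ((e₁ (c w) + e₂) * (k : ℝ)) ≤ Δ * ((e₁ (c w) + e₂) * k) := by
      rw [Finset.sum_const, nsmul_eq_mul]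
      refine mul_le_mul_of_nonneg_right ?_ (mul_nonneg (add_nonneg (he₁ _) he₂) hkR.le)
      have h31 : (S.filter (fun x => G.Adj w x)).card ≤ Δ := by
        refine le_trans (Finset.card_le_card ?_) (hdeg w)
        intro x hx
        exact Finset.mem_filter.mpr ⟨Finset.mem_univ _, (Finset.mem_filter.mp hx).2⟩
      exact_mod_cast h31
    linarith
  -- kept cells
  have hcells : ∑ u ∈ nb0 G V0 w, ((cells (K u) (g u) (π u w) ∩ tyset t).card : ℝ) ≤
      ∑ u ∈ nbp G V0 w, ((cells (K u) (g u) (π u w) ∩ tyset t).card : ℝ) :=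
    Finset.sum_le_sum_of_subset_of_nonneg hnb0 (fun x _ _ => Nat.cast_nonneg _)
  have hzz : ∑ u ∈ nbp G V0 w, zz (K u) (g u) (π u w) (tyset t) =
      ∑ u ∈ nbp G V0 w, ((cells (K u) (g u) (π u w) ∩ tyset t).card : ℝ) +
      ∑ x ∈ nbp G V0 w, (((fboard (K x) (g x) (π x w) ∩ tyset t).card : ℝ) / ((k : ℝ) - (K x).card)) := by
    rw [← Finset.sum_add_distrib]
    rfl
  have hb := hbox t
  rw [hzz] at hb
  linarith

end Pool.Agent.MP_dc7d7b.LS
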